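import Pool.Agent.Work.MP_d7cff0_as.Interface

set_option autoImplicit false

noncomputable section

namespace Pool.Agent.Work.MP_d7cff0_an.AS

open MeasureTheory AddCircle Filter Topology Finset Polynomial
open scoped ENNReal

theorem p_ALO : Stmt_ALO := by
  intro T _ p _ Λ hp1 hp' hLo
  obtain ⟨F, hF, hpos, hle⟩ := hLo
  set β : ℝ := ‖bshift (T := T) (p := p)‖ with hβ
  have hβ0 : 0 ≤ β := ContinuousLinearMap.opNorm_nonneg _
  have hp0 : 0 ≤ p.toReal := ENNReal.toReal_nonneg
  rw [Mstar_hardy hp1 hp']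
  have h1 := (boundsH_bshift (T := T) (p := p)).disc F hF
  have h2 : ‖tl p (F - mean F • (1 : C(AddCircle T, ℂ)))‖ ^ p.toReal ≤
      (β * ‖tl p F‖) ^ p.toReal := Real.rpow_le_rpow (norm_nonneg _) h1 hp0
  rw [Real.mul_rpow hβ0 (norm_nonneg _), norm_tl_rpow hp1 hp', norm_tl_rpow hp1 hp'] at h2
  have h3 : ∀ t, (F - mean F • (1 : C(AddCircle T, ℂ))) t = F t - mean F := by
    intro t
    simp only [ContinuousMap.sub_apply, ContinuousMap.smul_apply, ContinuousMap.one_apply,
      smul_eq_mul, mul_one]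
  simp only [h3] at h2
  exact le_of_mul_le_mul_right (hle.trans h2) hpos

end Pool.Agent.Work.MP_d7cff0_an.AS
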