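import Pool.Agent.Work.MP_d7cff0_as.Interface

set_option autoImplicit false

noncomputable section

namespace Pool.Agent.Work.MP_d7cff0_an.AS

open MeasureTheory AddCircle Filter Topology Finset Polynomial
open scoped ENNReal

/-- The inequality for one polynomial. -/
theorem AUP_key (T : ℝ) [Fact (0 < T)] (p : ℝ≥0∞) [Fact (1 ≤ p)] (Λ : ℝ) (hp1 : 1 < p)
    (hp' : p ≠ ⊤) (hΛ : 1 ≤ Λ) (hUp : UpI T p.toReal Λ) (P : ℂ[X]) :
    ‖pl T p P - P.eval 0 • one' T p‖ ^ p.toReal ≤ Λ * ‖pl T p P‖ ^ p.toReal := by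
  set c : ℂ := P.eval 0 with hc
  set H : ℂ[X] := P - C c with hH
  have hgoal : pl T p P - c • one' T p = pl T p H := by
    have : P = monomial 0 c + H := by rw [hH, monomial_zero_left]; ring
    rw [this, pl_add, pl_monomial]; simp
  rw [hgoal]
  by_cases h0 : c = 0
  · have e : H = P := by rw [hH, h0]; simp
    rw [e]
    exact le_mul_of_one_le_left (Real.rpow_nonneg (norm_nonneg _) _) hΛ
  · have n1 := norm_pl_rpow (T := T) hp1 hp' H
    have n2 := norm_pl_rpow (T := T) hp1 hp' P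
    rw [n1, n2]
    have h1 := hUp (C c⁻¹ * P) (by rw [eval_mul, eval_C, ← hc]; exact inv_mul_cancel₀ h0)
    unfold cI at h1
    have e1 : ∀ t : AddCircle T, ‖(C c⁻¹ * P).eval (fourier (T := T) 1 t) - 1‖ ^ p.toReal =
        ‖c⁻¹‖ ^ p.toReal * ‖H.eval (fourier (T := T) 1 t)‖ ^ p.toReal := by
      intro t
      rw [← Real.mul_rpow (norm_nonneg _) (norm_nonneg _), ← norm_mul, eval_mul, eval_C, hH,
        eval_sub, eval_C, mul_sub, inv_mul_cancel₀ h0]
    have e2 : ∀ t : AddCircle T, ‖(C c⁻¹ * P).eval (fourier (T := T) 1 t)‖ ^ p.toReal =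
        ‖c⁻¹‖ ^ p.toReal * ‖P.eval (fourier (T := T) 1 t)‖ ^ p.toReal := by
      intro t
      rw [← Real.mul_rpow (norm_nonneg _) (norm_nonneg _), ← norm_mul, eval_mul, eval_C]
    simp only [e1, e2] at h1
    rw [integral_const_mul, integral_const_mul, mul_left_comm] at h1
    have hpos : 0 < ‖c⁻¹‖ ^ p.toReal :=
      Real.rpow_pos_of_pos (norm_pos_iff.mpr (inv_ne_zero h0)) _
    exact le_of_mul_le_mul_left h1 hpos

theorem p_AUP : Stmt_AUP := by
  intro T _ p _ Λ hp1 hp' hΛ hUp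
  have hq : 0 < p.toReal := toReal_pos' hp1 hp'
  have hΛ0 : 0 ≤ Λ := zero_le_one.trans hΛ
  set β : ℝ := Λ ^ (1 / p.toReal) with hβ
  have hβ0 : 0 ≤ β := Real.rpow_nonneg hΛ0 _
  have hβq : β ^ p.toReal = Λ := by
    rw [hβ, ← Real.rpow_mul hΛ0, one_div, inv_mul_cancel₀ hq.ne', Real.rpow_one]
  have hb : BoundsH T p β := by
    refine BoundsH.of_pl hp' fun P => ?_
    have h1 := AUP_key T p Λ hp1 hp' hΛ hUp P
    rw [← hβq, ← Real.mul_rpow hβ0 (norm_nonneg _)] at h1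
    exact (Real.rpow_le_rpow_iff (norm_nonneg _) (mul_nonneg hβ0 (norm_nonneg _)) hq).1 h1
  have h2 : ‖bshift (T := T) (p := p)‖ ≤ β := norm_bshift_le hβ0 hb
  rw [Mstar_hardy hp1 hp', ← hβq]
  exact Real.rpow_le_rpow (ContinuousLinearMap.opNorm_nonneg _) h2 hq.le

end Pool.Agent.Work.MP_d7cff0_an.AS
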