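import Pool.Agent.Work.MP_d7cff0_as.Interface

set_option autoImplicit false

noncomputable section

namespace Pool.Agent.Work.MP_d7cff0_an.AS

open MeasureTheory AddCircle Filter Topology Finset Polynomial
open scoped ENNReal

theorem BE_pos (m : ℕ) : 0 < be m := by
  have : 0 < (2 * m).choose m := Nat.choose_pos (by omega)
  unfold be
  positivity

theorem BE_sq (m : ℕ) : be m ^ 2 * Real.Wallis.W m * (2 * m + 1) = 1 := by
  rw [Real.Wallis.W_eq_factorial_ratio]
  have h1 : ((2 * m).choose m : ℝ) = ((2 * m).factorial : ℝ) / ((m.factorial : ℝ) * m.factorial) := by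
    rw [Nat.choose_eq_factorial_div_factorial (by omega : m ≤ 2 * m)]
    have e : 2 * m - m = m := by omega
    rw [e, Nat.cast_div]
    · push_cast; ring
    · have := Nat.factorial_mul_factorial_dvd_factorial (by omega : m ≤ 2 * m)
      rwa [e] at this
    · have := Nat.factorial_pos m
      positivity
  unfold be
  rw [h1]
  have hm : (m.factorial : ℝ) ≠ 0 := by exact_mod_cast (Nat.factorial_pos m).ne'
  have h2m : ((2 * m).factorial : ℝ) ≠ 0 := by exact_mod_cast (Nat.factorial_pos (2 * m)).ne'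
  have h4 : (4 : ℝ) ^ m ≠ 0 := by positivity
  have h5 : (2 : ℝ) ^ (4 * m) = (4 ^ m) ^ 2 := by
    rw [← pow_mul, show (4 : ℝ) = 2 ^ 2 by norm_num, ← pow_mul]
    congr 1
    ring
  rw [h5]
  have h6 : (2 * (m : ℝ) + 1) ≠ 0 := by positivity
  field_simp

theorem p_BE : Stmt_BE := by
  intro m hm
  have hm' : (1 : ℝ) ≤ m := by exact_mod_cast hm
  have hb := BE_pos m
  have hs := BE_sq m
  have hW := Real.Wallis.W_pos m
  have h1 := Real.Wallis.W_le m
  have h2 := Real.Wallis.le_W m
  have hpi := Real.pi_pos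
  constructor
  · rw [div_le_iff₀ (by positivity)]
    have h3 : (1 : ℝ) ≤ (be m * √(Real.pi * (m + 1 / 2))) ^ 2 := by
      rw [mul_pow, Real.sq_sqrt (by positivity)]
      rw [← hs]
      have : be m ^ 2 * Real.Wallis.W m * (2 * m + 1) ≤ be m ^ 2 * (Real.pi / 2) * (2 * m + 1) := by
        gcongr
      nlinarith
    have h4 : (0 : ℝ) ≤ be m * √(Real.pi * (m + 1 / 2)) := by positivity
    nlinarith
  · rw [le_div_iff₀ (by positivity)]
    have h3 : (be m * √(Real.pi * m)) ^ 2 ≤ 1 := by
      rw [mul_pow, Real.sq_sqrt (by positivity)]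
      have h5 : be m ^ 2 * ((2 * (m : ℝ) + 1) / (2 * m + 2) * (Real.pi / 2)) * (2 * m + 1) ≤ 1 := by
        refine le_trans ?_ hs.le
        gcongr
      have h6 : be m ^ 2 * (Real.pi * m) ≤
          be m ^ 2 * ((2 * (m : ℝ) + 1) / (2 * m + 2) * (Real.pi / 2)) * (2 * m + 1) := by
        have h7 : Real.pi * m ≤ ((2 * (m : ℝ) + 1) / (2 * m + 2) * (Real.pi / 2)) * (2 * m + 1) := by
          have e : ((2 * (m : ℝ) + 1) / (2 * m + 2) * (Real.pi / 2)) * (2 * m + 1) =
              Real.pi * ((2 * (m : ℝ) + 1) ^ 2 / (4 * (m + 1))) := by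
            field_simp
            ring
          rw [e]
          gcongr
          rw [le_div_iff₀ (by positivity)]
          nlinarith
        calc be m ^ 2 * (Real.pi * m) ≤ be m ^ 2 * (((2 * (m : ℝ) + 1) / (2 * m + 2) * (Real.pi / 2)) * (2 * m + 1)) := by
              gcongr
          _ = _ := by ring
      linarith
    have h4 : (0 : ℝ) ≤ be m * √(Real.pi * m) := by positivity
    nlinarith

end Pool.Agent.Work.MP_d7cff0_an.AS
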