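import Pool.Agent.Work.MP_d7cff0_as.Interface

set_option autoImplicit false

noncomputable section

namespace Pool.Agent.Work.MP_d7cff0_an.AS

open MeasureTheory AddCircle Filter Topology Finset Polynomial
open scoped ENNReal

theorem EX_large (ε : ℝ) (hε : 0 < ε) :
    ∃ p₀ : ℝ, ∀ p : ℝ, p₀ ≤ p → 1 ≤ p ∧ 1 ≤ X0 p ∧ X0 p ≤ ε * p := by
  have h1 : Tendsto (fun p : ℝ => X0 p) atTop atTop := by
    unfold X0
    exact tendsto_atTop_add_const_right _ _
      (Real.tendsto_log_atTop.const_mul_atTop (by norm_num : (0:ℝ) < 3 / 2))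
  have h2 : (fun p : ℝ => X0 p) =o[atTop] (fun p : ℝ => p) := by
    unfold X0
    refine Asymptotics.IsLittleO.add (Asymptotics.IsLittleO.const_mul_left
      Real.isLittleO_log_id_atTop _) ?_
    exact Asymptotics.isLittleO_const_id_atTop _
  have h3 := h2.bound hε
  have h4 := ((eventually_ge_atTop (1:ℝ)).and ((h1.eventually_ge_atTop 1).and h3))
  obtain ⟨p₀, hp₀⟩ := eventually_atTop.1 h4
  refine ⟨p₀, fun p hp => ?_⟩
  obtain ⟨a, b, c⟩ := hp₀ p hp
  refine ⟨a, b, ?_⟩
  rw [Real.norm_of_nonneg (by linarith), Real.norm_of_nonneg (by linarith)] at c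
  exact c

theorem EX_exp (ε τ : ℝ) (hτ : 0 ≤ τ) (hτε : τ ≤ ε) (hε4 : ε < 1 / 4) :
    Real.exp (-τ) ≤ 1 - (1 - ε) * τ := by
  have h : Real.exp (-τ) ≤ 1 - τ + τ ^ 2 := by
    have := Real.abs_exp_sub_one_sub_id_le (x := -τ) (by rw [abs_neg, abs_of_nonneg hτ]; linarith)
    have h2 := (abs_le.1 this).2
    nlinarith
  nlinarith

theorem p_EX : Stmt_EX := by
  intro ε hε hε4
  obtain ⟨p₀, hp₀⟩ := EX_large ε hε
  refine ⟨p₀, fun p hp y hy0 hy1 => ?_⟩
  obtain ⟨hp1, hX1, hXp⟩ := hp₀ p hp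
  set X := X0 p with hX
  set m := m0 p with hm
  have hXpos : 0 < X := by linarith
  have hm1 : p / X - 1 < m := by
    have := Nat.lt_floor_add_one (p / X)
    rw [hm]; unfold m0; rw [← hX]; linarith
  have hmX : p - X ≤ X * m := by
    have : (p / X - 1) * X ≤ m * X := mul_le_mul_of_nonneg_right hm1.le hXpos.le
    rw [sub_mul, div_mul_cancel₀ _ hXpos.ne', one_mul] at this
    linarith
  have h1y : 0 ≤ 1 - y := by linarith
  have hσ0 : 0 ≤ (1 - y) ^ m := pow_nonneg h1y _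
  have hA : 0 ≤ Real.exp X * (1 - y) ^ ⌊(1 - 2 * ε) * p⌋₊ := by positivity
  have hB : 0 ≤ 2 * Real.exp (X * Real.exp (-ε)) * (1 - y) ^ m := by positivity
  by_cases hc : Real.exp (-ε) ≤ (1 - y) ^ m
  · have hmne : m ≠ 0 := by
      intro h0
      rw [h0] at hmX
      simp only [Nat.cast_zero, mul_zero] at hmX
      nlinarith
    have hy : 0 < 1 - y := by
      rcases h1y.lt_or_eq with h | h
      · exact h
      · exfalso
        rw [← h, zero_pow hmne] at hc
        exact absurd hc (not_le.2 (Real.exp_pos _))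
    set l := Real.log (1 - y) with hl
    have hl0 : l ≤ 0 := Real.log_nonpos h1y (by linarith)
    have hpow : ∀ j : ℕ, (1 - y) ^ j = Real.exp (j * l) := by
      intro j
      rw [hl, mul_comm, Real.exp_mul, Real.exp_log hy, Real.rpow_natCast]
    have hml : -ε ≤ m * l := by
      rw [hpow m, Real.exp_le_exp] at hc
      exact hc
    have hml0 : (m:ℝ) * l ≤ 0 := mul_nonpos_of_nonneg_of_nonpos (Nat.cast_nonneg _) hl0
    have h1 : (1 - y) ^ m ≤ 1 - (1 - ε) * (-(m * l)) := by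
      have := EX_exp ε (-(m * l)) (by linarith) (by linarith) hε4
      rw [neg_neg] at this
      rw [hpow m]
      exact this
    have hk : ((⌊(1 - 2 * ε) * p⌋₊ : ℕ) : ℝ) ≤ (1 - ε) * (p - X) := by
      have h2 : ((⌊(1 - 2 * ε) * p⌋₊ : ℕ) : ℝ) ≤ (1 - 2 * ε) * p :=
        Nat.floor_le (mul_nonneg (by linarith) (by linarith))
      nlinarith
    have h3 : X * (1 - y) ^ m ≤ X + (⌊(1 - 2 * ε) * p⌋₊ : ℕ) * l := by
      have h4 : X * (1 - y) ^ m ≤ X * (1 - (1 - ε) * (-(m * l))) :=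
        mul_le_mul_of_nonneg_left h1 hXpos.le
      have h5 : X * (1 - (1 - ε) * (-(m * l))) = X + (1 - ε) * ((X * m) * l) := by ring
      have h6 : (X * m) * l ≤ (p - X) * l := mul_le_mul_of_nonpos_right hmX hl0
      have h7 : (1 - ε) * ((X * m) * l) ≤ (1 - ε) * ((p - X) * l) :=
        mul_le_mul_of_nonneg_left h6 (by linarith)
      have h8 : ((1 - ε) * (p - X)) * l ≤ (⌊(1 - 2 * ε) * p⌋₊ : ℕ) * l :=
        mul_le_mul_of_nonpos_right hk hl0
      linarith
    have h9 : Real.exp (X * (1 - y) ^ m) ≤ Real.exp X * (1 - y) ^ ⌊(1 - 2 * ε) * p⌋₊ := by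
      rw [hpow ⌊(1 - 2 * ε) * p⌋₊, ← Real.exp_add]
      exact Real.exp_le_exp.2 h3
    linarith
  · rw [not_le] at hc
    set σ := (1 - y) ^ m with hσ
    set s := Real.exp (-ε) with hs
    have hs0 : 0 < s := Real.exp_pos _
    have ha : 0 ≤ 1 - σ / s := by rw [sub_nonneg, div_le_one hs0]; exact hc.le
    have hb : 0 ≤ σ / s := div_nonneg hσ0 hs0.le
    have hab : (1 - σ / s) + σ / s = 1 := by ring
    have hconv := convexOn_exp.2 (Set.mem_univ (0:ℝ)) (Set.mem_univ (X * s)) ha hb hab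
    simp only [smul_eq_mul, mul_zero, zero_add, Real.exp_zero, mul_one] at hconv
    have h10 : σ / s * (X * s) = X * σ := by field_simp
    rw [h10] at hconv
    have hs2 : 1 / s ≤ 2 := by
      rw [hs, one_div, ← Real.exp_neg, neg_neg]
      have h11 := Real.exp_bound_div_one_sub_of_interval hε.le (by linarith : ε < 1)
      refine h11.trans ?_
      rw [div_le_iff₀ (by linarith)]
      linarith
    have h12 : σ / s ≤ 2 * σ := by
      have := mul_le_mul_of_nonneg_left hs2 hσ0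
      rw [mul_one_div] at this
      linarith
    have h13 : σ / s * Real.exp (X * s) ≤ 2 * σ * Real.exp (X * s) :=
      mul_le_mul_of_nonneg_right h12 (Real.exp_pos _).le
    have h14 : 0 ≤ σ / s := div_nonneg hσ0 hs0.le
    have h15 : 2 * σ * Real.exp (X * s) = 2 * Real.exp (X * s) * σ := by ring
    linarith

end Pool.Agent.Work.MP_d7cff0_an.AS
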