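import Pool.Agent.Work.MP_d7cff0_as.Interface

set_option autoImplicit false

noncomputable section

namespace Pool.Agent.Work.MP_d7cff0_an.AS

open MeasureTheory AddCircle Filter Topology Finset Polynomial
open scoped ENNReal

/-- geometry -/
theorem FL_geo (u z : ℂ) (δ R f y : ℝ) (hu : ‖u‖ = 1) (hz : ‖z‖ ≤ δ) (hδ : δ ≤ 1 / 2) (hR : 0 < R)
    (hf : 1 ≤ f) (hy : y = (1 + u.re) / 2) (hx : (√y + 2 * δ) ^ 2 ≤ 1) :
    4 * R * (1 + z.re) * (1 - (√y + 2 * δ) ^ 2) ≤ ‖(R : ℂ) * u * (1 + z) - (f : ℂ)‖ ^ 2 := by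
  set ρ : ℝ := ‖1 + z‖ with hρ
  set v : ℂ := u * (1 + z) with hv
  have hδ0 : 0 ≤ δ := (norm_nonneg z).trans hz
  have hρ1 : 1 / 2 ≤ ρ := by
    have h := norm_sub_norm_le (1 : ℂ) (-z)
    rw [sub_neg_eq_add, norm_neg, norm_one] at h
    linarith
  have hvn : ‖v‖ = ρ := by rw [hv, norm_mul, hu, one_mul]
  have hre : 1 + z.re ≤ ρ := by
    have h := Complex.re_le_norm (1 + z)
    simpa using h
  have huu : u.re * u.re + u.im * u.im = 1 := by
    rw [← Complex.normSq_apply, Complex.normSq_eq_norm_sq, hu, one_pow]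
  have hy0 : 0 ≤ y := by
    have h1 : -1 ≤ u.re := by
      have := (abs_le.1 (Complex.abs_re_le_norm u)).1
      rwa [hu] at this
    rw [hy]; linarith
  have hs0 : 0 ≤ √y := Real.sqrt_nonneg y
  have hu1 : ‖u + 1‖ = 2 * √y := by
    have h1 : ‖u + 1‖ ^ 2 = (2 * √y) ^ 2 := by
      rw [mul_pow, Real.sq_sqrt hy0, ← Complex.normSq_eq_norm_sq, Complex.normSq_apply]
      simp only [Complex.add_re, Complex.one_re, Complex.add_im, Complex.one_im]
      rw [hy]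
      linear_combination huu
    exact (pow_left_inj₀ (norm_nonneg _) (by positivity) two_ne_zero).1 h1
  have hh : ‖v + (ρ : ℂ)‖ ≤ ρ * (2 * √y + 4 * δ) := by
    have h1 : v + (ρ : ℂ) = (u + 1) * (1 + z) + ((ρ : ℂ) - 1 - z) := by rw [hv]; ring
    have h2 : ‖(ρ : ℂ) - 1 - z‖ ≤ 2 * δ := by
      have h3 : |ρ - 1| ≤ ‖z‖ := by
        have := abs_norm_sub_norm_le (1 + z) 1
        simpa [hρ] using this
      have h4 : ‖(ρ : ℂ) - 1‖ = |ρ - 1| := by
        rw [← Complex.ofReal_one, ← Complex.ofReal_sub, Complex.norm_real, Real.norm_eq_abs]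
      have h5 := norm_sub_le ((ρ : ℂ) - 1) z
      linarith
    have h6 := norm_add_le ((u + 1) * (1 + z)) ((ρ : ℂ) - 1 - z)
    rw [← h1, norm_mul, hu1] at h6
    nlinarith
  have hsq : ‖v + (ρ : ℂ)‖ ^ 2 = 2 * ρ * (ρ + v.re) := by
    have h1 : v.re * v.re + v.im * v.im = ρ ^ 2 := by
      rw [← hvn, ← Complex.normSq_eq_norm_sq, Complex.normSq_apply]
    rw [← Complex.normSq_eq_norm_sq, Complex.normSq_apply]
    simp only [Complex.add_re, Complex.ofReal_re, Complex.add_im, Complex.ofReal_im]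
    linear_combination h1
  have hre2 : ρ + v.re ≤ 2 * ρ * (√y + 2 * δ) ^ 2 := by
    have h1 : ‖v + (ρ : ℂ)‖ ^ 2 ≤ (ρ * (2 * √y + 4 * δ)) ^ 2 :=
      pow_le_pow_left₀ (norm_nonneg _) hh 2
    rw [hsq] at h1
    have h2 : 2 * ρ * (ρ + v.re) ≤ 2 * ρ * (2 * ρ * (√y + 2 * δ) ^ 2) := by
      refine h1.trans (le_of_eq ?_)
      ring
    exact le_of_mul_le_mul_left h2 (by linarith)
  have hF : ‖(R : ℂ) * u * (1 + z) - (f : ℂ)‖ ^ 2 =
      (f - R * ρ) ^ 2 + 2 * f * R * (ρ - v.re) := by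
    have h1 : v.re * v.re + v.im * v.im = ρ ^ 2 := by
      rw [← hvn, ← Complex.normSq_eq_norm_sq, Complex.normSq_apply]
    have h0 : (R : ℂ) * u * (1 + z) = (R : ℂ) * v := by rw [hv]; ring
    rw [h0, ← Complex.normSq_eq_norm_sq, Complex.normSq_apply]
    simp only [Complex.sub_re, Complex.sub_im, Complex.ofReal_re, Complex.ofReal_im,
      Complex.re_ofReal_mul, Complex.im_ofReal_mul]
    linear_combination R ^ 2 * h1
  rw [hF]
  set x : ℝ := (√y + 2 * δ) ^ 2 with hx'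
  have h1 : 2 * ρ * (1 - x) ≤ ρ - v.re := by linarith
  have h2 : 0 ≤ 1 - x := by linarith
  have h3 : 2 * R * (2 * ρ * (1 - x)) ≤ 2 * f * R * (ρ - v.re) := by
    have h4 : 0 ≤ 2 * ρ * (1 - x) := by positivity
    have h5 : 2 * R * (2 * ρ * (1 - x)) ≤ 2 * f * R * (2 * ρ * (1 - x)) := by
      apply mul_le_mul_of_nonneg_right _ h4
      nlinarith
    exact h5.trans (mul_le_mul_of_nonneg_left h1 (by positivity))
  have h6 : 4 * R * (1 + z.re) * (1 - x) ≤ 4 * R * ρ * (1 - x) := by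
    apply mul_le_mul_of_nonneg_right _ h2
    exact mul_le_mul_of_nonneg_left hre (by positivity)
  nlinarith [sq_nonneg (f - R * ρ)]

theorem FL_exp1 (x : ℝ) (h0 : 0 ≤ x) (h1 : x ≤ 1 / 2) : Real.exp (-x - x ^ 2) ≤ 1 - x := by
  have h2 : 0 ≤ x + x ^ 2 := by positivity
  have h3 := Real.quadratic_le_exp_of_nonneg h2
  have h4 : 0 < 1 - x := by linarith
  have h5 : 1 ≤ (1 - x) * Real.exp (x + x ^ 2) := by
    refine le_trans ?_ (mul_le_mul_of_nonneg_left h3 h4.le)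
    have h6 : 0 ≤ 1 - x - x ^ 2 - x ^ 3 := by nlinarith [mul_nonneg h0 h0, mul_nonneg (mul_nonneg h0 h0) h0]
    nlinarith [mul_nonneg (sq_nonneg x) h6]
  have h7 : -x - x ^ 2 = -(x + x ^ 2) := by ring
  rw [h7, Real.exp_neg, inv_le_iff_one_le_mul₀ (Real.exp_pos _)]
  exact h5

theorem FL_exp2 (t : ℝ) (h1 : -(1 / 2) ≤ t) : Real.exp (t - t ^ 2) ≤ 1 + t := by
  rcases le_total 0 t with h | h
  · have h3 : t ^ 2 - t + 1 ≤ Real.exp (t ^ 2 - t) := Real.add_one_le_exp _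
    have h7 : t - t ^ 2 = -(t ^ 2 - t) := by ring
    rw [h7, Real.exp_neg, inv_le_iff_one_le_mul₀ (Real.exp_pos _)]
    refine le_trans ?_ (mul_le_mul_of_nonneg_left h3 (by linarith))
    nlinarith [pow_nonneg h 3]
  · have h3 := FL_exp1 (-t) (by linarith) (by linarith)
    have h4 : -(-t) - (-t) ^ 2 = t - t ^ 2 := by ring
    rw [h4] at h3
    linarith

/-- the numbers -/
theorem FL_num (ε y δ p : ℝ) (hε : 0 < ε) (hε4 : ε < 1 / 4) (hy0 : 0 ≤ y) (hy : y ≤ ε / 32)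
    (hδ0 : 0 ≤ δ) (hδ : δ ≤ ε / 16) (hp : 0 < p) (hpδ : p * δ ^ 2 ≤ ε ^ 2 / 21) :
    (√y + 2 * δ) ^ 2 ≤ 1 / 2 ∧
    p / 2 * (y + (δ - y) ^ 2 + (√y + 2 * δ) ^ 2 + ((√y + 2 * δ) ^ 2) ^ 2) ≤
      (1 + ε) * p * y + ε := by
  set s := √y with hs
  have hs0 : 0 ≤ s := Real.sqrt_nonneg y
  have hsy : s ^ 2 = y := Real.sq_sqrt hy0
  set x := (s + 2 * δ) ^ 2 with hx
  have hd2 : δ ^ 2 ≤ ε / 16 * (1 / 64) := by nlinarith
  have hx1 : x ≤ 2 * y + 8 * δ ^ 2 := by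
    rw [hx, ← hsy]; nlinarith [sq_nonneg (s - 2 * δ)]
  have hx8 : x ≤ ε / 8 := by linarith
  have hx0 : 0 ≤ x := by positivity
  have hE : 4 * s * δ ≤ ε / 4 * y + 16 / ε * δ ^ 2 := by
    have h1 := sq_nonneg (ε * s / 2 - 4 * δ)
    have h2 : ε * (4 * s * δ) ≤ ε * (ε / 4 * y + 16 / ε * δ ^ 2) := by
      have h3 : ε * (ε / 4 * y + 16 / ε * δ ^ 2) = ε ^ 2 / 4 * y + 16 * δ ^ 2 := by
        field_simp
      rw [h3, ← hsy]
      nlinarith
    exact le_of_mul_le_mul_left h2 hε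
  have hxE : x ≤ (1 + ε / 4) * y + (4 + 16 / ε) * δ ^ 2 := by
    have h1 : x = y + 4 * s * δ + 4 * δ ^ 2 := by rw [hx, ← hsy]; ring
    rw [h1]; linarith
  have hD : 0 ≤ (4 + 16 / ε) * δ ^ 2 := by positivity
  have hxx : x ^ 2 ≤ ε / 4 * y + (4 + 16 / ε) * δ ^ 2 := by
    have h1 : x ^ 2 ≤ ε / 8 * x := by nlinarith
    have h2 : ε / 8 * x ≤ ε / 8 * ((1 + ε / 4) * y + (4 + 16 / ε) * δ ^ 2) :=
      mul_le_mul_of_nonneg_left hxE (by positivity)
    have h3 : ε / 8 * ((1 + ε / 4) * y) ≤ ε / 4 * y := by nlinarith [mul_nonneg hε.le hy0]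
    have h4 : ε / 8 * ((4 + 16 / ε) * δ ^ 2) ≤ (4 + 16 / ε) * δ ^ 2 := by nlinarith
    linarith
  have hdy : (δ - y) ^ 2 ≤ 2 * δ ^ 2 + ε / 4 * y := by
    nlinarith [sq_nonneg (δ + y), mul_nonneg hy0 (sub_nonneg.2 hy)]
  refine ⟨by linarith, ?_⟩
  have htot : y + (δ - y) ^ 2 + x + x ^ 2 ≤ (2 + 2 * ε) * y + (10 + 32 / ε) * δ ^ 2 := by
    have h1 : (10 + 32 / ε) * δ ^ 2 = 2 * ((4 + 16 / ε) * δ ^ 2) + 2 * δ ^ 2 := by ring
    rw [h1]
    nlinarith [mul_nonneg hε.le hy0]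
  have h1 : p / 2 * (y + (δ - y) ^ 2 + x + x ^ 2) ≤
      p / 2 * ((2 + 2 * ε) * y + (10 + 32 / ε) * δ ^ 2) :=
    mul_le_mul_of_nonneg_left htot (by positivity)
  refine h1.trans ?_
  have h2 : p / 2 * ((2 + 2 * ε) * y + (10 + 32 / ε) * δ ^ 2) =
      (1 + ε) * p * y + (5 + 16 / ε) * (p * δ ^ 2) := by ring
  rw [h2]
  have h3 : (5 + 16 / ε) * (p * δ ^ 2) ≤ (5 + 16 / ε) * (ε ^ 2 / 21) :=
    mul_le_mul_of_nonneg_left hpδ (by positivity)
  have h4 : (5 + 16 / ε) * (ε ^ 2 / 21) = (5 * ε ^ 2 + 16 * ε) / 21 := by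
    field_simp
  rw [h4] at h3
  nlinarith

theorem FL_lim1 : Tendsto (fun p : ℝ => X0 p / p) atTop (𝓝 0) := by
  have h1 : Tendsto (fun p : ℝ => Real.log p ^ 1 / (1 * p + 0)) atTop (𝓝 0) :=
    Real.tendsto_pow_log_div_mul_add_atTop 1 0 1 one_ne_zero
  have h2 : Tendsto (fun p : ℝ => Real.log (2 * √Real.pi) / p) atTop (𝓝 0) :=
    tendsto_const_nhds.div_atTop tendsto_id
  have h3 := (h1.const_mul (3 / 2)).add h2
  rw [mul_zero, add_zero] at h3
  refine h3.congr fun p => ?_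
  rw [X0]
  ring

theorem FL_lim2 : Tendsto (fun p : ℝ => X0 p ^ 2 / p) atTop (𝓝 0) := by
  have h1 : Tendsto (fun p : ℝ => Real.log p ^ 1 / (1 * p + 0)) atTop (𝓝 0) :=
    Real.tendsto_pow_log_div_mul_add_atTop 1 0 1 one_ne_zero
  have h1' : Tendsto (fun p : ℝ => Real.log p ^ 2 / (1 * p + 0)) atTop (𝓝 0) :=
    Real.tendsto_pow_log_div_mul_add_atTop 1 0 2 one_ne_zero
  have h2 : Tendsto (fun p : ℝ => Real.log (2 * √Real.pi) ^ 2 / p) atTop (𝓝 0) :=
    tendsto_const_nhds.div_atTop tendsto_id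
  have h3 := ((h1'.const_mul (9 / 4)).add (h1.const_mul (3 * Real.log (2 * √Real.pi)))).add h2
  rw [mul_zero, mul_zero, add_zero, add_zero] at h3
  refine h3.congr fun p => ?_
  rw [X0]
  ring

theorem p_FL (hQC : Stmt_QC) (hQA : Stmt_QA) : Stmt_FL := by
  intro ε hε hε4
  have e1 : ∀ᶠ p : ℝ in atTop, X0 p / p < ε / 16 :=
    FL_lim1.eventually (gt_mem_nhds (by positivity))
  have e2 : ∀ᶠ p : ℝ in atTop, X0 p ^ 2 / p < ε ^ 2 / 21 :=
    FL_lim2.eventually (gt_mem_nhds (by positivity))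
  obtain ⟨p₀, hp₀⟩ := Filter.eventually_atTop.1
    ((e1.and e2).and (eventually_ge_atTop (max 2 ((32 / ε) ^ 2))))
  refine ⟨p₀, fun p hp u hu f hf => ?_⟩
  obtain ⟨⟨hδ, hX2⟩, hpm⟩ := hp₀ p hp
  have hp2 : 2 ≤ p := (le_max_left _ _).trans hpm
  have hp32 : (32 / ε) ^ 2 ≤ p := (le_max_right _ _).trans hpm
  have hp0 : 0 < p := by linarith
  have hX : 0 < X0 p := by
    have h1 : 0 ≤ Real.log p := Real.log_nonneg (by linarith)
    have h2 : 0 < Real.log (2 * √Real.pi) := by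
      apply Real.log_pos
      have h3 : 1 ≤ √Real.pi := by
        rw [Real.one_le_sqrt]
        linarith [Real.pi_gt_three]
      linarith
    rw [X0]; linarith
  set δ : ℝ := X0 p / p with hδd
  have hδ0 : 0 < δ := div_pos hX hp0
  have hpδ : p * δ ^ 2 ≤ ε ^ 2 / 21 := by
    have h1 : p * δ ^ 2 = X0 p ^ 2 / p := by rw [hδd]; field_simp
    rw [h1]; exact hX2.le
  have hpδ1 : p * δ = X0 p := by rw [hδd]; field_simp
  have hsp : 32 / ε ≤ √p := Real.le_sqrt_of_sq_le hp32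
  have hsp0 : 0 < √p := Real.sqrt_pos.2 hp0
  have hure : |u.re| ≤ 1 := by rw [← hu]; exact Complex.abs_re_le_norm u
  set y : ℝ := (1 + u.re) / 2 with hyd
  have hy0 : 0 ≤ y := by rw [hyd]; linarith [(abs_le.1 hure).1]
  have hy1 : y ≤ 1 := by rw [hyd]; linarith [(abs_le.1 hure).2]
  have h1y : (1 - u.re) / 2 = 1 - y := by rw [hyd]; ring
  rw [h1y]
  set k : ℕ := ⌈(1 + ε) * p⌉₊ with hk
  have hkc : (1 + ε) * p ≤ k := Nat.le_ceil _
  have hpow : (1 - y) ^ k ≤ Real.exp (-((1 + ε) * p * y)) := by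
    have h1 : 1 - y ≤ Real.exp (-y) := by linarith [Real.add_one_le_exp (-y)]
    have h2 : (1 - y) ^ k ≤ Real.exp (-y) ^ k := pow_le_pow_left₀ (by linarith) h1 k
    rw [← Real.exp_nat_mul] at h2
    refine h2.trans (Real.exp_le_exp.2 ?_)
    nlinarith
  have hRHS : 0 ≤ ‖FF p u - f‖ ^ p := Real.rpow_nonneg (norm_nonneg _) _
  have hc0 : 0 ≤ (1 - ε) * 2 ^ p * Real.exp (1 / 2) * Real.exp (X0 p / 2) := by
    have : 0 ≤ 1 - ε := by linarith
    positivity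
  rcases le_total (1 / √p) y with hyp | hyp
  · have h1 : Real.exp (-((1 + ε) * p * y)) ≤ Real.exp (-√p) := by
      apply Real.exp_le_exp.2
      have h2 : √p ≤ p * y := by
        have h3 : p * (1 / √p) ≤ p * y := mul_le_mul_of_nonneg_left hyp hp0.le
        have h4 : p * (1 / √p) = √p := by
          rw [mul_one_div, Real.div_sqrt]
        linarith
      nlinarith [mul_nonneg hp0.le hy0]
    exact (mul_nonpos_of_nonneg_of_nonpos hc0 (by linarith)).trans hRHS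
  have hyε : y ≤ ε / 32 := by
    refine hyp.trans ?_
    rw [div_le_iff₀ hsp0]
    have h1 : ε / 32 * (32 / ε) ≤ ε / 32 * √p := mul_le_mul_of_nonneg_left hsp (by positivity)
    have h2 : ε / 32 * (32 / ε) = 1 := by field_simp
    linarith
  obtain ⟨hx2, hnum⟩ := FL_num ε y δ p hε hε4 hy0 hyε hδ0.le hδ.le hp0 hpδ
  set x : ℝ := (√y + 2 * δ) ^ 2 with hxd
  have hx0 : 0 ≤ x := by positivity
  set R : ℝ := 1 / (1 - 1 / p) with hRd
  have hinv : 1 / p ≤ 1 / 2 := one_div_le_one_div_of_le (by norm_num) hp2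
  have hR1 : 0 < 1 - 1 / p := by linarith
  have hR : 0 < R := by positivity
  have hRe : Real.exp (1 / p) ≤ R := by
    rw [hRd, le_div_iff₀ hR1]
    have h1 : 1 - 1 / p ≤ Real.exp (-(1 / p)) := by linarith [Real.add_one_le_exp (-(1 / p))]
    have h2 : Real.exp (1 / p) * (1 - 1 / p) ≤ Real.exp (1 / p) * Real.exp (-(1 / p)) :=
      mul_le_mul_of_nonneg_left h1 (Real.exp_pos _).le
    rw [← Real.exp_add, add_neg_cancel, Real.exp_zero] at h2
    exact h2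
  set z : ℂ := ((X0 p / p : ℝ) : ℂ) * (qp (m0 p)).eval u with hzd
  have hFz : FF p u = (R : ℂ) * u * (1 + z) := rfl
  have hzn : ‖z‖ ≤ δ := by
    rw [hzd, norm_mul, Complex.norm_real, Real.norm_eq_abs, abs_of_pos hδ0]
    have h1 := (hQA.1 (m0 p) u).1 hu.le
    nlinarith
  have hzr : δ - y ≤ z.re := by
    rw [hzd, Complex.re_ofReal_mul, hQC (m0 p) u hu, h1y]
    have h1 := one_add_mul_le_pow (show (-2 : ℝ) ≤ -y by linarith) (m0 p)
    have h2 : (1 : ℝ) + -y = 1 - y := by ring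
    rw [h2] at h1
    have h3 : ((m0 p : ℕ) : ℝ) ≤ p / X0 p := Nat.floor_le (by positivity)
    have h4 : δ * (m0 p : ℝ) ≤ 1 := by
      have h5 : δ * (m0 p : ℝ) ≤ δ * (p / X0 p) := mul_le_mul_of_nonneg_left h3 hδ0.le
      have h6 : δ * (p / X0 p) = 1 := by rw [hδd]; field_simp
      linarith
    have h7 : δ * (1 + (m0 p : ℝ) * -y) ≤ δ * (1 - y) ^ m0 p := mul_le_mul_of_nonneg_left h1 hδ0.le
    have h8 : δ * (m0 p : ℝ) * y ≤ 1 * y := mul_le_mul_of_nonneg_right h4 hy0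
    linarith
  have hgeo := FL_geo u z δ R f y hu hzn (by linarith) hR hf hyd (by linarith)
  rw [← hFz] at hgeo
  have hA : Real.exp (Real.log 4 + 1 / p + ((δ - y) - (δ - y) ^ 2) + (-x - x ^ 2)) ≤
      ‖FF p u - f‖ ^ 2 := by
    refine le_trans ?_ hgeo
    rw [Real.exp_add, Real.exp_add, Real.exp_add, Real.exp_log (by norm_num)]
    have h1 := FL_exp2 (δ - y) (by linarith)
    have h2 := FL_exp1 x hx0 hx2
    have h3 : Real.exp ((δ - y) - (δ - y) ^ 2) ≤ 1 + z.re := by linarith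
    exact mul_le_mul (mul_le_mul (mul_le_mul_of_nonneg_left hRe (by norm_num)) h3
      (Real.exp_pos _).le (by positivity)) h2 (Real.exp_pos _).le
      (mul_nonneg (by positivity) ((Real.exp_pos _).le.trans h3))
  have hB : Real.exp ((Real.log 4 + 1 / p + ((δ - y) - (δ - y) ^ 2) + (-x - x ^ 2)) * (p / 2)) ≤
      ‖FF p u - f‖ ^ p := by
    have h1 := Real.rpow_le_rpow (Real.exp_pos _).le hA (show (0 : ℝ) ≤ p / 2 by positivity)
    have h2 : (‖FF p u - f‖ ^ 2) ^ (p / 2) = ‖FF p u - f‖ ^ p := by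
      rw [← Real.rpow_natCast, ← Real.rpow_mul (norm_nonneg _)]
      congr 1
      push_cast
      ring
    rw [← Real.exp_mul, h2] at h1
    exact h1
  refine le_trans ?_ hB
  have h2p : (2 : ℝ) ^ p = Real.exp (Real.log 2 * p) := Real.rpow_def_of_pos (by norm_num) p
  have h1e : 1 - ε ≤ Real.exp (-ε) := by linarith [Real.add_one_le_exp (-ε)]
  have hC : (1 - ε) * 2 ^ p * Real.exp (1 / 2) * Real.exp (X0 p / 2) *
      ((1 - y) ^ k - Real.exp (-√p)) ≤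
      Real.exp (-ε) * Real.exp (Real.log 2 * p) * Real.exp (1 / 2) * Real.exp (X0 p / 2) *
        Real.exp (-((1 + ε) * p * y)) := by
    have h3 : (1 - y) ^ k - Real.exp (-√p) ≤ Real.exp (-((1 + ε) * p * y)) := by
      linarith [Real.exp_pos (-√p)]
    refine (mul_le_mul_of_nonneg_left h3 hc0).trans ?_
    apply mul_le_mul_of_nonneg_right _ (Real.exp_pos _).le
    apply mul_le_mul_of_nonneg_right _ (Real.exp_pos _).le
    apply mul_le_mul_of_nonneg_right _ (Real.exp_pos _).le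
    rw [h2p]
    exact mul_le_mul_of_nonneg_right h1e (Real.exp_pos _).le
  refine hC.trans ?_
  rw [← Real.exp_add, ← Real.exp_add, ← Real.exp_add, ← Real.exp_add]
  apply Real.exp_le_exp.2
  have h4 : Real.log 4 = 2 * Real.log 2 := by
    rw [show (4 : ℝ) = 2 ^ 2 by norm_num, Real.log_pow]; push_cast; ring
  rw [h4]
  have h5 : (2 * Real.log 2 + 1 / p + ((δ - y) - (δ - y) ^ 2) + (-x - x ^ 2)) * (p / 2) =
      Real.log 2 * p + 1 / 2 + (p * δ) / 2 - p / 2 * (y + (δ - y) ^ 2 + x + x ^ 2) := by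
    field_simp
    ring
  rw [h5, hpδ1]
  linarith

end Pool.Agent.Work.MP_d7cff0_an.AS
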