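import Pool.Agent.Work.MP_d7cff0_as.Interface

/-! Block FN2 of the table asp_blocks (helper55) -/

set_option autoImplicit false

noncomputable section

namespace Pool.Agent.Work.MP_d7cff0_an.AS

open MeasureTheory AddCircle Filter Topology Finset Polynomial
open scoped ENNReal

theorem FN2_upI_mono (T : ℝ) [Fact (0 < T)] {p Λ Λ' : ℝ} (h : UpI T p Λ) (hl : Λ ≤ Λ') :
    UpI T p Λ' := by
  intro P hP
  refine (h P hP).trans ?_
  apply mul_le_mul_of_nonneg_right hl
  unfold cI
  exact integral_nonneg fun t => Real.rpow_nonneg (norm_nonneg _) _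

theorem p_FN2 (hRU : Stmt_R2U) (hRL : Stmt_R2L) (hAU : Stmt_AUP) (hAL : Stmt_ALO) : Stmt_FN2 := by
  obtain ⟨K, η₁, hη₁, hU⟩ := hRU
  obtain ⟨c, η₂, hc, hη₂, hL⟩ := hRL
  set η : ℝ := min (min η₁ η₂) (min (1 / 2) (1 / (c + 1))) with hη
  have hη0 : 0 < η := by
    apply lt_min (lt_min hη₁ hη₂) (lt_min (by norm_num) (by positivity))
  refine ⟨c / 7, max K 0, η, by positivity, hη0, ?_⟩
  intro T _ p _ hp' hp
  have he1 : |p.toReal - 2| ≤ η₁ := hp.trans ((min_le_left _ _).trans (min_le_left _ _))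
  have he2 : |p.toReal - 2| ≤ η₂ := hp.trans ((min_le_left _ _).trans (min_le_right _ _))
  have he3 : |p.toReal - 2| ≤ 1 / 2 := hp.trans ((min_le_right _ _).trans (min_le_left _ _))
  have he4 : |p.toReal - 2| ≤ 1 / (c + 1) := hp.trans ((min_le_right _ _).trans (min_le_right _ _))
  set q : ℝ := p.toReal with hq
  have hq1 : 3 / 2 ≤ q := by linarith [(abs_le.mp he3).1]
  have hq2 : q ≤ 5 / 2 := by linarith [(abs_le.mp he3).2]
  have hp1 : 1 < p := by
    by_contra hcon
    have h1 : p.toReal ≤ (1 : ℝ≥0∞).toReal := ENNReal.toReal_mono ENNReal.one_ne_top (not_lt.mp hcon)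
    rw [ENNReal.toReal_one, ← hq] at h1
    linarith
  set t : ℝ := (q - 2) ^ 2 with ht
  have ht0 : 0 ≤ t := sq_nonneg _
  have hct : c * t ≤ 1 := by
    have h1 : t ≤ (1 / 2) * (1 / (c + 1)) := by
      have h2 : t = |q - 2| * |q - 2| := by rw [ht, ← sq_abs, pow_two]
      rw [h2]
      exact mul_le_mul he3 he4 (abs_nonneg _) (by norm_num)
    have h3 : c * t ≤ c * ((1 / 2) * (1 / (c + 1))) := mul_le_mul_of_nonneg_left h1 hc.le
    have h4 : c * ((1 / 2) * (1 / (c + 1))) ≤ 1 := by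
      have h5 : c * ((1 / 2) * (1 / (c + 1))) = c / (2 * (c + 1)) := by field_simp
      rw [h5, div_le_one (by positivity)]
      linarith
    linarith
  set M : ℝ := Mstar (hardy T p) with hM
  have hM0 : 0 ≤ M := by
    rw [hM, Mstar_hardy hp1 hp']
    exact ContinuousLinearMap.opNorm_nonneg _
  have hKt : 0 ≤ max K 0 * t := mul_nonneg (le_max_right _ _) ht0
  have hup : M ^ q ≤ 1 + max K 0 * t := by
    apply hAU T p (1 + max K 0 * t) hp1 hp' (by linarith)
    apply FN2_upI_mono T (hU T q he1)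
    have h1 : K * t ≤ max K 0 * t := mul_le_mul_of_nonneg_right (le_max_left _ _) ht0
    linarith
  have hlo : 1 + c * t ≤ M ^ q := hAL T p (1 + c * t) hp1 hp' (hL T q he2)
  have hct0 : 0 ≤ c * t := mul_nonneg hc.le ht0
  have hM1 : 1 ≤ M := by
    by_contra hcon
    have h1 := Real.rpow_lt_one hM0 (not_le.mp hcon) (by linarith : 0 < q)
    linarith
  constructor
  · have h3 : M ^ q ≤ M ^ (3 : ℕ) := by
      rw [← Real.rpow_natCast M 3]
      apply Real.rpow_le_rpow_of_exponent_le hM1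
      push_cast
      linarith
    by_contra hcon
    push Not at hcon
    set s : ℝ := c / 7 * t with hs
    have hs0 : 0 ≤ s := by positivity
    have hs1 : s ≤ 1 := by
      rw [hs]
      linarith
    have h4 : M < 1 + s := by linarith
    have h5 : M ^ 3 < (1 + s) ^ 3 := pow_lt_pow_left₀ h4 hM0 (by norm_num)
    have h6 : (1 + s) ^ 3 ≤ 1 + 7 * s := by
      nlinarith [mul_nonneg hs0 hs0, mul_nonneg (mul_nonneg hs0 hs0) (sub_nonneg.mpr hs1),
        mul_nonneg hs0 (sub_nonneg.mpr hs1)]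
    have h7 : 7 * s = c * t := by rw [hs]; ring
    linarith
  · have h1 : M ≤ M ^ q := by
      calc M = M ^ (1 : ℝ) := (Real.rpow_one M).symm
        _ ≤ M ^ q := Real.rpow_le_rpow_of_exponent_le hM1 (by linarith)
    linarith

end Pool.Agent.Work.MP_d7cff0_an.AS
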