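import Pool.Agent.Work.MP_d7cff0_as.Interface

/-! # Block FN3 -/

set_option autoImplicit false

noncomputable section

namespace Pool.Agent.Work.MP_d7cff0_an.AS

open MeasureTheory AddCircle Filter Topology Finset Polynomial
open scoped ENNReal

theorem FN3_c0 : 0 < c0 ∧ Real.log (8 * Real.exp 1 * √Real.pi) = -(2 * Real.log c0) := by
  have h : 0 < 8 * Real.exp 1 * √Real.pi := by
    have := Real.sqrt_pos.2 Real.pi_pos
    have := Real.exp_pos 1
    positivity
  constructor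
  · unfold c0
    have := Real.sqrt_pos.2 h
    positivity
  · unfold c0
    rw [one_div, Real.log_inv, Real.log_sqrt h.le]
    ring

theorem FN3_core (ε : ℝ) (hε : 0 < ε) : ∃ δ p₀ : ℝ, 0 < δ ∧ ∀ p : ℝ, p₀ ≤ p → 2 ≤ p ∧
    1 ≤ (c0 + δ) * 2 ^ p * p ^ (-(3 / 4) : ℝ) ∧ ∀ M : ℝ, 0 ≤ M →
      (c0 - δ) * 2 ^ p * p ^ (-(3 / 4) : ℝ) ≤ M ^ p → M ^ p ≤ (c0 + δ) * 2 ^ p * p ^ (-(3 / 4) : ℝ) →
      |p * (2 - M) - (3 / 2 * Real.log p + Real.log (8 * Real.exp 1 * √Real.pi))| < ε := by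
  obtain ⟨hc0, hlog⟩ := FN3_c0
  have hcont : ContinuousAt Real.log c0 := Real.continuousAt_log hc0.ne'
  obtain ⟨δ', hδ', hδ⟩ := Metric.continuousAt_iff.1 hcont (ε / 8) (by positivity)
  set B : ℝ := |Real.log c0| + ε / 8 with hB
  have hB0 : 0 ≤ B := by positivity
  have t1 : Tendsto (fun x : ℝ => Real.log x ^ 2 / (1 * x + 0)) atTop (𝓝 0) :=
    Real.tendsto_pow_log_div_mul_add_atTop 1 0 2 one_ne_zero
  have t2 : Tendsto (fun x : ℝ => B ^ 2 / x) atTop (𝓝 0) :=
    tendsto_const_nhds.div_atTop tendsto_id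
  have t3 := t1.add t2
  rw [add_zero] at t3
  have t4 : Tendsto (fun x : ℝ => Real.exp (Real.log 2 * x) / x ^ (3 / 4 : ℝ)) atTop atTop :=
    tendsto_exp_mul_div_rpow_atTop (3 / 4) (Real.log 2) (Real.log_pos (by norm_num))
  have e1 := t3.eventually (gt_mem_nhds (show (0 : ℝ) < min (ε / 8) (1 / 2) by positivity))
  have e2 := t4.eventually (eventually_ge_atTop (1 / c0))
  obtain ⟨p₀, hp₀⟩ := eventually_atTop.1 (e1.and (e2.and (eventually_ge_atTop (2 : ℝ))))
  refine ⟨min (δ' / 2) (c0 / 2), p₀, by positivity, fun p hp => ?_⟩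
  obtain ⟨a1, a2, a3⟩ := hp₀ p hp
  set δ : ℝ := min (δ' / 2) (c0 / 2) with hδdef
  have hδpos : 0 < δ := by positivity
  have hp0 : 0 < p := by linarith
  have hW2 : (2 : ℝ) ^ p = Real.exp (Real.log 2 * p) := Real.rpow_def_of_pos (by norm_num) p
  have hWn : p ^ (-(3 / 4) : ℝ) = (p ^ (3 / 4 : ℝ))⁻¹ := Real.rpow_neg hp0.le _
  have hWpos : 0 < (2 : ℝ) ^ p * p ^ (-(3 / 4) : ℝ) := by positivity
  refine ⟨a3, ?_, ?_⟩
  · have h1 : 1 / c0 ≤ (2 : ℝ) ^ p * p ^ (-(3 / 4) : ℝ) := by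
      rw [hW2, hWn, ← div_eq_mul_inv]
      exact a2
    have h2 : 1 ≤ c0 * ((2 : ℝ) ^ p * p ^ (-(3 / 4) : ℝ)) := by
      calc (1 : ℝ) = c0 * (1 / c0) := by field_simp
        _ ≤ _ := mul_le_mul_of_nonneg_left h1 hc0.le
    calc (1 : ℝ) ≤ c0 * ((2 : ℝ) ^ p * p ^ (-(3 / 4) : ℝ)) := h2
      _ ≤ (c0 + δ) * ((2 : ℝ) ^ p * p ^ (-(3 / 4) : ℝ)) :=
          mul_le_mul_of_nonneg_right (by linarith) hWpos.le
      _ = _ := by ring
  · intro M hM0 hlo hup
    set W : ℝ := (2 : ℝ) ^ p * p ^ (-(3 / 4) : ℝ) with hW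
    have hlo' : (c0 - δ) * W ≤ M ^ p := by rw [hW, ← mul_assoc]; exact hlo
    have hup' : M ^ p ≤ (c0 + δ) * W := by rw [hW, ← mul_assoc]; exact hup
    set c : ℝ := M ^ p / W with hc
    have hMc : M ^ p = c * W := by rw [hc]; field_simp
    have hc1 : c0 - δ ≤ c := by rw [hc, le_div_iff₀ hWpos]; exact hlo'
    have hc2 : c ≤ c0 + δ := by rw [hc, div_le_iff₀ hWpos]; exact hup'
    have hδ1 : δ ≤ δ' / 2 := min_le_left _ _
    have hδ2 : δ ≤ c0 / 2 := min_le_right _ _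
    have hcpos : 0 < c := by linarith
    have hlogc : |Real.log c - Real.log c0| < ε / 8 := by
      have := hδ (x := c) (by rw [Real.dist_eq, abs_lt]; constructor <;> linarith)
      rwa [Real.dist_eq] at this
    have hMp : 0 < M ^ p := by rw [hMc]; positivity
    have hM : 0 < M := by
      rcases hM0.lt_or_eq with h | h
      · exact h
      · rw [← h, Real.zero_rpow hp0.ne'] at hMp
        exact absurd hMp (lt_irrefl _)
    -- logarithms
    have hlM : p * Real.log M = Real.log c + p * Real.log 2 - 3 / 4 * Real.log p := by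
      have h1 : Real.log (M ^ p) = p * Real.log M := Real.log_rpow hM p
      have h2 : Real.log (c * W) = Real.log c + (p * Real.log 2 + -(3 / 4) * Real.log p) := by
        rw [Real.log_mul hcpos.ne' hWpos.ne', hW,
          Real.log_mul (by positivity) (by positivity), Real.log_rpow (by norm_num),
          Real.log_rpow hp0]
      rw [← h1, hMc, h2]
      ring
    set x : ℝ := Real.log 2 - Real.log M with hx
    have hpx : p * x = 3 / 4 * Real.log p - Real.log c := by rw [hx]; linarith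
    have hMx : M = 2 * Real.exp (-x) := by
      have h1 : Real.exp (Real.log M) = M := Real.exp_log hM
      have h2 : Real.exp (Real.log 2) = 2 := Real.exp_log (by norm_num)
      have h3 : Real.log M = Real.log 2 + -x := by rw [hx]; ring
      rw [← h1, h3, Real.exp_add, h2]
    set L : ℝ := Real.log p with hL
    have hbl : |Real.log c| ≤ B := by
      have h1 : Real.log c = Real.log c0 + (Real.log c - Real.log c0) := by ring
      rw [h1, hB]
      exact (abs_add_le _ _).trans (by linarith)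
    have hsq : (p * x) ^ 2 ≤ 2 * (L ^ 2 + B ^ 2) := by
      rw [hpx]
      have h1 : Real.log c ^ 2 ≤ B ^ 2 := by
        rw [← sq_abs]
        exact pow_le_pow_left₀ (abs_nonneg _) hbl 2
      nlinarith [sq_nonneg (3 / 4 * L + Real.log c), sq_nonneg L]
    have ha1 : (L ^ 2 + B ^ 2) / p < min (ε / 8) (1 / 2) := by
      have h1 : L ^ 2 / (1 * p + 0) + B ^ 2 / p = (L ^ 2 + B ^ 2) / p := by
        rw [one_mul, add_zero]; ring
      rw [← h1]
      exact a1
    have ha2 : L ^ 2 + B ^ 2 < ε / 8 * p := by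
      have := ha1.trans_le (min_le_left _ _)
      rwa [div_lt_iff₀ hp0] at this
    have ha3 : L ^ 2 + B ^ 2 < 1 / 2 * p := by
      have := ha1.trans_le (min_le_right _ _)
      rwa [div_lt_iff₀ hp0] at this
    have hx1 : |x| ≤ 1 := by
      rw [← sq_le_one_iff_abs_le_one]
      have h1 : (p * x) ^ 2 < p := by linarith
      have h2 : p ^ 2 * x ^ 2 < p ^ 2 * 1 := by nlinarith
      exact (lt_of_mul_lt_mul_left h2 (by positivity)).le
    have hexp : |Real.exp (-x) - 1 - (-x)| ≤ (-x) ^ 2 :=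
      Real.abs_exp_sub_one_sub_id_le (by rwa [abs_neg])
    have hpx2 : p * (p * x ^ 2) < p * (ε / 4) := by
      have : p * (p * x ^ 2) = (p * x) ^ 2 := by ring
      rw [this]
      linarith
    have hpx3 : p * x ^ 2 < ε / 4 := lt_of_mul_lt_mul_left hpx2 hp0.le
    rw [hlog]
    have key : p * (2 - M) - (3 / 2 * L + -(2 * Real.log c0)) =
        -(2 * p * (Real.exp (-x) - 1 - (-x))) - 2 * (Real.log c - Real.log c0) := by
      rw [hMx]
      linear_combination 2 * hpx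
    rw [key]
    have hsx : (-x) ^ 2 = x ^ 2 := by ring
    rw [hsx, abs_le] at hexp
    rw [abs_lt] at hlogc
    obtain ⟨u1, u2⟩ := hexp
    obtain ⟨v1, v2⟩ := hlogc
    have w1 : p * (Real.exp (-x) - 1 - (-x)) ≤ p * x ^ 2 := mul_le_mul_of_nonneg_left u2 hp0.le
    have w2 : p * (-x ^ 2) ≤ p * (Real.exp (-x) - 1 - (-x)) := mul_le_mul_of_nonneg_left u1 hp0.le
    rw [abs_lt]
    generalize Real.exp (-x) - 1 - (-x) = E at w1 w2 ⊢
    generalize Real.log c - Real.log c0 = D at v1 v2 ⊢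
    have w3 : p * (-x ^ 2) = -(p * x ^ 2) := by ring
    have w4 : 2 * p * E = 2 * (p * E) := by ring
    rw [w3] at w2
    rw [w4]
    constructor <;> linarith

theorem p_FN3 (h1 : Stmt_R3U) (h2 : Stmt_R3L) (h3 : Stmt_AUP) (h4 : Stmt_ALO) : Stmt_FN3 := by
  intro T hT ε hε
  obtain ⟨δ, p₀, hδ, hp₀⟩ := FN3_core ε hε
  obtain ⟨p₁, hp₁⟩ := h1 T δ hδ
  obtain ⟨p₂, hp₂⟩ := h2 T δ hδ
  refine ⟨max p₀ (max p₁ p₂), ?_⟩
  intro p hp hpt hle
  obtain ⟨b1, b2, b3⟩ := hp₀ p.toReal ((le_max_left _ _).trans hle)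
  have c1 := hp₁ p.toReal (((le_max_left _ _).trans (le_max_right _ _)).trans hle)
  have c2 := hp₂ p.toReal (((le_max_right _ _).trans (le_max_right _ _)).trans hle)
  have hp1 : 1 < p := by
    by_contra h
    have h5 := ENNReal.toReal_mono ENNReal.one_ne_top (not_lt.1 h)
    rw [ENNReal.toReal_one] at h5
    linarith
  have hM0 : 0 ≤ Mstar (hardy T p) := Real.sInf_nonneg fun M hM => hM.1.le
  exact b3 _ hM0 (h4 T p _ hp1 hpt c2) (h3 T p _ hp1 hpt b2 c1)

end Pool.Agent.Work.MP_d7cff0_an.AS
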