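import Pool.Agent.Work.MP_d7cff0_as.Interface

/-!
# MP_d7cff0_an, THEOREM AS, block FR1: the rate at `p = 1`
-/

set_option autoImplicit false

noncomputable section

namespace Pool.Agent.Work.MP_d7cff0_an.AS

open MeasureTheory AddCircle Filter Topology Finset Polynomial
open scoped ENNReal

theorem FR1_core {M x : ℝ} (hx : 1 < x) (hx2 : x ≤ 2) (hM : 0 ≤ M)
    (hU : M ^ x ≤ 2 / √3 * (2 ^ x - 1)) (hL : (2 * √3) ^ x / (3 * 14 ^ (x - 1)) ≤ M ^ x) :
    |M - 2 / √3| ≤ 3 * (x - 1) := by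
  have h3 : (0 : ℝ) < √3 := Real.sqrt_pos.mpr (by norm_num)
  have h3sq : √3 * √3 = (3 : ℝ) := Real.mul_self_sqrt (by norm_num)
  have ha : (1.15 : ℝ) ≤ 2 / √3 := by
    rw [le_div_iff₀ h3]; nlinarith
  have hb : 2 / √3 ≤ (1.16 : ℝ) := by
    rw [div_le_iff₀ h3]; nlinarith
  have hx1 : 0 < x - 1 := by linarith
  have hle2 : (2 : ℝ) ^ (x - 1) ≤ 1 + (x - 1) * 1 := by
    have h := rpow_one_add_le_one_add_mul_self (s := (1 : ℝ)) (by norm_num)
      (p := x - 1) (by linarith) (by linarith)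
    have e : (1 : ℝ) + 1 = 2 := by norm_num
    rwa [e] at h
  have h2x : (2 : ℝ) ^ x = 2 * 2 ^ (x - 1) := by
    rw [← Real.rpow_one_add' (by norm_num) (by linarith)]
    congr 1; ring
  rw [abs_le]
  constructor
  · by_contra hcon
    rw [not_le] at hcon
    have hm : M < 2 / √3 * (1 - 2 * (x - 1)) := by
      have : 2 / √3 * (2 * (x - 1)) ≤ 3 * (x - 1) := by nlinarith
      nlinarith
    have hpos : 0 < 2 / √3 * (1 - 2 * (x - 1)) := lt_of_le_of_lt hM hm
    have hpos2 : 0 < 1 - 2 * (x - 1) := by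
      by_contra h0
      rw [not_lt] at h0
      have : 2 / √3 * (1 - 2 * (x - 1)) ≤ 0 := mul_nonpos_of_nonneg_of_nonpos (by positivity) h0
      linarith
    have h1 : M ^ x < (2 / √3 * (1 - 2 * (x - 1))) ^ x :=
      Real.rpow_lt_rpow hM hm (by linarith)
    rw [Real.mul_rpow (by positivity) hpos2.le] at h1
    have key : (2 * √3) ^ x / (3 * 14 ^ (x - 1)) = (2 / √3) ^ x * (3 / 14 : ℝ) ^ (x - 1) := by
      have e1 : 2 * √3 = 2 / √3 * 3 := by
        field_simp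
        linarith
      rw [e1, Real.mul_rpow (by positivity) (by norm_num), Real.div_rpow (by norm_num : (0 : ℝ) ≤ 3) (by norm_num : (0 : ℝ) ≤ 14)]
      have e2 : (3 : ℝ) ^ x = 3 * 3 ^ (x - 1) := by
        rw [← Real.rpow_one_add' (by norm_num) (by linarith)]
        congr 1; ring
      rw [e2]
      have h14 : (0 : ℝ) < 14 ^ (x - 1) := by positivity
      field_simp
    have h2 : (1 - 2 * (x - 1)) ^ x ≤ (3 / 14 : ℝ) ^ (x - 1) := by
      have h21 : (1 - 2 * (x - 1)) ^ x ≤ (Real.exp (-(2 * (x - 1)))) ^ x :=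
        Real.rpow_le_rpow hpos2.le (by have := Real.add_one_le_exp (-(2 * (x - 1))); linarith) (by linarith)
      have h22 : (Real.exp (-(2 * (x - 1)))) ^ x = (Real.exp (-(2 * x))) ^ (x - 1) := by
        rw [← Real.exp_mul, ← Real.exp_mul]
        congr 1; ring
      have h23 : Real.exp (-(2 * x)) ≤ 3 / 14 := by
        have e : Real.exp (-(2 * x)) ≤ Real.exp (-2) := Real.exp_le_exp.mpr (by linarith)
        have e3 : Real.exp (-2) = (Real.exp 1 * Real.exp 1)⁻¹ := by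
          rw [← Real.exp_add, ← Real.exp_neg]; norm_num
        have e4 := Real.exp_one_gt_d9
        have e5 : (14 / 3 : ℝ) ≤ Real.exp 1 * Real.exp 1 := by nlinarith
        have e6 : (Real.exp 1 * Real.exp 1)⁻¹ ≤ (14 / 3 : ℝ)⁻¹ := by
          gcongr
        rw [e3] at e
        have e7 : ((14 / 3 : ℝ))⁻¹ = 3 / 14 := by norm_num
        rw [e7] at e6
        exact e.trans e6
      rw [h22] at h21
      exact h21.trans (Real.rpow_le_rpow (Real.exp_pos _).le h23 hx1.le)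
    have h5 : (2 / √3) ^ x * (1 - 2 * (x - 1)) ^ x ≤ (2 / √3) ^ x * (3 / 14 : ℝ) ^ (x - 1) :=
      mul_le_mul_of_nonneg_left h2 (by positivity)
    rw [key] at hL
    linarith
  · by_cases h1 : M ≤ 1
    · nlinarith
    · rw [not_le] at h1
      have hMM : M ≤ M ^ x := by
        have := Real.rpow_le_rpow_of_exponent_le h1.le hx.le
        rwa [Real.rpow_one] at this
      rw [h2x] at hU
      have : 2 / √3 * (2 * 2 ^ (x - 1) - 1) ≤ 2 / √3 * (1 + 2 * (x - 1)) :=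
        mul_le_mul_of_nonneg_left (by linarith) (by positivity)
      nlinarith

theorem p_FR1 (hU : ∀ (T : ℝ) [Fact (0 < T)] (p : ℝ), 1 ≤ p → UpI T p (2 / √3 * (2 ^ p - 1)))
    (hL : ∀ (T : ℝ) [Fact (0 < T)] (p : ℝ), 1 ≤ p → LoI T p ((2 * √3) ^ p / (3 * 14 ^ (p - 1))))
    (h3 : Stmt_AUP) (h4 : Stmt_ALO) :
    ∀ (T : ℝ) [Fact (0 < T)] (p : ℝ≥0∞) [Fact (1 ≤ p)], 1 < p → p ≠ ⊤ → p.toReal ≤ 2 →
      |Mstar (hardy T p) - 2 / √3| ≤ 3 * (p.toReal - 1) := by
  intro T hT p hpf hp1 hpt hp2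
  have hq1 : 1 < p.toReal := by
    have := (ENNReal.toReal_lt_toReal ENNReal.one_ne_top hpt).mpr hp1
    simpa using this
  have hs3 : (0 : ℝ) < √3 := Real.sqrt_pos.mpr (by norm_num)
  have h3sq : √3 * √3 = (3 : ℝ) := Real.mul_self_sqrt (by norm_num)
  have ha : (1.15 : ℝ) ≤ 2 / √3 := by
    rw [le_div_iff₀ hs3]; nlinarith
  have h22 : (2 : ℝ) ≤ 2 ^ p.toReal := by
    have := Real.rpow_le_rpow_of_exponent_le (by norm_num : (1 : ℝ) ≤ 2) hq1.le
    rwa [Real.rpow_one] at this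
  have hUU := h3 T p (2 / √3 * (2 ^ p.toReal - 1)) hp1 hpt (by nlinarith) (hU T p.toReal hq1.le)
  have hLL := h4 T p _ hp1 hpt (hL T p.toReal hq1.le)
  have hM0 : 0 ≤ Mstar (hardy T p) := by
    rw [Mstar_hardy hp1 hpt]
    exact ContinuousLinearMap.opNorm_nonneg _
  exact FR1_core hq1 hp2 hM0 hUU hLL

end Pool.Agent.Work.MP_d7cff0_an.AS
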