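import Pool.Agent.Work.MP_d7cff0_as.Interface

set_option autoImplicit false

noncomputable section

namespace Pool.Agent.Work.MP_d7cff0_an.AS

open MeasureTheory AddCircle Filter Topology Finset Polynomial
open scoped ENNReal

theorem FU_X_tendsto : Tendsto X0 atTop atTop :=
  tendsto_atTop_add_const_right _ _ (Real.tendsto_log_atTop.const_mul_atTop (by norm_num))

theorem FU_Xsq : Tendsto (fun p => X0 p ^ 2 / (2 * p)) atTop (𝓝 0) := by
  obtain ⟨c, hc⟩ : ∃ c, c = Real.log (2 * √Real.pi) := ⟨_, rfl⟩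
  have h1 : Tendsto (fun p : ℝ => Real.log p ^ 2 / p) atTop (𝓝 0) :=
    (Real.isLittleO_pow_log_id_atTop (n := 2)).tendsto_div_nhds_zero
  have h2 : Tendsto (fun p : ℝ => Real.log p / p) atTop (𝓝 0) :=
    Real.isLittleO_log_id_atTop.tendsto_div_nhds_zero
  have h3 : Tendsto (fun p : ℝ => 1 / p) atTop (𝓝 0) := tendsto_const_nhds.div_atTop tendsto_id
  have h4 := ((h1.const_mul (9 / 8)).add (h2.const_mul (3 / 2 * c))).add (h3.const_mul (c ^ 2 / 2))
  rw [mul_zero, mul_zero, mul_zero, add_zero, add_zero] at h4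
  refine h4.congr' ?_
  filter_upwards [eventually_gt_atTop (0 : ℝ)] with p hp
  unfold X0
  rw [← hc]
  field_simp
  ring

theorem FU_ratio : Tendsto (fun p : ℝ => p / (p - 1)) atTop (𝓝 1) := by
  have h3 : Tendsto (fun p : ℝ => 1 / (p - 1)) atTop (𝓝 0) :=
    tendsto_const_nhds.div_atTop (tendsto_atTop_add_const_right _ _ tendsto_id)
  have h4 := h3.const_add 1
  rw [add_zero] at h4
  refine h4.congr' ?_
  filter_upwards [eventually_gt_atTop (1 : ℝ)] with p hp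
  have : p - 1 ≠ 0 := by linarith
  field_simp
  ring

theorem FU_ratio2 (b : ℝ) (hb : 0 < b) : Tendsto (fun p : ℝ => p / (b * p - 2)) atTop (𝓝 (1 / b)) := by
  have h0 : Tendsto (fun p : ℝ => b * p - 2) atTop atTop :=
    tendsto_atTop_add_const_right _ _ (tendsto_id.const_mul_atTop hb)
  have h3 : Tendsto (fun p : ℝ => 1 / (b * p - 2)) atTop (𝓝 0) := tendsto_const_nhds.div_atTop h0
  have h4 := (h3.const_mul (2 / b)).const_add (1 / b)
  rw [mul_zero, add_zero] at h4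
  refine h4.congr' ?_
  filter_upwards [h0.eventually_gt_atTop 0] with p hp
  have : b * p - 2 ≠ 0 := hp.ne'
  field_simp
  ring

theorem FU_exp (δ : ℝ) (hδ : 0 < δ) :
    Tendsto (fun p : ℝ => √(2 * X0 p) * Real.exp (-δ * X0 p)) atTop (𝓝 0) := by
  have h1 := (tendsto_rpow_mul_exp_neg_mul_atTop_nhds_zero (1 / 2) δ hδ).comp FU_X_tendsto
  have h2 := h1.const_mul (√2)
  rw [mul_zero] at h2
  refine h2.congr' ?_
  filter_upwards with p
  show √2 * (X0 p ^ (1 / 2 : ℝ) * Real.exp (-δ * X0 p)) = _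
  rw [← Real.sqrt_eq_rpow, ← mul_assoc, Real.sqrt_mul (by norm_num : (0 : ℝ) ≤ 2)]

/-- The bound. -/
def FU_Phi (e p : ℝ) : ℝ :=
  Real.exp (p / (p - 1) + X0 p ^ 2 / (2 * p)) *
    (1 + p / (p - 1) * √(p / ((1 - 2 * e) * p - 2)) +
      2 * (p / (p - 1) * (√(2 * X0 p) * Real.exp (-(1 - Real.exp (-e)) * X0 p))))

theorem FU_Phi_tendsto (e : ℝ) (he : 0 < e) (he4 : e < 1 / 4) :
    Tendsto (FU_Phi e) atTop (𝓝 (Real.exp 1 * (1 + √(1 / (1 - 2 * e))))) := by
  have hδ : 0 < 1 - Real.exp (-e) := by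
    have : Real.exp (-e) < 1 := by
      rw [← Real.exp_zero]
      exact Real.exp_lt_exp.2 (by linarith)
    linarith
  have h1 := (FU_ratio.add FU_Xsq).rexp
  have h2 := FU_ratio.mul (FU_ratio2 (1 - 2 * e) (by linarith)).sqrt
  have h3 := (FU_ratio.mul (FU_exp _ hδ)).const_mul 2
  have h4 := h1.mul ((h2.const_add 1).add h3)
  have h5 : Real.exp (1 + 0) * (1 + 1 * √(1 / (1 - 2 * e)) + 2 * (1 * 0)) =
      Real.exp 1 * (1 + √(1 / (1 - 2 * e))) := by
    rw [add_zero, mul_zero, mul_zero, add_zero, one_mul]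
  rw [h5] at h4
  exact h4

theorem FU_point (hQC : Stmt_QC) (hQA : Stmt_QA) (p : ℝ) (hp : 1 < p) (hX : 0 ≤ X0 p) (u : ℂ)
    (hu : ‖u‖ = 1) : ‖FF p u‖ ^ p ≤ Real.exp (p / (p - 1) + X0 p ^ 2 / (2 * p)) *
      Real.exp (X0 p * ((1 - u.re) / 2) ^ m0 p) := by
  have hp0 : 0 < p := by linarith
  obtain ⟨z, hz⟩ : ∃ z, z = ((X0 p / p : ℝ) : ℂ) * (qp (m0 p)).eval u := ⟨_, rfl⟩
  have hXp : 0 ≤ X0 p / p := div_nonneg hX hp0.le
  have hzn : ‖z‖ ≤ X0 p / p := by
    rw [hz, norm_mul, Complex.norm_real, Real.norm_eq_abs, abs_of_nonneg hXp]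
    exact mul_le_of_le_one_right hXp ((hQA.1 (m0 p) u).1 hu.le)
  have hre : z.re = X0 p / p * ((1 - u.re) / 2) ^ m0 p := by
    rw [hz, Complex.re_ofReal_mul, hQC (m0 p) u hu]
  have hRp : 0 < 1 / (1 - 1 / p) := by
    have : 1 / p < 1 := by rw [div_lt_one hp0]; exact hp
    exact div_pos one_pos (by linarith)
  have hn : ‖FF p u‖ = 1 / (1 - 1 / p) * ‖1 + z‖ := by
    rw [FF, ← hz, norm_mul, norm_mul, hu, mul_one, Complex.norm_real, Real.norm_eq_abs,
      abs_of_pos hRp]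
  have hp1 : p - 1 ≠ 0 := by linarith
  have hR : 1 / (1 - 1 / p) ≤ Real.exp (1 / (p - 1)) := by
    have e1 : 1 / (1 - 1 / p) = 1 / (p - 1) + 1 := by
      have : 1 - 1 / p = (p - 1) / p := by field_simp
      rw [this]
      field_simp
      ring
    rw [e1]
    exact Real.add_one_le_exp _
  have h2 : ‖1 + z‖ ^ (2 : ℝ) ≤ Real.exp (2 * z.re + ‖z‖ ^ 2) := by
    have e2 : ‖1 + z‖ ^ (2 : ℝ) = (2 * z.re + ‖z‖ ^ 2) + 1 := by
      rw [Real.rpow_two, Complex.sq_norm, Complex.sq_norm, Complex.normSq_apply,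
        Complex.normSq_apply, Complex.add_re, Complex.add_im, Complex.one_re, Complex.one_im]
      ring
    rw [e2]
    exact Real.add_one_le_exp _
  have h3 : ‖1 + z‖ ^ p ≤ Real.exp (X0 p * ((1 - u.re) / 2) ^ m0 p + X0 p ^ 2 / (2 * p)) := by
    have e3 : ‖1 + z‖ ^ p = (‖1 + z‖ ^ (2 : ℝ)) ^ (p / 2) := by
      rw [← Real.rpow_mul (norm_nonneg _)]
      congr 1
      ring
    rw [e3]
    calc (‖1 + z‖ ^ (2 : ℝ)) ^ (p / 2) ≤ (Real.exp (2 * z.re + ‖z‖ ^ 2)) ^ (p / 2) :=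
          Real.rpow_le_rpow (Real.rpow_nonneg (norm_nonneg _) _) h2 (by linarith)
      _ = Real.exp ((2 * z.re + ‖z‖ ^ 2) * (p / 2)) := by rw [← Real.exp_mul]
      _ ≤ _ := by
        rw [Real.exp_le_exp, hre]
        have h4 : ‖z‖ ^ 2 ≤ (X0 p / p) ^ 2 := pow_le_pow_left₀ (norm_nonneg _) hzn 2
        have h5 : (X0 p / p) ^ 2 * (p / 2) = X0 p ^ 2 / (2 * p) := by field_simp
        have h6 : ‖z‖ ^ 2 * (p / 2) ≤ (X0 p / p) ^ 2 * (p / 2) :=
          mul_le_mul_of_nonneg_right h4 (by linarith)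
        have h7 : 2 * (X0 p / p * ((1 - u.re) / 2) ^ m0 p) * (p / 2) =
            X0 p * ((1 - u.re) / 2) ^ m0 p := by field_simp
        rw [add_mul, h7]
        linarith
  rw [hn, Real.mul_rpow hRp.le (norm_nonneg _), ← Real.exp_add]
  calc (1 / (1 - 1 / p)) ^ p * ‖1 + z‖ ^ p ≤ (Real.exp (1 / (p - 1))) ^ p *
        Real.exp (X0 p * ((1 - u.re) / 2) ^ m0 p + X0 p ^ 2 / (2 * p)) :=
        mul_le_mul (Real.rpow_le_rpow hRp.le hR hp0.le) h3 (Real.rpow_nonneg (norm_nonneg _) _)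
          (Real.rpow_nonneg (Real.exp_pos _).le _)
    _ = _ := by
      rw [← Real.exp_mul, ← Real.exp_add]
      congr 1
      ring

theorem FU_mean (hQC : Stmt_QC) {T : ℝ} [Fact (0 < T)] {ψ : C(AddCircle T, ℂ)}
    (hψ : ψ ∈ discAlg T) (a : ℝ) (hm : mean ψ = (a : ℂ)) (h1 : ∀ t, ‖ψ t‖ = 1) (k : ℕ) :
    ∫ t, ((1 - (ψ t).re) / 2) ^ k ∂(haarAddCircle (T := T)) = qa k a := by
  have e1 : ∀ t, ((1 - (ψ t).re) / 2) ^ k = RCLike.re ((aeval ψ (qp k)) t) := by
    intro t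
    rw [← hQC k (ψ t) (h1 t), Polynomial.aeval_continuousMap_apply]
    rfl
  simp_rw [e1]
  rw [integral_re (integrable_cont (map_continuous _))]
  have h2 := mean_aeval hψ (qp k)
  rw [hm] at h2
  have h3 : ∫ t, (aeval ψ (qp k)) t ∂(haarAddCircle (T := T)) = (qp k).eval (a : ℂ) := h2
  rw [h3]
  rfl

theorem FU_expX (p : ℝ) (hp : 0 < p) : Real.exp (X0 p) = 2 * √Real.pi * (p * √p) := by
  have hpi := Real.pi_pos
  unfold X0
  rw [Real.exp_add, Real.exp_log (by positivity), mul_comm (3 / 2 : ℝ), Real.exp_mul,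
    Real.exp_log hp]
  have h1 : p ^ (3 / 2 : ℝ) = p * √p := by
    rw [Real.sqrt_eq_rpow]
    have h2 : (3 / 2 : ℝ) = 1 + 1 / 2 := by norm_num
    rw [h2, Real.rpow_add hp, Real.rpow_one]
  rw [h1]
  ring

theorem FU_qa (hQU : Stmt_QU) (hBE : Stmt_BE) (p κ : ℝ) (k : ℕ) (hp : 1 < p) (hκ : 0 < κ)
    (hk : κ ≤ k - 1) : Real.exp (X0 p) * qa k (1 - 1 / p) ≤ p / (p - 1) * √(p / κ) := by
  have hp0 : 0 < p := by linarith
  have hpi := Real.pi_pos
  have hk1 : (1 : ℝ) < k := by linarith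
  have hk1' : 1 < k := by exact_mod_cast hk1
  obtain ⟨j, rfl⟩ : ∃ j, k = j + 1 := ⟨k - 1, by omega⟩
  have hj : 1 ≤ j := by omega
  have hp1 : 0 < p - 1 := by linarith
  have ha0 : 0 < 1 - 1 / p := by
    have : 1 / p < 1 := by rw [div_lt_one hp0]; exact hp
    linarith
  have ha1 : 1 - 1 / p ≤ 1 := by
    have : 0 < 1 / p := by positivity
    linarith
  have h1 := (hQU.2 (j + 1) (1 - 1 / p) (by omega) ha0 ha1).1
  rw [Nat.add_sub_cancel] at h1
  have h2 := (hBE j hj).2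
  have hκj : κ ≤ (j : ℝ) := by
    have : ((j + 1 : ℕ) : ℝ) = j + 1 := by push_cast; ring
    linarith
  have h3 : be j ≤ 1 / √(Real.pi * κ) :=
    h2.trans (one_div_le_one_div_of_le (Real.sqrt_pos.2 (by positivity))
      (Real.sqrt_le_sqrt (mul_le_mul_of_nonneg_left hκj hpi.le)))
  have h4 : (1 - (1 - 1 / p) ^ 2) / (4 * (1 - 1 / p)) ≤ 1 / (2 * (p - 1)) := by
    have e1 : (1 - (1 - 1 / p) ^ 2) / (4 * (1 - 1 / p)) = (2 * p - 1) / (2 * p) * (1 / (2 * (p - 1))) := by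
      have e2 : 1 - 1 / p = (p - 1) / p := by field_simp
      rw [e2]
      field_simp
      ring
    rw [e1]
    refine mul_le_of_le_one_left (by positivity) ?_
    rw [div_le_one (by positivity)]
    linarith
  have hbe : 0 ≤ be j := by unfold be; positivity
  have h5 : qa (j + 1) (1 - 1 / p) ≤ 1 / (2 * (p - 1)) * (1 / √(Real.pi * κ)) :=
    h1.trans (mul_le_mul h4 h3 hbe (by positivity))
  calc Real.exp (X0 p) * qa (j + 1) (1 - 1 / p)
      ≤ Real.exp (X0 p) * (1 / (2 * (p - 1)) * (1 / √(Real.pi * κ))) :=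
        mul_le_mul_of_nonneg_left h5 (Real.exp_pos _).le
    _ = p / (p - 1) * √(p / κ) := by
        rw [FU_expX p hp0, Real.sqrt_mul hpi.le, Real.sqrt_div hp0.le]
        have hs1 : √Real.pi ≠ 0 := (Real.sqrt_pos.2 hpi).ne'
        have hs2 : √κ ≠ 0 := (Real.sqrt_pos.2 hκ).ne'
        field_simp

theorem p_FU (hQC : Stmt_QC) (hQA : Stmt_QA) (hQU : Stmt_QU) (hBE : Stmt_BE) (hEX : Stmt_EX) :
    Stmt_FU := by
  intro T _ ε hε
  -- choice of `e`
  obtain ⟨e, he0, he4, heε⟩ : ∃ e : ℝ, 0 < e ∧ e < 1 / 4 ∧ √(1 / (1 - 2 * e)) < 1 + ε := by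
    have hc : ContinuousAt (fun e : ℝ => √(1 / (1 - 2 * e))) 0 := by
      refine ContinuousAt.sqrt (ContinuousAt.div continuousAt_const (by fun_prop) (by norm_num))
    have h1 : ∀ᶠ e in 𝓝 (0 : ℝ), √(1 / (1 - 2 * e)) < 1 + ε := by
      refine hc.eventually_lt continuousAt_const ?_
      norm_num
      exact hε
    have h2 : ∀ᶠ e in 𝓝[>] (0 : ℝ), √(1 / (1 - 2 * e)) < 1 + ε := h1.filter_mono nhdsWithin_le_nhds
    have h3 : ∀ᶠ e in 𝓝[>] (0 : ℝ), e < 1 / 4 :=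
      (eventually_lt_nhds (show (0 : ℝ) < 1 / 4 by norm_num)).filter_mono nhdsWithin_le_nhds
    have h4 : ∀ᶠ e in 𝓝[>] (0 : ℝ), 0 < e := eventually_mem_nhdsWithin
    obtain ⟨e, h5, h6, h7⟩ := (h2.and (h3.and h4)).exists
    exact ⟨e, h7, h6, h5⟩
  obtain ⟨p₁, hp₁⟩ := hEX e he0 he4
  have hlim := FU_Phi_tendsto e he0 he4
  have hlt : Real.exp 1 * (1 + √(1 / (1 - 2 * e))) < (2 + ε) * Real.exp 1 := by
    rw [mul_comm]
    exact mul_lt_mul_of_pos_right (by linarith) (Real.exp_pos 1)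
  have hX4 : ∀ᶠ p : ℝ in atTop, 4 * X0 p ≤ p := by
    have h1 : Tendsto (fun p : ℝ => X0 p / p) atTop (𝓝 0) := by
      have h2 : Tendsto (fun p : ℝ => Real.log p / p) atTop (𝓝 0) :=
        Real.isLittleO_log_id_atTop.tendsto_div_nhds_zero
      have h3 : Tendsto (fun p : ℝ => 1 / p) atTop (𝓝 0) := tendsto_const_nhds.div_atTop tendsto_id
      have h4 := (h2.const_mul (3 / 2)).add (h3.const_mul (Real.log (2 * √Real.pi)))
      rw [mul_zero, mul_zero, add_zero] at h4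
      refine h4.congr' ?_
      filter_upwards with p
      unfold X0
      ring
    filter_upwards [h1.eventually_le_const (show (0 : ℝ) < 1 / 4 by norm_num),
      eventually_gt_atTop (0 : ℝ)] with p hp hp0
    rw [div_le_iff₀ hp0] at hp
    linarith
  have hall : ∀ᶠ p : ℝ in atTop, p₁ ≤ p ∧ 1 < p ∧ 1 ≤ X0 p ∧ 4 * X0 p ≤ p ∧
      0 < (1 - 2 * e) * p - 2 ∧ FU_Phi e p ≤ (2 + ε) * Real.exp 1 := by
    have h0 : Tendsto (fun p : ℝ => (1 - 2 * e) * p - 2) atTop atTop :=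
      tendsto_atTop_add_const_right _ _ (tendsto_id.const_mul_atTop (by linarith))
    filter_upwards [eventually_ge_atTop p₁, eventually_gt_atTop (1 : ℝ),
      FU_X_tendsto.eventually_ge_atTop 1, hX4, h0.eventually_gt_atTop 0,
      hlim.eventually_le_const hlt] with p h1 h2 h3 h4 h5 h6
    exact ⟨h1, h2, h3, h4, h5, h6⟩
  obtain ⟨p₀, hp₀⟩ := eventually_atTop.1 hall
  refine ⟨p₀, fun p hp ψ hψ hm hn => ?_⟩
  obtain ⟨g1, g2, g3, g4, g5, g6⟩ := hp₀ p hp
  refine le_trans ?_ g6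
  have hp0 : 0 < p := by linarith
  have hX0 : 0 < X0 p := by linarith
  obtain ⟨E, hE⟩ : ∃ E, E = Real.exp (p / (p - 1) + X0 p ^ 2 / (2 * p)) := ⟨_, rfl⟩
  have hEpos : 0 < E := hE ▸ Real.exp_pos _
  obtain ⟨k, hk⟩ : ∃ k, k = ⌊(1 - 2 * e) * p⌋₊ := ⟨_, rfl⟩
  obtain ⟨A, hA⟩ : ∃ A, A = 2 * Real.exp (X0 p * Real.exp (-e)) := ⟨_, rfl⟩
  have hApos : 0 < A := by rw [hA]; positivity
  have hpt : ∀ t, ‖FF p (ψ t)‖ ^ p ≤ E * (1 + Real.exp (X0 p) * ((1 - (ψ t).re) / 2) ^ k +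
      A * ((1 - (ψ t).re) / 2) ^ m0 p) := by
    intro t
    refine (FU_point hQC hQA p g2 hX0.le (ψ t) (hn t)).trans ?_
    rw [← hE]
    refine mul_le_mul_of_nonneg_left ?_ hEpos.le
    have hre := Complex.abs_re_le_norm (ψ t)
    rw [hn t, abs_le] at hre
    have h1 := hp₁ p g1 ((1 + (ψ t).re) / 2) (by linarith) (by linarith)
    have h2 : 1 - (1 + (ψ t).re) / 2 = (1 - (ψ t).re) / 2 := by ring
    rw [h2, ← hk, ← hA] at h1
    exact h1
  have hcψ : Continuous fun t => (ψ t).re := Complex.continuous_re.comp (map_continuous ψ)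
  have hcont : Continuous fun t => E * (1 + Real.exp (X0 p) * ((1 - (ψ t).re) / 2) ^ k +
      A * ((1 - (ψ t).re) / 2) ^ m0 p) := by fun_prop
  have hcF : Continuous fun t => ‖FF p (ψ t)‖ ^ p := by
    refine Continuous.rpow_const ?_ (fun t => Or.inr hp0.le)
    unfold FF
    have h1 : Continuous fun t => (qp (m0 p)).eval (ψ t) :=
      (Polynomial.continuous _).comp (map_continuous ψ)
    have h2 : Continuous fun t => ψ t := map_continuous ψ
    fun_prop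
  have hc1 : Continuous fun t => ((1 - (ψ t).re) / 2) ^ k := by fun_prop
  have hc2 : Continuous fun t => ((1 - (ψ t).re) / 2) ^ m0 p := by fun_prop
  have hint : ∫ t, ‖FF p (ψ t)‖ ^ p ∂(haarAddCircle (T := T)) ≤
      E * (1 + Real.exp (X0 p) * qa k (1 - 1 / p) + A * qa (m0 p) (1 - 1 / p)) := by
    refine (integral_mono (integrable_cont hcF) (integrable_cont hcont) hpt).trans (le_of_eq ?_)
    rw [integral_const_mul, integral_add (by
        exact (integrable_const _).add ((integrable_cont hc1).const_mul _))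
        ((integrable_cont hc2).const_mul _),
      integral_add (integrable_const _) ((integrable_cont hc1).const_mul _),
      integral_const_mul, integral_const_mul, FU_mean hQC hψ _ hm hn, FU_mean hQC hψ _ hm hn]
    simp
  refine hint.trans ?_
  rw [FU_Phi, ← hE]
  refine mul_le_mul_of_nonneg_left ?_ hEpos.le
  have hk2 : (1 - 2 * e) * p - 2 ≤ (k : ℝ) - 1 := by
    have := Nat.sub_one_lt_floor ((1 - 2 * e) * p)
    rw [← hk] at this
    linarith
  have h7 := FU_qa hQU hBE p _ k g2 g5 hk2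
  have hm2 : p / X0 p - 2 ≤ (m0 p : ℝ) - 1 := by
    have := Nat.sub_one_lt_floor (p / X0 p)
    unfold m0
    linarith
  have hm4 : 4 ≤ p / X0 p := by
    rw [le_div_iff₀ hX0]
    exact g4
  have hm3 : 0 < p / (2 * X0 p) := by positivity
  have hm5 : p / (2 * X0 p) ≤ (m0 p : ℝ) - 1 := by
    have e1 : p / (2 * X0 p) = p / X0 p / 2 := by field_simp
    rw [e1]
    linarith
  have h8 := FU_qa hQU hBE p _ (m0 p) g2 hm3 hm5
  have e2 : p / (p / (2 * X0 p)) = 2 * X0 p := by field_simp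
  rw [e2] at h8
  have e3 : A = 2 * (Real.exp (-(1 - Real.exp (-e)) * X0 p) * Real.exp (X0 p)) := by
    rw [hA, ← Real.exp_add]
    congr 2
    ring
  have h9 : A * qa (m0 p) (1 - 1 / p) ≤
      2 * (p / (p - 1) * (√(2 * X0 p) * Real.exp (-(1 - Real.exp (-e)) * X0 p))) := by
    have h10 := mul_le_mul_of_nonneg_left h8
      (Real.exp_pos (-(1 - Real.exp (-e)) * X0 p)).le
    calc A * qa (m0 p) (1 - 1 / p) = 2 * (Real.exp (-(1 - Real.exp (-e)) * X0 p) *
          (Real.exp (X0 p) * qa (m0 p) (1 - 1 / p))) := by rw [e3]; ring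
      _ ≤ 2 * (Real.exp (-(1 - Real.exp (-e)) * X0 p) * (p / (p - 1) * √(2 * X0 p))) := by
          linarith
      _ = _ := by ring
  linarith

end Pool.Agent.Work.MP_d7cff0_an.AS
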