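import Pool.Agent.Work.MP_d7cff0_as.Interface

/-!
# GG: the certificate is almost nonnegative
-/

set_option autoImplicit false

noncomputable section

namespace Pool.Agent.Work.MP_d7cff0_an.AS

open MeasureTheory AddCircle Filter Topology Finset Polynomial
open scoped ENNReal

theorem GG_sqrtpi : 1 < √Real.pi := by
  rw [show (1 : ℝ) = √1 by simp]
  exact Real.sqrt_lt_sqrt (by norm_num) (by linarith [Real.pi_gt_three])

theorem GG_c0 : 0 < c0 ∧ c0 * (8 * c0 * Real.exp 1 * √Real.pi) = 1 ∧ c0 < 1 / 4 := by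
  have h1 := GG_sqrtpi
  have he : (2 : ℝ) < Real.exp 1 := by linarith [Real.exp_one_gt_d9]
  have hpos : 0 < 8 * Real.exp 1 * √Real.pi := by positivity
  have hs : 0 < √(8 * Real.exp 1 * √Real.pi) := Real.sqrt_pos.2 hpos
  have hsq : √(8 * Real.exp 1 * √Real.pi) ^ 2 = 8 * Real.exp 1 * √Real.pi := Real.sq_sqrt hpos.le
  refine ⟨by unfold c0; positivity, ?_, ?_⟩
  · unfold c0
    field_simp
    rw [hsq]
  · unfold c0
    rw [div_lt_div_iff₀ hs (by norm_num)]
    have : (4 : ℝ) = √16 := by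
      rw [show (16 : ℝ) = 4 ^ 2 by norm_num, Real.sqrt_sq (by norm_num)]
    rw [one_mul, one_mul, this]
    apply Real.sqrt_lt_sqrt (by norm_num)
    nlinarith

theorem GG_be (n : ℕ) : be (n + 1) * (2 * n + 2) = be n * (2 * n + 1) := by
  have h := Nat.succ_mul_centralBinom_succ n
  have h' : ((n : ℝ) + 1) * (Nat.centralBinom (n + 1) : ℝ) = 2 * (2 * n + 1) * (Nat.centralBinom n : ℝ) := by
    exact_mod_cast h
  unfold be
  rw [← Nat.centralBinom_eq_two_mul_choose, ← Nat.centralBinom_eq_two_mul_choose, pow_succ]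
  field_simp
  linarith

theorem GG_be_pos (n : ℕ) : 0 < be n := by
  unfold be
  have : 0 < (2 * n).choose n := Nat.choose_pos (by omega)
  positivity

/-- elementary inequality for `r ≤ R` -/
theorem GG_el (b h r N : ℝ) (hb : 0 ≤ b) (hh : 0 ≤ h) (hr : r ≤ 1 + h) :
    -(b / 2 * (h ^ 2 + h / N + max (r - 1) 0)) ≤
      b * ((1 + h - r) / (1 + h)) / 2 - h / 2 * (b * (1 + 1 / N)) := by
  have ht : max (r - 1) 0 ≤ h := max_le (by linarith) hh
  have ht1 : r - 1 ≤ max (r - 1) 0 := le_max_left _ _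
  have ht0 : 0 ≤ max (r - 1) 0 := le_max_right _ _
  set t := max (r - 1) 0
  have h1 : h - t - h ^ 2 ≤ (1 + h - r) / (1 + h) := by
    rw [le_div_iff₀ (by linarith)]
    nlinarith [mul_nonneg hh ht0, pow_nonneg hh 3, mul_nonneg hh hh]
  have h2 : b * (h - t - h ^ 2) ≤ b * ((1 + h - r) / (1 + h)) := mul_le_mul_of_nonneg_left h1 hb
  have h3 : h / 2 * (b * (1 + 1 / N)) = b * h / 2 + b / 2 * (h / N) := by ring
  rw [h3]
  nlinarith

theorem GG_exp {x : ℝ} (h0 : 0 ≤ x) (h1 : x ≤ 1) : Real.exp x - 1 ≤ x * (1 + x) := by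
  have := Real.abs_exp_sub_one_sub_id_le (x := x) (by rw [abs_of_nonneg h0]; exact h1)
  have h2 := (abs_le.1 this).2
  nlinarith

theorem GG_be_le (n : ℕ) : be n ≤ 1 := by
  unfold be
  rw [div_le_one (by positivity)]
  have h := Nat.choose_le_two_pow (2 * n) n
  have h2 : (2 : ℕ) ^ (2 * n) = 4 ^ n := by rw [pow_mul]; norm_num
  rw [h2] at h
  exact_mod_cast h

theorem GG_id1 (p s W : ℝ) (hs : 0 < s) (h : s * s = p) : p * s * (W / p ^ 2) = W * (1 / s) := by
  subst h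
  field_simp

theorem GG_id2 (p s : ℝ) (hs : 0 < s) (h : s * s = p) : p ^ 2 * (1 / s) = p * s := by
  subst h
  field_simp

theorem GG_main (hQA : Stmt_QA) (hQU : Stmt_QU) (hQH : Stmt_QH) (hBE : Stmt_BE)
    (ε p : ℝ) (hε : 0 < ε) (hε1 : ε < 1 / 10) (hp : 4 ≤ p)
    (k1 : Real.log p / p ≤ 1 / 8) (k2 : 1 / √p ≤ 2 * c0 ^ 2)
    (k3 : (1 + ε) * (1 + 2 * (Real.log p / p)) ≤ 1 + 2 * ε)
    (k4 : 1 ≤ (1 + ε) ^ 2 * (1 - ε - 1 / p))
    (k5 : 1 / (8 * c0) * ((1 + ε) / √Real.pi) * (9 * (Real.log p ^ 2 / p) + 3 * (Real.log p / p)) ≤ ε)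
    (w : ℂ) : -(ε * (1 + ‖w‖ ^ p)) ≤ VV ε p w := by
  obtain ⟨c0pos, c0id, c0lt⟩ := GG_c0
  have hp0 : 0 < p := by linarith
  have hL : 0 < Real.log p := Real.log_pos (by linarith)
  have hsp : 0 < √p := Real.sqrt_pos.2 hp0
  have hspsq : √p * √p = p := Real.mul_self_sqrt hp0.le
  have hpi : 0 < √Real.pi := by positivity
  set L := Real.log p with hLdef
  have hLp : 0 < L / p := by positivity
  -- R
  have hx1 : 2 * L / p = 2 * (L / p) := by ring
  obtain ⟨h, hh⟩ : ∃ h : ℝ, h = RR p - 1 := ⟨_, rfl⟩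
  have hR : RR p = 1 + h := by rw [hh]; ring
  have hh3 : h ≤ 3 * (L / p) := by
    have := GG_exp (x := 2 * L / p) (by positivity) (by rw [hx1]; linarith)
    rw [hh]; unfold RR
    refine this.trans ?_
    rw [hx1]; nlinarith
  have hh0 : 0 ≤ h := by
    rw [hh]; unfold RR
    have := Real.add_one_le_exp (2 * L / p)
    have h2 : 0 ≤ 2 * L / p := by positivity
    linarith
  have hRp : (1 + h) ^ p = p ^ 2 := by
    rw [← hR]; unfold RR
    rw [← Real.exp_mul, show 2 * Real.log p / p * p = Real.log p * 2 by field_simp, Real.exp_mul,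
      Real.exp_log hp0]
    norm_num
  have h1h : 0 < 1 + h := by linarith
  -- m
  obtain ⟨m, hm⟩ : ∃ m : ℕ, m = mm ε p := ⟨_, rfl⟩
  have hm1 : (m : ℝ) ≤ (1 - ε) * p := by
    rw [hm]; unfold mm; exact Nat.floor_le (by apply mul_nonneg <;> linarith)
  have hm2 : (1 - ε) * p < m + 1 := by
    rw [hm]; unfold mm; exact Nat.lt_floor_add_one _
  have hm3 : 2 < (m : ℝ) := by nlinarith
  have hmp : (m : ℝ) ≤ p := by nlinarith
  obtain ⟨n, hn⟩ : ∃ n : ℕ, m = n + 1 := ⟨m - 1, by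
    have : 2 < m := by exact_mod_cast hm3
    omega⟩
  have hN : p ≤ 2 * (n : ℝ) + 1 := by
    have : (m : ℝ) = n + 1 := by rw [hn]; push_cast; ring
    nlinarith
  have hm0 : 1 ≤ m := by omega
  -- b
  have hb0 := GG_be_pos m
  have hbn : be n = be m * (1 + 1 / (2 * (n : ℝ) + 1)) := by
    have := GG_be n
    rw [← hn] at this
    have h3 : (0 : ℝ) < 2 * n + 1 := by linarith
    field_simp
    linarith
  have hsb : √p * be m ≤ (1 + ε) / √Real.pi := by
    have h1 := (hBE m hm0).2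
    have hmpos : (0 : ℝ) < m := by linarith
    rw [Real.sqrt_mul Real.pi_pos.le] at h1
    have hsm : 0 < √(m : ℝ) := Real.sqrt_pos.2 hmpos
    have h2 : √p ≤ (1 + ε) * √(m : ℝ) := by
      rw [show (1 + ε) * √(m : ℝ) = √((1 + ε) ^ 2 * m) by
        rw [Real.sqrt_mul (by positivity), Real.sqrt_sq (by linarith)]]
      apply Real.sqrt_le_sqrt
      have h3 : p * 1 ≤ p * ((1 + ε) ^ 2 * (1 - ε - 1 / p)) := mul_le_mul_of_nonneg_left k4 hp0.le
      have h4 : p * ((1 + ε) ^ 2 * (1 - ε - 1 / p)) = (1 + ε) ^ 2 * ((1 - ε) * p - 1) := by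
        field_simp
      have h5 : (1 + ε) ^ 2 * ((1 - ε) * p - 1) ≤ (1 + ε) ^ 2 * m :=
        mul_le_mul_of_nonneg_left (by linarith) (by positivity)
      linarith
    calc √p * be m ≤ ((1 + ε) * √(m : ℝ)) * (1 / (√Real.pi * √(m : ℝ))) :=
          mul_le_mul h2 h1 hb0.le (by positivity)
      _ = (1 + ε) / √Real.pi := by field_simp
  -- a
  have ha0 : qa m (1 / RR p) ≤ h / 2 * be n := by
    have h1 := (hQU.2 m (1 / RR p) hm0 (by rw [hR]; positivity) (by
      rw [hR, div_le_one h1h]; linarith)).1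
    rw [show m - 1 = n by omega] at h1
    refine h1.trans ?_
    apply mul_le_mul_of_nonneg_right _ (GG_be_pos n).le
    rw [hR]
    have e1 : (1 - (1 / (1 + h)) ^ 2) / (4 * (1 / (1 + h))) = h * (2 + h) / (4 * (1 + h)) := by
      field_simp
      ring
    rw [e1, div_le_iff₀ (by positivity)]
    nlinarith
  have h32 : p ^ (3 / 2 : ℝ) = p * √p := by
    rw [show (3 / 2 : ℝ) = 1 + 1 / 2 by norm_num, Real.rpow_add hp0, Real.rpow_one,
      Real.sqrt_eq_rpow]
  have hnv : ‖w / (RR p : ℂ)‖ = ‖w‖ / (1 + h) := by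
    rw [norm_div, Complex.norm_real, hR, Real.norm_of_nonneg h1h.le]
  have hr0 : 0 ≤ ‖w‖ := norm_nonneg w
  have hrp : 0 ≤ ‖w‖ ^ p := Real.rpow_nonneg hr0 p
  unfold VV
  rw [← hm, h32]
  obtain ⟨q, hq⟩ : ∃ q : ℝ, q = ((qp m).eval (w / (RR p : ℂ))).re := ⟨_, rfl⟩
  obtain ⟨a, ha⟩ : ∃ a : ℝ, a = qa m (1 / RR p) := ⟨_, rfl⟩
  rw [← hq, ← ha]
  rw [← ha] at ha0
  have h4c : 0 < 1 / (4 * c0) := by positivity
  by_cases hrR : 1 + h < ‖w‖
  · -- case r > R
    have hv1 : 1 ≤ ‖w / (RR p : ℂ)‖ := by rw [hnv, one_le_div h1h]; exact hrR.le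
    have hq1 : -(‖w‖ ^ p / p ^ 2) ≤ q := by
      have h1 := (hQA.1 m (w / (RR p : ℂ))).2 hv1
      have h2 : -‖(qp m).eval (w / (RR p : ℂ))‖ ≤ q := by
        rw [hq]; exact (abs_le.1 (Complex.abs_re_le_norm _)).1
      have h3 : ‖w / (RR p : ℂ)‖ ^ m ≤ ‖w‖ ^ p / p ^ 2 := by
        rw [← hRp, ← Real.div_rpow hr0 h1h.le, ← hnv, ← Real.rpow_natCast]
        exact Real.rpow_le_rpow_of_exponent_le hv1 hmp
      linarith
    have hbig : p ^ 2 ≤ ‖w‖ ^ p := by
      rw [← hRp]; exact Real.rpow_le_rpow h1h.le hrR.le hp0.le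
    have ha1 : a ≤ 3 / 2 * (L / p) := by
      have h2 : h / 2 * be n ≤ h / 2 * 1 := mul_le_mul_of_nonneg_left (GG_be_le n) (by linarith)
      linarith
    have hqa : -(‖w‖ ^ p / p ^ 2) - 3 / 2 * (L / p) ≤ q - a := by linarith
    have h5 : p * √p * (-(‖w‖ ^ p / p ^ 2) - 3 / 2 * (L / p)) ≤ p * √p * (q - a) :=
      mul_le_mul_of_nonneg_left hqa (by positivity)
    have h6 : p * √p * (‖w‖ ^ p / p ^ 2) = ‖w‖ ^ p * (1 / √p) := GG_id1 p _ _ hsp hspsq
    have h7 : p * √p * (3 / 2 * (L / p)) ≤ 1 / 5 * (‖w‖ ^ p * (1 / √p)) := by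
      have h8 : p * √p * (3 / 2 * (L / p)) ≤ p * √p * (3 / 2 * (1 / 8)) :=
        mul_le_mul_of_nonneg_left (by linarith) (by positivity)
      have h9 : p ^ 2 * (1 / √p) = p * √p := GG_id2 p _ hsp hspsq
      have h10 : p ^ 2 * (1 / √p) ≤ ‖w‖ ^ p * (1 / √p) :=
        mul_le_mul_of_nonneg_right hbig (by positivity)
      have h101 : 0 < p * √p := mul_pos hp0 hsp
      linarith
    have h11 : -(6 / 5 * (‖w‖ ^ p * (1 / √p))) ≤ p * √p * (q - a) := by
      rw [mul_sub, mul_neg, h6] at h5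
      linarith
    have h12 : ‖w‖ ^ p * (1 / √p) ≤ ‖w‖ ^ p * (2 * c0 ^ 2) := mul_le_mul_of_nonneg_left k2 hrp
    have h13 : -(6 / 5 * (‖w‖ ^ p * (2 * c0 ^ 2))) ≤ p * √p * (q - a) := by linarith
    have h14 : 1 / (4 * c0) * (-(6 / 5 * (‖w‖ ^ p * (2 * c0 ^ 2)))) ≤ 1 / (4 * c0) * (p * √p * (q - a)) :=
      mul_le_mul_of_nonneg_left h13 h4c.le
    have h15 : 1 / (4 * c0) * (-(6 / 5 * (‖w‖ ^ p * (2 * c0 ^ 2)))) = -(3 / 5 * (c0 * ‖w‖ ^ p)) := by
      field_simp
      ring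
    rw [h15] at h14
    have h16 : 0 ≤ c0 * ‖w‖ ^ p := by positivity
    have h17 : 0 ≤ ε * (1 + ‖w‖ ^ p) := by positivity
    rw [mul_assoc (1 / (4 * c0))]
    linarith
  · -- case r ≤ R
    push Not at hrR
    have hv1 : ‖w / (RR p : ℂ)‖ ≤ 1 := by rw [hnv, div_le_one h1h]; exact hrR
    have hq1 : be m * ((1 + h - ‖w‖) / (1 + h)) / 2 ≤ q := by
      have h1 := hQH m (w / (RR p : ℂ)) hv1
      rw [← hq] at h1
      refine le_trans ?_ h1
      rw [mul_div_assoc]
      apply mul_le_mul_of_nonneg_left _ hb0.le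
      have e1 : (1 + h - ‖w‖) / (1 + h) = 1 - ‖w / (RR p : ℂ)‖ := by
        rw [hnv]; field_simp
      rw [e1]
      apply div_le_div_of_nonneg_left (by linarith)
      · linarith [norm_nonneg (w / (RR p : ℂ))]
      · linarith
    have hNpos : (0 : ℝ) < 2 * n + 1 := by linarith
    have hel := GG_el (be m) h ‖w‖ (2 * n + 1) hb0.le hh0 hrR
    rw [← hbn] at hel
    obtain ⟨t, ht⟩ : ∃ t : ℝ, t = max (‖w‖ - 1) 0 := ⟨_, rfl⟩
    rw [← ht] at hel
    have ht0 : 0 ≤ t := by rw [ht]; exact le_max_right _ _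
    have hqa : -(be m / 2 * (h ^ 2 + h / (2 * n + 1) + t)) ≤ q - a := by linarith
    have h5 : p * √p * (-(be m / 2 * (h ^ 2 + h / (2 * n + 1) + t))) ≤ p * √p * (q - a) :=
      mul_le_mul_of_nonneg_left hqa (by positivity)
    have h6 : p * √p * (-(be m / 2 * (h ^ 2 + h / (2 * n + 1) + t))) =
        -(√p * be m / 2 * (p * h ^ 2 + p * h / (2 * n + 1) + p * t)) := by ring
    have h7 : p * h ^ 2 ≤ 9 * (L ^ 2 / p) := by
      have : h ^ 2 ≤ (3 * (L / p)) ^ 2 := pow_le_pow_left₀ hh0 hh3 2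
      have h8 : p * h ^ 2 ≤ p * (3 * (L / p)) ^ 2 := mul_le_mul_of_nonneg_left this hp0.le
      have h9 : p * (3 * (L / p)) ^ 2 = 9 * (L ^ 2 / p) := by field_simp; ring
      linarith
    have h8 : p * h / (2 * n + 1) ≤ 3 * (L / p) := by
      rw [div_le_iff₀ hNpos]
      nlinarith [mul_nonneg hh0 (sub_nonneg.2 hN), mul_nonneg (sub_nonneg.2 hh3) hNpos.le]
    have h9 : p * h ^ 2 + p * h / (2 * n + 1) + p * t ≤
        9 * (L ^ 2 / p) + 3 * (L / p) + p * t := by linarith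
    have hk0 : 0 < (1 + ε) / √Real.pi := by positivity
    have h10 : √p * be m / 2 * (p * h ^ 2 + p * h / (2 * n + 1) + p * t) ≤
        (1 + ε) / √Real.pi / 2 * (9 * (L ^ 2 / p) + 3 * (L / p) + p * t) := by
      apply mul_le_mul _ h9 (by positivity) (by positivity)
      linarith
    have h11 : -((1 + ε) / √Real.pi / 2 * (9 * (L ^ 2 / p) + 3 * (L / p) + p * t)) ≤
        p * √p * (q - a) := by rw [h6] at h5; linarith
    have h12 := mul_le_mul_of_nonneg_left h11 h4c.le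
    have h13 : 1 / (4 * c0) * (-((1 + ε) / √Real.pi / 2 * (9 * (L ^ 2 / p) + 3 * (L / p) + p * t))) =
        -(1 / (8 * c0) * ((1 + ε) / √Real.pi) * (9 * (L ^ 2 / p) + 3 * (L / p))) -
        1 / (8 * c0) * ((1 + ε) / √Real.pi) * (p * t) := by
      field_simp
      ring
    rw [h13] at h12
    have h14 : 1 / (8 * c0) * ((1 + ε) / √Real.pi) = (1 + ε) * (Real.exp 1 * c0) := by
      have : 1 / (8 * c0) * ((1 + ε) / √Real.pi) = (1 + ε) * (1 / (8 * c0 * √Real.pi)) := by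
        field_simp
      rw [this]
      congr 1
      rw [div_eq_iff (by positivity)]
      linarith
    have hvv : c0 * ‖w‖ ^ p - ε - (1 + ε) * (Real.exp 1 * c0) * (p * t) ≤
        c0 * ‖w‖ ^ p + 1 / (4 * c0) * (p * √p * (q - a)) := by
      rw [h14] at h12 k5
      linarith
    rw [mul_assoc (1 / (4 * c0))]
    refine le_trans ?_ hvv
    by_cases hr1 : ‖w‖ ≤ 1
    · have ht' : t = 0 := by rw [ht]; exact max_eq_right (by linarith)
      rw [ht']
      have : 0 ≤ c0 * ‖w‖ ^ p := by positivity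
      have h15 : 0 ≤ ε * ‖w‖ ^ p := by positivity
      have h16 : ε * (1 + ‖w‖ ^ p) = ε + ε * ‖w‖ ^ p := by ring
      rw [mul_zero, mul_zero, sub_zero, h16]
      linarith only [this, h15]
    · push Not at hr1
      have ht' : t = ‖w‖ - 1 := by rw [ht]; exact max_eq_left (by linarith)
      have hwpos : 0 < ‖w‖ := by linarith
      obtain ⟨y, hy⟩ : ∃ y : ℝ, y = Real.log ‖w‖ := ⟨_, rfl⟩
      have hy0 : 0 < y := by rw [hy]; exact Real.log_pos hr1
      have hwy : ‖w‖ = Real.exp y := by rw [hy, Real.exp_log hwpos]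
      have hy1 : y ≤ 2 * (L / p) := by
        rw [hy, ← hx1]
        have : Real.log ‖w‖ ≤ Real.log (RR p) := Real.log_le_log hwpos (by rw [hR]; exact hrR)
        unfold RR at this
        rwa [Real.log_exp] at this
      have hrx : ‖w‖ ^ p = Real.exp (y * p) := by rw [hwy, ← Real.exp_mul]
      have h16 : p * t ≤ (y * p) * (1 + 2 * (L / p)) := by
        rw [ht', hwy]
        have := GG_exp hy0.le (by linarith)
        have h17 : p * (Real.exp y - 1) ≤ p * (y * (1 + y)) := mul_le_mul_of_nonneg_left this hp0.le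
        have h18 : p * (y * (1 + y)) ≤ p * (y * (1 + 2 * (L / p))) := by
          apply mul_le_mul_of_nonneg_left _ hp0.le
          apply mul_le_mul_of_nonneg_left _ hy0.le
          linarith
        linarith
      have h17 : (1 + ε) * (p * t) ≤ (1 + 2 * ε) * (y * p) := by
        have h18 : (1 + ε) * (p * t) ≤ (1 + ε) * ((y * p) * (1 + 2 * (L / p))) :=
          mul_le_mul_of_nonneg_left h16 (by linarith)
        have h19 : (1 + ε) * ((y * p) * (1 + 2 * (L / p))) =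
            ((1 + ε) * (1 + 2 * (L / p))) * (y * p) := by ring
        have h20 : ((1 + ε) * (1 + 2 * (L / p))) * (y * p) ≤ (1 + 2 * ε) * (y * p) :=
          mul_le_mul_of_nonneg_right k3 (by positivity)
        linarith
      have h18 : Real.exp 1 * (y * p) ≤ Real.exp (y * p) := by
        have := Real.add_one_le_exp (y * p - 1)
        have h19 : Real.exp (y * p) = Real.exp 1 * Real.exp (y * p - 1) := by
          rw [← Real.exp_add]; ring_nf
        rw [h19]
        exact mul_le_mul_of_nonneg_left (by linarith) (Real.exp_pos 1).le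
      have h19 : (1 + ε) * (Real.exp 1 * c0) * (p * t) ≤ (1 + 2 * ε) * c0 * Real.exp (y * p) := by
        calc (1 + ε) * (Real.exp 1 * c0) * (p * t) = (Real.exp 1 * c0) * ((1 + ε) * (p * t)) := by ring
          _ ≤ (Real.exp 1 * c0) * ((1 + 2 * ε) * (y * p)) :=
              mul_le_mul_of_nonneg_left h17 (by positivity)
          _ = (1 + 2 * ε) * c0 * (Real.exp 1 * (y * p)) := by ring
          _ ≤ (1 + 2 * ε) * c0 * Real.exp (y * p) := mul_le_mul_of_nonneg_left h18 (by positivity)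
      rw [hrx]
      have h20 : 0 < Real.exp (y * p) := Real.exp_pos _
      have h21 : 2 * ε * c0 * Real.exp (y * p) ≤ ε * Real.exp (y * p) := by
        apply mul_le_mul_of_nonneg_right _ h20.le
        have h22 : 2 * ε * c0 ≤ 2 * ε * (1 / 4) := mul_le_mul_of_nonneg_left c0lt.le (by linarith)
        linarith only [h22, hε]
      have h23 : ε * (1 + Real.exp (y * p)) = ε + ε * Real.exp (y * p) := by ring
      have h24 : (1 + 2 * ε) * c0 * Real.exp (y * p) =
          c0 * Real.exp (y * p) + 2 * ε * c0 * Real.exp (y * p) := by ring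
      rw [h23]
      rw [h24] at h19
      linarith only [h19, h21]

theorem p_GG (hQA : Stmt_QA) (hQU : Stmt_QU) (hQH : Stmt_QH) (hBE : Stmt_BE) : Stmt_GG := by
  intro ε hε hε1
  obtain ⟨c0pos, c0id, c0lt⟩ := GG_c0
  have t1 : Tendsto (fun p : ℝ => Real.log p / p) atTop (𝓝 0) := by
    simpa using Real.isLittleO_log_id_atTop.tendsto_div_nhds_zero
  have t2 : Tendsto (fun p : ℝ => Real.log p ^ 2 / p) atTop (𝓝 0) := by
    simpa using (Real.isLittleO_pow_log_id_atTop (n := 2)).tendsto_div_nhds_zero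
  have t3 : Tendsto (fun p : ℝ => 1 / p) atTop (𝓝 0) := by
    simpa using tendsto_inv_atTop_zero
  have t4 : Tendsto (fun p : ℝ => 1 / √p) atTop (𝓝 0) := by
    simpa [Function.comp_def] using tendsto_inv_atTop_zero.comp Real.tendsto_sqrt_atTop
  have e1 : ∀ᶠ p : ℝ in atTop, Real.log p / p ≤ 1 / 8 := t1.eventually_le_const (by norm_num)
  have e2 : ∀ᶠ p : ℝ in atTop, 1 / √p ≤ 2 * c0 ^ 2 := t4.eventually_le_const (by positivity)
  have e3 : ∀ᶠ p : ℝ in atTop, (1 + ε) * (1 + 2 * (Real.log p / p)) ≤ 1 + 2 * ε := by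
    have : Tendsto (fun p : ℝ => (1 + ε) * (1 + 2 * (Real.log p / p))) atTop
        (𝓝 ((1 + ε) * (1 + 2 * 0))) := ((t1.const_mul 2).const_add 1).const_mul (1 + ε)
    exact this.eventually_le_const (by linarith)
  have e4 : ∀ᶠ p : ℝ in atTop, 1 ≤ (1 + ε) ^ 2 * (1 - ε - 1 / p) := by
    have : Tendsto (fun p : ℝ => (1 + ε) ^ 2 * (1 - ε - 1 / p)) atTop
        (𝓝 ((1 + ε) ^ 2 * (1 - ε - 0))) := (t3.const_sub (1 - ε)).const_mul _
    exact this.eventually_const_le (by nlinarith [mul_pos hε hε, mul_pos (mul_pos hε hε) hε])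
  have e5 : ∀ᶠ p : ℝ in atTop, 1 / (8 * c0) * ((1 + ε) / √Real.pi) *
      (9 * (Real.log p ^ 2 / p) + 3 * (Real.log p / p)) ≤ ε := by
    have : Tendsto (fun p : ℝ => 1 / (8 * c0) * ((1 + ε) / √Real.pi) *
        (9 * (Real.log p ^ 2 / p) + 3 * (Real.log p / p))) atTop
        (𝓝 (1 / (8 * c0) * ((1 + ε) / √Real.pi) * (9 * 0 + 3 * 0))) :=
      ((t2.const_mul 9).add (t1.const_mul 3)).const_mul _
    exact this.eventually_le_const (by simpa using hε)
  obtain ⟨p₀, hp₀⟩ := eventually_atTop.1 (e1.and (e2.and (e3.and (e4.and e5))))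
  refine ⟨max p₀ 4, fun p hp w => ?_⟩
  obtain ⟨k1, k2, k3, k4, k5⟩ := hp₀ p ((le_max_left _ _).trans hp)
  exact GG_main hQA hQU hQH hBE ε p hε hε1 ((le_max_right _ _).trans hp) k1 k2 k3 k4 k5 w

end Pool.Agent.Work.MP_d7cff0_an.AS
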