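import Pool.Agent.Work.MP_d7cff0_as.Interface

/-! Block GS of THEOREM AS for MP_d7cff0_an. -/

set_option autoImplicit false

noncomputable section

namespace Pool.Agent.Work.MP_d7cff0_an.AS

open MeasureTheory AddCircle Filter Topology Finset Polynomial
open scoped ENNReal

private lemma GS_rpow : ((9 : ℝ) / 4) ^ (-(3 / 2) : ℝ) = 8 / 27 := by
  have h1 : ((9 : ℝ) / 4) = ((3 : ℝ) / 2) ^ (2 : ℝ) := by norm_num
  rw [h1, ← Real.rpow_mul (by norm_num)]
  have h2 : (2 : ℝ) * -(3 / 2) = ((-3 : ℤ) : ℝ) := by norm_num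
  rw [h2, Real.rpow_intCast]
  norm_num

private lemma GS_slope {s σ : ℝ} (hs : |s| ≤ 1) (hσ : σ = 1 ∧ 0 ≤ s ∨ σ = -1 ∧ s ≤ 0) {a b : ℝ}
    (ha : 1 / 4 ≤ a) (hab : a ≤ b) (hb : b ≤ 9 / 4) :
    4 / 27 * |s| * (b - a) ≤ σ * b ^ (s / 2) - σ * a ^ (s / 2) := by
  have hpos : ∀ x ∈ Set.Icc (1 / 4 : ℝ) (9 / 4), 0 < x := fun x hx => by
    have := hx.1; linarith
  have hder : ∀ x ∈ Set.Icc (1 / 4 : ℝ) (9 / 4),
      HasDerivAt (fun x : ℝ => σ * x ^ (s / 2)) (σ * (s / 2 * x ^ (s / 2 - 1))) x := by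
    intro x hx
    exact (Real.hasDerivAt_rpow_const (Or.inl (hpos x hx).ne')).const_mul σ
  have hσs : σ * (s / 2) = |s| / 2 := by
    rcases hσ with ⟨rfl, h⟩ | ⟨rfl, h⟩
    · rw [abs_of_nonneg h]; ring
    · rw [abs_of_nonpos h]; ring
  obtain ⟨hs1, hs2⟩ := abs_le.mp hs
  refine Convex.mul_sub_le_image_sub_of_le_deriv (convex_Icc (1 / 4 : ℝ) (9 / 4))
    (f := fun x : ℝ => σ * x ^ (s / 2)) ?_ ?_ ?_ a ⟨ha, hab.trans hb⟩ b ⟨ha.trans hab, hb⟩ hab
  · intro x hx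
    exact (hder x hx).continuousAt.continuousWithinAt
  · intro x hx
    exact (hder x (interior_subset hx)).differentiableAt.differentiableWithinAt
  · intro x hx
    have hx' := interior_subset hx
    rw [(hder x hx').deriv, ← mul_assoc, hσs]
    have h1 : (8 : ℝ) / 27 ≤ x ^ (s / 2 - 1) := by
      have h2 : ((9 : ℝ) / 4) ^ (s / 2 - 1) ≤ x ^ (s / 2 - 1) :=
        Real.rpow_le_rpow_of_nonpos (hpos x hx') hx'.2 (by linarith)
      have h3 : ((9 : ℝ) / 4) ^ (-(3 / 2) : ℝ) ≤ ((9 : ℝ) / 4) ^ (s / 2 - 1) :=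
        Real.rpow_le_rpow_of_exponent_le (by norm_num) (by linarith)
      rw [GS_rpow] at h3
      exact h3.trans h2
    have h4 : 0 ≤ |s| := abs_nonneg s
    nlinarith

private lemma GS_point {s σ : ℝ} (hs : |s| ≤ 1) (hσ : σ = 1 ∧ 0 ≤ s ∨ σ = -1 ∧ s ≤ 0) {x x0 : ℝ}
    (hx0 : x0 = (1 - √3) / 2) (hx1 : -1 ≤ x) (hx2 : x ≤ 1) :
    σ * ((5 / 4 - x) ^ (s / 2) - (5 / 4 - x0) ^ (s / 2)) * (x - x ^ 2 + 1 / 2) ≤
      -(4 / 27 * |s| * (x - x0) * (x - x ^ 2 + 1 / 2)) := by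
  have hr : √3 ^ 2 = (3 : ℝ) := Real.sq_sqrt (by norm_num)
  have hr1 : (1 : ℝ) < √3 := by
    rw [Real.lt_sqrt (by norm_num)]; norm_num
  have hr2 : √3 < (2 : ℝ) := by
    rw [Real.sqrt_lt' (by norm_num)]; norm_num
  have hf : x - x ^ 2 + 1 / 2 = (x - x0) * ((1 + √3) / 2 - x) := by
    rw [hx0]; nlinarith
  rcases le_total x0 x with h | h
  · have h1 := GS_slope hs hσ (a := 5 / 4 - x) (b := 5 / 4 - x0) (by linarith) (by linarith)
      (by rw [hx0]; linarith)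
    have h2 : 0 ≤ x - x ^ 2 + 1 / 2 := by
      rw [hf]; exact mul_nonneg (by linarith) (by linarith)
    have h3 : σ * ((5 / 4 - x) ^ (s / 2) - (5 / 4 - x0) ^ (s / 2)) ≤ -(4 / 27 * |s| * (x - x0)) := by
      linarith
    nlinarith
  · have h1 := GS_slope hs hσ (a := 5 / 4 - x0) (b := 5 / 4 - x)
      (by rw [hx0]; linarith) (by linarith) (by linarith)
    have h2 : x - x ^ 2 + 1 / 2 ≤ 0 := by
      rw [hf]; exact mul_nonpos_of_nonpos_of_nonneg (by linarith) (by linarith)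
    have h3 : -(4 / 27 * |s| * (x - x0)) ≤ σ * ((5 / 4 - x) ^ (s / 2) - (5 / 4 - x0) ^ (s / 2)) := by
      linarith
    nlinarith

theorem p_GS : Stmt_GS := by
  intro T _ s σ hs hσ
  have hσ2 : σ ^ 2 = 1 := by
    rcases hσ with ⟨rfl, _⟩ | ⟨rfl, _⟩ <;> norm_num
  set x0 : ℝ := (1 - √3) / 2 with hx0
  set K0 : ℝ := (5 / 4 - x0) ^ (s / 2) with hK0
  set κ : ℝ := 4 / 27 * |s| with hκ
  set P : ℂ[X] := X - C ((σ / 2 : ℝ) : ℂ) * X ^ 2 with hP
  set Q : ℂ[X] := C ((1 / 2 : ℝ) : ℂ) + C ((1 / 2 : ℝ) : ℂ) * X ^ 2 - C ((σ / 4 : ℝ) : ℂ) * X -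
    C ((σ / 4 : ℝ) : ℂ) * X ^ 3 with hQ
  set R : ℂ[X] := C ((K0 + κ * x0 * σ : ℝ) : ℂ) * P - C ((κ : ℝ) : ℂ) * Q with hR
  have hR0 : R.eval 0 = ((-(2 / 27 * |s|) : ℝ) : ℂ) := by
    rw [hR, hP, hQ, hκ]
    simp
    ring
  -- the pointwise inequality
  have hz : ∀ z : ℂ, ‖z‖ = 1 → ‖1 - (σ : ℂ) * z / 2‖ ^ 2 = 5 / 4 - σ * z.re := by
    intro z hz
    have h1 : z.re ^ 2 + z.im ^ 2 = 1 := by
      have := Complex.sq_norm z
      rw [hz, Complex.normSq_apply] at this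
      nlinarith
    rw [Complex.sq_norm, Complex.normSq_apply]
    have e1 : (1 - (σ : ℂ) * z / 2).re = 1 - σ * z.re / 2 := by simp
    have e2 : (1 - (σ : ℂ) * z / 2).im = -(σ * z.im / 2) := by simp
    rw [e1, e2]
    nlinarith
  have hpt : ∀ z : ℂ, ‖z‖ = 1 →
      ‖1 - (σ : ℂ) * z / 2‖ ^ s * (z - (σ : ℂ) * z ^ 2 / 2).re ≤ (R.eval z).re := by
    intro z hz1
    have h1 : z.re ^ 2 + z.im ^ 2 = 1 := by
      have := Complex.sq_norm z
      rw [hz1, Complex.normSq_apply] at this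
      nlinarith
    have hre : |z.re| ≤ 1 := by rw [← hz1]; exact Complex.abs_re_le_norm z
    obtain ⟨hre1, hre2⟩ := abs_le.mp hre
    have hx1 : -1 ≤ σ * z.re := by
      rcases hσ with ⟨rfl, _⟩ | ⟨rfl, _⟩ <;> linarith
    have hx2 : σ * z.re ≤ 1 := by
      rcases hσ with ⟨rfl, _⟩ | ⟨rfl, _⟩ <;> linarith
    have hpow : ‖1 - (σ : ℂ) * z / 2‖ ^ s = (5 / 4 - σ * z.re) ^ (s / 2) := by
      rw [← hz z hz1, ← Real.rpow_natCast, ← Real.rpow_mul (norm_nonneg _)]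
      congr 1
      push_cast
      ring
    have hPre : (z - (σ : ℂ) * z ^ 2 / 2).re = σ * (σ * z.re - (σ * z.re) ^ 2 + 1 / 2) := by
      have e : (z - (σ : ℂ) * z ^ 2 / 2).re = z.re - σ * (z.re ^ 2 - z.im ^ 2) / 2 := by
        simp [pow_two]
      rw [e]
      have h2 : z.im ^ 2 = 1 - z.re ^ 2 := by linarith
      rw [h2]
      rcases hσ with ⟨rfl, _⟩ | ⟨rfl, _⟩ <;> ring
    have hPe : (P.eval z).re = σ * (σ * z.re - (σ * z.re) ^ 2 + 1 / 2) := by
      rw [← hPre, hP]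
      simp
      ring
    have hQe : (Q.eval z).re = σ * z.re * (σ * z.re - (σ * z.re) ^ 2 + 1 / 2) := by
      have e : (Q.eval z).re = 1 / 2 + 1 / 2 * (z.re ^ 2 - z.im ^ 2) - σ / 4 * z.re -
          σ / 4 * (z.re ^ 3 - 3 * z.re * z.im ^ 2) := by
        rw [hQ]
        simp only [eval_add, eval_sub, eval_mul, eval_C, eval_pow, eval_X, Complex.add_re,
          Complex.sub_re, Complex.ofReal_re, Complex.re_ofReal_mul]
        have e2 : (z ^ 2).re = z.re ^ 2 - z.im ^ 2 := by simp [pow_two]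
        have e3 : (z ^ 3).re = z.re ^ 3 - 3 * z.re * z.im ^ 2 := by
          simp [pow_succ]; ring
        rw [e2, e3]
      rw [e]
      have h2 : z.im ^ 2 = 1 - z.re ^ 2 := by linarith
      rw [h2]
      rcases hσ with ⟨rfl, _⟩ | ⟨rfl, _⟩ <;> ring
    have hRe : (R.eval z).re = (K0 + κ * x0 * σ) * (σ * (σ * z.re - (σ * z.re) ^ 2 + 1 / 2)) -
        κ * (σ * z.re * (σ * z.re - (σ * z.re) ^ 2 + 1 / 2)) := by
      rw [← hPe, ← hQe, hR]
      simp only [eval_sub, eval_mul, eval_C, Complex.sub_re, Complex.re_ofReal_mul]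
    rw [hpow, hPre, hRe]
    have key := GS_point hs hσ (x := σ * z.re) hx0 hx1 hx2
    rw [← hK0, ← hκ] at key
    set f : ℝ := σ * z.re - (σ * z.re) ^ 2 + 1 / 2 with hf
    set h : ℝ := (5 / 4 - σ * z.re) ^ (s / 2) with hh
    have e1 : (K0 + κ * x0 * σ) * (σ * f) = K0 * σ * f + κ * x0 * f * σ ^ 2 := by ring
    rw [e1, hσ2]
    nlinarith
  -- integration
  have hcz : Continuous (fun t : AddCircle T => fourier (T := T) 1 t) := (fourier (T := T) 1).continuous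
  have hnz : ∀ t : AddCircle T, ‖fourier (T := T) 1 t‖ = 1 := fun t => norm_fourier_one t
  have hb : ∀ t : AddCircle T, ‖1 - (σ : ℂ) * fourier (T := T) 1 t / 2‖ ≠ 0 := by
    intro t h0
    have h1 := hz _ (hnz t)
    rw [h0] at h1
    have hre : |(fourier (T := T) 1 t).re| ≤ 1 := by
      rw [← hnz t]; exact Complex.abs_re_le_norm _
    obtain ⟨hre1, hre2⟩ := abs_le.mp hre
    rcases hσ with ⟨rfl, _⟩ | ⟨rfl, _⟩ <;> linarith
  have hint : ∀ g : AddCircle T → ℝ, Continuous g → Integrable g (haarAddCircle (T := T)) :=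
    fun g hg => hg.integrable_of_hasCompactSupport (HasCompactSupport.of_compactSpace g)
  have hc1 : Continuous (fun t : AddCircle T => ‖1 - (σ : ℂ) * fourier (T := T) 1 t / 2‖ ^ s *
      (fourier (T := T) 1 t - (σ : ℂ) * (fourier (T := T) 1 t) ^ 2 / 2).re) := by
    refine Continuous.mul ?_ ?_
    · refine Continuous.rpow_const (by fun_prop) fun t => Or.inl (hb t)
    · exact Complex.continuous_re.comp (by fun_prop)
  have hc2 : Continuous (fun t : AddCircle T => (pc (T := T) R t).re) :=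
    Complex.continuous_re.comp (pc (T := T) R).continuous
  have hmain : cI T (fun z => ‖1 - (σ : ℂ) * z / 2‖ ^ s * (z - (σ : ℂ) * z ^ 2 / 2).re) ≤
      ∫ t, (pc (T := T) R t).re ∂(haarAddCircle (T := T)) := by
    unfold cI
    refine integral_mono (hint _ hc1) (hint _ hc2) fun t => ?_
    rw [pc_apply]
    exact hpt _ (hnz t)
  refine hmain.trans (le_of_eq ?_)
  have hi : Integrable (fun t => pc (T := T) R t) (haarAddCircle (T := T)) :=
    (pc (T := T) R).continuous.integrable_of_hasCompactSupport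
      (HasCompactSupport.of_compactSpace _)
  have e1 : ∫ t, (pc (T := T) R t).re ∂(haarAddCircle (T := T)) =
      (∫ t, pc (T := T) R t ∂(haarAddCircle (T := T))).re := integral_re hi
  rw [e1]
  have e2 : ∫ t, pc (T := T) R t ∂(haarAddCircle (T := T)) = mean (pc (T := T) R) := rfl
  rw [e2, mean_pc, hR0, Complex.ofReal_re]

end Pool.Agent.Work.MP_d7cff0_an.AS
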