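import Pool.Agent.Work.MP_d7cff0_as.Interface

set_option autoImplicit false

noncomputable section

namespace Pool.Agent.Work.MP_d7cff0_an.AS

open MeasureTheory AddCircle Filter Topology Finset Polynomial
open scoped ENNReal

theorem p_LNK : Stmt_LNK := by
  intro T _ F hF
  have hT : (0 : ℝ) < T := Fact.out
  have hπ : (0 : ℝ) < 2 * Real.pi := by positivity
  unfold cI Real.circleAverage
  rw [AddCircle.integral_haarAddCircle]
  rw [← AddCircle.intervalIntegral_preimage T 0 (fun t : AddCircle T => F (fourier (T := T) 1 t))]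
  have h1 : ∀ x : ℝ, F (fourier (T := T) 1 (x : AddCircle T)) = F (circleMap 0 1 (2 * Real.pi / T * x)) := by
    intro x
    congr 1
    rw [fourier_coe_apply, circleMap]
    simp only [zero_add, Complex.ofReal_one, one_mul]
    congr 1
    push_cast
    ring
  have h2 : (∫ x in (0 : ℝ)..(0 + T), F (fourier (T := T) 1 (x : AddCircle T))) =
      ∫ x in (0 : ℝ)..T, F (circleMap 0 1 (2 * Real.pi / T * x)) := by
    rw [zero_add]
    exact intervalIntegral.integral_congr fun x _ => h1 x
  rw [h2]
  have hne : (2 * Real.pi / T) ≠ 0 := by positivity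
  rw [intervalIntegral.integral_comp_mul_left (fun θ => F (circleMap 0 1 θ)) hne]
  rw [mul_zero, div_mul_cancel₀ _ hT.ne']
  simp only [smul_eq_mul]
  field_simp

end Pool.Agent.Work.MP_d7cff0_an.AS
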