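import Pool.Agent.Work.MP_d7cff0_as.Interface

set_option autoImplicit false

noncomputable section

namespace Pool.Agent.Work.MP_d7cff0_an.AS

open MeasureTheory AddCircle Filter Topology Finset Polynomial
open scoped ENNReal

/-- `S(w) = |w - a|² + δ²` -/
def LPN_S (a : ℂ) (δ : ℝ) (w : ℂ) : ℝ := ‖w - a‖ ^ 2 + δ ^ 2

theorem LPN_S_pos (a : ℂ) {δ : ℝ} (hδ : 0 < δ) (w : ℂ) : 0 < LPN_S a δ w := by
  unfold LPN_S
  positivity

theorem LPN_S_contDiff (a : ℂ) (δ : ℝ) : ContDiff ℝ 2 (LPN_S a δ) := by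
  unfold LPN_S
  exact ((contDiff_id.sub contDiff_const).norm_sq ℝ).add contDiff_const

theorem LPN_S_hasFDerivAt (a : ℂ) (δ : ℝ) (w : ℂ) :
    HasFDerivAt (LPN_S a δ) ((2 : ℝ) • (innerSL ℝ (w - a))) w := by
  have h1 : HasFDerivAt (fun z : ℂ => z - a) (ContinuousLinearMap.id ℝ ℂ) w :=
    (hasFDerivAt_id w).sub_const a
  have h2 := h1.norm_sq
  have h3 := h2.add_const (δ ^ 2)
  unfold LPN_S
  refine h3.congr_fderiv ?_
  ext x
  simp

theorem LPN_rpow_hasFDerivAt (a : ℂ) {δ : ℝ} (hδ : 0 < δ) (s : ℝ) (w : ℂ) :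
    HasFDerivAt (fun z => LPN_S a δ z ^ s)
      ((s * LPN_S a δ w ^ (s - 1)) • ((2 : ℝ) • (innerSL ℝ (w - a)))) w :=
  (LPN_S_hasFDerivAt a δ w).rpow_const (Or.inl (LPN_S_pos a hδ w).ne')

theorem LPN_fderiv (a : ℂ) (q : ℝ) {δ : ℝ} (hδ : 0 < δ) :
    fderiv ℝ (VN a q δ) = fun w => (q * LPN_S a δ w ^ (q / 2 - 1)) • (innerSL ℝ (w - a)) := by
  funext w
  have h := (LPN_rpow_hasFDerivAt a hδ (q / 2) w).fderiv
  have e : VN a q δ = fun z => LPN_S a δ z ^ (q / 2) := rfl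
  rw [e, h, smul_smul]
  congr 1
  ring

theorem LPN_second (a : ℂ) (q : ℝ) {δ : ℝ} (hδ : 0 < δ) (w e : ℂ) :
    fderiv ℝ (fderiv ℝ (VN a q δ)) w e e =
      q * LPN_S a δ w ^ (q / 2 - 1) * (innerSL ℝ e e) +
        q * ((q / 2 - 1) * LPN_S a δ w ^ (q / 2 - 2)) * (2 * (innerSL ℝ (w - a) e) ^ 2) := by
  rw [LPN_fderiv a q hδ]
  have h1 : HasFDerivAt (fun z : ℂ => innerSL ℝ (z - a)) (innerSL ℝ : ℂ →L[ℝ] ℂ →L[ℝ] ℝ) w := by
    have := ((innerSL ℝ : ℂ →L[ℝ] ℂ →L[ℝ] ℝ).hasFDerivAt (x := w - a)).comp w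
      ((hasFDerivAt_id w).sub_const a)
    exact this
  have h2 := (LPN_rpow_hasFDerivAt a hδ (q / 2 - 1) w).const_mul q
  have h3 := (h2.smul h1).fderiv
  have h4 : (fun w => (q * LPN_S a δ w ^ (q / 2 - 1)) • (innerSL ℝ) (w - a)) =
      ((fun y => q * LPN_S a δ y ^ (q / 2 - 1)) • fun z => (innerSL ℝ) (z - a)) := rfl
  rw [h4, h3]
  have e2 : q / 2 - 1 - 1 = q / 2 - 2 := by ring
  simp only [ContinuousLinearMap.add_apply, ContinuousLinearMap.smul_apply,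
    ContinuousLinearMap.smulRight_apply, smul_eq_mul, e2]
  ring

open Laplacian InnerProductSpace in
theorem p_LPN : Stmt_LPN := by
  intro a q δ hδ
  constructor
  · have h : VN a q δ = fun w => LPN_S a δ w ^ (q / 2) := rfl
    rw [h]
    exact (LPN_S_contDiff a δ).rpow_const_of_ne fun w => (LPN_S_pos a hδ w).ne'
  · intro w
    rw [laplacian_eq_iteratedFDeriv_complexPlane]
    simp only [iteratedFDeriv_two_apply]
    have e1 := LPN_second a q hδ w 1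
    have e2 := LPN_second a q hδ w Complex.I
    have hS := LPN_S_pos a hδ w
    have hp : LPN_S a δ w ^ (q / 2 - 1) = LPN_S a δ w ^ (q / 2 - 2) * LPN_S a δ w := by
      rw [← Real.rpow_add_one hS.ne']
      congr 1
      ring
    simp only [Matrix.cons_val_zero, Matrix.cons_val_one, e1, e2, hp]
    have i1 : innerSL ℝ (1 : ℂ) (1 : ℂ) = 1 := by simp
    have i2 : innerSL ℝ Complex.I Complex.I = 1 := by simp
    have i3 : (innerSL ℝ (w - a) (1 : ℂ)) ^ 2 + (innerSL ℝ (w - a) Complex.I) ^ 2 = ‖w - a‖ ^ 2 := by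
      simp only [innerSL_apply_apply, Complex.inner]
      rw [← Complex.normSq_eq_norm_sq, Complex.normSq_apply]
      simp
      ring
    have hw : (‖w - a‖ ^ 2 + δ ^ 2) = LPN_S a δ w := rfl
    have hw2 : LPN_S a δ w = ‖w - a‖ ^ 2 + δ ^ 2 := rfl
    rw [hw, i1, i2]
    have := i3
    set X := innerSL ℝ (w - a) (1 : ℂ)
    set Y := innerSL ℝ (w - a) Complex.I
    set Z := LPN_S a δ w ^ (q / 2 - 2)
    rw [hw2]
    have hX : X ^ 2 = ‖w - a‖ ^ 2 - Y ^ 2 := by linarith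
    rw [hX]
    ring

end Pool.Agent.Work.MP_d7cff0_an.AS
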