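import Pool.Agent.Work.MP_d7cff0_as.Interface

/-!
# Block LPS: `VS` is `C²` with non-negative Laplacian (helper6)
-/

set_option autoImplicit false

noncomputable section

namespace Pool.Agent.Work.MP_d7cff0_an.AS

open MeasureTheory AddCircle Filter Topology Finset Polynomial
open scoped ENNReal

/-- second derivatives along lines -/
theorem LPS_line (f : ℂ → ℝ) (hf : ContDiff ℝ 2 f) (w v : ℂ) (g : ℝ → ℝ) (g2 : ℝ)
    (h1 : ∀ t : ℝ, HasDerivAt (fun s : ℝ => f (w + s • v)) (g t) t) (h2 : HasDerivAt g g2 0) :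
    iteratedFDeriv ℝ 2 f w ![v, v] = g2 := by
  rw [iteratedFDeriv_two_apply]
  have hd : Differentiable ℝ f := hf.differentiable (by norm_num)
  have hd2 : Differentiable ℝ (fderiv ℝ f) := (hf.fderiv_right (m := 1) (by norm_num)).differentiable (by norm_num)
  have hline : ∀ t : ℝ, HasDerivAt (fun s : ℝ => w + s • v) v t := by
    intro t
    have h := ((hasDerivAt_id t).smul_const v).const_add w
    simpa using h
  have e1 : ∀ t : ℝ, g t = fderiv ℝ f (w + t • v) v := by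
    intro t
    have h := ((hd (w + t • v)).hasFDerivAt).comp_hasDerivAt t (hline t)
    exact (h1 t).unique h
  have e2 : HasDerivAt (fun t : ℝ => fderiv ℝ f (w + t • v)) (fderiv ℝ (fderiv ℝ f) (w + (0 : ℝ) • v) v) 0 :=
    ((hd2 (w + (0 : ℝ) • v)).hasFDerivAt).comp_hasDerivAt (0 : ℝ) (hline 0)
  have e3 : HasDerivAt (fun t : ℝ => fderiv ℝ f (w + t • v) v) ((fderiv ℝ (fderiv ℝ f) (w + (0 : ℝ) • v) v) v) 0 := by
    have h := e2.clm_apply (hasDerivAt_const (0 : ℝ) v)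
    simpa using h
  have e4 : g = fun t : ℝ => fderiv ℝ f (w + t • v) v := funext e1
  rw [e4] at h2
  have e5 := e3.unique h2
  simpa using e5

/-- the basic computation: `S = (√A + B) / 2` -/
theorem LPS_sqrt (A A' B : ℝ → ℝ) (b A'' : ℝ) (t : ℝ) (hA : HasDerivAt A (A' t) t) (hA' : HasDerivAt A' A'' t)
    (hB : HasDerivAt B b t) (hpos : 0 < A t) (hS : 0 < (√(A t) + B t) / 2) :
    HasDerivAt (fun s => (A' s / (2 * √(A s)) + b) / 2 / (2 * √((√(A s) + B s) / 2)))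
      (((A'' / (2 * √(A t)) - A' t ^ 2 / (4 * (√(A t)) ^ 3)) / 2) / (2 * √((√(A t) + B t) / 2)) -
        ((A' t / (2 * √(A t)) + b) / 2) ^ 2 / (4 * (√((√(A t) + B t) / 2)) ^ 3)) t := by
  have hn : HasDerivAt (fun s => √(A s)) (A' t / (2 * √(A t))) t := hA.sqrt hpos.ne'
  have hSd : HasDerivAt (fun s => (√(A s) + B s) / 2) ((A' t / (2 * √(A t)) + b) / 2) t := (hn.add hB).div_const 2
  have hr : HasDerivAt (fun s => √((√(A s) + B s) / 2)) ((A' t / (2 * √(A t)) + b) / 2 / (2 * √((√(A t) + B t) / 2))) t :=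
    hSd.sqrt hS.ne'
  have hn0 : 0 < √(A t) := Real.sqrt_pos.mpr hpos
  have hr0 : 0 < √((√(A t) + B t) / 2) := Real.sqrt_pos.mpr hS
  have h1 : HasDerivAt (fun s => A' s / (2 * √(A s))) ((A'' * (2 * √(A t)) - A' t * (2 * (A' t / (2 * √(A t))))) / (2 * √(A t)) ^ 2) t :=
    hA'.div (hn.const_mul 2) (by positivity)
  have h2 := ((h1.add_const b).div_const 2).div (hr.const_mul 2) (by positivity)
  refine h2.congr_deriv ?_
  have hne1 : √(A t) ≠ 0 := hn0.ne'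
  have hne2 : √((√(A t) + B t) / 2) ≠ 0 := hr0.ne'
  generalize √((√(A t) + B t) / 2) = r at *
  generalize √(A t) = n at *
  field_simp
  ring

theorem LPS_n (δ : ℝ) (hδ : 0 < δ) (w : ℂ) : 0 < (√(‖w‖ ^ 2 + δ ^ 2) + w.re) / 2 := by
  have h1 : ‖w‖ ^ 2 = w.re ^ 2 + w.im ^ 2 := by
    rw [Complex.sq_norm, Complex.normSq_apply]; ring
  have h2 : |w.re| < √(‖w‖ ^ 2 + δ ^ 2) := by
    apply Real.lt_sqrt_of_sq_lt
    rw [sq_abs, h1]
    nlinarith [sq_nonneg w.im, sq_pos_of_pos hδ]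
  have h3 := neg_abs_le w.re
  linarith

theorem LPS_smooth (δ : ℝ) (hδ : 0 < δ) : ContDiff ℝ 2 (VS δ) := by
  unfold VS
  have h1 : ContDiff ℝ 2 (fun w : ℂ => ‖w‖ ^ 2 + δ ^ 2) := (contDiff_norm_sq ℝ).add contDiff_const
  have h2 : ContDiff ℝ 2 (fun w : ℂ => √(‖w‖ ^ 2 + δ ^ 2)) :=
    h1.sqrt (fun w => by positivity)
  have h3 : ContDiff ℝ 2 (fun w : ℂ => (√(‖w‖ ^ 2 + δ ^ 2) + w.re) / 2) :=
    (h2.add Complex.reCLM.contDiff).div_const 2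
  exact h3.sqrt (fun w => (LPS_n δ hδ w).ne')

theorem LPS_final (x y δ n r : ℝ) (hδ : 0 < δ) (hn : 0 < n) (hn2 : n ^ 2 = x ^ 2 + y ^ 2 + δ ^ 2) (hr : 0 < r)
    (hr2 : r ^ 2 = (n + x) / 2) :
    0 ≤ (((2 / (2 * n) - (2 * x) ^ 2 / (4 * n ^ 3)) / 2) / (2 * r) - ((2 * x / (2 * n) + 1) / 2) ^ 2 / (4 * r ^ 3)) +
      (((2 / (2 * n) - (2 * y) ^ 2 / (4 * n ^ 3)) / 2) / (2 * r) - ((2 * y / (2 * n) + 0) / 2) ^ 2 / (4 * r ^ 3)) := by
  have e : (((2 / (2 * n) - (2 * x) ^ 2 / (4 * n ^ 3)) / 2) / (2 * r) - ((2 * x / (2 * n) + 1) / 2) ^ 2 / (4 * r ^ 3)) +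
      (((2 / (2 * n) - (2 * y) ^ 2 / (4 * n ^ 3)) / 2) / (2 * r) - ((2 * y / (2 * n) + 0) / 2) ^ 2 / (4 * r ^ 3)) =
      (4 * r ^ 2 * (2 * n ^ 2 - x ^ 2 - y ^ 2) - n * ((x + n) ^ 2 + y ^ 2)) / (16 * n ^ 3 * r ^ 3) := by
    field_simp
    ring
  rw [e]
  apply div_nonneg _ (by positivity)
  rw [hr2]
  have hnx : 0 < n + x := by
    have : 0 < r ^ 2 := by positivity
    rw [hr2] at this
    linarith
  have e2 : 4 * ((n + x) / 2) * (2 * n ^ 2 - x ^ 2 - y ^ 2) - n * ((x + n) ^ 2 + y ^ 2) =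
      2 * (n + x) * (n ^ 2 + (n ^ 2 - x ^ 2 - y ^ 2)) - n * (x ^ 2 + y ^ 2 + 2 * x * n + n ^ 2) := by ring
  rw [e2]
  have e3 : n ^ 2 - x ^ 2 - y ^ 2 = δ ^ 2 := by linarith
  have e4 : x ^ 2 + y ^ 2 = n ^ 2 - δ ^ 2 := by linarith
  rw [e3, show x ^ 2 + y ^ 2 + 2 * x * n + n ^ 2 = (x ^ 2 + y ^ 2) + 2 * x * n + n ^ 2 from by ring, e4]
  have e5 : 2 * (n + x) * (n ^ 2 + δ ^ 2) - n * (n ^ 2 - δ ^ 2 + 2 * x * n + n ^ 2) = 2 * (n + x) * δ ^ 2 + n * δ ^ 2 := by ring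
  rw [e5]
  positivity

theorem p_LPS : Stmt_LPS := by
  intro δ hδ
  refine ⟨LPS_smooth δ hδ, ?_⟩
  intro w
  rw [InnerProductSpace.laplacian_eq_iteratedFDeriv_complexPlane]
  have hsm := LPS_smooth δ hδ
  have hnorm : ∀ z : ℂ, ‖z‖ ^ 2 = z.re ^ 2 + z.im ^ 2 := by
    intro z
    rw [Complex.sq_norm, Complex.normSq_apply]; ring
  -- direction 1
  have hx : iteratedFDeriv ℝ 2 (VS δ) w ![1, 1] =
      (((2 / (2 * √(w.re ^ 2 + w.im ^ 2 + δ ^ 2)) - (2 * w.re) ^ 2 / (4 * (√(w.re ^ 2 + w.im ^ 2 + δ ^ 2)) ^ 3)) / 2) /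
        (2 * √((√(w.re ^ 2 + w.im ^ 2 + δ ^ 2) + w.re) / 2)) -
        ((2 * w.re / (2 * √(w.re ^ 2 + w.im ^ 2 + δ ^ 2)) + 1) / 2) ^ 2 / (4 * (√((√(w.re ^ 2 + w.im ^ 2 + δ ^ 2) + w.re) / 2)) ^ 3)) := by
    have hval : ∀ s : ℝ, VS δ (w + s • 1) = √((√((w.re + s) ^ 2 + w.im ^ 2 + δ ^ 2) + (w.re + s)) / 2) := by
      intro s
      unfold VS
      rw [hnorm]
      simp
    have hA : ∀ t : ℝ, HasDerivAt (fun s : ℝ => (w.re + s) ^ 2 + w.im ^ 2 + δ ^ 2) (2 * (w.re + t)) t := by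
      intro t
      have h := ((((hasDerivAt_id t).const_add w.re).pow 2).add_const (w.im ^ 2)).add_const (δ ^ 2)
      refine h.congr_deriv ?_
      simp
    have hA' : ∀ t : ℝ, HasDerivAt (fun s : ℝ => 2 * (w.re + s)) 2 t := by
      intro t
      have h := (((hasDerivAt_id t).const_add w.re)).const_mul (2 : ℝ)
      refine h.congr_deriv ?_
      simp
    have hB : ∀ t : ℝ, HasDerivAt (fun s : ℝ => w.re + s) 1 t := fun t => (hasDerivAt_id t).const_add w.re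
    have hpos : ∀ t : ℝ, 0 < (w.re + t) ^ 2 + w.im ^ 2 + δ ^ 2 := fun t => by positivity
    have hS : ∀ t : ℝ, 0 < (√((w.re + t) ^ 2 + w.im ^ 2 + δ ^ 2) + (w.re + t)) / 2 := by
      intro t
      have h := LPS_n δ hδ (w + t • 1)
      rw [hnorm] at h
      simpa using h
    have h1 : ∀ t : ℝ, HasDerivAt (fun s : ℝ => VS δ (w + s • 1))
        ((2 * (w.re + t) / (2 * √((w.re + t) ^ 2 + w.im ^ 2 + δ ^ 2)) + 1) / 2 /
          (2 * √((√((w.re + t) ^ 2 + w.im ^ 2 + δ ^ 2) + (w.re + t)) / 2))) t := by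
      intro t
      have e : (fun s : ℝ => VS δ (w + s • 1)) = fun s : ℝ => √((√((w.re + s) ^ 2 + w.im ^ 2 + δ ^ 2) + (w.re + s)) / 2) :=
        funext hval
      rw [e]
      have hn : HasDerivAt (fun s : ℝ => √((w.re + s) ^ 2 + w.im ^ 2 + δ ^ 2)) (2 * (w.re + t) / (2 * √((w.re + t) ^ 2 + w.im ^ 2 + δ ^ 2))) t :=
        (hA t).sqrt (hpos t).ne'
      exact ((hn.add (hB t)).div_const 2).sqrt (hS t).ne'
    have h2 := LPS_sqrt (fun s : ℝ => (w.re + s) ^ 2 + w.im ^ 2 + δ ^ 2) (fun s : ℝ => 2 * (w.re + s)) (fun s : ℝ => w.re + s) 1 2 0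
      (hA 0) (hA' 0) (hB 0) (hpos 0) (hS 0)
    have h3 := LPS_line (VS δ) hsm w 1 _ _ h1 h2
    rw [h3]
    simp only [add_zero]
  have hy : iteratedFDeriv ℝ 2 (VS δ) w ![Complex.I, Complex.I] =
      (((2 / (2 * √(w.re ^ 2 + w.im ^ 2 + δ ^ 2)) - (2 * w.im) ^ 2 / (4 * (√(w.re ^ 2 + w.im ^ 2 + δ ^ 2)) ^ 3)) / 2) /
        (2 * √((√(w.re ^ 2 + w.im ^ 2 + δ ^ 2) + w.re) / 2)) -
        ((2 * w.im / (2 * √(w.re ^ 2 + w.im ^ 2 + δ ^ 2)) + 0) / 2) ^ 2 / (4 * (√((√(w.re ^ 2 + w.im ^ 2 + δ ^ 2) + w.re) / 2)) ^ 3)) := by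
    have hval : ∀ s : ℝ, VS δ (w + s • Complex.I) = √((√(w.re ^ 2 + (w.im + s) ^ 2 + δ ^ 2) + w.re) / 2) := by
      intro s
      unfold VS
      rw [hnorm]
      simp
    have hA : ∀ t : ℝ, HasDerivAt (fun s : ℝ => w.re ^ 2 + (w.im + s) ^ 2 + δ ^ 2) (2 * (w.im + t)) t := by
      intro t
      have h := ((((hasDerivAt_id t).const_add w.im).pow 2).const_add (w.re ^ 2)).add_const (δ ^ 2)
      refine h.congr_deriv ?_
      simp
    have hA' : ∀ t : ℝ, HasDerivAt (fun s : ℝ => 2 * (w.im + s)) 2 t := by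
      intro t
      have h := (((hasDerivAt_id t).const_add w.im)).const_mul (2 : ℝ)
      refine h.congr_deriv ?_
      simp
    have hB : ∀ t : ℝ, HasDerivAt (fun _ : ℝ => w.re) 0 t := fun t => hasDerivAt_const t w.re
    have hpos : ∀ t : ℝ, 0 < w.re ^ 2 + (w.im + t) ^ 2 + δ ^ 2 := fun t => by positivity
    have hS : ∀ t : ℝ, 0 < (√(w.re ^ 2 + (w.im + t) ^ 2 + δ ^ 2) + w.re) / 2 := by
      intro t
      have h := LPS_n δ hδ (w + t • Complex.I)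
      rw [hnorm] at h
      simpa using h
    have h1 : ∀ t : ℝ, HasDerivAt (fun s : ℝ => VS δ (w + s • Complex.I))
        ((2 * (w.im + t) / (2 * √(w.re ^ 2 + (w.im + t) ^ 2 + δ ^ 2)) + 0) / 2 /
          (2 * √((√(w.re ^ 2 + (w.im + t) ^ 2 + δ ^ 2) + w.re) / 2))) t := by
      intro t
      have e : (fun s : ℝ => VS δ (w + s • Complex.I)) = fun s : ℝ => √((√(w.re ^ 2 + (w.im + s) ^ 2 + δ ^ 2) + w.re) / 2) :=
        funext hval
      rw [e]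
      have hn : HasDerivAt (fun s : ℝ => √(w.re ^ 2 + (w.im + s) ^ 2 + δ ^ 2)) (2 * (w.im + t) / (2 * √(w.re ^ 2 + (w.im + t) ^ 2 + δ ^ 2))) t :=
        (hA t).sqrt (hpos t).ne'
      exact ((hn.add (hB t)).div_const 2).sqrt (hS t).ne'
    have h2 := LPS_sqrt (fun s : ℝ => w.re ^ 2 + (w.im + s) ^ 2 + δ ^ 2) (fun s : ℝ => 2 * (w.im + s)) (fun _ : ℝ => w.re) 0 2 0
      (hA 0) (hA' 0) (hB 0) (hpos 0) (hS 0)
    have h3 := LPS_line (VS δ) hsm w Complex.I _ _ h1 h2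
    rw [h3]
    simp only [add_zero]
  show 0 ≤ iteratedFDeriv ℝ 2 (VS δ) w ![1, 1] + iteratedFDeriv ℝ 2 (VS δ) w ![Complex.I, Complex.I]
  rw [hx, hy]
  have hA0 : 0 < w.re ^ 2 + w.im ^ 2 + δ ^ 2 := by positivity
  have hS0 : 0 < (√(w.re ^ 2 + w.im ^ 2 + δ ^ 2) + w.re) / 2 := by
    have h := LPS_n δ hδ w
    rw [hnorm] at h
    exact h
  exact LPS_final w.re w.im δ (√(w.re ^ 2 + w.im ^ 2 + δ ^ 2)) (√((√(w.re ^ 2 + w.im ^ 2 + δ ^ 2) + w.re) / 2)) hδ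
    (Real.sqrt_pos.mpr hA0) (Real.sq_sqrt hA0.le) (Real.sqrt_pos.mpr hS0) (Real.sq_sqrt hS0.le)

end Pool.Agent.Work.MP_d7cff0_an.AS
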