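import Pool.Agent.Work.MP_d7cff0_as.Interface

/-!
# MP_d7cff0_an, THEOREM AS: block MX (the maximum principle for real parts)
-/

set_option autoImplicit false

noncomputable section

namespace Pool.Agent.Work.MP_d7cff0_an.AS

open MeasureTheory AddCircle Filter Topology Finset Polynomial
open scoped ENNReal

theorem p_MX : Stmt_MX := by
  intro g hg hc h0 u hu
  have hd : DiffContOnCl ℂ (fun z => Complex.exp (-g z)) (Metric.ball 0 1) := by
    refine ⟨(hg.neg).cexp, ?_⟩
    rw [closure_ball (0 : ℂ) one_ne_zero]
    exact (hc.neg).cexp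
  have hmem : u ∈ closure (Metric.ball (0 : ℂ) 1) := by
    rw [closure_ball (0 : ℂ) one_ne_zero, mem_closedBall_zero_iff]
    exact hu
  have key := Complex.norm_le_of_forall_mem_frontier_norm_le (C := 1) Metric.isBounded_ball hd
    (fun z hz => ?_) hmem
  · rw [Complex.norm_exp, Complex.neg_re, Real.exp_le_one_iff] at key
    linarith
  · rw [frontier_ball (0 : ℂ) one_ne_zero, mem_sphere_zero_iff_norm] at hz
    rw [Complex.norm_exp, Complex.neg_re, Real.exp_le_one_iff]
    linarith [h0 z hz]

end Pool.Agent.Work.MP_d7cff0_an.AS
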