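import Pool.Agent.Work.MP_d7cff0_as.B_GG

/-!
# PW: the pointwise inequality for `p → ∞`
-/

set_option autoImplicit false

noncomputable section

namespace Pool.Agent.Work.MP_d7cff0_an.AS

open MeasureTheory AddCircle Filter Topology Finset Polynomial
open scoped ENNReal

theorem PW_pow (x p : ℝ) (hx : 0 ≤ x) : x ^ p = (x ^ 2) ^ (p / 2) := by
  rw [← Real.rpow_natCast x 2, ← Real.rpow_mul hx]
  congr 1
  push_cast
  ring

theorem PW_e (x : ℝ) : 1 + Real.exp (2 * x) ≤ 2 * Real.exp (x + x ^ 2 / 2) := by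
  have h1 := Real.cosh_le_exp_half_sq x
  have h2 : 1 + Real.exp (2 * x) = 2 * (Real.exp x * Real.cosh x) := by
    rw [Real.cosh_eq, mul_div_assoc', mul_add, ← Real.exp_add, ← Real.exp_add, two_mul]
    simp
    ring
  rw [h2, Real.exp_add]
  have h3 : Real.exp x * Real.cosh x ≤ Real.exp x * Real.exp (x ^ 2 / 2) :=
    mul_le_mul_of_nonneg_left h1 (Real.exp_pos x).le
  linarith

theorem PW_ep (x p : ℝ) (hp : 0 ≤ p) : (1 + Real.exp (2 * x)) ^ p ≤ 2 ^ p * Real.exp ((x + x ^ 2 / 2) * p) := by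
  have h1 : (1 + Real.exp (2 * x)) ^ p ≤ (2 * Real.exp (x + x ^ 2 / 2)) ^ p :=
    Real.rpow_le_rpow (by positivity) (PW_e x) hp
  rwa [Real.mul_rpow (by norm_num) (Real.exp_pos _).le, ← Real.exp_mul] at h1

theorem PW_sq (w : ℂ) (hw : 0 < ‖w‖) :
    ‖w - 1‖ ^ 2 = (1 + ‖w‖) ^ 2 - 4 * ‖w‖ * ((‖w‖ + w.re) / (2 * ‖w‖)) := by
  have h1 : 4 * ‖w‖ * ((‖w‖ + w.re) / (2 * ‖w‖)) = 2 * (‖w‖ + w.re) := by
    field_simp
    ring
  have h2 : ‖w - 1‖ ^ 2 = (w.re - 1) ^ 2 + w.im ^ 2 := by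
    rw [← Complex.normSq_eq_norm_sq, Complex.normSq_apply]
    simp
    ring
  have h3 : ‖w‖ ^ 2 = w.re ^ 2 + w.im ^ 2 := by
    rw [← Complex.normSq_eq_norm_sq, Complex.normSq_apply]
    ring
  rw [h1, h2]
  nlinarith [h3]

theorem PW_y (w : ℂ) (hw : 0 < ‖w‖) :
    0 ≤ (‖w‖ + w.re) / (2 * ‖w‖) ∧ (‖w‖ + w.re) / (2 * ‖w‖) ≤ 1 := by
  have h := abs_le.1 (Complex.abs_re_le_norm w)
  constructor
  · exact div_nonneg (by linarith [h.1]) (by linarith)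
  · rw [div_le_one (by linarith)]
    linarith [h.2]

/-- `ρ σ ≤ a (c ρ² + P σ² / (4 c))` if `a² P = 1` -/
theorem PW_amgm (ρ σ a P c : ℝ) (ha : 0 < a) (hc : 0 < c) (h : a ^ 2 * P = 1) :
    ρ * σ ≤ a * (c * ρ ^ 2 + 1 / (4 * c) * P * σ ^ 2) := by
  have hP : P = 1 / a ^ 2 := by
    field_simp
    linarith
  have h1 : a * (c * ρ ^ 2 + 1 / (4 * c) * P * σ ^ 2) - ρ * σ = (2 * c * a * ρ - σ) ^ 2 / (4 * c * a) := by
    rw [hP]
    field_simp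
    ring
  have h2 : 0 ≤ (2 * c * a * ρ - σ) ^ 2 / (4 * c * a) := by positivity
  linarith


theorem PW_lesq {s b : ℝ} (h : s ^ 2 ≤ b ^ 2) (hb : 0 ≤ b) : s ≤ b := by
  by_contra hcon
  rw [not_le] at hcon
  nlinarith only [h, hb, hcon]


theorem PW_negl (ε a A V Q X : ℝ) (hε : 0 < ε) (hε1 : ε < 1 / 10) (hQa : 0 ≤ Q * a) (hA0 : 0 ≤ A) (hG : -(ε * A) ≤ V)
    (h : X ≤ Q * (ε * a) * A) : X ≤ Q * a * ((1 + 4 * ε) * V + 4 * ε * A) := by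
  refine h.trans ?_
  rw [show Q * (ε * a) * A = Q * a * (ε * A) by ring]
  apply mul_le_mul_of_nonneg_left _ hQa
  have h1 : 0 ≤ ε * A := mul_nonneg hε.le hA0
  have h2 : 0 ≤ (1 + 4 * ε) * (V + ε * A) := mul_nonneg (by linarith only [hε]) (by linarith only [hG])
  have h3 : 0 ≤ (2 - 4 * ε) * (ε * A) := mul_nonneg (by linarith only [hε1]) h1
  linarith only [h1, h2, h3]

theorem PW_ca (p L x : ℝ) (w : ℂ) (hp0 : 0 < p) (hxp : x * p = L) (hexpL : Real.exp L = p)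
    (hca : ‖w‖ ≤ 1 - 2 * x) : ‖w - 1‖ ^ p ≤ 2 ^ p * (2 / p) * (1 + ‖w‖ ^ p) := by
  have hrp : 0 ≤ ‖w‖ ^ p := Real.rpow_nonneg (norm_nonneg w) p
  have h2p : (0 : ℝ) < 2 ^ p := Real.rpow_pos_of_pos (by norm_num) p
  have hw1 : ‖w - 1‖ ≤ ‖w‖ + 1 := by
    have := norm_sub_le w 1
    rwa [norm_one] at this
  have h1 : ‖w - 1‖ ≤ 2 * Real.exp (-x) := by
    have := Real.one_sub_le_exp_neg x
    linarith only [this, hw1, hca]
  have h2 : ‖w - 1‖ ^ p ≤ (2 * Real.exp (-x)) ^ p := Real.rpow_le_rpow (norm_nonneg _) h1 hp0.le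
  rw [Real.mul_rpow (by norm_num) (Real.exp_pos _).le, ← Real.exp_mul, neg_mul, hxp, Real.exp_neg, hexpL] at h2
  refine h2.trans ?_
  have h3 : (p : ℝ)⁻¹ ≤ 2 / p * (1 + ‖w‖ ^ p) := by
    rw [div_mul_eq_mul_div, inv_eq_one_div]
    apply div_le_div_of_nonneg_right _ hp0.le
    linarith only [hrp]
  calc (2 : ℝ) ^ p * p⁻¹ ≤ 2 ^ p * (2 / p * (1 + ‖w‖ ^ p)) := mul_le_mul_of_nonneg_left h3 h2p.le
    _ = 2 ^ p * (2 / p) * (1 + ‖w‖ ^ p) := by ring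

theorem PW_cb (p L x : ℝ) (w : ℂ) (hp0 : 0 < p) (hxp : x * p = L) (hexpL : Real.exp L = p)
    (hx2p : x ^ 2 / 2 * p = L ^ 2 / (2 * p)) (k3 : Real.exp (L ^ 2 / (2 * p)) ≤ 2)
    (hcb : Real.exp (2 * x) < ‖w‖) : ‖w - 1‖ ^ p ≤ 2 ^ p * (2 / p) * (1 + ‖w‖ ^ p) := by
  have hrp : 0 ≤ ‖w‖ ^ p := Real.rpow_nonneg (norm_nonneg w) p
  have h2p : (0 : ℝ) < 2 ^ p := Real.rpow_pos_of_pos (by norm_num) p
  have hw1 : ‖w - 1‖ ≤ ‖w‖ + 1 := by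
    have := norm_sub_le w 1
    rwa [norm_one] at this
  have h1 : ‖w‖ + 1 ≤ ‖w‖ * (1 + Real.exp (2 * (-x))) := by
    have h2 : 1 ≤ ‖w‖ * Real.exp (2 * (-x)) := by
      have h3 : Real.exp (2 * x) * Real.exp (2 * (-x)) ≤ ‖w‖ * Real.exp (2 * (-x)) :=
        mul_le_mul_of_nonneg_right hcb.le (Real.exp_pos _).le
      rw [← Real.exp_add, show 2 * x + 2 * (-x) = 0 by ring, Real.exp_zero] at h3
      exact h3
    linarith only [h2]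
  have h2 : ‖w - 1‖ ^ p ≤ (‖w‖ * (1 + Real.exp (2 * (-x)))) ^ p :=
    Real.rpow_le_rpow (norm_nonneg _) (hw1.trans h1) hp0.le
  rw [Real.mul_rpow (norm_nonneg w) (by positivity)] at h2
  have h3 := PW_ep (-x) p hp0.le
  have h4 : Real.exp ((-x + (-x) ^ 2 / 2) * p) ≤ 2 / p := by
    rw [show (-x + (-x) ^ 2 / 2) * p = -(x * p) + x ^ 2 / 2 * p by ring, hxp, hx2p, Real.exp_add, Real.exp_neg,
      hexpL, div_eq_mul_inv, mul_comm]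
    exact mul_le_mul_of_nonneg_right k3 (by positivity)
  refine h2.trans ?_
  have h5 : (1 + Real.exp (2 * (-x))) ^ p ≤ 2 ^ p * (2 / p) :=
    h3.trans (mul_le_mul_of_nonneg_left h4 h2p.le)
  calc ‖w‖ ^ p * (1 + Real.exp (2 * (-x))) ^ p ≤ ‖w‖ ^ p * (2 ^ p * (2 / p)) :=
        mul_le_mul_of_nonneg_left h5 hrp
    _ ≤ (1 + ‖w‖ ^ p) * (2 ^ p * (2 / p)) := by
        apply mul_le_mul_of_nonneg_right _ (by positivity)
        linarith only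
    _ = 2 ^ p * (2 / p) * (1 + ‖w‖ ^ p) := by ring

theorem PW_cc (p L x y : ℝ) (w : ℂ) (hp0 : 0 < p) (hxp : x * p = L) (hexpL : Real.exp L = p)
    (hx2p : x ^ 2 / 2 * p = L ^ 2 / (2 * p)) (k3 : Real.exp (L ^ 2 / (2 * p)) ≤ 2)
    (hrlo : 7 / 8 ≤ ‖w‖) (hrhi : ‖w‖ ≤ 2) (hcb : ‖w‖ ≤ Real.exp (2 * x)) (hy0 : 0 ≤ y)
    (hsq : ‖w - 1‖ ^ 2 = (1 + ‖w‖) ^ 2 - 4 * ‖w‖ * y)
    (hcc : 8 * x < y) : ‖w - 1‖ ^ p ≤ 2 ^ p * (2 / p) * (1 + ‖w‖ ^ p) := by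
  have hrp : 0 ≤ ‖w‖ ^ p := Real.rpow_nonneg (norm_nonneg w) p
  have h2p : (0 : ℝ) < 2 ^ p := Real.rpow_pos_of_pos (by norm_num) p
  have hw0 : 0 ≤ ‖w - 1‖ := norm_nonneg _
  have h1 : ‖w - 1‖ ^ 2 ≤ (1 + ‖w‖) ^ 2 * Real.exp (-(y / 2)) := by
    have h2 := Real.one_sub_le_exp_neg (y / 2)
    have h3 : (1 + ‖w‖) ^ 2 * (1 - y / 2) ≤ (1 + ‖w‖) ^ 2 * Real.exp (-(y / 2)) :=
      mul_le_mul_of_nonneg_left h2 (by positivity)
    refine le_trans ?_ h3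
    rw [hsq]
    have h4 : (1 + ‖w‖) ^ 2 ≤ 8 * ‖w‖ := by
      have := mul_nonneg (sub_nonneg.2 hrlo) (sub_nonneg.2 hrhi)
      nlinarith only [this, hrlo, hrhi]
    have h5 := mul_le_mul_of_nonneg_right h4 hy0
    linarith only [h5]
  have h2 : ‖w - 1‖ ^ p ≤ (1 + ‖w‖) ^ p * Real.exp (-(y / 2) * (p / 2)) := by
    rw [PW_pow ‖w - 1‖ p hw0, PW_pow (1 + ‖w‖) p (by linarith only [hrlo]), Real.exp_mul,
      ← Real.mul_rpow (by positivity) (Real.exp_pos _).le]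
    exact Real.rpow_le_rpow (by positivity) h1 (by linarith only [hp0])
  have h3 : Real.exp (-(y / 2) * (p / 2)) ≤ Real.exp (-(2 * L)) := by
    apply Real.exp_le_exp.2
    have : 8 * x * p ≤ y * p := mul_le_mul_of_nonneg_right hcc.le hp0.le
    rw [mul_assoc, hxp] at this
    linarith only [this]
  have h4 : (1 + ‖w‖) ^ p ≤ 2 ^ p * (p * 2) := by
    have h5 : (1 + ‖w‖) ^ p ≤ (1 + Real.exp (2 * x)) ^ p :=
      Real.rpow_le_rpow (by positivity) (by linarith only [hcb]) hp0.le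
    refine h5.trans ((PW_ep x p hp0.le).trans ?_)
    apply mul_le_mul_of_nonneg_left _ h2p.le
    rw [add_mul, hxp, hx2p, Real.exp_add, hexpL]
    exact mul_le_mul_of_nonneg_left k3 hp0.le
  have h5 : Real.exp (-(2 * L)) = 1 / p ^ 2 := by
    rw [Real.exp_neg, two_mul, Real.exp_add, hexpL]
    field_simp
  rw [h5] at h3
  calc ‖w - 1‖ ^ p ≤ (1 + ‖w‖) ^ p * Real.exp (-(y / 2) * (p / 2)) := h2
    _ ≤ 2 ^ p * (p * 2) * (1 / p ^ 2) := mul_le_mul h4 h3 (Real.exp_pos _).le (by positivity)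
    _ = 2 ^ p * (2 / p) * 1 := by field_simp
    _ ≤ 2 ^ p * (2 / p) * (1 + ‖w‖ ^ p) := by
        apply mul_le_mul_of_nonneg_left _ (by positivity)
        linarith only [hrp]

theorem PW_half (r p : ℝ) (hr : 0 ≤ r) : (r ^ (p / 2)) ^ 2 = r ^ p := by
  rw [← Real.rpow_natCast, ← Real.rpow_mul hr]
  congr 1
  push_cast
  ring

theorem PW_cD (ε p L x y : ℝ) (w : ℂ) (hp0 : 0 < p) (hx0 : 0 < x) (hx : x = L / p)
    (k4 : Real.exp (9 / 2 * (L ^ 2 / p)) ≤ 1 + ε)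
    (hrlo : 7 / 8 ≤ ‖w‖) (hr1 : 1 - 2 * x ≤ ‖w‖) (hr2 : ‖w‖ ≤ 1 + 3 * x) (hy12 : 1 / 2 ≤ 1 - y)
    (hsq : ‖w - 1‖ ^ 2 = (1 + ‖w‖) ^ 2 - 4 * ‖w‖ * y) :
    ‖w - 1‖ ^ p ≤ (1 + ε) * (2 ^ p * (‖w‖ ^ (p / 2) * (1 - y) ^ (p / 2))) := by
  have hr0 : 0 ≤ ‖w‖ := norm_nonneg w
  have hypos : 0 < 1 - y := by linarith only [hy12]
  have h2p : (0 : ℝ) < 2 ^ p := Real.rpow_pos_of_pos (by norm_num) p
  have h1 : ‖w - 1‖ ^ 2 ≤ 2 ^ 2 * ‖w‖ * (1 - y) * Real.exp (9 * x ^ 2) := by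
    have h2 := Real.add_one_le_exp (9 * x ^ 2)
    have h3 : 2 ^ 2 * ‖w‖ * (1 - y) * (9 * x ^ 2 + 1) ≤ 2 ^ 2 * ‖w‖ * (1 - y) * Real.exp (9 * x ^ 2) :=
      mul_le_mul_of_nonneg_left h2 (by positivity)
    refine le_trans ?_ h3
    rw [hsq]
    have h4 : (1 - ‖w‖) ^ 2 ≤ 9 * x ^ 2 := by
      have := mul_nonneg (show 0 ≤ 3 * x - (1 - ‖w‖) by linarith only [hr1, hx0])
        (show 0 ≤ 3 * x + (1 - ‖w‖) by linarith only [hr2])
      linarith only [this]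
    have h5 : 1 ≤ 4 * (‖w‖ * (1 - y)) := by
      have := mul_le_mul hrlo hy12 (by norm_num) hr0
      linarith only [this]
    have h6 := mul_nonneg (sub_nonneg.2 h5) (show 0 ≤ 9 * x ^ 2 by positivity)
    linarith only [h4, h6]
  have h2 : (2 ^ 2 * ‖w‖ * (1 - y) * Real.exp (9 * x ^ 2)) ^ (p / 2) =
      2 ^ p * (‖w‖ ^ (p / 2) * (1 - y) ^ (p / 2)) * Real.exp (9 / 2 * (L ^ 2 / p)) := by
    rw [Real.mul_rpow (by positivity) (Real.exp_pos _).le, Real.mul_rpow (by positivity) hypos.le,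
      Real.mul_rpow (by positivity) hr0, ← PW_pow 2 p (by norm_num), ← Real.exp_mul]
    have : 9 * x ^ 2 * (p / 2) = 9 / 2 * (L ^ 2 / p) := by
      rw [hx]
      field_simp
    rw [this]
    ring
  have h3 : ‖w - 1‖ ^ p ≤ 2 ^ p * (‖w‖ ^ (p / 2) * (1 - y) ^ (p / 2)) * Real.exp (9 / 2 * (L ^ 2 / p)) := by
    rw [PW_pow ‖w - 1‖ p (norm_nonneg _), ← h2]
    exact Real.rpow_le_rpow (by positivity) h1 (by linarith only [hp0])
  refine h3.trans ?_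
  rw [mul_comm (1 + ε)]
  exact mul_le_mul_of_nonneg_left k4 (by positivity)

/-- (d2), real numbers only -/
theorem PW_d2 (ε p L y a ρ σ X Q : ℝ) (m : ℕ) (hε : 0 < ε) (hε1 : ε < 1 / 10) (ha0 : 0 < a) (hQ : 0 < Q)
    (hP : 0 < p ^ (3 / 2 : ℝ)) (hp0 : 0 < p)
    (haP : a ^ 2 * p ^ (3 / 2 : ℝ) = 1) (hσ0 : 0 ≤ σ) (hρ0 : 0 ≤ ρ) (hσ2 : σ ^ 2 = (1 - y) ^ p)
    (hypos : 0 < 1 - y) (hy1 : 1 - y ≤ 1) (hm1 : (m : ℝ) ≤ (1 - ε) * p)
    (k6 : p ^ (3 / 2 : ℝ) * (p ^ (-(3 / 2) : ℝ) * L ^ 2) ^ (1 + ε) ≤ ε ^ 2)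
    (hd2 : (1 - y) ^ m < p ^ (-(3 / 2) : ℝ) * L ^ 2) (hD : X ≤ (1 + ε) * (Q * (ρ * σ))) :
    X ≤ Q * (ε * a) * (1 + ρ ^ 2) := by
  have h1 : σ ^ 2 ≤ (p ^ (-(3 / 2) : ℝ) * L ^ 2) ^ (1 + ε) := by
    rw [hσ2]
    have h2 : (1 - y) ^ p ≤ (1 - y) ^ ((m : ℝ) * (1 + ε)) := by
      apply Real.rpow_le_rpow_of_exponent_ge hypos hy1
      have h3 : (m : ℝ) * (1 + ε) ≤ ((1 - ε) * p) * (1 + ε) :=
        mul_le_mul_of_nonneg_right hm1 (by linarith only [hε])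
      have h4 : 0 ≤ ε ^ 2 * p := by positivity
      linarith only [h3, h4]
    rw [Real.rpow_mul hypos.le, Real.rpow_natCast] at h2
    exact h2.trans (Real.rpow_le_rpow (by positivity) hd2.le (by linarith only [hε]))
  have h2 : p ^ (3 / 2 : ℝ) * σ ^ 2 ≤ ε ^ 2 :=
    (mul_le_mul_of_nonneg_left h1 hP.le).trans k6
  have h3 : σ ^ 2 ≤ (ε * a) ^ 2 := by
    have h4 : a ^ 2 * (p ^ (3 / 2 : ℝ) * σ ^ 2) ≤ a ^ 2 * ε ^ 2 := mul_le_mul_of_nonneg_left h2 (by positivity)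
    rw [← mul_assoc, haP, one_mul] at h4
    linarith only [h4]
  have h4 : σ ≤ ε * a := PW_lesq h3 (by positivity)
  refine hD.trans ?_
  have h5 : (1 + ε) * (ρ * σ) ≤ (ε * a) * (1 + ρ ^ 2) := by
    have h6 : (1 + ε) * ρ ≤ 1 + ρ ^ 2 := by
      have h7 := sq_nonneg (ρ - 1)
      have h8 : 0 ≤ (1 - ε) * ρ := mul_nonneg (by linarith only [hε1]) hρ0
      linarith only [h7, h8]
    calc (1 + ε) * (ρ * σ) = ((1 + ε) * ρ) * σ := by ring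
      _ ≤ (1 + ρ ^ 2) * (ε * a) := mul_le_mul h6 h4 hσ0 (by positivity)
      _ = (ε * a) * (1 + ρ ^ 2) := by ring
  calc (1 + ε) * (Q * (ρ * σ)) = Q * ((1 + ε) * (ρ * σ)) := by ring
    _ ≤ Q * ((ε * a) * (1 + ρ ^ 2)) := mul_le_mul_of_nonneg_left h5 hQ.le
    _ = Q * (ε * a) * (1 + ρ ^ 2) := by ring

theorem PW_qa (hQU : Stmt_QU) (hBE : Stmt_BE) (ε p L x S : ℝ) (m : ℕ) (hε : 0 < ε) (hp : 16 ≤ p) (hL : 0 < L)
    (hx0 : 0 < x) (hx : x = L / p) (hRdef : RR p = Real.exp (2 * x)) (hR3 : Real.exp (2 * x) ≤ 1 + 3 * x)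
    (k5 : 3 ≤ ε * L) (hm3 : p / 2 ≤ (m : ℝ)) (hd2 : p ^ (-(3 / 2) : ℝ) * L ^ 2 ≤ S) :
    qa m (1 / RR p) ≤ ε * S := by
  have hp0 : 0 < p := by linarith only [hp]
  obtain ⟨n, hn⟩ : ∃ n : ℕ, m = n + 1 := ⟨m - 1, by
    have : 0 < m := by
      have h : (0 : ℝ) < (m : ℝ) := by linarith only [hm3, hp]
      exact_mod_cast h
    omega⟩
  have hn4 : p / 4 ≤ (n : ℝ) := by
    have : (m : ℝ) = n + 1 := by rw [hn]; push_cast; ring
    linarith only [this, hm3, hp]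
  have hPpos : 0 < p ^ (3 / 2 : ℝ) := Real.rpow_pos_of_pos hp0 _
  have hPneg : p ^ (-(3 / 2) : ℝ) = (p ^ (3 / 2 : ℝ))⁻¹ := Real.rpow_neg hp0.le _
  obtain ⟨h, hh⟩ : ∃ h : ℝ, h = RR p - 1 := ⟨_, rfl⟩
  have hR : RR p = 1 + h := by rw [hh]; ring
  have hh3 : h ≤ 3 * x := by rw [hh, hRdef]; linarith only [hR3]
  have hh0 : 0 ≤ h := by
    rw [hh, hRdef]
    have := Real.add_one_le_exp (2 * x)
    linarith only [this, hx0]
  have h1h : 0 < 1 + h := by linarith only [hh0]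
  have hm0 : 1 ≤ m := by omega
  have hqa : qa m (1 / RR p) ≤ h / 2 * be n := by
    have h1 := (hQU.2 m (1 / RR p) hm0 (by rw [hR]; positivity) (by
      rw [hR, div_le_one h1h]; linarith only [hh0])).1
    rw [show m - 1 = n by omega] at h1
    refine h1.trans ?_
    apply mul_le_mul_of_nonneg_right _ (GG_be_pos n).le
    rw [hR]
    have e1 : (1 - (1 / (1 + h)) ^ 2) / (4 * (1 / (1 + h))) = h * (2 + h) / (4 * (1 + h)) := by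
      field_simp
      ring
    rw [e1, div_le_iff₀ (by positivity)]
    have := mul_nonneg hh0 hh0
    linarith only [this]
  have h32 : p ^ (3 / 2 : ℝ) = p * √p := by
    rw [show (3 / 2 : ℝ) = 1 + 1 / 2 by norm_num, Real.rpow_add hp0, Real.rpow_one,
      Real.sqrt_eq_rpow]
  have hsp : 0 < √p := Real.sqrt_pos.2 hp0
  have hnpos : 0 < (n : ℝ) := by linarith only [hn4, hp]
  have hbe : be n ≤ 2 / √p := by
    have hn1 : 1 ≤ n := by exact_mod_cast (show (0 : ℝ) < n from hnpos)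
    refine (hBE n hn1).2.trans ?_
    have h5 : √p / 2 ≤ √(Real.pi * n) := by
      rw [show √p / 2 = √(p / 4) by
        rw [Real.sqrt_div hp0.le, show (4 : ℝ) = 2 ^ 2 by norm_num, Real.sqrt_sq (by norm_num)]]
      apply Real.sqrt_le_sqrt
      have h6 : 1 * (n : ℝ) ≤ Real.pi * n :=
        mul_le_mul_of_nonneg_right (by linarith only [Real.pi_gt_three]) hnpos.le
      linarith only [h6, hn4]
    rw [div_le_div_iff₀ (Real.sqrt_pos.2 (by positivity)) hsp]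
    linarith only [h5]
  have h5 : h / 2 * be n ≤ (3 * x / 2) * (2 / √p) :=
    mul_le_mul (by linarith only [hh3]) hbe (GG_be_pos n).le (by positivity)
  have h6 : (3 * x / 2) * (2 / √p) = 3 * L * (p ^ (3 / 2 : ℝ))⁻¹ := by
    rw [h32, hx]
    field_simp
  have h7 : 3 * L * (p ^ (3 / 2 : ℝ))⁻¹ ≤ ε * L ^ 2 * (p ^ (3 / 2 : ℝ))⁻¹ := by
    apply mul_le_mul_of_nonneg_right _ (by positivity)
    have := mul_le_mul_of_nonneg_right k5 hL.le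
    linarith only [this]
  have h8 : ε * ((p ^ (3 / 2 : ℝ))⁻¹ * L ^ 2) ≤ ε * S := by
    rw [← hPneg]
    exact mul_le_mul_of_nonneg_left hd2 hε.le
  rw [h6] at h5
  linarith only [hqa, h5, h7, h8]

theorem PW_q (ε p L x y S : ℝ) (m : ℕ) (w : ℂ) (hx0 : 0 < x) (hx : x = L / p) (hx16 : x ≤ 1 / 16)
    (hRdef : RR p = Real.exp (2 * x)) (hR3 : Real.exp (2 * x) ≤ 1 + 3 * x) (hr1 : 1 - 2 * x ≤ ‖w‖)
    (hcb : ‖w‖ ≤ Real.exp (2 * x)) (hwpos : 0 < ‖w‖) (hy : y = (‖w‖ + w.re) / (2 * ‖w‖)) (hcc : y ≤ 8 * x)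
    (hS : S = (1 - y) ^ m)
    (hQ : ∀ v : ℂ, v ≠ 0 → 1 - 5 * L / p ≤ ‖v‖ → ‖v‖ ≤ 1 →
      (‖v‖ + v.re) / (2 * ‖v‖) ≤ 8 * L / p →
      (1 - ε) * (1 - (‖v‖ + v.re) / (2 * ‖v‖)) ^ m ≤ ((qp m).eval v).re) :
    (1 - ε) * S ≤ ((qp m).eval (w / (RR p : ℂ))).re := by
  have hRpos : 0 < RR p := by rw [hRdef]; exact Real.exp_pos _
  have hnv : ‖w / (RR p : ℂ)‖ = ‖w‖ / RR p := by
    rw [norm_div, Complex.norm_real, Real.norm_of_nonneg hRpos.le]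
  have hvre : (w / (RR p : ℂ)).re = w.re / RR p := by
    rw [Complex.div_ofReal_re]
  have hvy : (‖w / (RR p : ℂ)‖ + (w / (RR p : ℂ)).re) / (2 * ‖w / (RR p : ℂ)‖) = y := by
    rw [hnv, hvre, hy]
    field_simp
  have hvpos : 0 < ‖w‖ / RR p := div_pos hwpos hRpos
  have h1 := hQ (w / (RR p : ℂ)) (by
    intro h0
    rw [h0, norm_zero] at hnv
    linarith only [hnv, hvpos]) (by
    rw [hnv, show 1 - 5 * L / p = 1 - 5 * x by rw [hx]; ring, le_div_iff₀ hRpos, hRdef]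
    have h2 : (1 - 5 * x) * Real.exp (2 * x) ≤ (1 - 5 * x) * (1 + 3 * x) :=
      mul_le_mul_of_nonneg_left hR3 (by linarith only [hx16])
    have h3 := mul_nonneg hx0.le hx0.le
    linarith only [h2, h3, hr1]) (by
    rw [hnv, div_le_one hRpos, hRdef]; exact hcb) (by
    rw [hvy, show 8 * L / p = 8 * x by rw [hx]; ring]; exact hcc)
  rw [hvy, ← hS] at h1
  exact h1

/-- (d1), real numbers only -/
theorem PW_d1 (ε a ρ σ X Q P V S q A r : ℝ) (hε : 0 < ε) (hε1 : ε < 1 / 10) (ha0 : 0 < a) (hQ : 0 < Q) (hP : 0 < P)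
    (haP : a ^ 2 * P = 1) (hρ2 : ρ ^ 2 = r) (hr : 0 ≤ r) (hSσ : σ ^ 2 ≤ S) (hq : (1 - ε) * S ≤ q) (hA : A ≤ ε * S)
    (hV : V = c0 * r + 1 / (4 * c0) * P * (q - A)) (hD : X ≤ (1 + ε) * (Q * (ρ * σ))) :
    X ≤ Q * a * ((1 + 4 * ε) * V + 4 * ε * (1 + r)) := by
  obtain ⟨c0pos, -, -⟩ := GG_c0
  have hVV : (1 - 2 * ε) * (c0 * ρ ^ 2 + 1 / (4 * c0) * P * σ ^ 2) ≤ V := by
    rw [hV, hρ2]
    have h1 : (1 - 2 * ε) * S ≤ q - A := by linarith only [hq, hA]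
    have h2 : (1 - 2 * ε) * σ ^ 2 ≤ q - A := by
      refine le_trans ?_ h1
      exact mul_le_mul_of_nonneg_left hSσ (by linarith only [hε1])
    have h3 : 1 / (4 * c0) * P * ((1 - 2 * ε) * σ ^ 2) ≤ 1 / (4 * c0) * P * (q - A) :=
      mul_le_mul_of_nonneg_left h2 (by positivity)
    have h4 : 0 ≤ 2 * ε * (c0 * r) := by positivity
    linarith only [h3, h4]
  have hB0 : 0 ≤ c0 * ρ ^ 2 + 1 / (4 * c0) * P * σ ^ 2 := by positivity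
  have ham := PW_amgm ρ σ a P c0 ha0 c0pos haP
  obtain ⟨B, hB⟩ : ∃ B : ℝ, B = c0 * ρ ^ 2 + 1 / (4 * c0) * P * σ ^ 2 := ⟨_, rfl⟩
  rw [← hB] at hVV hB0 ham
  have h1 : (1 + ε) * B ≤ (1 + 4 * ε) * V := by
    have h2 : (1 + 4 * ε) * ((1 - 2 * ε) * B) ≤ (1 + 4 * ε) * V :=
      mul_le_mul_of_nonneg_left hVV (by linarith only [hε])
    have h3 : 1 + ε ≤ (1 + 4 * ε) * (1 - 2 * ε) := by
      have := mul_nonneg hε.le (show 0 ≤ 1 - 8 * ε by linarith only [hε1])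
      linarith only [this]
    have h4 : (1 + ε) * B ≤ ((1 + 4 * ε) * (1 - 2 * ε)) * B := mul_le_mul_of_nonneg_right h3 hB0
    linarith only [h2, h4]
  refine hD.trans ?_
  have h5 : (1 + ε) * (Q * (ρ * σ)) ≤ (1 + ε) * (Q * (a * B)) := by
    apply mul_le_mul_of_nonneg_left _ (by linarith only [hε])
    exact mul_le_mul_of_nonneg_left ham hQ.le
  refine h5.trans ?_
  rw [show (1 + ε) * (Q * (a * B)) = Q * a * ((1 + ε) * B) by ring]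
  apply mul_le_mul_of_nonneg_left _ (by positivity)
  have h6 : 0 ≤ 4 * ε * (1 + r) := by positivity
  linarith only [h1, h6]

theorem PW_main (hQU : Stmt_QU) (hBE : Stmt_BE) (ε p : ℝ) (hε : 0 < ε) (hε1 : ε < 1 / 10) (hp : 16 ≤ p)
    (k1 : Real.log p / p ≤ 1 / 16) (k2 : 2 / p ≤ ε * p ^ (-(3 / 4) : ℝ))
    (k3 : Real.exp (Real.log p ^ 2 / (2 * p)) ≤ 2) (k4 : Real.exp (9 / 2 * (Real.log p ^ 2 / p)) ≤ 1 + ε)
    (k5 : 3 ≤ ε * Real.log p)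
    (k6 : p ^ (3 / 2 : ℝ) * (p ^ (-(3 / 2) : ℝ) * Real.log p ^ 2) ^ (1 + ε) ≤ ε ^ 2)
    (hQ : ∀ m : ℕ, (m : ℝ) ≤ p → ∀ v : ℂ, v ≠ 0 → 1 - 5 * Real.log p / p ≤ ‖v‖ → ‖v‖ ≤ 1 →
      (‖v‖ + v.re) / (2 * ‖v‖) ≤ 8 * Real.log p / p →
      (1 - ε) * (1 - (‖v‖ + v.re) / (2 * ‖v‖)) ^ m ≤ ((qp m).eval v).re)
    (w : ℂ) (hG : -(ε * (1 + ‖w‖ ^ p)) ≤ VV ε p w) :
    ‖w - 1‖ ^ p ≤ 2 ^ p * p ^ (-(3 / 4) : ℝ) * ((1 + 4 * ε) * VV ε p w + 4 * ε * (1 + ‖w‖ ^ p)) := by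
  have hp0 : 0 < p := by linarith only [hp]
  obtain ⟨L, hLdef⟩ : ∃ L : ℝ, L = Real.log p := ⟨_, rfl⟩
  have hL : 0 < L := by rw [hLdef]; exact Real.log_pos (by linarith only [hp])
  have hexpL : Real.exp L = p := by rw [hLdef]; exact Real.exp_log hp0
  obtain ⟨x, hx⟩ : ∃ x : ℝ, x = L / p := ⟨_, rfl⟩
  have hx0 : 0 < x := by rw [hx]; exact div_pos hL hp0
  have hxp : x * p = L := by rw [hx]; field_simp
  have hRdef : RR p = Real.exp (2 * x) := by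
    unfold RR
    rw [← hLdef, hx]
    congr 1
    ring
  rw [← hLdef] at k1 k3 k4 k5 k6 hQ
  rw [← hx] at k1
  have hx2p : x ^ 2 / 2 * p = L ^ 2 / (2 * p) := by rw [hx]; field_simp
  have hrp : 0 ≤ ‖w‖ ^ p := Real.rpow_nonneg (norm_nonneg w) p
  have h2p : (0 : ℝ) < 2 ^ p := Real.rpow_pos_of_pos (by norm_num) p
  obtain ⟨a, ha⟩ : ∃ a : ℝ, a = p ^ (-(3 / 4) : ℝ) := ⟨_, rfl⟩
  have ha0 : 0 < a := by rw [ha]; exact Real.rpow_pos_of_pos hp0 _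
  rw [← ha] at k2 ⊢
  have hA0 : 0 ≤ 1 + ‖w‖ ^ p := by linarith only [hrp]
  have neglA : ‖w - 1‖ ^ p ≤ 2 ^ p * (2 / p) * (1 + ‖w‖ ^ p) →
      ‖w - 1‖ ^ p ≤ 2 ^ p * a * ((1 + 4 * ε) * VV ε p w + 4 * ε * (1 + ‖w‖ ^ p)) := by
    intro h
    apply PW_negl ε a _ _ _ _ hε hε1 (mul_pos h2p ha0).le hA0 hG
    refine h.trans ?_
    apply mul_le_mul_of_nonneg_right _ hA0
    exact mul_le_mul_of_nonneg_left k2 h2p.le
  by_cases hca : ‖w‖ ≤ 1 - 2 * x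
  · exact neglA (PW_ca p L x w hp0 hxp hexpL hca)
  have hca' : 1 - 2 * x ≤ ‖w‖ := (not_le.1 hca).le
  by_cases hcb : Real.exp (2 * x) < ‖w‖
  · exact neglA (PW_cb p L x w hp0 hxp hexpL hx2p k3 hcb)
  have hcb' : ‖w‖ ≤ Real.exp (2 * x) := not_lt.1 hcb
  have hR3 : Real.exp (2 * x) ≤ 1 + 3 * x := by
    have h1 := GG_exp (x := 2 * x) (by linarith only [hx0]) (by linarith only [k1])
    have h2 : x * x ≤ x * (1 / 16) := mul_le_mul_of_nonneg_left k1 hx0.le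
    linarith only [h1, h2, hx0]
  have hrlo : 7 / 8 ≤ ‖w‖ := by linarith only [hca', k1]
  have hrhi : ‖w‖ ≤ 2 := by linarith only [hcb', hR3, k1]
  have hwpos : 0 < ‖w‖ := by linarith only [hrlo]
  obtain ⟨y, hy⟩ : ∃ y : ℝ, y = (‖w‖ + w.re) / (2 * ‖w‖) := ⟨_, rfl⟩
  obtain ⟨hy0, hy1⟩ := PW_y w hwpos
  have hsq := PW_sq w hwpos
  rw [← hy] at hy0 hy1 hsq
  by_cases hcc : 8 * x < y
  · exact neglA (PW_cc p L x y w hp0 hxp hexpL hx2p k3 hrlo hrhi hcb' hy0 hsq hcc)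
  have hcc' : y ≤ 8 * x := not_lt.1 hcc
  have hy12 : 1 / 2 ≤ 1 - y := by linarith only [hcc', k1]
  have hy1' : 1 - y ≤ 1 := by linarith only [hy0]
  have hypos : 0 < 1 - y := by linarith only [hy12]
  have hD := PW_cD ε p L x y w hp0 hx0 hx k4 hrlo hca' (hcb'.trans hR3) hy12 hsq
  have hρ2 := PW_half ‖w‖ p (norm_nonneg w)
  have hσ2 := PW_half (1 - y) p hypos.le
  have hρ0 : 0 ≤ ‖w‖ ^ (p / 2) := Real.rpow_nonneg (norm_nonneg w) _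
  have hσ0 : 0 ≤ (1 - y) ^ (p / 2) := Real.rpow_nonneg hypos.le _
  obtain ⟨m, hm⟩ : ∃ m : ℕ, m = mm ε p := ⟨_, rfl⟩
  have hm1 : (m : ℝ) ≤ (1 - ε) * p := by
    rw [hm]; unfold mm; exact Nat.floor_le (mul_nonneg (by linarith only [hε1]) hp0.le)
  have hm2 : (1 - ε) * p < m + 1 := by
    rw [hm]; unfold mm; exact Nat.lt_floor_add_one _
  have hεp : ε * p ≤ 1 / 10 * p := mul_le_mul_of_nonneg_right hε1.le hp0.le
  have hεp0 : 0 < ε * p := mul_pos hε hp0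
  have hmp : (m : ℝ) ≤ p := by linarith only [hm1, hεp0]
  have hm3 : p / 2 ≤ (m : ℝ) := by linarith only [hm2, hεp, hp]
  have hPpos : 0 < p ^ (3 / 2 : ℝ) := Real.rpow_pos_of_pos hp0 _
  have haP : a ^ 2 * p ^ (3 / 2 : ℝ) = 1 := by
    rw [ha, ← Real.rpow_natCast, ← Real.rpow_mul hp0.le, ← Real.rpow_add hp0]
    norm_num
  by_cases hd2 : (1 - y) ^ m < p ^ (-(3 / 2) : ℝ) * L ^ 2
  · apply PW_negl ε a _ _ _ _ hε hε1 (mul_pos h2p ha0).le hA0 hG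
    have := PW_d2 ε p L y a _ _ _ _ m hε hε1 ha0 h2p hPpos hp0 haP hσ0 hρ0 hσ2 hypos hy1' hm1 k6 hd2 hD
    rwa [hρ2] at this
  · have hd2' := not_lt.1 hd2
    have hSσ : ((1 - y) ^ (p / 2)) ^ 2 ≤ (1 - y) ^ m := by
      rw [hσ2, ← Real.rpow_natCast]
      exact Real.rpow_le_rpow_of_exponent_ge hypos hy1' hmp
    have hqa := PW_qa hQU hBE ε p L x _ m hε hp hL hx0 hx hRdef hR3 k5 hm3 hd2'
    have hq := PW_q ε p L x y _ m w hx0 hx k1 hRdef hR3 hca' hcb' hwpos hy hcc' rfl (hQ m hmp)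
    exact PW_d1 ε a _ _ _ _ (p ^ (3 / 2 : ℝ)) _ _ _ _ _ hε hε1 ha0 h2p hPpos haP hρ2 hrp hSσ hq hqa
      (by unfold VV; rw [← hm]) hD

theorem p_PW (hQLA : Stmt_QLA) (hQU : Stmt_QU) (hBE : Stmt_BE) (hGG : Stmt_GG) : Stmt_PW := by
  refine ⟨4, fun ε hε hε1 => ?_⟩
  obtain ⟨p₁, hp₁⟩ := hQLA ε hε
  obtain ⟨p₂, hp₂⟩ := hGG ε hε hε1
  have t1 : Tendsto (fun p : ℝ => Real.log p / p) atTop (𝓝 0) := by
    simpa using Real.isLittleO_log_id_atTop.tendsto_div_nhds_zero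
  have t2 : Tendsto (fun p : ℝ => Real.log p ^ 2 / p) atTop (𝓝 0) := by
    simpa using (Real.isLittleO_pow_log_id_atTop (n := 2)).tendsto_div_nhds_zero
  have e1 : ∀ᶠ p : ℝ in atTop, Real.log p / p ≤ 1 / 16 := t1.eventually_le_const (by norm_num)
  have e2 : ∀ᶠ p : ℝ in atTop, 2 / p ≤ ε * p ^ (-(3 / 4) : ℝ) := by
    have t3 : Tendsto (fun p : ℝ => p ^ (-(1 / 4) : ℝ)) atTop (𝓝 0) :=
      tendsto_rpow_neg_atTop (by norm_num)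
    have e : ∀ᶠ p : ℝ in atTop, p ^ (-(1 / 4) : ℝ) ≤ ε / 2 := t3.eventually_le_const (by positivity)
    filter_upwards [e, eventually_gt_atTop 0] with p h1 h2
    have h3 : 2 / p = 2 * (p ^ (-(1 / 4) : ℝ) * p ^ (-(3 / 4) : ℝ)) := by
      rw [← Real.rpow_add h2]
      norm_num
      rw [Real.rpow_neg_one]
      field_simp
    rw [h3]
    have h4 : 0 < p ^ (-(3 / 4) : ℝ) := Real.rpow_pos_of_pos h2 _
    nlinarith [mul_le_mul_of_nonneg_right h1 h4.le]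
  have e3 : ∀ᶠ p : ℝ in atTop, Real.exp (Real.log p ^ 2 / (2 * p)) ≤ 2 := by
    have : Tendsto (fun p : ℝ => Real.exp (1 / 2 * (Real.log p ^ 2 / p))) atTop (𝓝 (Real.exp (1 / 2 * 0))) :=
      (Real.continuous_exp.tendsto _).comp (t2.const_mul (1 / 2))
    have e := this.eventually_le_const (u := 2) (by simp)
    filter_upwards [e] with p h1
    rw [show Real.log p ^ 2 / (2 * p) = 1 / 2 * (Real.log p ^ 2 / p) by ring]
    exact h1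
  have e4 : ∀ᶠ p : ℝ in atTop, Real.exp (9 / 2 * (Real.log p ^ 2 / p)) ≤ 1 + ε := by
    have : Tendsto (fun p : ℝ => Real.exp (9 / 2 * (Real.log p ^ 2 / p))) atTop (𝓝 (Real.exp (9 / 2 * 0))) :=
      (Real.continuous_exp.tendsto _).comp (t2.const_mul (9 / 2))
    exact this.eventually_le_const (by simpa using hε)
  have e5 : ∀ᶠ p : ℝ in atTop, 3 ≤ ε * Real.log p := by
    filter_upwards [Real.tendsto_log_atTop.eventually_ge_atTop (3 / ε)] with p h1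
    rw [div_le_iff₀ hε] at h1
    linarith
  have e6 : ∀ᶠ p : ℝ in atTop,
      p ^ (3 / 2 : ℝ) * (p ^ (-(3 / 2) : ℝ) * Real.log p ^ 2) ^ (1 + ε) ≤ ε ^ 2 := by
    have t6 : Tendsto (fun p : ℝ => Real.log p ^ (2 * (1 + ε)) / p ^ (3 / 2 * ε)) atTop (𝓝 0) :=
      (isLittleO_log_rpow_rpow_atTop (2 * (1 + ε)) (by positivity)).tendsto_div_nhds_zero
    have e := t6.eventually_le_const (u := ε ^ 2) (by positivity)
    filter_upwards [e, eventually_gt_atTop 1] with p h1 h2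
    have hp0 : 0 < p := by linarith
    have hL : 0 < Real.log p := Real.log_pos h2
    have h3 : p ^ (3 / 2 : ℝ) * (p ^ (-(3 / 2) : ℝ) * Real.log p ^ 2) ^ (1 + ε) =
        Real.log p ^ (2 * (1 + ε)) / p ^ (3 / 2 * ε) := by
      have f1 : (Real.log p ^ 2) ^ (1 + ε) = Real.log p ^ (2 * (1 + ε)) := by
        rw [Real.rpow_mul hL.le]
        norm_num
      have f2 : (p ^ (-(3 / 2) : ℝ)) ^ (1 + ε) = p ^ (-(3 / 2) * (1 + ε)) := (Real.rpow_mul hp0.le _ _).symm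
      have f3 : p ^ (3 / 2 : ℝ) * p ^ (-(3 / 2) * (1 + ε)) = (p ^ (3 / 2 * ε))⁻¹ := by
        rw [← Real.rpow_add hp0, ← Real.rpow_neg hp0.le]
        congr 1
        ring
      rw [Real.mul_rpow (Real.rpow_nonneg hp0.le _) (sq_nonneg _), f1, f2, ← mul_assoc, f3, mul_comm]
      exact (div_eq_mul_inv _ _).symm
    rw [h3]
    exact h1
  obtain ⟨p₀, hp₀⟩ := eventually_atTop.1 (e1.and (e2.and (e3.and (e4.and (e5.and e6)))))
  refine ⟨max (max p₀ 16) (max p₁ p₂), fun p hp w => ?_⟩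
  have hpa : p₀ ≤ p := (le_max_left _ _).trans ((le_max_left _ _).trans hp)
  have hpb : 16 ≤ p := (le_max_right _ _).trans ((le_max_left _ _).trans hp)
  have hpc : p₁ ≤ p := (le_max_left _ _).trans ((le_max_right _ _).trans hp)
  have hpd : p₂ ≤ p := (le_max_right _ _).trans ((le_max_right _ _).trans hp)
  obtain ⟨k1, k2, k3, k4, k5, k6⟩ := hp₀ p hpa
  exact PW_main hQU hBE ε p hε hε1 hpb k1 k2 k3 k4 k5 k6 (hp₁ p hpc) w (hp₂ p hpd w)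

end Pool.Agent.Work.MP_d7cff0_an.AS
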