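import Pool.Agent.Work.MP_d7cff0_as.Interface

set_option autoImplicit false

noncomputable section

namespace Pool.Agent.Work.MP_d7cff0_an.AS

open MeasureTheory AddCircle Filter Topology Finset Polynomial
open scoped ENNReal

theorem QA_eval (m : ℕ) (u : ℂ) : (qp m).eval u =
    ((cq m 0 : ℝ) : ℂ) + ∑ k ∈ Finset.range m, ((2 * cq m (k + 1) : ℝ) : ℂ) * u ^ (k + 1) := by
  rw [qp, eval_add, eval_C, eval_finset_sum]
  congr 1
  refine Finset.sum_congr rfl fun k _ => ?_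
  rw [eval_mul, eval_C, eval_pow, eval_X]

theorem QA_real (m : ℕ) (ρ : ℝ) : (qp m).eval (ρ : ℂ) =
    ((cq m 0 + ∑ k ∈ Finset.range m, 2 * cq m (k + 1) * ρ ^ (k + 1) : ℝ) : ℂ) := by
  rw [QA_eval]
  push_cast
  rfl

theorem QA_qa (m : ℕ) (ρ : ℝ) :
    qa m ρ = cq m 0 + ∑ k ∈ Finset.range m, 2 * cq m (k + 1) * ρ ^ (k + 1) := by
  rw [qa, QA_real, Complex.ofReal_re]

theorem QA_zero (m k : ℕ) (h : m < k) : cq m k = 0 := by
  rw [cq, Nat.choose_eq_zero_of_lt (by omega)]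
  simp

theorem QA_be (m : ℕ) : cq m 0 = be m := by
  simp [cq, be]

theorem QA_abs (m k : ℕ) : |cq m k| = ((2 * m).choose (m + k) : ℝ) / 4 ^ m := by
  have h1 : (0 : ℝ) ≤ ((2 * m).choose (m + k) : ℝ) := Nat.cast_nonneg _
  have h2 : (0 : ℝ) < 4 ^ m := by positivity
  rw [cq, abs_div, abs_mul, abs_pow, abs_neg, abs_one, one_pow, one_mul, abs_of_nonneg h1,
    abs_of_pos h2]

theorem QA_nat (m : ℕ) :
    (2 * m).choose m + 2 * ∑ k ∈ Finset.range m, (2 * m).choose (m + (k + 1)) = 4 ^ m := by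
  have h1 := Nat.sum_range_choose (2 * m)
  have h2 : 2 * m + 1 = m + (m + 1) := by ring
  rw [h2, Finset.sum_range_add, Finset.sum_range_succ'] at h1
  have h3 : ∑ k ∈ Finset.range m, (2 * m).choose k =
      ∑ k ∈ Finset.range m, (2 * m).choose (m + (k + 1)) := by
    rw [← Finset.sum_range_reflect]
    refine Finset.sum_congr rfl fun k hk => ?_
    rw [Finset.mem_range] at hk
    exact Nat.choose_symm_of_eq_add (by omega)
  have h4 : (4 : ℕ) ^ m = 2 ^ (2 * m) := by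
    rw [pow_mul]
    norm_num
  rw [h3, add_zero] at h1
  rw [h4, ← h1]
  ring

theorem QA_sum (m : ℕ) : |cq m 0| + ∑ k ∈ Finset.range m, 2 * |cq m (k + 1)| = 1 := by
  have h1 : (((2 * m).choose m : ℕ) : ℝ) +
      2 * ∑ k ∈ Finset.range m, (((2 * m).choose (m + (k + 1)) : ℕ) : ℝ) = 4 ^ m := by
    exact_mod_cast QA_nat m
  have h2 : ∀ k ∈ Finset.range m, 2 * |cq m (k + 1)| =
      2 * (((2 * m).choose (m + (k + 1)) : ℕ) : ℝ) / 4 ^ m := by
    intro k _
    rw [QA_abs]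
    ring
  have h3 : (0 : ℝ) < 4 ^ m := by positivity
  rw [Finset.sum_congr rfl h2, QA_abs, add_zero, ← Finset.sum_div, ← Finset.mul_sum, ← add_div,
    h1, div_self h3.ne']

theorem QA_bound (m : ℕ) (u : ℂ) (B : ℝ) (hB : 1 ≤ B) (h : ∀ k < m, ‖u‖ ^ (k + 1) ≤ B) :
    ‖(qp m).eval u‖ ≤ B := by
  rw [QA_eval]
  have h1 : ‖((cq m 0 : ℝ) : ℂ)‖ ≤ |cq m 0| * B := by
    rw [Complex.norm_real, Real.norm_eq_abs]
    nlinarith [abs_nonneg (cq m 0)]
  have h2 : ‖∑ k ∈ Finset.range m, ((2 * cq m (k + 1) : ℝ) : ℂ) * u ^ (k + 1)‖ ≤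
      ∑ k ∈ Finset.range m, 2 * |cq m (k + 1)| * B := by
    refine (norm_sum_le _ _).trans (Finset.sum_le_sum fun k hk => ?_)
    rw [norm_mul, Complex.norm_real, norm_pow, Real.norm_eq_abs, abs_mul, abs_two]
    exact mul_le_mul_of_nonneg_left (h k (Finset.mem_range.1 hk)) (by positivity)
  refine (norm_add_le _ _).trans ((add_le_add h1 h2).trans (le_of_eq ?_))
  rw [← Finset.sum_mul, ← add_mul, QA_sum, one_mul]

theorem QA_pascal (m k : ℕ) : (2 * (m + 1)).choose (m + 1 + (k + 1)) =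
    (2 * m).choose (m + k) + 2 * (2 * m).choose (m + (k + 1)) + (2 * m).choose (m + (k + 2)) := by
  have h1 : 2 * (m + 1) = 2 * m + 1 + 1 := by ring
  have h2 : m + 1 + (k + 1) = (m + k + 1) + 1 := by ring
  have h3 : m + (k + 1) = m + k + 1 := by ring
  have h4 : m + (k + 2) = m + k + 1 + 1 := by ring
  rw [h1, h2, h3, h4, Nat.choose_succ_succ' (2 * m + 1) (m + k + 1),
    Nat.choose_succ_succ' (2 * m) (m + k), Nat.choose_succ_succ' (2 * m) (m + k + 1)]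
  ring

theorem QA_pascal0 (m : ℕ) : (2 * (m + 1)).choose (m + 1) =
    2 * (2 * m).choose m + 2 * (2 * m).choose (m + 1) := by
  have h1 : 2 * (m + 1) = 2 * m + 1 + 1 := by ring
  have h2 : (2 * m + 1).choose m = (2 * m + 1).choose (m + 1) :=
    Nat.choose_symm_of_eq_add (by ring)
  rw [h1, Nat.choose_succ_succ' (2 * m + 1) m, h2, Nat.choose_succ_succ' (2 * m) m]
  ring

theorem QA_rec (m k : ℕ) : 4 * cq (m + 1) (k + 1) = 2 * cq m (k + 1) - cq m k - cq m (k + 2) := by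
  unfold cq
  rw [QA_pascal]
  push_cast
  rw [pow_succ (4 : ℝ) m]
  field_simp
  ring

theorem QA_rec0 (m : ℕ) : 4 * cq (m + 1) 0 = 2 * cq m 0 - 2 * cq m 1 := by
  unfold cq
  rw [add_zero, add_zero, QA_pascal0]
  push_cast
  rw [pow_succ (4 : ℝ) m]
  field_simp
  ring

theorem QA_main (m : ℕ) (ρ : ℝ) :
    4 * ρ * qa (m + 1) ρ = (1 - ρ ^ 2) * be m - (1 - ρ) ^ 2 * qa m ρ := by
  obtain ⟨S, hS⟩ : ∃ S : ℝ, S = ∑ k ∈ Finset.range m, cq m (k + 1) * ρ ^ (k + 1) := ⟨_, rfl⟩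
  have h0 : qa m ρ = cq m 0 + 2 * S := by
    rw [QA_qa, hS, Finset.mul_sum]
    congr 1
    exact Finset.sum_congr rfl fun k _ => by ring
  have h1 : ∑ k ∈ Finset.range (m + 1), cq m (k + 1) * ρ ^ (k + 1) = S := by
    rw [Finset.sum_range_succ, ← hS, QA_zero m (m + 1) (by omega), zero_mul, add_zero]
  have h2 : ∑ k ∈ Finset.range (m + 1), cq m k * ρ ^ (k + 1) = ρ * (cq m 0 + S) := by
    rw [Finset.sum_range_succ', hS, mul_add, Finset.mul_sum, add_comm]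
    congr 1
    · ring
    · exact Finset.sum_congr rfl fun k _ => by ring
  have h3 : ρ * ∑ k ∈ Finset.range (m + 1), cq m (k + 2) * ρ ^ (k + 1) = S - cq m 1 * ρ := by
    have h4 : ∑ k ∈ Finset.range (m + 1 + 1), cq m (k + 1) * ρ ^ (k + 1) = S := by
      rw [Finset.sum_range_succ, h1, QA_zero m (m + 1 + 1) (by omega), zero_mul, add_zero]
    rw [Finset.sum_range_succ'] at h4
    rw [← h4, Finset.mul_sum]
    have h5 : ∑ k ∈ Finset.range (m + 1), ρ * (cq m (k + 2) * ρ ^ (k + 1)) =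
        ∑ k ∈ Finset.range (m + 1), cq m (k + 1 + 1) * ρ ^ (k + 1 + 1) :=
      Finset.sum_congr rfl fun k _ => by ring
    rw [h5]
    ring
  have h6 : 4 * qa (m + 1) ρ = 4 * cq (m + 1) 0 +
      2 * (2 * ∑ k ∈ Finset.range (m + 1), cq m (k + 1) * ρ ^ (k + 1) -
        ∑ k ∈ Finset.range (m + 1), cq m k * ρ ^ (k + 1) -
        ∑ k ∈ Finset.range (m + 1), cq m (k + 2) * ρ ^ (k + 1)) := by
    rw [QA_qa, mul_add, Finset.mul_sum, Finset.mul_sum, ← Finset.sum_sub_distrib,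
      ← Finset.sum_sub_distrib, Finset.mul_sum]
    congr 1
    refine Finset.sum_congr rfl fun k _ => ?_
    have h7 := QA_rec m k
    linear_combination 2 * ρ ^ (k + 1) * h7
  rw [h1, h2, QA_rec0] at h6
  rw [h0, ← QA_be]
  linear_combination ρ * h6 - 2 * h3

theorem p_QA : Stmt_QA := by
  refine ⟨fun m u => ⟨fun h => ?_, fun h => ?_⟩, ?_, ?_, ?_, ?_⟩
  · refine QA_bound m u 1 le_rfl fun k _ => ?_
    exact pow_le_one₀ (norm_nonneg _) h
  · refine QA_bound m u _ (one_le_pow₀ h) fun k hk => ?_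
    exact pow_le_pow_right₀ h hk
  · intro m ρ
    rw [QA_real, Complex.ofReal_im]
  · intro ρ
    rw [QA_qa]
    simp [cq]
  · intro m
    rw [QA_eval, QA_be]
    have h1 : ∑ k ∈ Finset.range m, ((2 * cq m (k + 1) : ℝ) : ℂ) * (0 : ℂ) ^ (k + 1) = 0 := by
      refine Finset.sum_eq_zero fun k _ => ?_
      rw [pow_succ, mul_zero, mul_zero]
    rw [h1, add_zero]
  · intro m ρ hρ
    have h1 := QA_main m ρ
    have h2 : (4 * ρ) ≠ 0 := by positivity
    field_simp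
    linear_combination h1

end Pool.Agent.Work.MP_d7cff0_an.AS
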