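import Pool.Agent.Work.MP_d7cff0_as.Interface

/-! Block QH of THEOREM AS (MP_d7cff0_an): Harnack. -/

set_option autoImplicit false

noncomputable section

namespace Pool.Agent.Work.MP_d7cff0_an.AS

open MeasureTheory AddCircle Filter Topology Finset Polynomial
open scoped ENNReal

theorem QH_be_pos (m : ℕ) : 0 < be m := by
  unfold be
  have h : 0 < (2 * m).choose m := Nat.choose_pos (by omega)
  positivity

theorem QH_norm_sub_le {g : ℂ} {β : ℝ} (hβ : 0 < β) (hg : 0 ≤ g.re) :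
    ‖g - (β : ℂ)‖ ≤ ‖g + (β : ℂ)‖ := by
  apply le_of_sq_le_sq _ (norm_nonneg _)
  rw [← Complex.normSq_eq_norm_sq, ← Complex.normSq_eq_norm_sq, Complex.normSq_apply,
    Complex.normSq_apply]
  simp only [Complex.sub_re, Complex.add_re, Complex.sub_im, Complex.add_im, Complex.ofReal_re,
    Complex.ofReal_im]
  nlinarith [mul_nonneg hβ.le hg]

theorem QH_schwarz (g : ℂ → ℂ) (hd : Differentiable ℂ g) (β : ℝ) (hβ : 0 < β)
    (h0 : g 0 = (β : ℂ)) (hre : ∀ u : ℂ, ‖u‖ ≤ 1 → 0 ≤ (g u).re) (v : ℂ) (hv : ‖v‖ < 1) :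
    β * ((1 - ‖v‖) / (1 + ‖v‖)) ≤ (g v).re := by
  have hne : ∀ u : ℂ, ‖u‖ < 1 → g u + (β : ℂ) ≠ 0 := by
    intro u hu h
    have h1 := congrArg Complex.re h
    simp only [Complex.add_re, Complex.ofReal_re, Complex.zero_re] at h1
    have := hre u hu.le
    linarith
  have hφd : DifferentiableOn ℂ (fun u => (g u - (β : ℂ)) / (g u + (β : ℂ)))
      (Metric.ball 0 1) := by
    intro u hu
    have hu' : ‖u‖ < 1 := by simpa using hu
    exact (((hd u).sub_const _).div ((hd u).add_const _) (hne u hu')).differentiableWithinAt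
  have hmaps : Set.MapsTo (fun u => (g u - (β : ℂ)) / (g u + (β : ℂ))) (Metric.ball 0 1)
      (Metric.closedBall 0 1) := by
    intro u hu
    have hu' : ‖u‖ < 1 := by simpa using hu
    simp only [Metric.mem_closedBall, dist_zero_right, norm_div]
    exact div_le_one_of_le₀ (QH_norm_sub_le hβ (hre u hu'.le)) (norm_nonneg _)
  have hz : (fun u => (g u - (β : ℂ)) / (g u + (β : ℂ))) 0 = 0 := by
    simp [h0]
  have hS := Complex.norm_le_norm_of_mapsTo_ball hφd hmaps hz hv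
  simp only [norm_div] at hS
  have hpos : 0 < ‖g v + (β : ℂ)‖ := norm_pos_iff.mpr (hne v hv)
  rw [div_le_iff₀ hpos] at hS
  have hsq : ‖g v - (β : ℂ)‖ ^ 2 ≤ (‖v‖ * ‖g v + (β : ℂ)‖) ^ 2 :=
    pow_le_pow_left₀ (norm_nonneg _) hS 2
  rw [mul_pow, ← Complex.normSq_eq_norm_sq, ← Complex.normSq_eq_norm_sq (g v + (β : ℂ)),
    Complex.normSq_apply, Complex.normSq_apply] at hsq
  simp only [Complex.sub_re, Complex.add_re, Complex.sub_im, Complex.add_im, Complex.ofReal_re,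
    Complex.ofReal_im] at hsq
  have ha : 0 ≤ (g v).re := hre v hv.le
  have ht0 : 0 ≤ ‖v‖ := norm_nonneg v
  have ht1 : 0 ≤ 1 - ‖v‖ ^ 2 := by nlinarith
  have hb : 0 ≤ (1 - ‖v‖ ^ 2) * ((g v).im * (g v).im) := mul_nonneg ht1 (mul_self_nonneg _)
  have hkey : ((g v).re - β) ^ 2 ≤ (‖v‖ * ((g v).re + β)) ^ 2 := by nlinarith
  have hab := abs_le_of_sq_le_sq' hkey (by positivity)
  have h1 : 0 < 1 + ‖v‖ := by positivity
  rw [← mul_div_assoc, div_le_iff₀ h1]
  nlinarith [hab.1]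

theorem p_QH (hA : Stmt_QA) (hU : Stmt_QU) : Stmt_QH := by
  intro m v hv
  rcases lt_or_eq_of_le hv with h | h
  · exact QH_schwarz (fun u => (qp m).eval u) (qp m).differentiable (be m) (QH_be_pos m)
      (hA.2.2.2.1 m) (hU.1 m) v h
  · rw [h, sub_self, zero_div, mul_zero]
    exact hU.1 m v hv

end Pool.Agent.Work.MP_d7cff0_an.AS
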