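import Pool.Agent.Work.MP_d7cff0_as.Interface

/-!
# MP_d7cff0_an, THEOREM AS: block QL
-/

set_option autoImplicit false

noncomputable section

namespace Pool.Agent.Work.MP_d7cff0_an.AS

open MeasureTheory AddCircle Filter Topology Finset Polynomial
open scoped ENNReal

theorem QL_re {s : ℝ} (hs : 0 < s) {w : ℂ} (hw : ‖w‖ = 1) :
    ((((1 + s : ℝ) : ℂ) + w) / (((1 + s : ℝ) : ℂ) - w)).re =
      s * (s + 2) / (s ^ 2 + 2 * (1 + s) * (1 - w.re)) := by
  have h1 : w.re ^ 2 + w.im ^ 2 = 1 := by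
    have h := Complex.sq_norm w
    rw [hw, Complex.normSq_apply] at h
    nlinarith
  have h2 : w.re ≤ 1 := by
    have := Complex.re_le_norm w
    rwa [hw] at this
  have h3 : 0 < s ^ 2 + 2 * (1 + s) * (1 - w.re) := by
    have : 0 ≤ 2 * (1 + s) * (1 - w.re) := mul_nonneg (by linarith) (by linarith)
    positivity
  have h4 : Complex.normSq (((1 + s : ℝ) : ℂ) - w) = s ^ 2 + 2 * (1 + s) * (1 - w.re) := by
    rw [Complex.normSq_apply]
    simp only [Complex.sub_re, Complex.sub_im, Complex.ofReal_re, Complex.ofReal_im]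
    linear_combination h1
  rw [Complex.div_re, h4, ← add_div]
  congr 1
  simp only [Complex.sub_re, Complex.sub_im, Complex.add_re, Complex.add_im, Complex.ofReal_re,
    Complex.ofReal_im]
  linear_combination -h1

theorem QL_norm {u u₀ : ℂ} (hu : ‖u‖ = 1) (hu₀ : ‖u₀‖ = 1) :
    ‖u - u₀‖ ^ 2 = 2 * (1 - (u * (starRingEnd ℂ) u₀).re) := by
  have h1 := Complex.sq_norm u
  have h2 := Complex.sq_norm u₀
  rw [hu, Complex.normSq_apply] at h1
  rw [hu₀, Complex.normSq_apply] at h2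
  rw [Complex.sq_norm, Complex.normSq_apply]
  simp only [Complex.sub_re, Complex.sub_im, Complex.mul_re, Complex.conj_re, Complex.conj_im]
  linear_combination -h1 - h2

theorem QL_den {s : ℝ} (hs : 0 < s) {u u₀ : ℂ} (hu : ‖u‖ ≤ 1) (hu₀ : ‖u₀‖ = 1) :
    ((1 + s : ℝ) : ℂ) - u * (starRingEnd ℂ) u₀ ≠ 0 := by
  intro h
  have h1 : ((1 + s : ℝ) : ℂ) = u * (starRingEnd ℂ) u₀ := sub_eq_zero.1 h
  have h2 : ‖((1 + s : ℝ) : ℂ)‖ = ‖u‖ := by
    rw [h1, norm_mul, RCLike.norm_conj, hu₀, mul_one]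
  rw [Complex.norm_real, Real.norm_of_nonneg (by linarith)] at h2
  linarith

theorem p_QL (hQC : Stmt_QC) (hMX : Stmt_MX) : Stmt_QL := by
  intro m u₀ δ s τ hu₀ hδ hs hτ hsδ hτ2 r hr0 hr1
  set θ : ℝ := 2 * s ^ 2 / δ ^ 2 with hθ
  have hδ2 : 0 < δ ^ 2 := by positivity
  have hθ0 : 0 ≤ θ := by positivity
  have hθ1 : θ ≤ 1 := by
    rw [hθ, div_le_one hδ2]
    exact hsδ
  set P : ℂ → ℂ := fun u => ((s / (2 + s) : ℝ) : ℂ) *
    ((((1 + s : ℝ) : ℂ) + u * (starRingEnd ℂ) u₀) / (((1 + s : ℝ) : ℂ) - u * (starRingEnd ℂ) u₀))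
    with hP
  have hPre : ∀ u : ℂ, ‖u‖ = 1 → (P u).re = s ^ 2 / (s ^ 2 + (1 + s) * ‖u - u₀‖ ^ 2) := by
    intro u hu
    have hw : ‖u * (starRingEnd ℂ) u₀‖ = 1 := by
      rw [norm_mul, RCLike.norm_conj, hu, hu₀, mul_one]
    rw [hP]
    simp only
    rw [Complex.re_ofReal_mul, QL_re hs hw, QL_norm hu hu₀]
    have h2 : (u * (starRingEnd ℂ) u₀).re ≤ 1 := by
      have := Complex.re_le_norm (u * (starRingEnd ℂ) u₀)
      rwa [hw] at this
    have h3 : 0 < s ^ 2 + 2 * (1 + s) * (1 - (u * (starRingEnd ℂ) u₀).re) := by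
      have : 0 ≤ 2 * (1 + s) * (1 - (u * (starRingEnd ℂ) u₀).re) :=
        mul_nonneg (by linarith) (by linarith)
      positivity
    have h4 : s ^ 2 + (1 + s) * (2 * (1 - (u * (starRingEnd ℂ) u₀).re)) =
        s ^ 2 + 2 * (1 + s) * (1 - (u * (starRingEnd ℂ) u₀).re) := by ring
    rw [h4]
    have h5 : (2 + s) ≠ 0 := by positivity
    field_simp
    ring
  set g : ℂ → ℂ := fun u => (qp m).eval u - ((τ : ℝ) : ℂ) * (((1 + θ : ℝ) : ℂ) * P u - ((θ : ℝ) : ℂ))
    with hg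
  have hgre : ∀ u : ℂ, (g u).re = ((qp m).eval u).re - τ * ((1 + θ) * (P u).re - θ) := by
    intro u
    rw [hg]
    simp only
    rw [Complex.sub_re, Complex.re_ofReal_mul, Complex.sub_re, Complex.re_ofReal_mul,
      Complex.ofReal_re]
  have hPd : ∀ u : ℂ, ‖u‖ ≤ 1 → DifferentiableAt ℂ P u := by
    intro u hu
    rw [hP]
    refine DifferentiableAt.const_mul ?_ _
    refine DifferentiableAt.div ?_ ?_ (QL_den hs hu hu₀)
    · fun_prop
    · fun_prop
  have hgd : ∀ u : ℂ, ‖u‖ ≤ 1 → DifferentiableAt ℂ g u := by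
    intro u hu
    rw [hg]
    refine DifferentiableAt.sub ?_ ?_
    · exact (qp m).differentiable.differentiableAt
    · refine DifferentiableAt.const_mul ?_ _
      exact ((hPd u hu).const_mul _).sub_const _
  have hg0 : ∀ u : ℂ, ‖u‖ ≤ 1 → 0 ≤ (g u).re := by
    refine hMX g ?_ ?_ ?_
    · intro u hu
      rw [mem_ball_zero_iff] at hu
      exact (hgd u hu.le).differentiableWithinAt
    · intro u hu
      rw [mem_closedBall_zero_iff] at hu
      exact (hgd u hu).continuousAt.continuousWithinAt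
    · intro u hu
      rw [hgre, hQC m u hu, hPre u hu]
      have hre : 0 ≤ (1 - u.re) / 2 := by
        have := Complex.re_le_norm u
        rw [hu] at this
        linarith
      have hn : 0 ≤ ‖u - u₀‖ ^ 2 := by positivity
      have hden : 0 < s ^ 2 + (1 + s) * ‖u - u₀‖ ^ 2 := by positivity
      by_cases hc : ‖u - u₀‖ ≤ δ
      · have h1 := hτ2 u hu hc
        have h2 : s ^ 2 / (s ^ 2 + (1 + s) * ‖u - u₀‖ ^ 2) ≤ 1 := by
          rw [div_le_one hden]
          have : 0 ≤ (1 + s) * ‖u - u₀‖ ^ 2 := by positivity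
          linarith
        have h3 : (1 + θ) * (s ^ 2 / (s ^ 2 + (1 + s) * ‖u - u₀‖ ^ 2)) - θ ≤ 1 := by
          nlinarith
        have h4 := mul_le_mul_of_nonneg_left h3 hτ
        linarith
      · push Not at hc
        have h1 : δ ^ 2 ≤ ‖u - u₀‖ ^ 2 := pow_le_pow_left₀ hδ.le hc.le 2
        have h2 : s ^ 2 / (s ^ 2 + (1 + s) * ‖u - u₀‖ ^ 2) ≤ s ^ 2 / δ ^ 2 := by
          apply div_le_div_of_nonneg_left (by positivity) hδ2
          nlinarith [mul_nonneg hs.le hn, sq_nonneg s]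
        have h3 : s ^ 2 / δ ^ 2 = θ / 2 := by
          rw [hθ]
          ring
        rw [h3] at h2
        have h4 : (1 + θ) * (s ^ 2 / (s ^ 2 + (1 + s) * ‖u - u₀‖ ^ 2)) - θ ≤ 0 := by
          nlinarith
        have h5 := mul_nonpos_of_nonneg_of_nonpos hτ h4
        have h6 : 0 ≤ ((1 - u.re) / 2) ^ m := pow_nonneg hre m
        linarith
  have hru : ‖(r : ℂ) * u₀‖ ≤ 1 := by
    rw [norm_mul, hu₀, mul_one, Complex.norm_real, Real.norm_of_nonneg hr0]
    exact hr1
  have hfin := hg0 _ hru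
  rw [hgre] at hfin
  have hPr : P ((r : ℂ) * u₀) = ((s * (1 + s + r) / ((2 + s) * (1 + s - r)) : ℝ) : ℂ) := by
    have hc : u₀ * (starRingEnd ℂ) u₀ = 1 := by
      rw [Complex.mul_conj, Complex.normSq_eq_norm_sq, hu₀]
      norm_num
    rw [hP]
    simp only
    have e : (r : ℂ) * u₀ * (starRingEnd ℂ) u₀ = (r : ℂ) := by
      rw [mul_assoc, hc, mul_one]
    rw [e]
    have h1 : (2 + (s : ℂ)) ≠ 0 := by
      have : ((2 + s : ℝ) : ℂ) ≠ 0 := by
        rw [Complex.ofReal_ne_zero]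
        positivity
      push_cast at this
      exact this
    have h2 : (1 + (s : ℂ) - (r : ℂ)) ≠ 0 := by
      have : ((1 + s - r : ℝ) : ℂ) ≠ 0 := by
        rw [Complex.ofReal_ne_zero]
        linarith
      push_cast at this
      exact this
    push_cast
    field_simp
  rw [hPr, Complex.ofReal_re] at hfin
  set Q : ℝ := s * (1 + s + r) / ((2 + s) * (1 + s - r)) with hQ
  have hd : 0 < 1 + s - r := by linarith
  have hQ0 : 0 ≤ Q := by positivity
  have hQ1 : 1 - (1 - r) / s - (1 - r) / 2 ≤ Q := by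
    have ha : (1 - r) / (1 + s - r) ≤ (1 - r) / s :=
      div_le_div_of_nonneg_left (by linarith) hs (by linarith)
    have hb : (1 - r) / (2 + s) ≤ (1 - r) / 2 :=
      div_le_div_of_nonneg_left (by linarith) (by norm_num) (by linarith)
    have ha0 : 0 ≤ (1 - r) / (1 + s - r) := div_nonneg (by linarith) hd.le
    have hb0 : 0 ≤ (1 - r) / (2 + s) := div_nonneg (by linarith) (by linarith)
    have hQe : Q = (1 - (1 - r) / (1 + s - r)) * (1 - (1 - r) / (2 + s)) := by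
      rw [hQ]
      have h1 : (2 + s) ≠ 0 := by positivity
      have h2 : (1 + s - r) ≠ 0 := hd.ne'
      field_simp
      ring
    rw [hQe]
    nlinarith [mul_nonneg ha0 hb0]
  have h7 : 1 - (1 - r) / s - (1 - r) / 2 - θ ≤ (1 + θ) * Q - θ := by
    nlinarith [mul_nonneg hθ0 hQ0]
  have h8 := mul_le_mul_of_nonneg_left h7 hτ
  linarith

end Pool.Agent.Work.MP_d7cff0_an.AS
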