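import Pool.Agent.Work.MP_d7cff0_as.Interface

/-! # Block QLA -/

set_option autoImplicit false

noncomputable section

namespace Pool.Agent.Work.MP_d7cff0_an.AS

open MeasureTheory AddCircle Filter Topology Finset Polynomial
open scoped ENNReal

/-- `|1 + u|² = 2 (1 + Re u)` on the unit circle. -/
theorem QLA_sq {u : ℂ} (hu : ‖u‖ = 1) : ‖1 + u‖ ^ 2 = 2 * (1 + u.re) := by
  have h1 : ‖u‖ ^ 2 = 1 := by rw [hu, one_pow]
  rw [← Complex.normSq_eq_norm_sq] at h1 ⊢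
  rw [Complex.normSq_apply] at h1 ⊢
  simp only [Complex.add_re, Complex.add_im, Complex.one_re, Complex.one_im, zero_add]
  nlinarith

/-- The estimate in terms of `t = p ^ (1/12)`. -/
theorem QLA_main (h1 : Stmt_QL) {ε t r : ℝ} (hε : 0 < ε) (hε1 : ε ≤ 1 / 2) (ht : 200 / ε ≤ t)
    {m : ℕ} (hm : (m : ℝ) ≤ t ^ 12) {u₀ : ℂ} (hu : ‖u₀‖ = 1) (hr0 : 0 ≤ r) (hr1 : r ≤ 1)
    (hr : 1 - r ≤ 60 * t / t ^ 12) (hy : (1 + u₀.re) / 2 ≤ 96 * t / t ^ 12) :
    (1 - ε) * (1 - (1 + u₀.re) / 2) ^ m ≤ ((qp m).eval ((r : ℂ) * u₀)).re := by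
  have ht400 : 400 ≤ t := by
    have : (400 : ℝ) ≤ 200 / ε := by
      rw [le_div_iff₀ hε]; linarith
    linarith
  have ht0 : 0 < t := by linarith
  have ht1 : 1 ≤ t := by linarith
  have hte : 200 / t ≤ ε := by
    rw [div_le_iff₀ hε] at ht
    rw [div_le_iff₀ ht0]
    linarith
  set y : ℝ := (1 + u₀.re) / 2 with hyd
  have hy0 : 0 ≤ y := by
    have : |u₀.re| ≤ ‖u₀‖ := Complex.abs_re_le_norm u₀
    rw [hu] at this
    have := (abs_le.1 this).1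
    rw [hyd]; linarith
  have hy96 : y ≤ 96 / t ^ 11 := by
    refine hy.trans (le_of_eq ?_)
    field_simp
  have hr60 : 1 - r ≤ 60 / t ^ 11 := by
    refine hr.trans (le_of_eq ?_)
    field_simp
  have hpow : ∀ k : ℕ, 1 ≤ t ^ k := fun k => one_le_pow₀ ht1
  -- bounds of the form c / t ^ k
  have hdiv : ∀ (c : ℝ) (j k : ℕ), 0 ≤ c → j ≤ k → c / t ^ k ≤ c / t ^ j := fun c j k hc hjk =>
    div_le_div_of_nonneg_left hc (by positivity) (pow_le_pow_right₀ ht1 hjk)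
  have hyhalf : y ≤ 1 / 2 := by
    have h2 : (96 : ℝ) / t ^ 11 ≤ 96 / t ^ 1 := hdiv 96 1 11 (by norm_num) (by norm_num)
    have h3 : 96 / t ^ 1 ≤ 1 / 2 := by
      rw [pow_one, div_le_iff₀ ht0]; linarith
    linarith
  -- the number e
  set a : ℝ := ‖1 + u₀‖ with had
  have ha0 : 0 ≤ a := norm_nonneg _
  have ha2 : a ^ 2 = 4 * y := by rw [had, QLA_sq hu, hyd]; ring
  have ha20 : a ≤ 20 / t ^ 5 := by
    refine abs_le_of_sq_le_sq' ?_ (by positivity) |>.2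
    rw [ha2]
    have h2 : (96 : ℝ) / t ^ 11 ≤ 96 / t ^ 10 := hdiv 96 10 11 (by norm_num) (by norm_num)
    have h3 : (20 / t ^ 5) ^ 2 = 400 / t ^ 10 := by
      rw [div_pow, ← pow_mul]; norm_num
    rw [h3]
    have h4 : 4 * (96 / t ^ 10) ≤ 400 / t ^ 10 := by
      rw [mul_div_assoc']
      exact div_le_div_of_nonneg_right (by norm_num) (by positivity)
    linarith
  set e : ℝ := 10 / t ^ 14 + 1 / t ^ 18 with hed
  have he0 : 0 ≤ e := by positivity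
  have he : a * (1 / t ^ 9) / 2 + (1 / t ^ 9) ^ 2 / 4 ≤ e := by
    have h2 : a * (1 / t ^ 9) ≤ 20 / t ^ 5 * (1 / t ^ 9) :=
      mul_le_mul_of_nonneg_right ha20 (by positivity)
    have h3 : 20 / t ^ 5 * (1 / t ^ 9) = 20 / t ^ 14 := by
      rw [div_mul_div_comm, ← pow_add, mul_one]
    have h4 : (1 / t ^ 9) ^ 2 = 1 / t ^ 18 := by
      rw [div_pow, ← pow_mul, one_pow]
    have h5 : 20 / t ^ 14 / 2 = 10 / t ^ 14 := by ring
    have h6 : 0 ≤ 1 / t ^ 18 := by positivity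
    rw [h4, hed]
    linarith
  have hem : e * m ≤ 11 / t := by
    have h2 : e * m ≤ e * t ^ 12 := mul_le_mul_of_nonneg_left hm he0
    have h3 : e * t ^ 12 = 10 / t ^ 2 + 1 / t ^ 6 := by
      rw [hed]
      field_simp
    have h4 : 10 / t ^ 2 ≤ 10 / t ^ 1 := hdiv 10 1 2 (by norm_num) (by norm_num)
    have h5 : 1 / t ^ 6 ≤ 1 / t ^ 1 := hdiv 1 1 6 (by norm_num) (by norm_num)
    have h6 : 10 / t ^ 1 + 1 / t ^ 1 = 11 / t := by rw [pow_one]; ring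
    linarith
  have h11 : 11 / t ≤ ε / 18 := by
    have : 11 / t = (200 / t) * (11 / 200) := by ring
    rw [this]
    nlinarith
  have he2 : 2 * e ≤ 1 := by
    have h4 : 10 / t ^ 14 ≤ 10 / t ^ 1 := hdiv 10 1 14 (by norm_num) (by norm_num)
    have h5 : 1 / t ^ 18 ≤ 1 / t ^ 1 := hdiv 1 1 18 (by norm_num) (by norm_num)
    have h6 : 10 / t ^ 1 + 1 / t ^ 1 = 11 / t := by rw [pow_one]; ring
    rw [hed]
    linarith
  have hym : 0 ≤ (1 - y) ^ m := pow_nonneg (by linarith) m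
  have key : ∀ u : ℂ, ‖u‖ = 1 → ‖u - u₀‖ ≤ 1 / t ^ 9 →
      (1 - ε / 2) * (1 - y) ^ m ≤ ((1 - u.re) / 2) ^ m := by
    intro u hu1 hd
    have hb2 : ‖1 + u‖ ^ 2 = 4 * ((1 + u.re) / 2) := by rw [QLA_sq hu1]; ring
    have hb : ‖1 + u‖ ≤ a + 1 / t ^ 9 := by
      have : (1 : ℂ) + u = (1 + u₀) + (u - u₀) := by ring
      rw [this]
      exact (norm_add_le _ _).trans (add_le_add le_rfl hd)
    have hb3 : ‖1 + u‖ ^ 2 ≤ (a + 1 / t ^ 9) ^ 2 :=
      pow_le_pow_left₀ (norm_nonneg _) hb 2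
    have hyu : (1 + u.re) / 2 ≤ y + e := by nlinarith
    have h2 : (1 - u.re) / 2 = 1 - (1 + u.re) / 2 := by ring
    have h3 : (1 - y) * (1 - 2 * e) ≤ (1 - u.re) / 2 := by
      rw [h2]; nlinarith
    have h4 : 0 ≤ (1 - y) * (1 - 2 * e) := mul_nonneg (by linarith) (by linarith)
    have h5 : 1 + (m : ℝ) * (-(2 * e)) ≤ (1 + -(2 * e)) ^ m :=
      one_add_mul_le_pow (by linarith) m
    calc (1 - ε / 2) * (1 - y) ^ m ≤ (1 + (m : ℝ) * (-(2 * e))) * (1 - y) ^ m := by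
          refine mul_le_mul_of_nonneg_right ?_ hym
          nlinarith
      _ ≤ (1 + -(2 * e)) ^ m * (1 - y) ^ m := mul_le_mul_of_nonneg_right h5 hym
      _ = ((1 - y) * (1 - 2 * e)) ^ m := by rw [mul_pow, mul_comm, ← sub_eq_add_neg]
      _ ≤ ((1 - u.re) / 2) ^ m := pow_le_pow_left₀ h4 h3 m
  have hst : 2 * (1 / t ^ 10) ^ 2 ≤ (1 / t ^ 9) ^ 2 := by
    rw [div_pow, div_pow, ← pow_mul, ← pow_mul, one_pow, mul_one_div,
      div_le_div_iff₀ (by positivity) (by positivity)]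
    have : t ^ (10 * 2) = t ^ (9 * 2) * t ^ 2 := by rw [← pow_add]
    rw [this, one_mul]
    have h2 : 2 ≤ t ^ 2 := by nlinarith
    nlinarith [pow_pos ht0 (9 * 2)]
  have hτ : 0 ≤ (1 - ε / 2) * (1 - y) ^ m := mul_nonneg (by linarith) hym
  have hfin := h1 m u₀ (1 / t ^ 9) (1 / t ^ 10) ((1 - ε / 2) * (1 - y) ^ m) hu (by positivity)
    (by positivity) hτ hst key r hr0 hr1
  refine le_trans ?_ hfin
  have hA : (1 - r) / (1 / t ^ 10) ≤ 60 / t := by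
    rw [div_div_eq_mul_div, div_one]
    have h2 : (1 - r) * t ^ 10 ≤ 60 / t ^ 11 * t ^ 10 :=
      mul_le_mul_of_nonneg_right hr60 (by positivity)
    have h3 : 60 / t ^ 11 * t ^ 10 = 60 / t := by field_simp
    linarith
  have hB : (1 - r) / 2 ≤ 30 / t := by
    have h2 : 60 / t ^ 11 ≤ 60 / t ^ 1 := hdiv 60 1 11 (by norm_num) (by norm_num)
    rw [pow_one] at h2
    have h3 : 60 / t / 2 = 30 / t := by ring
    linarith
  have hC : 2 * (1 / t ^ 10) ^ 2 / (1 / t ^ 9) ^ 2 ≤ 2 / t := by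
    have h2 : 2 * (1 / t ^ 10) ^ 2 / (1 / t ^ 9) ^ 2 = 2 / t ^ 2 := by
      field_simp
    rw [h2]
    have h3 : 2 / t ^ 2 ≤ 2 / t ^ 1 := hdiv 2 1 2 (by norm_num) (by norm_num)
    rwa [pow_one] at h3
  have hD : 60 / t + 30 / t + 2 / t ≤ ε / 2 := by
    have : 60 / t + 30 / t + 2 / t = (200 / t) * (92 / 200) := by ring
    rw [this]
    nlinarith
  have hE : 1 - ε / 2 ≤ 1 - (1 - r) / (1 / t ^ 10) - (1 - r) / 2 -
      2 * (1 / t ^ 10) ^ 2 / (1 / t ^ 9) ^ 2 := by linarith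
  calc (1 - ε) * (1 - y) ^ m ≤ ((1 - ε / 2) * (1 - y) ^ m) * (1 - ε / 2) := by
        have : (1 - ε) ≤ (1 - ε / 2) * (1 - ε / 2) := by nlinarith
        nlinarith
    _ ≤ _ := mul_le_mul_of_nonneg_left hE hτ

theorem p_QLA (h1 : Stmt_QL) : Stmt_QLA := by
  intro ε hε
  set ε' : ℝ := min ε (1 / 2) with hε'
  have hε'0 : 0 < ε' := lt_min hε (by norm_num)
  have hε'1 : ε' ≤ 1 / 2 := min_le_right _ _
  refine ⟨(200 / ε') ^ 12, fun p hp m hm v hv hr hr1 hy => ?_⟩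
  have h200 : 0 < 200 / ε' := by positivity
  have hp0 : 0 < p := lt_of_lt_of_le (by positivity) hp
  set t : ℝ := p ^ (1 / 12 : ℝ) with ht
  have ht0 : 0 < t := Real.rpow_pos_of_pos hp0 _
  have htp : t ^ 12 = p := by
    rw [ht, ← Real.rpow_natCast, ← Real.rpow_mul hp0.le]
    norm_num
  have ht2 : 200 / ε' ≤ t := by
    rw [← htp] at hp
    exact le_of_pow_le_pow_left₀ (by norm_num) ht0.le hp
  have hlog : Real.log p ≤ 12 * t := by
    rw [← htp, Real.log_pow]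
    have := Real.log_le_sub_one_of_pos ht0
    push_cast
    linarith
  have hn : 0 < ‖v‖ := norm_pos_iff.2 hv
  set u₀ : ℂ := v / (‖v‖ : ℂ) with hu
  have hnc : (‖v‖ : ℂ) ≠ 0 := by exact_mod_cast hn.ne'
  have hu1 : ‖u₀‖ = 1 := by
    rw [hu, norm_div, Complex.norm_real, norm_norm, div_self hn.ne']
  have hvu : (‖v‖ : ℂ) * u₀ = v := by rw [hu]; field_simp
  have hre : u₀.re = v.re / ‖v‖ := by
    rw [hu, Complex.div_ofReal_re]
  have hyy : (‖v‖ + v.re) / (2 * ‖v‖) = (1 + u₀.re) / 2 := by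
    rw [hre]; field_simp
  rw [hyy] at hy ⊢
  have hy' : (1 + u₀.re) / 2 ≤ 96 * t / t ^ 12 := by
    rw [htp]
    refine hy.trans ?_
    exact div_le_div_of_nonneg_right (by linarith) hp0.le
  have hr' : 1 - ‖v‖ ≤ 60 * t / t ^ 12 := by
    rw [htp]
    have h2 : 5 * Real.log p / p ≤ 60 * t / p := div_le_div_of_nonneg_right (by linarith) hp0.le
    linarith
  have hmain := QLA_main h1 hε'0 hε'1 ht2 (by rw [htp]; exact hm) hu1 hn.le hr1 hr' hy'
  rw [hvu] at hmain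
  refine le_trans ?_ hmain
  have hnn : 0 ≤ (1 - (1 + u₀.re) / 2) ^ m := by
    refine pow_nonneg ?_ m
    have : |u₀.re| ≤ ‖u₀‖ := Complex.abs_re_le_norm u₀
    rw [hu1] at this
    have := (abs_le.1 this).2
    linarith
  refine mul_le_mul_of_nonneg_right ?_ hnn
  have : ε' ≤ ε := min_le_left _ _
  linarith

end Pool.Agent.Work.MP_d7cff0_an.AS
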