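import Pool.Agent.Work.MP_d7cff0_as.Interface

/-! Block QU of the table asp_blocks (helper55) -/

set_option autoImplicit false

noncomputable section

namespace Pool.Agent.Work.MP_d7cff0_an.AS

open MeasureTheory AddCircle Filter Topology Finset Polynomial
open scoped ENNReal

theorem p_QU (hQC : Stmt_QC) (hQA : Stmt_QA) (hMX : Stmt_MX) : Stmt_QU := by
  have h1 : ∀ (m : ℕ) (u : ℂ), ‖u‖ ≤ 1 → 0 ≤ ((qp m).eval u).re := by
    intro m
    refine hMX (fun u => (qp m).eval u) (Polynomial.differentiable (qp m)).differentiableOn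
      (Polynomial.continuous (qp m)).continuousOn ?_
    intro u hu
    show 0 ≤ ((qp m).eval u).re
    rw [hQC m u hu]
    have h2 : u.re ≤ 1 := by
      have h3 := Complex.re_le_norm u
      linarith
    apply pow_nonneg
    linarith
  refine ⟨h1, ?_⟩
  intro m ρ hm h0 hρ1
  obtain ⟨hA, -, -, -, hR⟩ := hQA
  obtain ⟨k, rfl⟩ : ∃ k, m = k + 1 := ⟨m - 1, by omega⟩
  have hk : k + 1 - 1 = k := rfl
  rw [hk, hR k ρ h0]
  have hn : ‖(ρ : ℂ)‖ ≤ 1 := by
    rw [Complex.norm_real, Real.norm_eq_abs, abs_of_pos h0]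
    exact hρ1
  have h2 : 0 ≤ qa k ρ := h1 k (ρ : ℂ) hn
  have h3 : qa k ρ ≤ 1 := by
    have h4 := (hA k (ρ : ℂ)).1 hn
    exact (Complex.re_le_norm _).trans h4
  have h5 : 0 ≤ (1 - ρ) ^ 2 / (4 * ρ) := by positivity
  constructor
  · nlinarith [mul_nonneg h5 h2]
  · nlinarith [mul_nonneg h5 (sub_nonneg.mpr h3)]

end Pool.Agent.Work.MP_d7cff0_an.AS
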