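import Pool.Agent.Work.MP_d7cff0_as.Interface

/-! # Block R1L (helper1): lower bound for `p → 1` -/

set_option autoImplicit false

noncomputable section

namespace Pool.Agent.Work.MP_d7cff0_an.AS

open MeasureTheory AddCircle Filter Topology Finset Polynomial
open scoped ENNReal

theorem R1L_lim (ε : ℝ) (hε : 0 < ε) : ∃ η : ℝ, 0 < η ∧ ∀ p : ℝ, 1 < p → p < 1 + η →
    (2 / √3 - ε) * (3 * 14 ^ (p - 1)) ≤ (2 * √3) ^ p := by
  have h3 : (0 : ℝ) < √3 := Real.sqrt_pos.2 (by norm_num)
  have h33 : √3 * √3 = 3 := Real.mul_self_sqrt (by norm_num)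
  have hc : ContinuousAt (fun p : ℝ => (2 * √3) ^ p - (2 / √3 - ε) * (3 * 14 ^ (p - 1))) 1 := by
    have h1 : ContinuousAt (fun p : ℝ => (2 * √3) ^ p) 1 :=
      Real.continuousAt_const_rpow (by positivity)
    have h2 : ContinuousAt (fun p : ℝ => (14 : ℝ) ^ (p - 1)) 1 := by
      have : Continuous (fun p : ℝ => (14 : ℝ) ^ (p - 1)) :=
        Continuous.rpow continuous_const (by fun_prop) (fun _ => Or.inl (by norm_num))
      exact this.continuousAt
    exact h1.sub (continuousAt_const.mul (continuousAt_const.mul h2))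
  have h0 : 0 < (fun p : ℝ => (2 * √3) ^ p - (2 / √3 - ε) * (3 * 14 ^ (p - 1))) 1 := by
    simp only [sub_self, Real.rpow_zero, Real.rpow_one, mul_one]
    have : 2 / √3 * 3 = 2 * √3 := by
      field_simp
      nlinarith
    nlinarith
  have h4 := hc.eventually_const_lt h0
  rw [Metric.eventually_nhds_iff] at h4
  obtain ⟨η, hη, h5⟩ := h4
  refine ⟨η, hη, fun p hp1 hp2 => ?_⟩
  have h6 := h5 (y := p) (by rw [Real.dist_eq, abs_of_pos (by linarith)]; linarith)
  linarith

theorem R1L_aff (T : ℝ) [Fact (0 < T)] (p : ℝ) (g : AddCircle T → ℝ)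
    (hg : Integrable g (haarAddCircle (T := T))) :
    Integrable (fun t => 1 + p * (g t - 1)) (haarAddCircle (T := T)) ∧
    ∫ t, (1 + p * (g t - 1)) ∂(haarAddCircle (T := T)) =
      1 + p * (∫ t, g t ∂(haarAddCircle (T := T)) - 1) := by
  have h1 : Integrable (fun t => g t - 1) (haarAddCircle (T := T)) :=
    hg.sub (integrable_const (1 : ℝ))
  have h2 : Integrable (fun t => p * (g t - 1)) (haarAddCircle (T := T)) := h1.const_mul p
  refine ⟨(integrable_const (1 : ℝ)).add h2, ?_⟩
  rw [integral_add (integrable_const (1 : ℝ)) h2, integral_const_mul,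
    integral_sub hg (integrable_const (1 : ℝ))]
  simp

/-- The explicit form (asked for by helper39). -/
theorem R1L_lo (T : ℝ) [hT : Fact (0 < T)] (p : ℝ) (hp1 : 1 ≤ p) :
    LoI T p ((2 * √3) ^ p / (3 * 14 ^ (p - 1))) := by
  have h3 : (0 : ℝ) < √3 := Real.sqrt_pos.2 (by norm_num)
  have h33 : √3 * √3 = 3 := Real.mul_self_sqrt (by norm_num)
  have h32 : √3 < 2 := by
    rw [Real.sqrt_lt' (by norm_num)]; norm_num
  have h31 : 1 < √3 := by
    rw [Real.lt_sqrt (by norm_num)]; norm_num
  have ha0 : (0 : ℝ) ≤ 1 / √3 := by positivity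
  have ha1 : 1 / √3 < 1 := by
    rw [div_lt_one h3]; exact h31
  obtain ⟨φ, hφ, hφm, hφn, -⟩ := exists_moebius (T := T) ha0 ha1
  have h1mem : (1 : C(AddCircle T, ℂ)) ∈ discAlg T := Subalgebra.one_mem _
  have h1mean : mean (1 : C(AddCircle T, ℂ)) = 1 := by
    have : (1 : C(AddCircle T, ℂ)) = pc 1 := by unfold pc; rw [map_one]
    rw [this, mean_pc]; simp
  set s : C(AddCircle T, ℂ) := ((2 : ℝ) : ℂ) • (1 : C(AddCircle T, ℂ)) +
    ((-√3 : ℝ) : ℂ) • φ with hs
  have hsmem : s ∈ discAlg T :=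
    Subalgebra.add_mem _ (Subalgebra.smul_mem _ h1mem _) (Subalgebra.smul_mem _ hφ _)
  have hsmean : mean s = 1 := by
    rw [hs, mean_add, mean_smul, mean_smul, h1mean, hφm, mul_one, ← Complex.ofReal_mul,
      ← Complex.ofReal_add]
    have : 2 + -√3 * (1 / √3) = 1 := by
      field_simp
      norm_num
    rw [this]; simp
  have hFmem : s * s ∈ discAlg T := Subalgebra.mul_mem _ hsmem hsmem
  have hFmean : mean (s * s) = 1 := by
    rw [mean_mul hsmem hsmem, hsmean, mul_one]
  -- pointwise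
  have hst : ∀ t, s t = ((2 : ℝ) : ℂ) + ((-√3 : ℝ) : ℂ) * φ t := by
    intro t
    rw [hs]
    simp only [ContinuousMap.add_apply, ContinuousMap.smul_apply, ContinuousMap.one_apply,
      smul_eq_mul, mul_one]
  have hre : ∀ t, (s t).re = 2 - √3 * (φ t).re := by
    intro t
    rw [hst, Complex.add_re, Complex.re_ofReal_mul, Complex.ofReal_re]
    ring
  have him : ∀ t, (s t).im = - √3 * (φ t).im := by
    intro t
    rw [hst, Complex.add_im, Complex.im_ofReal_mul, Complex.ofReal_im]
    ring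
  have hφ1 : ∀ t, (φ t).re * (φ t).re + (φ t).im * (φ t).im = 1 := by
    intro t
    have e1 : ‖φ t‖ ^ 2 = 1 := by rw [hφn]; norm_num
    rw [Complex.sq_norm, Complex.normSq_apply] at e1
    exact e1
  have hns : ∀ t, ‖s t‖ ^ 2 = 4 * (s t).re - 1 := by
    intro t
    rw [Complex.sq_norm, Complex.normSq_apply, hre, him]
    have e1 := hφ1 t
    have e2 : (2 - √3 * (φ t).re) * (2 - √3 * (φ t).re) + -√3 * (φ t).im * (-√3 * (φ t).im) =
        4 - 4 * (√3 * (φ t).re) + √3 * √3 * ((φ t).re * (φ t).re + (φ t).im * (φ t).im) := by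
      ring
    rw [e2, e1, h33]
    ring
  have hrepos : ∀ t, 0 < (s t).re := by
    intro t
    rw [hre]
    have e1 : (φ t).re ≤ 1 := by
      have := Complex.re_le_norm (φ t)
      rw [hφn] at this
      exact this
    nlinarith
  have hrele : ∀ t, (s t).re ≤ 15 / 4 := by
    intro t
    rw [hre]
    have e1 : -1 ≤ (φ t).re := by
      have := Complex.abs_re_le_norm (φ t)
      rw [hφn] at this
      exact (abs_le.1 this).1
    have h34 : √3 < 7 / 4 := by
      rw [Real.sqrt_lt' (by norm_num)]; norm_num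
    nlinarith
  have hnF : ∀ t, ‖(s * s) t‖ = 4 * (s t).re - 1 := by
    intro t
    rw [ContinuousMap.mul_apply, norm_mul, ← sq, hns]
  have hnF1 : ∀ t, ‖(s * s) t - mean (s * s)‖ = 2 * √3 * (s t).re := by
    intro t
    rw [hFmean, ContinuousMap.mul_apply]
    have e0 : s t * s t - 1 = (s t - 1) * (s t + 1) := by ring
    rw [e0, norm_mul]
    have e1 : ‖s t - 1‖ ^ 2 = 2 * (s t).re := by
      have := hns t
      rw [Complex.sq_norm, Complex.normSq_apply] at this ⊢
      simp only [Complex.sub_re, Complex.sub_im, Complex.one_re, Complex.one_im]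
      nlinarith
    have e2 : ‖s t + 1‖ ^ 2 = 6 * (s t).re := by
      have := hns t
      rw [Complex.sq_norm, Complex.normSq_apply] at this ⊢
      simp only [Complex.add_re, Complex.add_im, Complex.one_re, Complex.one_im]
      nlinarith
    have e3 : (‖s t - 1‖ * ‖s t + 1‖) ^ 2 = (2 * √3 * (s t).re) ^ 2 := by
      rw [mul_pow, e1, e2]
      have : (2 * √3 * (s t).re) ^ 2 = 4 * (√3 * √3) * ((s t).re) ^ 2 := by ring
      rw [this, h33]
      ring
    have hp0 := hrepos t
    exact (sq_eq_sq₀ (by positivity) (by positivity)).1 e3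
  have hcont : Continuous (fun t => (s t).re) := Complex.continuous_re.comp s.continuous
  have hint : Integrable (fun t => (s t).re) (haarAddCircle (T := T)) := integrable_cont hcont
  have hI : ∫ t, (s t).re ∂(haarAddCircle (T := T)) = 1 := by
    have e1 := congrArg Complex.re hsmean
    rw [Complex.one_re] at e1
    rw [← e1]
    unfold mean
    exact integral_re (integrable_cont s.continuous)
  have hIF : ∫ t, (4 * (s t).re - 1) ∂(haarAddCircle (T := T)) = 3 := by
    rw [integral_sub (hint.const_mul 4) (integrable_const _), integral_const_mul, hI]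
    simp
    norm_num
  have hp0 : 0 ≤ p := by linarith
  have hcF : Integrable (fun t => ‖(s * s) t‖ ^ p) (haarAddCircle (T := T)) :=
    integrable_cont ((s * s).continuous.norm.rpow_const (fun _ => Or.inr hp0))
  have hcF1 : Integrable (fun t => ‖(s * s) t - mean (s * s)‖ ^ p) (haarAddCircle (T := T)) :=
    integrable_cont (((s * s).continuous.sub continuous_const).norm.rpow_const
      (fun _ => Or.inr hp0))
  -- lower bound for `∫ |F - 1| ^ p`
  have hlow : (2 * √3) ^ p ≤ ∫ t, ‖(s * s) t - mean (s * s)‖ ^ p ∂(haarAddCircle (T := T)) := by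
    have e1 : ∀ t, (2 * √3) ^ p * (1 + p * ((s t).re - 1)) ≤ ‖(s * s) t - mean (s * s)‖ ^ p := by
      intro t
      have hp0' := hrepos t
      rw [hnF1, Real.mul_rpow (by positivity) hp0'.le]
      apply mul_le_mul_of_nonneg_left _ (by positivity)
      have := one_add_mul_self_le_rpow_one_add (s := (s t).re - 1) (by linarith) hp1
      rwa [add_sub_cancel] at this
    calc (2 * √3) ^ p = ∫ t, (2 * √3) ^ p * (1 + p * ((s t).re - 1)) ∂(haarAddCircle (T := T)) := by
          rw [integral_const_mul, (R1L_aff T p _ hint).2, hI]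
          simp
      _ ≤ _ := integral_mono ((R1L_aff T p _ hint).1.const_mul _) hcF1 e1
  -- upper bound for `∫ |F| ^ p`
  have hup : ∫ t, ‖(s * s) t‖ ^ p ∂(haarAddCircle (T := T)) ≤ 3 * 14 ^ (p - 1) := by
    have e1 : ∀ t, ‖(s * s) t‖ ^ p ≤ 14 ^ (p - 1) * (4 * (s t).re - 1) := by
      intro t
      have e2 := hnF t
      have e3 : 0 ≤ ‖(s * s) t‖ := norm_nonneg _
      have e4 : ‖(s * s) t‖ ≤ 14 := by
        rw [e2]; linarith [hrele t]
      rw [← e2]
      have e5 : ‖(s * s) t‖ ^ p = ‖(s * s) t‖ ^ (p - 1) * ‖(s * s) t‖ := by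
        have : p = (p - 1) + 1 := by ring
        conv_lhs => rw [this]
        rw [Real.rpow_add_one' e3 (by linarith)]
      rw [e5]
      apply mul_le_mul_of_nonneg_right _ e3
      exact Real.rpow_le_rpow e3 e4 (by linarith)
    calc ∫ t, ‖(s * s) t‖ ^ p ∂(haarAddCircle (T := T))
        ≤ ∫ t, 14 ^ (p - 1) * (4 * (s t).re - 1) ∂(haarAddCircle (T := T)) :=
          integral_mono hcF (((hint.const_mul 4).sub (integrable_const _)).const_mul _) e1
      _ = _ := by rw [integral_const_mul, hIF]; ring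
  -- positivity
  have hpos : 0 < ∫ t, ‖(s * s) t‖ ^ p ∂(haarAddCircle (T := T)) := by
    have e1 : ∀ t, 1 + p * ((4 * (s t).re - 1) - 1) ≤ ‖(s * s) t‖ ^ p := by
      intro t
      have e2 := hnF t
      have e3 : 0 ≤ ‖(s * s) t‖ := norm_nonneg _
      have := one_add_mul_self_le_rpow_one_add (s := ‖(s * s) t‖ - 1) (by linarith) hp1
      rw [add_sub_cancel] at this
      rw [← e2]
      exact this
    have hint2 : Integrable (fun t => 4 * (s t).re - 1) (haarAddCircle (T := T)) :=
      (hint.const_mul 4).sub (integrable_const _)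
    have e2 : ∫ t, (1 + p * ((4 * (s t).re - 1) - 1)) ∂(haarAddCircle (T := T)) = 1 + 2 * p := by
      rw [(R1L_aff T p _ hint2).2, hIF]
      ring
    have e3 := integral_mono (R1L_aff T p _ hint2).1 hcF e1
    have e4 : (0 : ℝ) < 1 + 2 * p := by linarith
    exact lt_of_lt_of_le e4 (by rw [← e2]; exact e3)
  refine ⟨s * s, hFmem, hpos, ?_⟩
  refine le_trans ?_ hlow
  have h5 : (0 : ℝ) < 3 * 14 ^ (p - 1) := by positivity
  rw [div_mul_eq_mul_div, div_le_iff₀ h5]
  exact mul_le_mul_of_nonneg_left hup (by positivity)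

theorem p_R1L : Stmt_R1L := by
  intro ε hε
  obtain ⟨η, hη, hlim⟩ := R1L_lim ε hε
  refine ⟨η, hη, ?_⟩
  intro T hT p hp1 hp2
  obtain ⟨F, hF, hpos, hle⟩ := R1L_lo T p hp1.le
  refine ⟨F, hF, hpos, le_trans ?_ hle⟩
  apply mul_le_mul_of_nonneg_right _ hpos.le
  rw [le_div_iff₀ (by positivity)]
  exact hlim p hp1 hp2

end Pool.Agent.Work.MP_d7cff0_an.AS
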