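import Pool.Agent.Work.MP_d7cff0_as.Interface

/-!
# MP_d7cff0_an, THEOREM AS, block R1U: the upper bound for `p → 1`

We prove the explicit bound `UpI T p ((2 / √3) * (2 ^ p - 1))` for every `p ≥ 1`.
-/

set_option autoImplicit false

noncomputable section

namespace Pool.Agent.Work.MP_d7cff0_an.AS

open MeasureTheory AddCircle Filter Topology Finset Polynomial
open scoped ENNReal

/-- `Re √w` -/
def R1U_x (w : ℂ) : ℝ := √((‖w‖ + w.re) / 2)

theorem R1U_x_nonneg (w : ℂ) : 0 ≤ R1U_x w := Real.sqrt_nonneg _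

theorem R1U_x_sq (w : ℂ) : R1U_x w ^ 2 = (‖w‖ + w.re) / 2 :=
  Real.sq_sqrt (by have := neg_le_of_abs_le (Complex.abs_re_le_norm w); linarith)

theorem R1U_x_le (w : ℂ) : R1U_x w ^ 2 ≤ ‖w‖ := by
  rw [R1U_x_sq]
  have := (le_abs_self _).trans (Complex.abs_re_le_norm w)
  linarith

theorem R1U_norm_sq (w : ℂ) : ‖w - 1‖ ^ 2 = ‖w‖ ^ 2 - 2 * w.re + 1 := by
  rw [← Complex.normSq_eq_norm_sq, ← Complex.normSq_eq_norm_sq, Complex.normSq_apply,
    Complex.normSq_apply]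
  simp
  ring

theorem R1U_nonneg (w : ℂ) : 0 ≤ ‖w‖ + 1 - R1U_x w := by
  have h := R1U_x_le w
  nlinarith [sq_nonneg (R1U_x w - 1 / 2)]

theorem R1U_lin (w : ℂ) : ‖w - 1‖ ≤ 2 / √3 * (‖w‖ + 1 - R1U_x w) := by
  have h3 : √(3 : ℝ) ^ 2 = 3 := Real.sq_sqrt (by norm_num)
  have hx := R1U_x_sq w
  have hnn := R1U_nonneg w
  refine (sq_le_sq₀ (norm_nonneg _) (by positivity)).1 ?_
  rw [R1U_norm_sq, mul_pow, div_pow, h3]
  nlinarith [sq_nonneg (‖w‖ + 1 - 4 * R1U_x w)]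

theorem R1U_point (p : ℝ) (hp : 1 ≤ p) (w : ℂ) :
    ‖w - 1‖ ^ p ≤ 2 / √3 * 2 ^ (p - 1) * (‖w‖ ^ p + 1) - 2 / √3 * R1U_x w := by
  have h1 := R1U_lin w
  have hnn := R1U_nonneg w
  have hx := R1U_x_nonneg w
  have ha : 0 ≤ ‖w‖ := norm_nonneg w
  have h2 : ‖w - 1‖ ≤ ‖w‖ + 1 := by
    have := norm_sub_le w 1
    rwa [norm_one] at this
  have h3 : ‖w - 1‖ ^ p = ‖w - 1‖ * ‖w - 1‖ ^ (p - 1) := by
    rw [← Real.rpow_one_add' (norm_nonneg _) (by linarith)]
    congr 1; ring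
  have h4 : (‖w‖ + 1) ^ p = (‖w‖ + 1) * (‖w‖ + 1) ^ (p - 1) := by
    rw [← Real.rpow_one_add' (by linarith) (by linarith)]
    congr 1; ring
  have h5 : ‖w - 1‖ ^ (p - 1) ≤ (‖w‖ + 1) ^ (p - 1) :=
    Real.rpow_le_rpow (norm_nonneg _) h2 (by linarith)
  have h6 : (1 : ℝ) ≤ (‖w‖ + 1) ^ (p - 1) := Real.one_le_rpow (by linarith) (by linarith)
  have h7 : (‖w‖ + 1) ^ p ≤ 2 ^ (p - 1) * (‖w‖ ^ p + 1) := by
    have h8 := NNReal.coe_le_coe.2 (NNReal.rpow_add_le_mul_rpow_add_rpow ‖w‖₊ 1 hp)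
    push_cast at h8
    rwa [Real.one_rpow] at h8
  have hK : (0 : ℝ) < 2 / √3 := by positivity
  calc ‖w - 1‖ ^ p = ‖w - 1‖ * ‖w - 1‖ ^ (p - 1) := h3
    _ ≤ (2 / √3 * (‖w‖ + 1 - R1U_x w)) * (‖w‖ + 1) ^ (p - 1) :=
        mul_le_mul h1 h5 (Real.rpow_nonneg (norm_nonneg _) _) (by positivity)
    _ = 2 / √3 * ((‖w‖ + 1) ^ p - R1U_x w * (‖w‖ + 1) ^ (p - 1)) := by rw [h4]; ring
    _ ≤ 2 / √3 * (2 ^ (p - 1) * (‖w‖ ^ p + 1) - R1U_x w) := by
        refine mul_le_mul_of_nonneg_left ?_ hK.le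
        have := mul_le_mul_of_nonneg_left h6 hx
        linarith
    _ = 2 / √3 * 2 ^ (p - 1) * (‖w‖ ^ p + 1) - 2 / √3 * R1U_x w := by ring

theorem R1U_low (p : ℝ) (hp : 1 ≤ p) (w : ℂ) : 1 + 2 * p * (R1U_x w - 1) ≤ ‖w‖ ^ p := by
  have hx := R1U_x_nonneg w
  have h1 := one_add_mul_self_le_rpow_one_add (s := R1U_x w - 1) (by linarith)
    (p := 2 * p) (by linarith)
  have h2 : (1 + (R1U_x w - 1)) ^ (2 * p) = (R1U_x w ^ 2) ^ p := by
    rw [add_sub_cancel, Real.rpow_mul hx, Real.rpow_two]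
  rw [h2] at h1
  exact h1.trans (Real.rpow_le_rpow (by positivity) (R1U_x_le w) (by linarith))

theorem R1U_cont_x : Continuous R1U_x := by
  unfold R1U_x
  fun_prop

/-- the explicit upper bound -/
theorem R1U_up (hSQ : Stmt_SQ) (T : ℝ) [Fact (0 < T)] (p : ℝ) (hp : 1 ≤ p) :
    UpI T p (2 / √3 * (2 ^ p - 1)) := by
  intro P hP
  have hz : Continuous fun t : AddCircle T => P.eval (fourier (T := T) 1 t) :=
    P.continuous.comp (map_continuous _)
  have c1 : Continuous fun t : AddCircle T => ‖P.eval (fourier (T := T) 1 t)‖ ^ p :=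
    hz.norm.rpow_const fun _ => Or.inr (by linarith)
  have c2 : Continuous fun t : AddCircle T => ‖P.eval (fourier (T := T) 1 t) - 1‖ ^ p :=
    (hz.sub continuous_const).norm.rpow_const fun _ => Or.inr (by linarith)
  have c3 : Continuous fun t : AddCircle T => R1U_x (P.eval (fourier (T := T) 1 t)) :=
    R1U_cont_x.comp hz
  have hX : 1 ≤ ∫ t : AddCircle T, R1U_x (P.eval (fourier (T := T) 1 t)) ∂haarAddCircle :=
    hSQ T P hP
  have hE : 1 ≤ ∫ t : AddCircle T, ‖P.eval (fourier (T := T) 1 t)‖ ^ p ∂haarAddCircle := by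
    have h1 : ∫ t : AddCircle T, (1 + 2 * p * (R1U_x (P.eval (fourier (T := T) 1 t)) - 1))
        ∂haarAddCircle ≤ ∫ t : AddCircle T, ‖P.eval (fourier (T := T) 1 t)‖ ^ p ∂haarAddCircle :=
      integral_mono (integrable_cont (by fun_prop)) (integrable_cont c1) fun t => R1U_low p hp _
    have h2 : ∫ t : AddCircle T, (1 + 2 * p * (R1U_x (P.eval (fourier (T := T) 1 t)) - 1))
        ∂haarAddCircle = 1 + 2 * p * (∫ t : AddCircle T,
          R1U_x (P.eval (fourier (T := T) 1 t)) ∂haarAddCircle - 1) := by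
      rw [integral_add (integrable_cont continuous_const) (integrable_cont (by fun_prop)),
        integral_const_mul, integral_sub (integrable_cont c3) (integrable_cont continuous_const)]
      simp
    rw [h2] at h1
    have h3 : 0 ≤ 2 * p * (∫ t : AddCircle T,
          R1U_x (P.eval (fourier (T := T) 1 t)) ∂haarAddCircle - 1) :=
      mul_nonneg (by linarith) (by linarith)
    linarith
  have hU : ∫ t : AddCircle T, ‖P.eval (fourier (T := T) 1 t) - 1‖ ^ p ∂haarAddCircle ≤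
      2 / √3 * 2 ^ (p - 1) * (∫ t : AddCircle T, ‖P.eval (fourier (T := T) 1 t)‖ ^ p
        ∂haarAddCircle + 1) - 2 / √3 * ∫ t : AddCircle T,
          R1U_x (P.eval (fourier (T := T) 1 t)) ∂haarAddCircle := by
    have h1 : ∫ t : AddCircle T, ‖P.eval (fourier (T := T) 1 t) - 1‖ ^ p ∂haarAddCircle ≤
        ∫ t : AddCircle T, (2 / √3 * 2 ^ (p - 1) * (‖P.eval (fourier (T := T) 1 t)‖ ^ p + 1) -
          2 / √3 * R1U_x (P.eval (fourier (T := T) 1 t))) ∂haarAddCircle :=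
      integral_mono (integrable_cont c2) (integrable_cont (by fun_prop)) fun t => R1U_point p hp _
    refine h1.trans_eq ?_
    rw [integral_sub (integrable_cont (by fun_prop)) (integrable_cont (by fun_prop)),
      integral_const_mul, integral_const_mul, integral_add (integrable_cont c1)
        (integrable_cont continuous_const)]
    simp
  show ∫ t : AddCircle T, ‖P.eval (fourier (T := T) 1 t) - 1‖ ^ p ∂haarAddCircle ≤
    2 / √3 * (2 ^ p - 1) * ∫ t : AddCircle T, ‖P.eval (fourier (T := T) 1 t)‖ ^ p ∂haarAddCircle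
  set E := ∫ t : AddCircle T, ‖P.eval (fourier (T := T) 1 t)‖ ^ p ∂haarAddCircle with hEd
  set X := ∫ t : AddCircle T, R1U_x (P.eval (fourier (T := T) 1 t)) ∂haarAddCircle with hXd
  have hK : (0 : ℝ) < 2 / √3 := by positivity
  have h2p : (2 : ℝ) ^ p = 2 * 2 ^ (p - 1) := by
    rw [← Real.rpow_one_add' (by norm_num) (by linarith)]
    congr 1; ring
  have h21 : (1 : ℝ) ≤ 2 ^ (p - 1) := Real.one_le_rpow (by norm_num) (by linarith)
  rw [h2p]
  refine hU.trans ?_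
  have h3 : 2 / √3 * (2 ^ (p - 1) * (E + 1) - X) ≤ 2 / √3 * ((2 * 2 ^ (p - 1) - 1) * E) := by
    refine mul_le_mul_of_nonneg_left ?_ hK.le
    nlinarith [mul_nonneg (sub_nonneg.2 h21) (sub_nonneg.2 hE)]
  calc 2 / √3 * 2 ^ (p - 1) * (E + 1) - 2 / √3 * X = 2 / √3 * (2 ^ (p - 1) * (E + 1) - X) := by ring
    _ ≤ _ := h3
    _ = _ := by ring

theorem R1U_mono {T : ℝ} [Fact (0 < T)] {p Λ Λ' : ℝ} (h : UpI T p Λ) (hle : Λ ≤ Λ') :
    UpI T p Λ' := by
  intro P hP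
  refine (h P hP).trans (mul_le_mul_of_nonneg_right hle ?_)
  exact integral_nonneg fun t => Real.rpow_nonneg (norm_nonneg _) _

theorem p_R1U (h1 : Stmt_SQ) : Stmt_R1U := by
  intro ε hε
  refine ⟨min 1 (ε / 4), by positivity, fun T _ p hp hp2 => ?_⟩
  refine R1U_mono (R1U_up h1 T p hp.le) ?_
  have ha : p - 1 < 1 := by have := min_le_left 1 (ε / 4); linarith
  have hb : p - 1 < ε / 4 := by have := min_le_right 1 (ε / 4); linarith
  have h2p : (2 : ℝ) ^ p = 2 * 2 ^ (p - 1) := by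
    rw [← Real.rpow_one_add' (by norm_num) (by linarith)]
    congr 1; ring
  have h2 : (2 : ℝ) ^ (p - 1) ≤ 1 + (p - 1) := by
    have := rpow_one_add_le_one_add_mul_self (s := 1) (by norm_num) (p := p - 1)
      (by linarith) ha.le
    norm_num at this
    linarith
  have hK : (2 : ℝ) / √3 ≤ 2 := by
    rw [div_le_iff₀ (by positivity)]
    have : (1 : ℝ) ≤ √3 := Real.one_le_sqrt.2 (by norm_num)
    linarith
  have hK0 : (0 : ℝ) < 2 / √3 := by positivity
  rw [h2p]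
  nlinarith [mul_le_mul_of_nonneg_left h2 hK0.le, mul_nonneg (sub_nonneg.2 hK) (by linarith : 0 ≤ p - 1)]

end Pool.Agent.Work.MP_d7cff0_an.AS
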