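import Pool.Agent.Work.MP_d7cff0_as.Interface

/-! # Block R2L -/

set_option autoImplicit false

noncomputable section

namespace Pool.Agent.Work.MP_d7cff0_an.AS

open MeasureTheory AddCircle Filter Topology Finset Polynomial
open scoped ENNReal

theorem R2L_bern {u q : ℝ} (hu : -1 ≤ u) (hq0 : 0 ≤ q) (hq : q ≤ 2) :
    (1 + u) ^ q ≤ 1 + q * u + u ^ 2 := by
  have h0 : 0 ≤ 1 + u := by linarith
  rcases le_total q 1 with h1 | h1
  · have h := rpow_one_add_le_one_add_mul_self hu hq0 h1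
    nlinarith [sq_nonneg u]
  · have h := rpow_one_add_le_one_add_mul_self hu (by linarith : (0 : ℝ) ≤ q - 1) (by linarith)
    rcases h0.eq_or_lt with h2 | h2
    · rw [← h2, Real.zero_rpow (by linarith)]
      have : u = -1 := by linarith
      subst this
      nlinarith
    · have e : (1 + u) ^ q = (1 + u) * (1 + u) ^ (q - 1) := by
        rw [← Real.rpow_one_add' h0 (by linarith)]
        congr 1
        ring
      rw [e]
      have h3 := mul_le_mul_of_nonneg_left h h0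
      nlinarith [sq_nonneg u]

theorem R2L_pw {w : ℂ} {p : ℝ} (hw : 2 ≤ ‖w‖) (hp1 : 3 / 2 ≤ p) (hp2 : p ≤ 5 / 2) :
    ‖1 + w‖ ^ p ≤ ‖w‖ ^ p + p * (‖w‖ ^ (p - 2) * w.re) + 8 * ‖w‖ ^ (p - 2) := by
  obtain ⟨r, hr⟩ : ∃ r, ‖w‖ = r := ⟨_, rfl⟩
  have hsq : r ^ 2 = w.re ^ 2 + w.im ^ 2 := by
    rw [← hr, Complex.sq_norm, Complex.normSq_apply]
    ring
  have hsq1 : ‖1 + w‖ ^ 2 = r ^ 2 + 2 * w.re + 1 := by
    rw [Complex.sq_norm, Complex.normSq_apply, Complex.add_re, Complex.add_im, Complex.one_re,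
      Complex.one_im, hsq]
    ring
  rw [hr] at hw ⊢
  have hr0 : 0 < r := by linarith
  have hre : |w.re| ≤ r := by
    rw [← hr]
    exact Complex.abs_re_le_norm w
  obtain ⟨hre1, hre2⟩ := abs_le.1 hre
  obtain ⟨u, hu⟩ : ∃ u, (2 * w.re + 1) / r ^ 2 = u := ⟨_, rfl⟩
  have hur : r ^ 2 * u = 2 * w.re + 1 := by
    rw [← hu]
    field_simp
  have hu1 : -1 ≤ u := by
    have h1 : 0 ≤ r ^ 2 * (1 + u) := by
      have : r ^ 2 * (1 + u) = ‖1 + w‖ ^ 2 := by rw [hsq1, mul_add, hur]; ring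
      rw [this]
      positivity
    by_contra hc
    push Not at hc
    have h2 : r ^ 2 * (1 + u) < 0 := mul_neg_of_pos_of_neg (by positivity) (by linarith)
    linarith
  have hB := R2L_bern (q := p / 2) hu1 (by linarith) (by linarith)
  have e1 : ‖1 + w‖ ^ p = r ^ p * (1 + u) ^ (p / 2) := by
    have h1 : ∀ x : ℝ, 0 ≤ x → (x ^ 2) ^ (p / 2) = x ^ p := by
      intro x hx
      rw [← Real.rpow_natCast, ← Real.rpow_mul hx]
      congr 1
      push_cast
      ring
    rw [← h1 _ (norm_nonneg _), ← h1 r hr0.le, ← Real.mul_rpow (by positivity) (by linarith), hsq1,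
      mul_add, hur]
    congr 1
    ring
  have e2 : r ^ p = r ^ (p - 2) * r ^ 2 := by
    rw [← Real.rpow_natCast r 2, ← Real.rpow_add hr0]
    congr 1
    push_cast
    ring
  have hs : 0 < r ^ (p - 2) := Real.rpow_pos_of_pos hr0 _
  have hu2 : r ^ 2 * u ^ 2 ≤ 25 / 4 := by
    have h1 : (r ^ 2 * u) ^ 2 ≤ (5 / 2 * r) ^ 2 := by
      rw [hur]
      refine sq_le_sq' ?_ ?_
      · linarith
      · linarith
    have h2 : r ^ 2 * (r ^ 2 * u ^ 2) ≤ r ^ 2 * (25 / 4) := by nlinarith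
    exact le_of_mul_le_mul_left h2 (by positivity)
  rw [e1]
  calc r ^ p * (1 + u) ^ (p / 2) ≤ r ^ p * (1 + p / 2 * u + u ^ 2) :=
        mul_le_mul_of_nonneg_left hB (by positivity)
    _ = r ^ p + r ^ (p - 2) * (p / 2 * (r ^ 2 * u) + r ^ 2 * u ^ 2) := by
        rw [e2]
        ring
    _ ≤ r ^ p + r ^ (p - 2) * (p * w.re + 8) := by
        rw [hur]
        have : r ^ (p - 2) * (p / 2 * (2 * w.re + 1) + r ^ 2 * u ^ 2) ≤ r ^ (p - 2) * (p * w.re + 8) :=
          mul_le_mul_of_nonneg_left (by linarith) hs.le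
        linarith
    _ = r ^ p + p * (r ^ (p - 2) * w.re) + 8 * r ^ (p - 2) := by ring

/-- `t ^ s` is near `1` for `t` in `[1/2, 2]`. -/
theorem R2L_near {t s : ℝ} (h1 : 1 / 2 ≤ t) (h2 : t ≤ 2) (hs : |s| ≤ 3 / 10) : t ^ s ≤ 5 / 4 := by
  have h2s : (2 : ℝ) ^ |s| ≤ 5 / 4 := by
    have h3 : (2 : ℝ) ^ |s| ≤ (2 : ℝ) ^ (3 / 10 : ℝ) := Real.rpow_le_rpow_of_exponent_le (by norm_num) hs
    refine h3.trans ?_
    have h4 : ((2 : ℝ) ^ (3 / 10 : ℝ)) ^ 10 ≤ (5 / 4 : ℝ) ^ 10 := by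
      rw [← Real.rpow_natCast, ← Real.rpow_mul (by norm_num)]
      norm_num
    exact le_of_pow_le_pow_left₀ (by norm_num) (by norm_num) h4
  refine le_trans ?_ h2s
  have ht0 : 0 < t := by linarith
  rcases le_total 0 s with h | h
  · rw [abs_of_nonneg h]
    exact Real.rpow_le_rpow ht0.le h2 h
  · rw [abs_of_nonpos h]
    have e : t ^ s = (t⁻¹) ^ (-s) := by
      rw [Real.inv_rpow ht0.le, Real.rpow_neg ht0.le, inv_inv]
    rw [e]
    refine Real.rpow_le_rpow (by positivity) ?_ (by linarith)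
    rw [inv_le_comm₀ ht0 (by norm_num)]
    linarith

theorem R2L_main (hGS : Stmt_GS) (T : ℝ) [Fact (0 < T)] (p σ e : ℝ) (he : 0 < e) (he2 : e ≤ 3 / 10)
    (hσ : σ = 1 ∧ p = 2 + e ∨ σ = -1 ∧ p = 2 - e) : LoI T p (1 + 1 / 80000 * e ^ 2) := by
  have hp1 : 3 / 2 ≤ p := by rcases hσ with ⟨_, h⟩ | ⟨_, h⟩ <;> linarith
  have hp2 : p ≤ 5 / 2 := by rcases hσ with ⟨_, h⟩ | ⟨_, h⟩ <;> linarith
  have habs : |p - 2| = e := by
    rcases hσ with ⟨_, h⟩ | ⟨_, h⟩
    · rw [h, add_sub_cancel_left, abs_of_pos he]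
    · rw [h, show (2 : ℝ) - e - 2 = -e by ring, abs_neg, abs_of_pos he]
  have hσ1 : |σ| = 1 := by
    rcases hσ with ⟨h, _⟩ | ⟨h, _⟩ <;> rw [h] <;> norm_num
  have hG := hGS T (p - 2) σ (by rw [habs]; linarith) (by
    rcases hσ with ⟨h1, h⟩ | ⟨h1, h⟩
    · exact Or.inl ⟨h1, by linarith⟩
    · exact Or.inr ⟨h1, by linarith⟩)
  rw [habs] at hG
  unfold cI at hG
  obtain ⟨A, hA⟩ : ∃ A : ℝ, 100 / e = A := ⟨_, rfl⟩
  have hAe : A * e = 100 := by rw [← hA]; field_simp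
  have hA0 : 300 ≤ A := by
    rw [← hA, le_div_iff₀ he]
    linarith
  have hApos : 0 < A := by linarith
  -- the function
  let z : AddCircle T → ℂ := fun t => fourier (T := T) 1 t
  have hz : Continuous z := (fourier (T := T) 1).continuous
  have hz1 : ∀ t, ‖z t‖ = 1 := fun t => Circle.norm_coe _
  let g : AddCircle T → ℂ := fun t => z t - (σ : ℂ) * z t ^ 2 / 2
  have hg : Continuous g := by fun_prop
  have hgn : ∀ t, ‖g t‖ = ‖1 - (σ : ℂ) * z t / 2‖ := by
    intro t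
    have : g t = z t * (1 - (σ : ℂ) * z t / 2) := by
      show z t - (σ : ℂ) * z t ^ 2 / 2 = z t * (1 - (σ : ℂ) * z t / 2)
      ring
    rw [this, norm_mul, hz1, one_mul]
  have hσz : ∀ t, ‖(σ : ℂ) * z t / 2‖ = 1 / 2 := by
    intro t
    rw [norm_div, norm_mul, hz1, Complex.norm_real, Real.norm_eq_abs, hσ1]
    norm_num
  have hg1 : ∀ t, 1 / 2 ≤ ‖g t‖ := by
    intro t
    rw [hgn]
    have h := norm_sub_norm_le (1 : ℂ) ((σ : ℂ) * z t / 2)
    rw [hσz, norm_one] at h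
    linarith
  have hg2 : ∀ t, ‖g t‖ ≤ 3 / 2 := by
    intro t
    rw [hgn]
    have h := norm_sub_le (1 : ℂ) ((σ : ℂ) * z t / 2)
    rw [hσz, norm_one] at h
    linarith
  have hg0 : ∀ t, ‖g t‖ ≠ 0 := fun t => by linarith [hg1 t]
  have hw : ∀ t, ‖(A : ℂ) * g t‖ = A * ‖g t‖ := by
    intro t
    rw [norm_mul, Complex.norm_real, Real.norm_eq_abs, abs_of_pos hApos]
  let P : ℂ[X] := 1 + (C (A : ℂ) * X - C ((A : ℂ) * σ / 2) * X ^ 2)
  have hP : ∀ t, pc (T := T) P t = 1 + (A : ℂ) * g t := by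
    intro t
    rw [pc_apply]
    show Polynomial.eval (z t) P = 1 + (A : ℂ) * (z t - (σ : ℂ) * z t ^ 2 / 2)
    simp only [P, eval_add, eval_sub, eval_mul, eval_one, eval_C, eval_X, eval_pow]
    ring
  have hmean : mean (pc (T := T) P) = 1 := by
    rw [mean_pc]
    simp [P]
  -- the integrals
  have hc1 : Continuous fun t => ‖g t‖ ^ p :=
    hg.norm.rpow_const fun t => Or.inl (hg0 t)
  have hc2 : Continuous fun t => ‖g t‖ ^ (p - 2) :=
    hg.norm.rpow_const fun t => Or.inl (hg0 t)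
  have hc3 : Continuous fun t => ‖g t‖ ^ (p - 2) * (g t).re :=
    hc2.mul (Complex.continuous_re.comp hg)
  have hcF : Continuous fun t => ‖pc (T := T) P t‖ ^ p :=
    (pc (T := T) P).continuous.norm.rpow_const fun t => Or.inr (by linarith)
  have hG2 : ∫ t, ‖g t‖ ^ (p - 2) * (g t).re ∂(haarAddCircle (T := T)) ≤ -(2 / 27 * e) := by
    refine le_trans (le_of_eq ?_) hG
    refine integral_congr_ae (Eventually.of_forall fun t => ?_)
    show ‖g t‖ ^ (p - 2) * (g t).re = _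
    rw [hgn t]
  have hI2 : ∫ t, ‖g t‖ ^ (p - 2) ∂(haarAddCircle (T := T)) ≤ 5 / 4 := by
    have h : ∫ t, ‖g t‖ ^ (p - 2) ∂(haarAddCircle (T := T)) ≤ ∫ _t : AddCircle T, (5 / 4 : ℝ) ∂haarAddCircle := by
      refine integral_mono (integrable_cont hc2) (integrable_const _) fun t => ?_
      exact R2L_near (hg1 t) (by linarith [hg2 t]) (by rw [habs]; exact he2)
    simpa using h
  have hAp : ∀ s : ℝ, ∀ t, ‖(A : ℂ) * g t‖ ^ s = A ^ s * ‖g t‖ ^ s := by
    intro s t
    rw [hw, Real.mul_rpow hApos.le (norm_nonneg _)]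
  have hD : 0 < A ^ (p - 2) := Real.rpow_pos_of_pos hApos _
  have hAp2 : A ^ p = A ^ (p - 2) * A ^ 2 := by
    rw [← Real.rpow_natCast A 2, ← Real.rpow_add hApos]
    congr 1
    push_cast
    ring
  -- upper bound for the integral of |F|^p
  have hup : ∫ t, ‖pc (T := T) P t‖ ^ p ∂(haarAddCircle (T := T)) ≤
      A ^ p * ∫ t, ‖g t‖ ^ p ∂(haarAddCircle (T := T)) - A ^ (p - 2) := by
    have h1 : ∫ t, ‖pc (T := T) P t‖ ^ p ∂(haarAddCircle (T := T)) ≤
        ∫ t, (A ^ p * ‖g t‖ ^ p + p * (A ^ (p - 2) * A * (‖g t‖ ^ (p - 2) * (g t).re)) +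
          8 * (A ^ (p - 2) * ‖g t‖ ^ (p - 2))) ∂(haarAddCircle (T := T)) := by
      refine integral_mono (integrable_cont hcF) (integrable_cont ?_) fun t => ?_
      · exact ((continuous_const.mul hc1).add (continuous_const.mul (continuous_const.mul hc3))).add
          (continuous_const.mul (continuous_const.mul hc2))
      · show ‖pc (T := T) P t‖ ^ p ≤ _
        rw [hP]
        have h2 := R2L_pw (w := (A : ℂ) * g t) (p := p) (by rw [hw]; nlinarith [hg1 t]) hp1 hp2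
        rw [hAp, hAp, Complex.re_ofReal_mul] at h2
        refine h2.trans (le_of_eq ?_)
        ring
    rw [integral_add, integral_add, integral_const_mul, integral_const_mul, integral_const_mul,
      integral_const_mul, integral_const_mul] at h1
    · have h3 : p * (A ^ (p - 2) * A * ∫ t, ‖g t‖ ^ (p - 2) * (g t).re ∂(haarAddCircle (T := T))) ≤
          -(11 * A ^ (p - 2)) := by
        have h4 : A ^ (p - 2) * A * ∫ t, ‖g t‖ ^ (p - 2) * (g t).re ∂(haarAddCircle (T := T)) ≤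
            A ^ (p - 2) * A * (-(2 / 27 * e)) := mul_le_mul_of_nonneg_left hG2 (by positivity)
        have h5 : A ^ (p - 2) * A * (-(2 / 27 * e)) = -(200 / 27 * A ^ (p - 2)) := by
          have : A ^ (p - 2) * A * (-(2 / 27 * e)) = -(2 / 27 * A ^ (p - 2) * (A * e)) := by ring
          rw [this, hAe]
          ring
        rw [h5] at h4
        have h6 := mul_le_mul_of_nonneg_left h4 (by linarith : (0 : ℝ) ≤ p)
        refine h6.trans ?_
        nlinarith
      have h7 : 8 * (A ^ (p - 2) * ∫ t, ‖g t‖ ^ (p - 2) ∂(haarAddCircle (T := T))) ≤ 10 * A ^ (p - 2) := by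
        have := mul_le_mul_of_nonneg_left hI2 hD.le
        linarith
      linarith
    · exact integrable_cont (continuous_const.mul hc1)
    · exact integrable_cont (continuous_const.mul (continuous_const.mul hc3))
    · exact integrable_cont ((continuous_const.mul hc1).add (continuous_const.mul (continuous_const.mul hc3)))
    · exact integrable_cont (continuous_const.mul (continuous_const.mul hc2))
  -- crude bounds
  have hFlow : ∀ t, 1 ≤ ‖pc (T := T) P t‖ := by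
    intro t
    rw [hP]
    have h := norm_sub_norm_le ((A : ℂ) * g t) (-1)
    rw [norm_neg, norm_one, hw, sub_neg_eq_add, add_comm ((A : ℂ) * g t) 1] at h
    nlinarith [hg1 t]
  have hFup : ∀ t, ‖pc (T := T) P t‖ ≤ 2 * A := by
    intro t
    rw [hP]
    have h := norm_add_le (1 : ℂ) ((A : ℂ) * g t)
    rw [norm_one, hw] at h
    nlinarith [hg2 t]
  have hpos : 1 ≤ ∫ t, ‖pc (T := T) P t‖ ^ p ∂(haarAddCircle (T := T)) := by
    have h : ∫ _t : AddCircle T, (1 : ℝ) ∂haarAddCircle ≤ ∫ t, ‖pc (T := T) P t‖ ^ p ∂(haarAddCircle (T := T)) := by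
      refine integral_mono (integrable_const _) (integrable_cont hcF) fun t => ?_
      exact Real.one_le_rpow (hFlow t) (by linarith)
    simpa using h
  have hbig : ∫ t, ‖pc (T := T) P t‖ ^ p ∂(haarAddCircle (T := T)) ≤ 8 * A ^ 2 * A ^ (p - 2) := by
    have h : ∫ t, ‖pc (T := T) P t‖ ^ p ∂(haarAddCircle (T := T)) ≤ ∫ _t : AddCircle T, ((2 * A) ^ p : ℝ) ∂haarAddCircle := by
      refine integral_mono (integrable_cont hcF) (integrable_const _) fun t => ?_
      exact Real.rpow_le_rpow (norm_nonneg _) (hFup t) (by linarith)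
    have h1 : ∫ _t : AddCircle T, ((2 * A) ^ p : ℝ) ∂haarAddCircle = (2 * A) ^ p := by simp
    rw [h1] at h
    refine h.trans ?_
    rw [Real.mul_rpow (by norm_num) hApos.le, hAp2]
    have h2 : (2 : ℝ) ^ p ≤ 8 := by
      have h3 : (2 : ℝ) ^ p ≤ (2 : ℝ) ^ (3 : ℝ) := Real.rpow_le_rpow_of_exponent_le (by norm_num) (by linarith)
      have h4 : (2 : ℝ) ^ (3 : ℝ) = 8 := by
        rw [show (3 : ℝ) = ((3 : ℕ) : ℝ) by norm_num, Real.rpow_natCast]
        norm_num
      linarith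
    have h5 : 0 ≤ A ^ (p - 2) * A ^ 2 := by positivity
    nlinarith
  have hval : ∫ t, ‖pc (T := T) P t - mean (pc (T := T) P)‖ ^ p ∂(haarAddCircle (T := T)) =
      A ^ p * ∫ t, ‖g t‖ ^ p ∂(haarAddCircle (T := T)) := by
    rw [← integral_const_mul]
    refine integral_congr_ae (Eventually.of_forall fun t => ?_)
    show ‖pc (T := T) P t - mean (pc (T := T) P)‖ ^ p = A ^ p * ‖g t‖ ^ p
    rw [hmean, hP, add_sub_cancel_left, hAp]
  refine ⟨pc P, pc_mem P, by linarith, ?_⟩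
  rw [hval]
  obtain ⟨I, hI⟩ : ∃ I, ∫ t, ‖pc (T := T) P t‖ ^ p ∂(haarAddCircle (T := T)) = I := ⟨_, rfl⟩
  rw [hI] at hup hbig hpos ⊢
  have hfin : 1 / 80000 * e ^ 2 * I ≤ A ^ (p - 2) := by
    have h1 : 1 / 80000 * e ^ 2 * I ≤ 1 / 80000 * e ^ 2 * (8 * A ^ 2 * A ^ (p - 2)) :=
      mul_le_mul_of_nonneg_left hbig (by positivity)
    have h2 : 1 / 80000 * e ^ 2 * (8 * A ^ 2 * A ^ (p - 2)) = 1 / 10000 * (A * e) ^ 2 * A ^ (p - 2) := by ring
    rw [h2, hAe] at h1
    linarith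
  linarith

theorem p_R2L (hGS : Stmt_GS) : Stmt_R2L := by
  refine ⟨1 / 80000, 3 / 10, by norm_num, by norm_num, fun T _ p hp => ?_⟩
  rcases lt_trichotomy p 2 with h | h | h
  · have h1 := R2L_main hGS T p (-1) (2 - p) (by linarith) (by linarith [(abs_le.1 hp).1])
      (Or.inr ⟨rfl, by ring⟩)
    rwa [show (2 - p) ^ 2 = (p - 2) ^ 2 by ring] at h1
  · subst h
    refine ⟨pc X, pc_mem X, ?_, ?_⟩
    · have : ∀ t, ‖pc (T := T) (X : ℂ[X]) t‖ ^ (2 : ℝ) = 1 := by
        intro t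
        rw [pc_apply, eval_X]
        have : ‖fourier (T := T) 1 t‖ = 1 := Circle.norm_coe _
        rw [this, Real.one_rpow]
      simp only [this]
      simp
    · have : mean (pc (T := T) (X : ℂ[X])) = 0 := by rw [mean_pc, eval_X]
      rw [this]
      simp
  · have h1 := R2L_main hGS T p 1 (p - 2) (by linarith) (by linarith [(abs_le.1 hp).2])
      (Or.inl ⟨rfl, by ring⟩)
    exact h1

end Pool.Agent.Work.MP_d7cff0_an.AS
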