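import Pool.Agent.Work.MP_d7cff0_as.Interface

/-! # Block R3L (helper71): lower bound for `p → ∞` -/

set_option autoImplicit false

noncomputable section

namespace Pool.Agent.Work.MP_d7cff0_an.AS

open MeasureTheory AddCircle Filter Topology Finset Polynomial
open scoped ENNReal

theorem R3L_expX {p : ℝ} (hp : 0 < p) :
    Real.exp (X0 p / 2) = √(2 * √Real.pi) * p ^ (3 / 4 : ℝ) := by
  have hpi : 0 < 2 * √Real.pi := by positivity
  have e1 : X0 p / 2 = Real.log (2 * √Real.pi) / 2 + Real.log p * (3 / 4) := by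
    unfold X0
    ring
  rw [e1, Real.exp_add, ← Real.rpow_def_of_pos hp]
  congr 1
  rw [eq_comm, Real.sqrt_eq_iff_mul_self_eq hpi.le (Real.exp_pos _).le, ← Real.exp_add, add_halves,
    Real.exp_log hpi]

theorem R3L_X0_nonneg {p : ℝ} (hp : 1 ≤ p) : 0 ≤ X0 p := by
  have h1 : 0 ≤ Real.log p := Real.log_nonneg hp
  have h2 : 0 ≤ Real.log (2 * √Real.pi) := by
    apply Real.log_nonneg
    have h3 : 1 ≤ √Real.pi := Real.one_le_sqrt.2 (by linarith [Real.pi_gt_three])
    linarith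
  unfold X0
  linarith

theorem R3L_asym (ε : ℝ) (hε : 0 < ε) (hε1 : ε < 1 / 4) : ∃ p₁ : ℝ, ∀ p : ℝ, p₁ ≤ p → 2 ≤ p ∧
    (1 - ε) / (2 * √Real.pi) ≤ p * √p *
      (1 / (2 * p) * (1 / √(Real.pi * ((1 + ε) * p + 1))) - 1 / p ^ 2 - Real.exp (-√p)) := by
  have hpi : 0 < √Real.pi := Real.sqrt_pos.2 Real.pi_pos
  have hlim1 : Tendsto (fun p : ℝ => (√p)⁻¹ + (√p) ^ 3 * Real.exp (-√p)) atTop (𝓝 0) := by
    have hs : Tendsto (fun p : ℝ => √p) atTop atTop := Real.tendsto_sqrt_atTop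
    have h1 : Tendsto (fun p : ℝ => (√p)⁻¹) atTop (𝓝 0) := tendsto_inv_atTop_zero.comp hs
    have h2 : Tendsto (fun p : ℝ => (√p) ^ 3 * Real.exp (-√p)) atTop (𝓝 0) :=
      (Real.tendsto_pow_mul_exp_neg_atTop_nhds_zero 3).comp hs
    simpa using h1.add h2
  have hδ : 0 < ε / (8 * √Real.pi) := by positivity
  have h3 := (hlim1.eventually_lt_const hδ).and (eventually_ge_atTop (2 / ε))
  obtain ⟨p₁, hp₁⟩ := eventually_atTop.1 h3
  refine ⟨max p₁ 2, fun p hp => ?_⟩
  obtain ⟨h4, h5⟩ := hp₁ p ((le_max_left _ _).trans hp)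
  have hp2 : 2 ≤ p := (le_max_right _ _).trans hp
  have hp0 : 0 < p := by linarith
  have hs0 : 0 < √p := Real.sqrt_pos.2 hp0
  have hsp : √p * √p = p := Real.mul_self_sqrt hp0.le
  refine ⟨hp2, ?_⟩
  have h6 : 1 ≤ ε / 2 * p := by
    rw [div_le_iff₀ hε] at h5
    linarith
  have h7 : √(Real.pi * ((1 + ε) * p + 1)) ≤ √Real.pi * √p * (1 + 3 * ε / 4) := by
    apply Real.sqrt_le_iff.2
    refine ⟨by positivity, ?_⟩
    have e1 : (√Real.pi * √p * (1 + 3 * ε / 4)) ^ 2 = Real.pi * p * (1 + 3 * ε / 4) ^ 2 := by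
      have e2 : √Real.pi * √Real.pi = Real.pi := Real.mul_self_sqrt Real.pi_pos.le
      calc (√Real.pi * √p * (1 + 3 * ε / 4)) ^ 2
          = (√Real.pi * √Real.pi) * (√p * √p) * (1 + 3 * ε / 4) ^ 2 := by ring
        _ = _ := by rw [e2, hsp]
    rw [e1, mul_assoc]
    apply mul_le_mul_of_nonneg_left _ Real.pi_pos.le
    nlinarith
  have hsq0 : 0 < √(Real.pi * ((1 + ε) * p + 1)) := by
    apply Real.sqrt_pos.2
    have := Real.pi_pos
    positivity
  have h8 : 1 / (√Real.pi * √p * (1 + 3 * ε / 4)) ≤ 1 / √(Real.pi * ((1 + ε) * p + 1)) :=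
    one_div_le_one_div_of_le hsq0 h7
  have h9 : (1 - 3 * ε / 4) / (2 * √Real.pi) ≤ p * √p *
      (1 / (2 * p) * (1 / √(Real.pi * ((1 + ε) * p + 1)))) := by
    calc (1 - 3 * ε / 4) / (2 * √Real.pi) ≤ (1 / (1 + 3 * ε / 4)) / (2 * √Real.pi) := by
          gcongr
          rw [le_div_iff₀ (by positivity)]
          nlinarith
      _ = p * √p * (1 / (2 * p) * (1 / (√Real.pi * √p * (1 + 3 * ε / 4)))) := by
          field_simp
      _ ≤ _ := by gcongr
  have h10 : p * √p * (1 / p ^ 2) = (√p)⁻¹ := by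
    have e1 : p ^ 2 = (p * √p) * √p := by rw [mul_assoc, hsp]; ring
    rw [e1]
    field_simp
  have h11 : p * √p = (√p) ^ 3 := by
    calc p * √p = (√p * √p) * √p := by rw [hsp]
      _ = (√p) ^ 3 := by ring
  have h12 : p * √p * Real.exp (-√p) = (√p) ^ 3 * Real.exp (-√p) := by rw [h11]
  have h13 : p * √p * (1 / (2 * p) * (1 / √(Real.pi * ((1 + ε) * p + 1))) - 1 / p ^ 2 -
      Real.exp (-√p)) = p * √p * (1 / (2 * p) * (1 / √(Real.pi * ((1 + ε) * p + 1)))) -
      (p * √p * (1 / p ^ 2) + p * √p * Real.exp (-√p)) := by ring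
  rw [h13, h10, h12]
  have h14 : (1 - ε) / (2 * √Real.pi) = (1 - 3 * ε / 4) / (2 * √Real.pi) - ε / (8 * √Real.pi) := by
    field_simp
    ring
  rw [h14]
  linarith

theorem R3L_final {c2 ε ε₁ e A B I G J : ℝ} (hc2 : 0 < c2) (hc21 : c2 ≤ 1) (hε : 0 < ε) (hε₁ : 0 < ε₁)
    (hε₁ε : ε₁ ≤ ε / 4) (hε₁1 : ε₁ < 1 / 4) (he : 0 < e) (hA : 0 < A) (hB : 0 < B)
    (hc : c2 = 1 / (2 * √e * √B)) (hI0 : 0 ≤ I) (hI : I ≤ (2 + ε₁) * e)
    (hG : (1 - ε₁) / B ≤ A * A * G) (t : ℝ) (ht : 0 < t)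
    (hJ : (1 - ε₁) * t * √e * (√B * A) * G ≤ J) :
    (c2 - ε) * t * A⁻¹ * I ≤ J := by
  refine le_trans ?_ hJ
  have hse : √e * √e = e := Real.mul_self_sqrt he.le
  have hsB : √B * √B = B := Real.mul_self_sqrt hB.le
  have hse0 : 0 < √e := Real.sqrt_pos.2 he
  have hsB0 : 0 < √B := Real.sqrt_pos.2 hB
  have hG1 : (1 - ε₁) / (B * A) ≤ A * G := by
    rw [div_le_iff₀ (by positivity)]
    rw [div_le_iff₀ hB] at hG
    nlinarith
  have hG0 : 0 ≤ G := by
    have h1 : 0 < (1 - ε₁) / B := by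
      apply div_pos (by linarith) hB
    have h2 : 0 < A * A * G := lt_of_lt_of_le h1 hG
    have h3 : 0 < A * A := by positivity
    exact (pos_of_mul_pos_right h2 h3.le).le
  rcases le_or_gt (c2 - ε) 0 with h | h
  · have h1 : (c2 - ε) * t * A⁻¹ * I ≤ 0 := by
      have h2 : 0 ≤ t * A⁻¹ * I := by positivity
      calc (c2 - ε) * t * A⁻¹ * I = (c2 - ε) * (t * A⁻¹ * I) := by ring
        _ ≤ 0 := mul_nonpos_of_nonpos_of_nonneg h h2
    have h3 : 0 ≤ (1 - ε₁) * t * √e * (√B * A) * G := by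
      have : 0 ≤ 1 - ε₁ := by linarith
      positivity
    linarith
  · calc (c2 - ε) * t * A⁻¹ * I ≤ (c2 - ε) * t * A⁻¹ * ((2 + ε₁) * e) := by gcongr
      _ = ((c2 - ε) * (2 + ε₁)) * (e * t * A⁻¹) := by ring
      _ ≤ (2 * (1 - ε₁) ^ 2 * c2) * (e * t * A⁻¹) := by
          apply mul_le_mul_of_nonneg_right _ (by positivity)
          nlinarith [mul_pos hε₁ hc2, mul_nonneg (sq_nonneg ε₁) hc2.le, mul_pos hε hε₁]
      _ = (1 - ε₁) * t * √e * √B * ((1 - ε₁) / (B * A)) := by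
          rw [hc]
          have hA' : A ≠ 0 := hA.ne'
          have e1 : e = √e * √e := hse.symm
          have e2 : B = √B * √B := hsB.symm
          have e3 : 2 * (1 - ε₁) ^ 2 * (1 / (2 * √e * √B)) * (e * t * A⁻¹) =
              (1 - ε₁) ^ 2 * t * (e / √e) * (1 / √B) * A⁻¹ := by
            field_simp
          have e4 : e / √e = √e := by
            rw [div_eq_iff hse0.ne']
            exact e1
          have e5 : (1 - ε₁) * t * √e * √B * ((1 - ε₁) / (B * A)) =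
              (1 - ε₁) ^ 2 * t * √e * (√B / B) * A⁻¹ := by
            field_simp
          have e6 : √B / B = 1 / √B := by
            rw [div_eq_div_iff hB.ne' hsB0.ne', one_mul]
            exact hsB
          rw [e3, e4, e5, e6]
      _ ≤ (1 - ε₁) * t * √e * √B * (A * G) := by
          apply mul_le_mul_of_nonneg_left hG1
          have : 0 ≤ 1 - ε₁ := by linarith
          positivity
      _ = (1 - ε₁) * t * √e * (√B * A) * G := by ring

theorem p_R3L (hQC : Stmt_QC) (hQA : Stmt_QA) (hQU : Stmt_QU) (hBE : Stmt_BE) (hFU : Stmt_FU)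
    (hFL : Stmt_FL) : Stmt_R3L := by
  intro T hT ε hε
  have hε₁ : 0 < min (ε / 4) (1 / 8) := lt_min (by linarith) (by norm_num)
  set ε₁ : ℝ := min (ε / 4) (1 / 8) with hε₁def
  have hε₁ε : ε₁ ≤ ε / 4 := min_le_left _ _
  have hε₁8 : ε₁ ≤ 1 / 8 := min_le_right _ _
  have hε₁4 : ε₁ < 1 / 4 := by linarith
  obtain ⟨pa, hpa⟩ := R3L_asym ε₁ hε₁ hε₁4
  obtain ⟨pb, hpb⟩ := hFU T ε₁ hε₁
  obtain ⟨pd, hpd⟩ := hFL ε₁ hε₁ hε₁4
  refine ⟨max pa (max pb pd), fun p hp => ?_⟩
  obtain ⟨hp2, hasym⟩ := hpa p ((le_max_left _ _).trans hp)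
  have hFUp := hpb p ((le_max_left _ _).trans ((le_max_right _ _).trans hp))
  have hFLp := hpd p ((le_max_right _ _).trans ((le_max_right _ _).trans hp))
  have hp0 : 0 < p := by linarith
  set a : ℝ := 1 - 1 / p with ha
  have h1p : 1 / p ≤ 1 / 2 := one_div_le_one_div_of_le (by norm_num) hp2
  have h1p0 : 0 < 1 / p := by positivity
  have ha0 : 0 < a := by rw [ha]; linarith
  have ha1 : a < 1 := by rw [ha]; linarith
  obtain ⟨ψ, hψ, hψm, hψn, -⟩ := exists_moebius (T := T) ha0.le ha1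
  set X : ℝ := X0 p with hX
  have hX0 : 0 ≤ X := R3L_X0_nonneg (by linarith)
  set m : ℕ := m0 p with hm
  set Gc : C(AddCircle T, ℂ) := 1 + ((X / p : ℝ) : ℂ) • aeval ψ (qp m) with hGc
  set F : C(AddCircle T, ℂ) := ((1 / a : ℝ) : ℂ) • (ψ * Gc) with hF
  have h1mem : (1 : C(AddCircle T, ℂ)) ∈ discAlg T := Subalgebra.one_mem _
  have h1mean : mean (1 : C(AddCircle T, ℂ)) = 1 := by
    have : (1 : C(AddCircle T, ℂ)) = pc 1 := by unfold pc; rw [map_one]
    rw [this, mean_pc]; simp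
  have hGmem : Gc ∈ discAlg T :=
    Subalgebra.add_mem _ h1mem (Subalgebra.smul_mem _ (aeval_mem hψ _) _)
  have hFmem : F ∈ discAlg T := Subalgebra.smul_mem _ (Subalgebra.mul_mem _ hψ hGmem) _
  have hqa : (qp m).eval ((a : ℝ) : ℂ) = ((qa m a : ℝ) : ℂ) := by
    apply Complex.ext
    · simp [qa]
    · rw [hQA.2.1 m a, Complex.ofReal_im]
  set f : ℝ := 1 + X / p * qa m a with hf
  have hqa0 : 0 ≤ qa m a := by
    have := hQU.1 m ((a : ℝ) : ℂ) (by rw [Complex.norm_real, Real.norm_eq_abs, abs_of_pos ha0]; exact ha1.le)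
    exact this
  have hf1 : 1 ≤ f := by
    rw [hf]
    have : 0 ≤ X / p * qa m a := mul_nonneg (div_nonneg hX0 hp0.le) hqa0
    linarith
  have hGmean : mean Gc = (f : ℂ) := by
    rw [hGc, mean_add, mean_smul, h1mean, mean_aeval hψ, hψm, hqa, hf]
    push_cast
    ring
  have hFmean : mean F = (f : ℂ) := by
    rw [hF, mean_smul, mean_mul hψ hGmem, hψm, hGmean]
    have : ((1 / a : ℝ) : ℂ) * ((a : ℂ) * (f : ℂ)) = ((1 / a * (a * f) : ℝ) : ℂ) := by push_cast; ring
    rw [this]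
    congr 1
    field_simp
  have hFt : ∀ t, F t = FF p (ψ t) := by
    intro t
    have e1 : F t = ((1 / a : ℝ) : ℂ) * (ψ t * (1 + ((X / p : ℝ) : ℂ) * (qp m).eval (ψ t))) := by
      rw [hF, hGc]
      simp only [ContinuousMap.smul_apply, ContinuousMap.mul_apply, ContinuousMap.add_apply,
        ContinuousMap.one_apply, smul_eq_mul, aeval_apply]
    rw [e1]
    unfold FF
    rw [← ha, ← hX, ← hm]
    ring
  -- the integral of `((1 - Re ψ) / 2) ^ k`
  have hint : ∀ k : ℕ, ∫ t, ((1 - (ψ t).re) / 2) ^ k ∂(haarAddCircle (T := T)) = qa k a := by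
    intro k
    have h3 := integral_re (𝕜 := ℂ) (integrable_cont (T := T) (aeval ψ (qp k)).continuous)
    have h4 : ∫ t, (aeval ψ (qp k)) t ∂(haarAddCircle (T := T)) = (qp k).eval ((a : ℝ) : ℂ) := by
      have := mean_aeval hψ (qp k)
      rw [hψm] at this
      exact this
    rw [h4] at h3
    have h5 : ∀ t, ((1 - (ψ t).re) / 2) ^ k = RCLike.re ((aeval ψ (qp k)) t) := by
      intro t
      rw [aeval_apply, ← hQC k (ψ t) (hψn t)]
      rfl
    simp only [h5]
    exact h3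
  set k : ℕ := ⌈(1 + ε₁) * p⌉₊ with hk
  have hkp : (1 + ε₁) * p ≤ k := Nat.le_ceil _
  have hkp2 : (k : ℝ) ≤ (1 + ε₁) * p + 1 := (Nat.ceil_lt_add_one (by positivity)).le
  have hk2R : (2 : ℝ) ≤ k := by nlinarith
  have hk2 : 2 ≤ k := by exact_mod_cast hk2R
  -- lower bound of `qa k a`
  have hqk : 1 / (2 * p) * (1 / √(Real.pi * ((1 + ε₁) * p + 1))) - 1 / p ^ 2 ≤ qa k a := by
    have h3 := (hQU.2 k a (by omega) ha0 ha1.le).2
    have h4 := (hBE (k - 1) (by omega)).1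
    have e1 : ((k - 1 : ℕ) : ℝ) = (k : ℝ) - 1 := by
      rw [Nat.cast_sub (by omega)]
      norm_num
    rw [e1] at h4
    have h5 : 1 / √(Real.pi * ((1 + ε₁) * p + 1)) ≤ be (k - 1) := by
      refine le_trans ?_ h4
      apply one_div_le_one_div_of_le
      · apply Real.sqrt_pos.2
        have := Real.pi_pos
        have h6 : 0 < (k : ℝ) - 1 + 1 / 2 := by linarith
        positivity
      · apply Real.sqrt_le_sqrt
        apply mul_le_mul_of_nonneg_left _ Real.pi_pos.le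
        linarith
    have h6 : 1 / (2 * p) ≤ (1 - a ^ 2) / (4 * a) := by
      rw [div_le_div_iff₀ (by positivity) (by positivity)]
      have e2 : 1 - a ^ 2 = 1 / p * (2 - 1 / p) := by rw [ha]; ring
      rw [e2]
      have e3 : 1 / p * (2 - 1 / p) * (2 * p) = 2 * (2 - 1 / p) := by field_simp
      rw [e3, ha]
      linarith
    have h7 : (1 - a) ^ 2 / (4 * a) ≤ 1 / p ^ 2 := by
      have e2 : (1 - a) ^ 2 = 1 / p ^ 2 := by rw [ha]; ring
      rw [e2]
      apply div_le_self (by positivity)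
      rw [ha]
      linarith
    have hs0 : 0 ≤ 1 / √(Real.pi * ((1 + ε₁) * p + 1)) := by positivity
    have h8 : 1 / (2 * p) * (1 / √(Real.pi * ((1 + ε₁) * p + 1))) ≤
        (1 - a ^ 2) / (4 * a) * be (k - 1) := by
      apply mul_le_mul h6 h5 hs0
      exact le_trans (by positivity) h6
    linarith
  -- continuity
  have hcF : Continuous fun t : AddCircle T => ‖F t‖ ^ p := continuous_eval_pow hp0.le F.continuous
  have hcFf : Continuous fun t : AddCircle T => ‖F t - (f : ℂ)‖ ^ p :=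
    continuous_eval_pow hp0.le (F.continuous.sub continuous_const)
  have hI0 : 0 ≤ ∫ t, ‖F t‖ ^ p ∂(haarAddCircle (T := T)) :=
    integral_nonneg fun t => Real.rpow_nonneg (norm_nonneg _) _
  have hIpos : 0 < ∫ t, ‖F t‖ ^ p ∂(haarAddCircle (T := T)) := by
    rcases hI0.lt_or_eq with h | h
    · exact h
    · exfalso
      have h3 := (integral_eq_zero_iff_of_nonneg
        (fun t => Real.rpow_nonneg (norm_nonneg (F t)) p) (integrable_cont (T := T) hcF)).1 h.symm
      have h4 : mean F = 0 := by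
        have h5 : (fun t => F t) =ᵐ[haarAddCircle (T := T)] fun _ => (0 : ℂ) := by
          filter_upwards [h3] with t ht
          have h6 : ‖F t‖ ^ p = 0 := ht
          have h7 := (Real.rpow_eq_zero (norm_nonneg _) hp0.ne').1 h6
          exact norm_eq_zero.1 h7
        have h8 : mean F = ∫ t, F t ∂(haarAddCircle (T := T)) := rfl
        rw [h8, integral_congr_ae h5, integral_zero]
      rw [hFmean] at h4
      have h9 : f = 0 := by exact_mod_cast h4
      linarith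
  have hI : ∫ t, ‖F t‖ ^ p ∂(haarAddCircle (T := T)) ≤ (2 + ε₁) * Real.exp 1 := by
    have h3 := hFUp ψ hψ hψm hψn
    simp only [hFt]
    exact h3
  have hJ : (1 - ε₁) * 2 ^ p * √(Real.exp 1) * (√(2 * √Real.pi) * p ^ (3 / 4 : ℝ)) *
      (qa k a - Real.exp (-√p)) ≤ ∫ t, ‖F t - (f : ℂ)‖ ^ p ∂(haarAddCircle (T := T)) := by
    have e1 : Real.exp (1 / 2) = √(Real.exp 1) := by
      rw [eq_comm, Real.sqrt_eq_iff_mul_self_eq (Real.exp_pos _).le (Real.exp_pos _).le,
        ← Real.exp_add]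
      norm_num
    rw [← R3L_expX hp0, ← e1]
    have hpt : ∀ t, (1 - ε₁) * 2 ^ p * Real.exp (1 / 2) * Real.exp (X0 p / 2) *
        (((1 - (ψ t).re) / 2) ^ k - Real.exp (-√p)) ≤ ‖F t - (f : ℂ)‖ ^ p := by
      intro t
      have h3 := hFLp (ψ t) (hψn t) f hf1
      rw [hFt t]
      exact h3
    have hc1 : Continuous fun t : AddCircle T => ((1 - (ψ t).re) / 2) ^ k := by
      have : Continuous fun t : AddCircle T => (ψ t).re := Complex.continuous_re.comp ψ.continuous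
      fun_prop
    have hc2 : Continuous fun t : AddCircle T => (1 - ε₁) * 2 ^ p * Real.exp (1 / 2) *
        Real.exp (X0 p / 2) * (((1 - (ψ t).re) / 2) ^ k - Real.exp (-√p)) :=
      continuous_const.mul (hc1.sub continuous_const)
    have h4 := integral_mono (integrable_cont (T := T) hc2) (integrable_cont (T := T) hcFf) hpt
    rw [integral_const_mul, integral_sub (integrable_cont hc1) (integrable_cont continuous_const),
      hint k, integral_const] at h4
    simpa using h4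
  refine ⟨F, hFmem, hIpos, ?_⟩
  rw [hFmean]
  have hA : 0 < p ^ (3 / 4 : ℝ) := Real.rpow_pos_of_pos hp0 _
  have hAA : p ^ (3 / 4 : ℝ) * p ^ (3 / 4 : ℝ) = p * √p := by
    rw [← Real.rpow_add hp0, Real.sqrt_eq_rpow]
    nth_rewrite 2 [← Real.rpow_one p]
    rw [← Real.rpow_add hp0]
    norm_num
  have hAinv : p ^ (-(3 / 4) : ℝ) = (p ^ (3 / 4 : ℝ))⁻¹ := Real.rpow_neg hp0.le _
  rw [hAinv]
  have hc0pos : 0 < c0 := by
    unfold c0
    positivity
  have hc0le : c0 ≤ 1 := by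
    unfold c0
    rw [div_le_one (by positivity)]
    apply Real.one_le_sqrt.2
    have h3 : 1 ≤ √Real.pi := Real.one_le_sqrt.2 (by linarith [Real.pi_gt_three])
    have h4 : (1 : ℝ) ≤ Real.exp 1 := Real.one_le_exp (by norm_num)
    nlinarith [mul_nonneg (by linarith : (0:ℝ) ≤ Real.exp 1 - 1) (by linarith : (0:ℝ) ≤ √Real.pi - 1)]
  have hc0eq : c0 = 1 / (2 * √(Real.exp 1) * √(2 * √Real.pi)) := by
    unfold c0
    congr 1
    have e2 : (8 : ℝ) * Real.exp 1 * √Real.pi = (2 ^ 2) * (Real.exp 1 * (2 * √Real.pi)) := by ring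
    rw [e2, Real.sqrt_mul (by positivity), Real.sqrt_sq (by norm_num), Real.sqrt_mul (by positivity),
      mul_assoc]
  refine R3L_final hc0pos hc0le hε hε₁ hε₁ε hε₁4 (Real.exp_pos 1) hA (by positivity) hc0eq hI0 hI
    (G := qa k a - Real.exp (-√p)) ?_ (2 ^ p) (Real.rpow_pos_of_pos (by norm_num) _) hJ
  rw [hAA]
  refine hasym.trans ?_
  apply mul_le_mul_of_nonneg_left _ (by positivity)
  linarith

end Pool.Agent.Work.MP_d7cff0_an.AS
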