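import Pool.Agent.Work.MP_d7cff0_as.Interface

/-! # MP_d7cff0_an, THEOREM AS: block SMI (sub-mean value inequality along polynomials) -/

set_option autoImplicit false

noncomputable section

namespace Pool.Agent.Work.MP_d7cff0_an.AS

open MeasureTheory AddCircle Filter Topology Finset Polynomial
open scoped ENNReal
open Laplacian InnerProductSpace

/-- differentiation under the integral sign -/
theorem SMI_deriv (F F' : ℝ → ℝ → ℝ) (hF : ∀ s, Continuous (F s))
    (hF' : Continuous (Function.uncurry F'))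
    (hd : ∀ s θ, HasDerivAt (fun x => F x θ) (F' s θ) s) (a b s : ℝ) :
    HasDerivAt (fun x => ∫ θ in a..b, F x θ) (∫ θ in a..b, F' s θ) s := by
  obtain ⟨C, hC⟩ := ((isCompact_Icc (a := s - 1) (b := s + 1)).prod
    (isCompact_uIcc (a := a) (b := b))).exists_bound_of_continuousOn hF'.continuousOn
  refine (intervalIntegral.hasDerivAt_integral_of_dominated_loc_of_deriv_le (μ := volume)
    (F := F) (F' := F') (bound := fun _ => C) (s := Set.Icc (s - 1) (s + 1))
    (Icc_mem_nhds (by linarith) (by linarith)) ?_ ?_ ?_ ?_ ?_ ?_).2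
  · exact Eventually.of_forall fun x => (hF x).aestronglyMeasurable
  · exact (hF s).intervalIntegrable _ _
  · exact (hF'.uncurry_left s).aestronglyMeasurable
  · exact Eventually.of_forall fun t ht x hx => hC (x, t) ⟨hx, Set.uIoc_subset_uIcc ht⟩
  · exact intervalIntegrable_const
  · exact Eventually.of_forall fun t _ x _ => hd x t

theorem SMI_poly (Q : ℂ[X]) (c : ℝ → ℂ) (v : ℂ) (hc : ∀ t, HasDerivAt c (v * c t) t) (t : ℝ) :
    HasDerivAt (fun t => Q.eval (c t)) (v * (X * derivative Q).eval (c t)) t := by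
  have h := HasDerivAt.scomp t (Q.hasDerivAt (c t)) (hc t)
  have h2 : (v * c t) • (derivative Q).eval (c t) = v * (X * derivative Q).eval (c t) := by
    rw [eval_mul, eval_X, smul_eq_mul]; ring
  rw [h2] at h
  exact h

theorem SMI_line (V : ℂ → ℝ) (hV : ContDiff ℝ 2 V) (P : ℂ[X]) (c : ℝ → ℂ) (v : ℂ)
    (hc : ∀ t, HasDerivAt c (v * c t) t) (t : ℝ) :
    HasDerivAt (fun t => V (P.eval (c t)))
      (fderiv ℝ V (P.eval (c t)) (v * (X * derivative P).eval (c t))) t ∧
    HasDerivAt (fun t => fderiv ℝ V (P.eval (c t)) (v * (X * derivative P).eval (c t)))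
      (fderiv ℝ (fderiv ℝ V) (P.eval (c t)) (v * (X * derivative P).eval (c t))
        (v * (X * derivative P).eval (c t)) +
        fderiv ℝ V (P.eval (c t))
          (v * (v * (X * derivative (X * derivative P)).eval (c t)))) t := by
  have h1 := SMI_poly P c v hc t
  have h2 := SMI_poly (X * derivative P) c v hc t
  have hd : Differentiable ℝ V := hV.differentiable (by norm_num)
  have hW : ContDiff ℝ 1 (fderiv ℝ V) := hV.fderiv_right (m := 1) (by norm_num)
  have hd2 : Differentiable ℝ (fderiv ℝ V) := hW.differentiable (by norm_num)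
  refine ⟨(hd _).hasFDerivAt.comp_hasDerivAt t h1, ?_⟩
  exact ((hd2 _).hasFDerivAt.comp_hasDerivAt t h1).clm_apply (h2.const_mul v)

theorem SMI_lap (V : ℂ → ℝ) (w b : ℂ) :
    fderiv ℝ (fderiv ℝ V) w b b + fderiv ℝ (fderiv ℝ V) w (Complex.I * b) (Complex.I * b) =
      (b.re ^ 2 + b.im ^ 2) * (Δ V) w := by
  rw [laplacian_eq_iteratedFDeriv_complexPlane]
  simp only [iteratedFDeriv_two_apply]
  have hb : b = b.re • (1 : ℂ) + b.im • Complex.I := by
    apply Complex.ext <;> simp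
  have hIb : Complex.I * b = (-b.im) • (1 : ℂ) + b.re • Complex.I := by
    apply Complex.ext <;> simp
  obtain ⟨L, hL⟩ : ∃ L, L = fderiv ℝ (fderiv ℝ V) w := ⟨_, rfl⟩
  rw [← hL, hIb]
  obtain ⟨x, hx⟩ : ∃ x, x = b.re := ⟨_, rfl⟩
  obtain ⟨y, hy⟩ : ∃ y, y = b.im := ⟨_, rfl⟩
  rw [← hx, ← hy] at hb ⊢
  rw [hb]
  simp only [map_add, map_smul, ContinuousLinearMap.add_apply, ContinuousLinearMap.smul_apply,
    smul_eq_mul, Matrix.cons_val_zero, Matrix.cons_val_one]
  ring

theorem p_SMI : Stmt_SMI := by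
  intro V hV hΔ P
  have hVc : Continuous V := hV.continuous
  have hW : Continuous (fderiv ℝ V) := hV.continuous_fderiv (by norm_num)
  have hW2 : Continuous (fderiv ℝ (fderiv ℝ V)) :=
    (hV.fderiv_right (m := 1) (by norm_num)).continuous_fderiv (by norm_num)
  obtain ⟨P1, hP1⟩ : ∃ Q : ℂ[X], Q = X * derivative P := ⟨_, rfl⟩
  obtain ⟨P2, hP2⟩ : ∃ Q : ℂ[X], Q = X * derivative P1 := ⟨_, rfl⟩
  obtain ⟨E, hE⟩ : ∃ E : ℝ → ℝ → ℂ, ∀ s θ, E s θ = Complex.exp ((s : ℂ) + θ * Complex.I) :=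
    ⟨_, fun _ _ => rfl⟩
  have hEs : ∀ θ s, HasDerivAt (fun s => E s θ) (1 * E s θ) s := by
    intro θ s
    have h1 : HasDerivAt (fun s : ℝ => (s : ℂ) + θ * Complex.I) 1 s :=
      (Complex.ofRealCLM.hasDerivAt (x := s)).add_const _
    have h2 := h1.cexp
    simp only [← hE] at h2
    rw [mul_comm]
    exact h2
  have hEt : ∀ s θ, HasDerivAt (fun θ => E s θ) (Complex.I * E s θ) θ := by
    intro s θ
    have h1 : HasDerivAt (fun θ : ℝ => (s : ℂ) + θ * Complex.I) (1 * Complex.I) θ :=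
      ((Complex.ofRealCLM.hasDerivAt (x := θ)).mul_const Complex.I).const_add _
    have h2 := h1.cexp
    simp only [← hE, one_mul] at h2
    rw [mul_comm]
    exact h2
  have hEc : Continuous (Function.uncurry E) := by
    have h1 : Function.uncurry E = fun q : ℝ × ℝ =>
        Complex.exp ((q.1 : ℂ) + q.2 * Complex.I) := by
      funext q; exact hE q.1 q.2
    rw [h1]
    fun_prop
  have hEp : ∀ s, E s (2 * Real.pi) = E s 0 := by
    intro s
    rw [hE, hE, Complex.exp_add, Complex.exp_add]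
    congr 1
    push_cast
    rw [Complex.exp_two_pi_mul_I, zero_mul, Complex.exp_zero]
  have hEr : ∀ s θ, E s θ = (Real.exp s : ℂ) * Complex.exp (θ * Complex.I) := by
    intro s θ
    rw [hE, Complex.exp_add, Complex.ofReal_exp]
  have hpoly : ∀ Q : ℂ[X], Continuous fun q : ℝ × ℝ => Q.eval (E q.1 q.2) := fun Q =>
    Q.continuous.comp hEc
  -- second derivatives
  obtain ⟨G2, hG2⟩ : ∃ G2 : ℂ → ℝ → ℝ → ℝ, ∀ v s θ, G2 v s θ =
      fderiv ℝ (fderiv ℝ V) (P.eval (E s θ)) (v * P1.eval (E s θ)) (v * P1.eval (E s θ)) +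
        fderiv ℝ V (P.eval (E s θ)) (v * (v * P2.eval (E s θ))) := ⟨_, fun _ _ _ => rfl⟩
  obtain ⟨G1, hG1⟩ : ∃ G1 : ℂ → ℝ → ℝ → ℝ, ∀ v s θ, G1 v s θ =
      fderiv ℝ V (P.eval (E s θ)) (v * P1.eval (E s θ)) := ⟨_, fun _ _ _ => rfl⟩
  have hc1 : ∀ v, Continuous (Function.uncurry (G1 v)) := by
    intro v
    have h1 : Function.uncurry (G1 v) = fun q : ℝ × ℝ =>
        fderiv ℝ V (P.eval (E q.1 q.2)) (v * P1.eval (E q.1 q.2)) := by
      funext q; exact hG1 v q.1 q.2
    rw [h1]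
    exact (hW.comp (hpoly P)).clm_apply (continuous_const.mul (hpoly P1))
  have hc2 : ∀ v, Continuous (Function.uncurry (G2 v)) := by
    intro v
    have h1 : Function.uncurry (G2 v) = fun q : ℝ × ℝ =>
        fderiv ℝ (fderiv ℝ V) (P.eval (E q.1 q.2)) (v * P1.eval (E q.1 q.2))
          (v * P1.eval (E q.1 q.2)) +
        fderiv ℝ V (P.eval (E q.1 q.2)) (v * (v * P2.eval (E q.1 q.2))) := by
      funext q; exact hG2 v q.1 q.2
    rw [h1]
    exact (((hW2.comp (hpoly P)).clm_apply (continuous_const.mul (hpoly P1))).clm_apply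
      (continuous_const.mul (hpoly P1))).add ((hW.comp (hpoly P)).clm_apply
      (continuous_const.mul (continuous_const.mul (hpoly P2))))
  have hds : ∀ s θ, HasDerivAt (fun x => V (P.eval (E x θ))) (G1 1 s θ) s := by
    intro s θ
    have h := (SMI_line V hV P (fun x => E x θ) 1 (hEs θ) s).1
    rw [hG1, hP1]
    exact h
  have hds2 : ∀ s θ, HasDerivAt (fun x => G1 1 x θ) (G2 1 s θ) s := by
    intro s θ
    have h := (SMI_line V hV P (fun x => E x θ) 1 (hEs θ) s).2
    rw [← hP1, ← hP2] at h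
    simp only [hG1, hG2]
    exact h
  have hdt2 : ∀ s θ, HasDerivAt (fun x => G1 Complex.I s x) (G2 Complex.I s θ) θ := by
    intro s θ
    have h := (SMI_line V hV P (fun x => E s x) Complex.I (hEt s) θ).2
    rw [← hP1, ← hP2] at h
    simp only [hG1, hG2]
    exact h
  -- the integrals
  have hΦ : ∀ s, HasDerivAt (fun x => ∫ θ in (0 : ℝ)..(2 * Real.pi), V (P.eval (E x θ)))
      (∫ θ in (0 : ℝ)..(2 * Real.pi), G1 1 s θ) s := fun s =>
    SMI_deriv (fun s θ => V (P.eval (E s θ))) (G1 1)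
      (fun s => hVc.comp (P.continuous.comp (hEc.uncurry_left s))) (hc1 1) hds _ _ s
  have hΦ1 : ∀ s, HasDerivAt (fun x => ∫ θ in (0 : ℝ)..(2 * Real.pi), G1 1 x θ)
      (∫ θ in (0 : ℝ)..(2 * Real.pi), G2 1 s θ) s := fun s =>
    SMI_deriv (G1 1) (G2 1) (fun s => (hc1 1).uncurry_left s) (hc2 1) hds2 _ _ s
  have hpos : ∀ s, 0 ≤ ∫ θ in (0 : ℝ)..(2 * Real.pi), G2 1 s θ := by
    intro s
    have h1 : ∫ θ in (0 : ℝ)..(2 * Real.pi), G2 Complex.I s θ = 0 := by
      rw [intervalIntegral.integral_eq_sub_of_hasDerivAt (fun θ _ => hdt2 s θ)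
        (((hc2 Complex.I).uncurry_left s).intervalIntegrable _ _), hG1, hG1, hEp, sub_self]
    have h2 : ∫ θ in (0 : ℝ)..(2 * Real.pi), G2 1 s θ =
        ∫ θ in (0 : ℝ)..(2 * Real.pi), (G2 1 s θ + G2 Complex.I s θ) := by
      rw [intervalIntegral.integral_add (((hc2 1).uncurry_left s).intervalIntegrable _ _)
        (((hc2 Complex.I).uncurry_left s).intervalIntegrable _ _), h1, add_zero]
    rw [h2]
    apply intervalIntegral.integral_nonneg (by positivity)
    intro θ _
    rw [hG2, hG2]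
    have h3 := SMI_lap V (P.eval (E s θ)) (P1.eval (E s θ))
    have h4 : Complex.I * (Complex.I * P2.eval (E s θ)) = -P2.eval (E s θ) := by
      rw [← mul_assoc, Complex.I_mul_I, neg_one_mul]
    rw [h4, map_neg, one_mul, one_mul, one_mul]
    have h5 : 0 ≤ ((P1.eval (E s θ)).re ^ 2 + (P1.eval (E s θ)).im ^ 2) *
        (Δ V) (P.eval (E s θ)) := mul_nonneg (by positivity) (hΔ _)
    linarith
  have hmono1 : Monotone (fun x => ∫ θ in (0 : ℝ)..(2 * Real.pi), G1 1 x θ) :=
    monotone_of_hasDerivAt_nonneg hΦ1 hpos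
  -- limits
  have hexp : Continuous fun q : ℝ × ℝ => (q.1 : ℂ) * Complex.exp (q.2 * Complex.I) := by
    fun_prop
  have hlim : ∀ f : ℂ → ℝ, Continuous f → Tendsto (fun s : ℝ =>
      ∫ θ in (0 : ℝ)..(2 * Real.pi), f (E s θ)) atBot (𝓝 (2 * Real.pi * f 0)) := by
    intro f hf
    have h1 : Continuous fun r : ℝ => ∫ θ in (0 : ℝ)..(2 * Real.pi),
        f ((r : ℂ) * Complex.exp (θ * Complex.I)) :=
      intervalIntegral.continuous_parametric_intervalIntegral_of_continuous'
        (f := fun (r θ : ℝ) => f ((r : ℂ) * Complex.exp (θ * Complex.I)))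
        (hf.comp hexp) _ _
    have h2 := (h1.tendsto 0).comp Real.tendsto_exp_atBot
    have h3 : ∫ θ in (0 : ℝ)..(2 * Real.pi),
        f (((0 : ℝ) : ℂ) * Complex.exp (θ * Complex.I)) = 2 * Real.pi * f 0 := by
      simp only [Complex.ofReal_zero, zero_mul]
      rw [intervalIntegral.integral_const, smul_eq_mul, sub_zero]
    rw [h3] at h2
    refine h2.congr fun s => ?_
    simp only [Function.comp, hEr]
  have hl1 : Tendsto (fun x => ∫ θ in (0 : ℝ)..(2 * Real.pi), G1 1 x θ) atBot (𝓝 0) := by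
    have h1 := hlim (fun z => fderiv ℝ V (P.eval z) (1 * P1.eval z))
      ((hW.comp P.continuous).clm_apply (continuous_const.mul P1.continuous))
    have h2 : P1.eval 0 = 0 := by rw [hP1, eval_mul, eval_X, zero_mul]
    simp only [h2, mul_zero, map_zero] at h1
    simp only [hG1]
    exact h1
  have hnn : ∀ s, 0 ≤ ∫ θ in (0 : ℝ)..(2 * Real.pi), G1 1 s θ := fun s =>
    hmono1.le_of_tendsto hl1 s
  have hmono : Monotone (fun x => ∫ θ in (0 : ℝ)..(2 * Real.pi), V (P.eval (E x θ))) :=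
    monotone_of_hasDerivAt_nonneg hΦ hnn
  have hl := hlim (fun z => V (P.eval z)) (hVc.comp P.continuous)
  have hfin := hmono.le_of_tendsto hl 0
  rw [Real.circleAverage_def, smul_eq_mul]
  have hcm : ∀ θ, circleMap 0 1 θ = E 0 θ := by
    intro θ
    rw [hEr, circleMap, Real.exp_zero, Complex.ofReal_one, zero_add]
  simp only [hcm]
  have hpi : 0 < 2 * Real.pi := by positivity
  rw [inv_mul_eq_div, le_div_iff₀ hpi, mul_comm]
  exact hfin

end Pool.Agent.Work.MP_d7cff0_an.AS
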