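import Pool.Agent.Work.MP_d7cff0_as.Interface

set_option autoImplicit false

noncomputable section

namespace Pool.Agent.Work.MP_d7cff0_an.AS

open MeasureTheory AddCircle Filter Topology Finset Polynomial
open scoped ENNReal

/-- The limit `δ → 0` in the mean value inequality. -/
theorem SQ_lim (W : ℝ → ℂ → ℝ) (hW : Continuous (Function.uncurry W)) (P : ℂ[X])
    (h : ∀ δ : ℝ, 0 < δ → δ ≤ 1 →
      W δ (P.eval 0) ≤ Real.circleAverage (fun z => W δ (P.eval z)) 0 1) :
    W 0 (P.eval 0) ≤ Real.circleAverage (fun z => W 0 (P.eval z)) 0 1 := by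
  have h1 : Continuous fun δ : ℝ => W δ (P.eval 0) :=
    hW.comp (continuous_id.prodMk continuous_const)
  have h2 : Continuous fun δ : ℝ => Real.circleAverage (fun z => W δ (P.eval z)) 0 1 := by
    have h4 : Continuous fun δ : ℝ =>
        ∫ θ in (0 : ℝ)..(2 * Real.pi), W δ (P.eval (circleMap 0 1 θ)) := by
      refine intervalIntegral.continuous_parametric_intervalIntegral_of_continuous'
        (μ := volume) (f := fun (δ θ : ℝ) => W δ (P.eval (circleMap 0 1 θ))) ?_ 0 (2 * Real.pi)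
      show Continuous fun x : ℝ × ℝ => W x.1 (P.eval (circleMap 0 1 x.2))
      exact hW.comp (continuous_fst.prodMk
        (P.continuous.comp ((continuous_circleMap 0 1).comp continuous_snd)))
    exact h4.const_smul ((2 * Real.pi)⁻¹)
  have h3 : ∀ᶠ δ : ℝ in 𝓝[>] 0, W δ (P.eval 0) ≤
      Real.circleAverage (fun z => W δ (P.eval z)) 0 1 := by
    filter_upwards [Ioc_mem_nhdsGT (zero_lt_one' ℝ)] with δ hδ
    exact h δ hδ.1 hδ.2
  exact le_of_tendsto_of_tendsto ((h1.tendsto 0).mono_left nhdsWithin_le_nhds)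
    ((h2.tendsto 0).mono_left nhdsWithin_le_nhds) h3

theorem p_SQ (hL : Stmt_LNK) (hS : Stmt_SMI) (hP : Stmt_LPS) : Stmt_SQ := by
  intro T _ P hP0
  have hc : Continuous (Function.uncurry VS) := by
    show Continuous fun x : ℝ × ℂ => √((√(‖x.2‖ ^ 2 + x.1 ^ 2) + x.2.re) / 2)
    have : Continuous fun x : ℝ × ℂ => x.2.re := Complex.continuous_re.comp continuous_snd
    fun_prop
  have h := SQ_lim VS hc P fun δ hδ _ => hS (VS δ) (hP δ hδ).1 (hP δ hδ).2 P
  have h0 : ∀ w : ℂ, VS 0 w = √((‖w‖ + w.re) / 2) := by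
    intro w
    have : √(‖w‖ ^ 2 + 0 ^ 2) = ‖w‖ := by
      rw [zero_pow two_ne_zero, add_zero, Real.sqrt_sq (norm_nonneg w)]
    rw [VS, this]
  simp only [h0] at h
  rw [hP0] at h
  have hcont : Continuous fun z : ℂ => √((‖P.eval z‖ + (P.eval z).re) / 2) := by
    have h1 : Continuous fun z : ℂ => P.eval z := P.continuous
    have h2 : Continuous fun z : ℂ => (P.eval z).re := Complex.continuous_re.comp h1
    fun_prop
  rw [hL T _ hcont]
  refine le_trans ?_ h
  norm_num

end Pool.Agent.Work.MP_d7cff0_an.AS
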