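import Pool.Agent.Work.MP_d7cff0_as.B_U2P

set_option autoImplicit false

noncomputable section

namespace Pool.Agent.Work.MP_d7cff0_an.AS

open MeasureTheory AddCircle Filter Topology Finset Polynomial
open scoped ENNReal

theorem p_U2M (hL : Stmt_LNK) (hS : Stmt_SMI) (hP : Stmt_LPN) : Stmt_U2M := by
  intro T _ η P hη hη4 hP0
  have h := U2P_main hL hS hP T (2 - η) (1 - η) (9 * η) 1 (by linarith) (by linarith) ?_ P hP0
  · have hz : ‖(1 : ℂ) - 1‖ ^ (1 - η) = 0 := by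
      rw [sub_self, norm_zero, Real.zero_rpow (by linarith)]
    rw [hz, mul_zero, add_zero] at h
    exact h
  intro δ hδ hδ1 w
  rw [U2P_lap hP 0 (2 - η) δ hδ w, U2P_lap hP 1 (2 - η) δ hδ w, U2P_lap hP 1 (1 - η) δ hδ w]
  set N := U2P_N 0 δ w with hNd
  set M := U2P_N 1 δ w with hMd
  have hN : 0 < N := U2P_pos 0 δ hδ w
  have hM : 0 < M := U2P_pos 1 δ hδ w
  have hNM : N ≤ M + 1 := U2P_lip 0 1 δ hδ (by simp) w
  have s1 : δ ^ 2 * M ^ (-η - 2) ≤ δ * M ^ (-η - 1) := by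
    have := U2P_small 1 δ hδ w (-η - 1)
    rw [← hMd] at this
    convert this using 3
    ring
  have s2 : 0 ≤ δ ^ 2 * N ^ (-η - 2) := by positivity
  have s3 : 0 ≤ δ ^ 2 * M ^ (-η - 3) := by positivity
  have s4 : M ^ (-η) - N ^ (-η) ≤ η * M ^ (-η - 1) := by
    have h1 : (M + 1) ^ (-η) ≤ N ^ (-η) :=
      Real.rpow_le_rpow_of_nonpos hN hNM (by linarith)
    have h2 : (M + 1) ^ (-η) = M ^ (-η) * (1 + 1 / M) ^ (-η) := by
      rw [← Real.mul_rpow hM.le (by positivity)]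
      congr 1
      field_simp
    have hM1 : -1 ≤ 1 / M := by
      have : 0 < 1 / M := by positivity
      linarith
    have h30 : (1 + 1 / M) ^ η ≤ 1 + η * (1 / M) :=
      rpow_one_add_le_one_add_mul_self hM1 hη.le (by linarith)
    have h3 : 1 - η * (1 / M) ≤ (1 + 1 / M) ^ (-η) := by
      rw [Real.rpow_neg (by positivity)]
      have h31 : 0 < (1 + 1 / M) ^ η := by positivity
      have h32 : 0 ≤ η * (1 / M) := by positivity
      rw [← one_div, le_div_iff₀ h31]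
      set x := η * (1 / M)
      set y := (1 + 1 / M) ^ η
      rcases le_total x 1 with hx | hx
      · have : (1 - x) * y ≤ (1 - x) * (1 + x) := mul_le_mul_of_nonneg_left h30 (by linarith)
        nlinarith
      · nlinarith
    have h4 : M ^ (-η) * (1 / M) = M ^ (-η - 1) := by
      rw [Real.rpow_sub_one hM.ne']; ring
    have h5 : 0 < M ^ (-η) := Real.rpow_pos_of_pos hM _
    have h6 := mul_le_mul_of_nonneg_left h3 h5.le
    have h7 : M ^ (-η) * (1 - η * (1 / M)) = M ^ (-η) - η * (M ^ (-η) * (1 / M)) := by ring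
    rw [h7, h4, ← h2] at h6
    linarith
  have e1 : (2 - η - 2 : ℝ) = -η := by ring
  have e2 : (2 - η - 4 : ℝ) = -η - 2 := by ring
  have e3 : (1 - η - 2 : ℝ) = -η - 1 := by ring
  have e4 : (1 - η - 4 : ℝ) = -η - 3 := by ring
  rw [e1, e2, e3, e4]
  have hK : 0 < M ^ (-η - 1) := Real.rpow_pos_of_pos hM _
  set K := M ^ (-η - 1)
  set A := N ^ (-η)
  set B := M ^ (-η)
  set D := δ ^ 2 * N ^ (-η - 2)
  set E := δ ^ 2 * M ^ (-η - 2)
  set G := δ ^ 2 * M ^ (-η - 3)
  -- goal: 0 ≤ (p² A + pη D) - (p² B + pη E) + 9η ((1-η)² K + (1-η)(1+η) G)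
  have t1 : (2 - η) ^ 2 * (B - A) ≤ (2 - η) ^ 2 * (η * K) :=
    mul_le_mul_of_nonneg_left s4 (by positivity)
  have hp : 0 < 2 - η := by linarith
  have t2 : (2 - η) * η * E ≤ (2 - η) * η * (δ * K) :=
    mul_le_mul_of_nonneg_left s1 (by positivity)
  have t3 : 0 ≤ (2 - η) * η * D := by positivity
  have t4 : 0 ≤ 9 * η * ((1 - η) * (1 + η) * G) := by
    have : 0 ≤ 1 - η := by linarith
    positivity
  have t5 : (2 - η) * η * (δ * K) ≤ (2 - η) * η * K := by
    refine mul_le_mul_of_nonneg_left ?_ (by positivity)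
    nlinarith
  have t6 : 0 ≤ η * K * (3 - 13 * η + 8 * η ^ 2) := by
    have : 0 ≤ 3 - 13 * η + 8 * η ^ 2 := by nlinarith
    positivity
  nlinarith

end Pool.Agent.Work.MP_d7cff0_an.AS
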