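import Pool.Agent.Work.MP_d7cff0_as.B_SQ

set_option autoImplicit false

noncomputable section

namespace Pool.Agent.Work.MP_d7cff0_an.AS

open MeasureTheory AddCircle Filter Topology Finset Polynomial
open scoped ENNReal

theorem U2P_cont (a : ℂ) (q : ℝ) (hq : 0 ≤ q) :
    Continuous fun x : ℝ × ℂ => VN a q x.1 x.2 := by
  unfold VN
  refine Continuous.rpow_const ?_ fun _ => Or.inr (by positivity)
  fun_prop

theorem U2P_zero (a : ℂ) (q : ℝ) (w : ℂ) : VN a q 0 w = ‖w - a‖ ^ q := by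
  rw [VN, zero_pow two_ne_zero, add_zero, ← Real.rpow_natCast, ← Real.rpow_mul (norm_nonneg _)]
  congr 1
  push_cast
  ring

theorem U2P_ci (a : ℂ) (q : ℝ) (hq : 0 ≤ q) (P : ℂ[X]) :
    Continuous fun z : ℂ => ‖P.eval z - a‖ ^ q := by
  have h1 : Continuous fun z : ℂ => P.eval z := P.continuous
  exact ((h1.sub continuous_const).norm).rpow_const fun _ => Or.inr hq

theorem U2P_circ {F : ℂ → ℝ} (hF : Continuous F) : CircleIntegrable F 0 1 :=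
  hF.continuousOn.circleIntegrable (zero_le_one' ℝ)

open Laplacian InnerProductSpace in
/-- The general inequality. -/
theorem U2P_main (hL : Stmt_LNK) (hS : Stmt_SMI) (hP : Stmt_LPN) (T : ℝ) [Fact (0 < T)]
    (p q c : ℝ) (b : ℂ) (hp : 0 < p) (hq : 0 < q)
    (h : ∀ δ : ℝ, 0 < δ → δ ≤ 1 → ∀ w : ℂ,
      0 ≤ (Δ (VN 0 p δ)) w - (Δ (VN 1 p δ)) w + c * (Δ (VN b q δ)) w)
    (P : ℂ[X]) (hP0 : P.eval 0 = 1) :
    1 + c * ‖(1 : ℂ) - b‖ ^ q ≤ cI T (fun z => ‖P.eval z‖ ^ p) - cI T (fun z => ‖P.eval z - 1‖ ^ p) +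
      c * cI T (fun z => ‖P.eval z - b‖ ^ q) := by
  have hW : Continuous (Function.uncurry
      fun (δ : ℝ) (w : ℂ) => VN 0 p δ w - VN 1 p δ w + c * VN b q δ w) := by
    show Continuous fun x : ℝ × ℂ => VN 0 p x.1 x.2 - VN 1 p x.1 x.2 + c * VN b q x.1 x.2
    exact ((U2P_cont 0 p hp.le).sub (U2P_cont 1 p hp.le)).add
      (continuous_const.mul (U2P_cont b q hq.le))
  have h1 := SQ_lim _ hW P fun δ hδ hδ1 => by
    have c0 := (hP 0 p δ hδ).1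
    have c1 := (hP 1 p δ hδ).1
    have cb := (hP b q δ hδ).1
    have hV : (fun w : ℂ => VN 0 p δ w - VN 1 p δ w + c * VN b q δ w) =
        (VN 0 p δ - VN 1 p δ) + c • VN b q δ := rfl
    have hcd : ContDiff ℝ 2 ((VN 0 p δ - VN 1 p δ) + c • VN b q δ) :=
      (c0.sub c1).add (contDiff_const.smul cb)
    have hlap : ∀ w, 0 ≤ (Δ ((VN 0 p δ - VN 1 p δ) + c • VN b q δ)) w := by
      intro w
      have e1 : (Δ ((VN 0 p δ - VN 1 p δ) + c • VN b q δ)) w =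
          (Δ (VN 0 p δ - VN 1 p δ)) w + (Δ (c • VN b q δ)) w :=
        ContDiffAt.laplacian_add (c0.sub c1).contDiffAt
          (ContDiff.contDiffAt (contDiff_const.smul cb))
      have e2 : (Δ (VN 0 p δ - VN 1 p δ)) w = (Δ (VN 0 p δ)) w - (Δ (VN 1 p δ)) w :=
        ContDiffAt.laplacian_sub c0.contDiffAt c1.contDiffAt
      have e3 : (Δ (c • VN b q δ)) w = c • (Δ (VN b q δ)) w :=
        laplacian_smul c cb.contDiffAt
      rw [e1, e2, e3, smul_eq_mul]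
      exact h δ hδ hδ1 w
    exact hS _ hcd hlap P
  simp only [U2P_zero, sub_zero] at h1
  have hz : ‖(1 : ℂ) - 1‖ ^ p = 0 := by
    rw [sub_self, norm_zero, Real.zero_rpow hp.ne']
  rw [hP0, hz, norm_one, Real.one_rpow, sub_zero] at h1
  have k0 := U2P_ci 0 p hp.le P
  simp only [sub_zero] at k0
  have k1 := U2P_ci 1 p hp.le P
  have kb := U2P_ci b q hq.le P
  rw [hL T _ k0, hL T _ k1, hL T _ kb]
  refine le_trans h1 (le_of_eq ?_)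
  have k01 : Continuous fun z : ℂ => ‖P.eval z‖ ^ p - ‖P.eval z - 1‖ ^ p := k0.sub k1
  have kcb : Continuous fun z : ℂ => c * ‖P.eval z - b‖ ^ q := continuous_const.mul kb
  have r1 := Real.circleAverage_fun_add (U2P_circ k01) (U2P_circ kcb)
  have r2 := Real.circleAverage_fun_sub (U2P_circ k0) (U2P_circ k1)
  have r3 : Real.circleAverage (fun z => c * ‖P.eval z - b‖ ^ q) 0 1 =
      c * Real.circleAverage (fun z => ‖P.eval z - b‖ ^ q) 0 1 :=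
    Real.circleAverage_fun_smul (a := c)
  rw [r1, r2, r3]

/-- `S ^ (x / 2) = N ^ x` for `N = √S`. -/
theorem U2P_pow (S N x : ℝ) (hN : 0 < N) (hS : S = N ^ 2) : S ^ (x / 2) = N ^ x := by
  rw [hS, ← Real.rpow_natCast, ← Real.rpow_mul hN.le]
  congr 1
  push_cast
  ring

/-- `N = √(|w - a|² + δ²)` -/
def U2P_N (a : ℂ) (δ : ℝ) (w : ℂ) : ℝ := √(‖w - a‖ ^ 2 + δ ^ 2)

theorem U2P_sq (a : ℂ) (δ : ℝ) (w : ℂ) : U2P_N a δ w ^ 2 = ‖w - a‖ ^ 2 + δ ^ 2 :=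
  Real.sq_sqrt (by positivity)

theorem U2P_pos (a : ℂ) (δ : ℝ) (hδ : 0 < δ) (w : ℂ) : 0 < U2P_N a δ w :=
  Real.sqrt_pos.mpr (by positivity)

theorem U2P_le (a : ℂ) (δ : ℝ) (hδ : 0 < δ) (w : ℂ) : δ ≤ U2P_N a δ w := by
  rw [U2P_N]
  refine Real.le_sqrt_of_sq_le ?_
  nlinarith [sq_nonneg ‖w - a‖]

/-- `|N_a - N_b| ≤ |a - b|` -/
theorem U2P_lip (a b : ℂ) (δ : ℝ) (hδ : 0 < δ) (hab : ‖a - b‖ ≤ 1) (w : ℂ) :
    U2P_N a δ w ≤ U2P_N b δ w + 1 := by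
  have h0 := (U2P_pos b δ hδ w).le
  rw [U2P_N, Real.sqrt_le_iff]
  refine ⟨by linarith, ?_⟩
  have h1 : ‖w - a‖ ≤ ‖w - b‖ + 1 := by
    calc ‖w - a‖ = ‖(w - b) - (a - b)‖ := by congr 1; ring
      _ ≤ ‖w - b‖ + ‖a - b‖ := norm_sub_le _ _
      _ ≤ _ := by linarith
  have h2 : ‖w - b‖ ≤ U2P_N b δ w := by
    rw [U2P_N]
    refine Real.le_sqrt_of_sq_le ?_
    nlinarith [sq_nonneg δ]
  have h3 := U2P_sq b δ w
  have h4 : ‖w - a‖ ^ 2 ≤ (‖w - b‖ + 1) ^ 2 := pow_le_pow_left₀ (norm_nonneg _) h1 2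
  nlinarith

open Laplacian InnerProductSpace in
/-- The Laplacian of `VN` in terms of `N`. -/
theorem U2P_lap (hP : Stmt_LPN) (a : ℂ) (q δ : ℝ) (hδ : 0 < δ) (w : ℂ) :
    (Δ (VN a q δ)) w = q ^ 2 * U2P_N a δ w ^ (q - 2) -
      q * (q - 2) * (δ ^ 2 * U2P_N a δ w ^ (q - 4)) := by
  have hN := U2P_pos a δ hδ w
  have hs := U2P_sq a δ w
  rw [(hP a q δ hδ).2 w]
  have e1 : (‖w - a‖ ^ 2 + δ ^ 2) ^ (q / 2 - 2) = U2P_N a δ w ^ (q - 4) := by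
    have := U2P_pow (‖w - a‖ ^ 2 + δ ^ 2) (U2P_N a δ w) (q - 4) hN hs.symm
    rw [← this]
    congr 1
    ring
  have e2 : U2P_N a δ w ^ (q - 2) = U2P_N a δ w ^ (q - 4) * U2P_N a δ w ^ 2 := by
    rw [← Real.rpow_natCast (U2P_N a δ w) 2, ← Real.rpow_add hN]
    congr 1
    push_cast
    ring
  rw [e1, e2, hs]
  ring

/-- `δ² N ^ (x - 1) ≤ δ N ^ x`. -/
theorem U2P_small (a : ℂ) (δ : ℝ) (hδ : 0 < δ) (w : ℂ) (x : ℝ) :
    δ ^ 2 * U2P_N a δ w ^ (x - 1) ≤ δ * U2P_N a δ w ^ x := by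
  have hN := U2P_pos a δ hδ w
  have h1 : U2P_N a δ w ^ x = U2P_N a δ w ^ (x - 1) * U2P_N a δ w := by
    rw [Real.rpow_sub_one hN.ne']
    field_simp
  rw [h1]
  have h2 := U2P_le a δ hδ w
  have h3 : 0 ≤ U2P_N a δ w ^ (x - 1) := (Real.rpow_pos_of_pos hN _).le
  have h4 : δ * δ * U2P_N a δ w ^ (x - 1) ≤ δ * U2P_N a δ w * U2P_N a δ w ^ (x - 1) :=
    mul_le_mul_of_nonneg_right (mul_le_mul_of_nonneg_left h2 hδ.le) h3
  nlinarith

theorem p_U2P (hL : Stmt_LNK) (hS : Stmt_SMI) (hP : Stmt_LPN) : Stmt_U2P := by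
  intro T _ ε P hε hε4 hP0
  have h := U2P_main hL hS hP T (2 + ε) (1 + ε) (6 * ε) 0 (by linarith) (by linarith) ?_ P hP0
  · simpa using h
  intro δ hδ hδ1 w
  rw [U2P_lap hP 0 (2 + ε) δ hδ w, U2P_lap hP 1 (2 + ε) δ hδ w, U2P_lap hP 0 (1 + ε) δ hδ w]
  set N := U2P_N 0 δ w with hNd
  set M := U2P_N 1 δ w with hMd
  have hN : 0 < N := U2P_pos 0 δ hδ w
  have hM : 0 < M := U2P_pos 1 δ hδ w
  have hMN : M ≤ N + 1 := U2P_lip 1 0 δ hδ (by simp) w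
  have s1 : δ ^ 2 * N ^ (ε - 2) ≤ δ * N ^ (ε - 1) := by
    have := U2P_small 0 δ hδ w (ε - 1)
    rw [← hNd] at this
    convert this using 3
    ring
  have s2 : 0 ≤ δ ^ 2 * M ^ (ε - 2) := by positivity
  have s3 : 0 ≤ δ ^ 2 * N ^ (ε - 3) := by positivity
  have s4 : M ^ ε - N ^ ε ≤ ε * N ^ (ε - 1) := by
    have h1 : M ^ ε ≤ (N + 1) ^ ε := Real.rpow_le_rpow hM.le hMN hε.le
    have h2 : (N + 1) ^ ε = N ^ ε * (1 + 1 / N) ^ ε := by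
      rw [← Real.mul_rpow hN.le (by positivity)]
      congr 1
      field_simp
    have hN1 : -1 ≤ 1 / N := by
      have : 0 < 1 / N := by positivity
      linarith
    have h3 : (1 + 1 / N) ^ ε ≤ 1 + ε * (1 / N) :=
      rpow_one_add_le_one_add_mul_self hN1 hε.le (by linarith)
    have h4 : N ^ ε * (1 / N) = N ^ (ε - 1) := by
      rw [Real.rpow_sub_one hN.ne']; ring
    have h5 : 0 < N ^ ε := Real.rpow_pos_of_pos hN _
    have h6 := mul_le_mul_of_nonneg_left h3 h5.le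
    have h7 : N ^ ε * (1 + ε * (1 / N)) = N ^ ε + ε * (N ^ ε * (1 / N)) := by ring
    rw [h7, h4, ← h2] at h6
    linarith
  have e1 : (2 + ε - 2 : ℝ) = ε := by ring
  have e2 : (2 + ε - 4 : ℝ) = ε - 2 := by ring
  have e3 : (1 + ε - 2 : ℝ) = ε - 1 := by ring
  have e4 : (1 + ε - 4 : ℝ) = ε - 3 := by ring
  rw [e1, e2, e3, e4]
  have hK : 0 < N ^ (ε - 1) := Real.rpow_pos_of_pos hN _
  set K := N ^ (ε - 1)
  set A := N ^ ε
  set B := M ^ ε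
  set D := δ ^ 2 * N ^ (ε - 2)
  set E := δ ^ 2 * M ^ (ε - 2)
  set G := δ ^ 2 * N ^ (ε - 3)
  -- goal: 0 ≤ (p² A - pε D) - (p² B - pε E) + 6ε ((1+ε)² K - (1+ε)(ε-1) G)
  have t1 : (2 + ε) ^ 2 * (B - A) ≤ (2 + ε) ^ 2 * (ε * K) :=
    mul_le_mul_of_nonneg_left s4 (by positivity)
  have t2 : (2 + ε) * ε * D ≤ (2 + ε) * ε * (δ * K) :=
    mul_le_mul_of_nonneg_left s1 (by positivity)
  have t3 : 0 ≤ (2 + ε) * ε * E := by positivity
  have t4 : 0 ≤ 6 * ε * ((1 + ε) * (1 - ε) * G) := by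
    have : 0 ≤ 1 - ε := by linarith
    positivity
  have t5 : (2 + ε) * ε * (δ * K) ≤ (2 + ε) * ε * K := by
    refine mul_le_mul_of_nonneg_left ?_ (by positivity)
    nlinarith
  have t6 : 0 ≤ ε * K * (7 * ε + 5 * ε ^ 2) := by positivity
  nlinarith

end Pool.Agent.Work.MP_d7cff0_an.AS
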