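import Pool.Agent.Work.MP_d7cff0_as.Interface2

/-! Block XFK of the table asp_blocks (helper83) -/

set_option autoImplicit false

noncomputable section

namespace Pool.Agent.Work.MP_d7cff0_an.AS

open MeasureTheory AddCircle Filter Topology Finset Polynomial
open scoped ENNReal

theorem XFK_kap_nonneg (T : ℝ) [Fact (0 < T)] : 0 ≤ kap T := by
  unfold kap
  apply Real.sSup_nonneg
  rintro x ⟨g, -, -, rfl⟩
  apply div_nonneg (sq_nonneg _)
  unfold NN cI
  exact integral_nonneg fun t => sq_nonneg _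

theorem XFK_upper {M q x : ℝ} (hM : 0 ≤ M) (hq : 1 ≤ q) (hx : 0 ≤ x) (h : M ^ q ≤ 1 + x) :
    M ≤ 1 + x / q := by
  have hq0 : 0 < q := by linarith
  have h1 : M = (M ^ q) ^ (1 / q) := by
    rw [← Real.rpow_mul hM, mul_one_div_cancel hq0.ne', Real.rpow_one]
  have h2 : (M ^ q) ^ (1 / q) ≤ (1 + x) ^ (1 / q) :=
    Real.rpow_le_rpow (Real.rpow_nonneg hM _) h (by positivity)
  have h3 : (1 + x) ^ (1 / q) ≤ 1 + 1 / q * x :=
    rpow_one_add_le_one_add_mul_self (by linarith) (by positivity)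
      ((div_le_one hq0).mpr hq)
  have h4 : 1 / q * x = x / q := by ring
  linarith

theorem XFK_lower {M q y : ℝ} (hM : 0 ≤ M) (hq : 1 ≤ q) (hy : -(1 / 2) ≤ y)
    (h : 1 + y ≤ M ^ q) : y / (q + (q - 1) * y) ≤ M - 1 := by
  have hq0 : 0 < q := by linarith
  have hv : 0 < 1 + y := by linarith
  have hD : 0 < q + (q - 1) * y := by nlinarith
  have h1 : M = (M ^ q) ^ (1 / q) := by
    rw [← Real.rpow_mul hM, mul_one_div_cancel hq0.ne', Real.rpow_one]
  have h2 : (1 + y) ^ (1 / q) ≤ (M ^ q) ^ (1 / q) := Real.rpow_le_rpow hv.le h (by positivity)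
  have hva : 0 < (1 + y) ^ (1 / q) := Real.rpow_pos_of_pos hv _
  have h3 : (1 + ((1 + y)⁻¹ - 1)) ^ (1 / q) ≤ 1 + 1 / q * ((1 + y)⁻¹ - 1) := by
    apply rpow_one_add_le_one_add_mul_self _ (by positivity) ((div_le_one hq0).mpr hq)
    have : 0 < (1 + y)⁻¹ := inv_pos.mpr hv
    linarith
  have h4 : 1 + ((1 + y)⁻¹ - 1) = (1 + y)⁻¹ := by ring
  rw [h4, Real.inv_rpow hv.le] at h3
  have h5 : 1 + 1 / q * ((1 + y)⁻¹ - 1) = (q + (q - 1) * y) / (q * (1 + y)) := by
    field_simp
    ring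
  rw [h5] at h3
  have h6 : q * (1 + y) / (q + (q - 1) * y) ≤ (1 + y) ^ (1 / q) := by
    have h7 := inv_anti₀ (inv_pos.mpr hva) h3
    rw [inv_inv, inv_div] at h7
    exact h7
  have h8 : q * (1 + y) / (q + (q - 1) * y) - 1 = y / (q + (q - 1) * y) := by
    rw [div_sub_one hD.ne']
    congr 1
    ring
  linarith

theorem p_XFK (hXU : Stmt_XKU) (hXL : Stmt_XKL) (hAU : Stmt_AUP) (hAL : Stmt_ALO) : Stmt_XFK := by
  intro T _ δ hδ
  set k : ℝ := kap T with hk
  have hk0 : 0 ≤ k := XFK_kap_nonneg T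
  obtain ⟨η₁, hη₁, hU⟩ := hXU δ hδ
  obtain ⟨η₂, hη₂, hL⟩ := hXL T (δ / 2) (by positivity)
  set a₁ : ℝ := δ / (k / 2 + δ) with ha₁
  set a₂ : ℝ := δ / ((k + 1) * (1 + 2 * k)) with ha₂
  set a₃ : ℝ := 1 / (1 + δ) with ha₃
  have ha₁0 : 0 < a₁ := by positivity
  have ha₂0 : 0 < a₂ := by positivity
  have ha₃0 : 0 < a₃ := by positivity
  refine ⟨min (min η₁ η₂) (min (1 / 2) (min a₁ (min a₂ a₃))), ?_, ?_⟩
  · exact lt_min (lt_min hη₁ hη₂) (lt_min (by norm_num) (lt_min ha₁0 (lt_min ha₂0 ha₃0)))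
  intro p _ hp' hpos hp
  have he1 : |p.toReal - 2| ≤ η₁ := hp.trans ((min_le_left _ _).trans (min_le_left _ _))
  have he2 : |p.toReal - 2| ≤ η₂ := hp.trans ((min_le_left _ _).trans (min_le_right _ _))
  have he3 : |p.toReal - 2| ≤ 1 / 2 := hp.trans ((min_le_right _ _).trans (min_le_left _ _))
  have he4 : |p.toReal - 2| ≤ min a₁ (min a₂ a₃) :=
    hp.trans ((min_le_right _ _).trans (min_le_right _ _))
  have he5 : |p.toReal - 2| ≤ a₁ := he4.trans (min_le_left _ _)
  have he6 : |p.toReal - 2| ≤ a₂ := he4.trans ((min_le_right _ _).trans (min_le_left _ _))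
  have he7 : |p.toReal - 2| ≤ a₃ := he4.trans ((min_le_right _ _).trans (min_le_right _ _))
  set q : ℝ := p.toReal with hq
  set e : ℝ := |q - 2| with he
  have hq1 : 3 / 2 ≤ q := by linarith [(abs_le.mp he3).1]
  have hq2 : q ≤ 5 / 2 := by linarith [(abs_le.mp he3).2]
  have hq3 : 2 - e ≤ q := by linarith [neg_abs_le (q - 2)]
  have hq4 : q ≤ 2 + e := by linarith [le_abs_self (q - 2)]
  have hp1 : 1 < p := by
    by_contra hcon
    have h1 : p.toReal ≤ (1 : ℝ≥0∞).toReal := ENNReal.toReal_mono ENNReal.one_ne_top (not_lt.mp hcon)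
    rw [ENNReal.toReal_one, ← hq] at h1
    linarith
  have ht : (q - 2) ^ 2 = e ^ 2 := (sq_abs _).symm
  rw [ht]
  set t : ℝ := e ^ 2 with ht'
  have ht0 : 0 < t := by positivity
  have hte : t ≤ e := by
    rw [ht']
    nlinarith
  set M : ℝ := Mstar (hardy T p) with hM
  have hM0 : 0 ≤ M := by
    rw [hM, Mstar_hardy hp1 hp']
    exact ContinuousLinearMap.opNorm_nonneg _
  -- the upper bound
  have hup : M ≤ 1 + (k + δ) * t / q := by
    apply XFK_upper hM0 (by linarith) (by positivity)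
    have h1 := hU T q hpos he1
    rw [ht] at h1
    exact hAU T p (1 + (k + δ) * t) hp1 hp' (by
      have : 0 ≤ (k + δ) * t := by positivity
      linarith) h1
  -- the lower bound
  have hy1 : -(1 / 2) ≤ (k - δ / 2) * t := by
    have h1 : e * (1 + δ) ≤ 1 := by
      rw [ha₃, le_div_iff₀ (by positivity)] at he7
      exact he7
    have h2 : δ / 2 * t ≤ 1 / 2 := by nlinarith
    have h3 : 0 ≤ k * t := by positivity
    linarith
  have hlo : (k - δ / 2) * t / (q + (q - 1) * ((k - δ / 2) * t)) ≤ M - 1 := by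
    apply XFK_lower hM0 (by linarith) hy1
    have h1 := hL q hpos he2
    rw [ht] at h1
    exact hAL T p (1 + (k - δ / 2) * t) hp1 hp' h1
  set D : ℝ := q + (q - 1) * ((k - δ / 2) * t) with hD
  have hD0 : 3 / 4 ≤ D := by
    rw [hD]
    nlinarith
  rw [abs_le]
  constructor
  · have h1 : (k - δ / 2) / D ≤ (M - 1) / t := by
      rw [le_div_iff₀ ht0]
      calc (k - δ / 2) / D * t = (k - δ / 2) * t / D := by ring
        _ ≤ M - 1 := hlo
    have h2 : k / 2 - δ ≤ (k - δ / 2) / D := by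
      rw [le_div_iff₀ (by linarith)]
      rcases le_total (δ / 2) k with hc | hc
      · have hy2 : (k - δ / 2) * t ≤ k * e := by nlinarith
        have hy0 : 0 ≤ (k - δ / 2) * t := mul_nonneg (by linarith) ht0.le
        have hD2 : D ≤ 2 + e * (1 + 2 * k) := by
          rw [hD]
          nlinarith
        have h5 : e * ((k + 1) * (1 + 2 * k)) ≤ δ := by
          rw [ha₂, le_div_iff₀ (by positivity)] at he6
          exact he6
        rcases le_total (k / 2 - δ) 0 with hk2 | hk2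
        · have h6 : (k / 2 - δ) * D ≤ 0 := mul_nonpos_of_nonpos_of_nonneg hk2 (by linarith)
          linarith
        · have h6 : (k / 2 - δ) * D ≤ (k / 2 - δ) * (2 + e * (1 + 2 * k)) :=
            mul_le_mul_of_nonneg_left hD2 hk2
          have h7 : (k / 2 - δ) * (e * (1 + 2 * k)) ≤ δ := by
            have h8 : (k / 2 - δ) * (e * (1 + 2 * k)) ≤ (k + 1) * (e * (1 + 2 * k)) := by
              apply mul_le_mul_of_nonneg_right (by linarith)
              positivity
            linarith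
          linarith
      · have h5 : k / 2 - δ ≤ 0 := by linarith
        have h6 : (k / 2 - δ) * D ≤ (k / 2 - δ) * (3 / 4) := mul_le_mul_of_nonpos_left hD0 h5
        linarith
    linarith
  · have h1 : (M - 1) / t ≤ (k + δ) / q := by
      rw [div_le_iff₀ ht0]
      calc M - 1 ≤ (k + δ) * t / q := by linarith
        _ = (k + δ) / q * t := by ring
    have h2 : (k + δ) / q ≤ k / 2 + δ := by
      rw [div_le_iff₀ (by linarith)]
      have h5 : e * (k / 2 + δ) ≤ δ := by
        rw [ha₁, le_div_iff₀ (by positivity)] at he5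
        exact he5
      nlinarith
    linarith

end Pool.Agent.Work.MP_d7cff0_an.AS
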