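import Pool.Agent.Work.MP_d7cff0_as.Interface2

/-! Block XKB (helper58): basic facts about `kap`. -/

set_option autoImplicit false

noncomputable section

namespace Pool.Agent.Work.MP_d7cff0_an.AS

open MeasureTheory AddCircle Filter Topology Finset Polynomial
open scoped ENNReal

/-- `t |log t| ≤ 1 + t ^ 2` -/
theorem XKB_log (t : ℝ) (ht : 0 ≤ t) : |t * Real.log t| ≤ 1 + t ^ 2 := by
  rcases le_total t 1 with h | h
  · have h1 : |Real.log t * t| ≤ 1 := by
      rcases ht.eq_or_lt with h0 | h0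
      · rw [← h0]; simp
      · exact (Real.abs_log_mul_self_lt t h0 h).le
    rw [mul_comm]
    nlinarith [sq_nonneg t]
  · rw [abs_of_nonneg (mul_nonneg ht (Real.log_nonneg h))]
    have h1 : Real.log t ≤ t := (Real.log_le_sub_one_of_pos (by linarith)).trans (by linarith)
    nlinarith

theorem XKB_point (w : ℂ) : |w.re * Real.log ‖w‖| ≤ 1 + ‖w‖ ^ 2 := by
  refine le_trans ?_ (XKB_log ‖w‖ (norm_nonneg _))
  rw [abs_mul, abs_mul]
  refine mul_le_mul_of_nonneg_right ?_ (abs_nonneg _)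
  rw [abs_of_nonneg (norm_nonneg w)]
  exact Complex.abs_re_le_norm w

theorem XKB_cont : Continuous fun w : ℂ => w.re * Real.log ‖w‖ := by
  refine continuous_iff_continuousAt.2 fun w => ?_
  by_cases hw : w = 0
  · subst hw
    have h1 : Tendsto (fun w : ℂ => |‖w‖ * Real.log ‖w‖|) (𝓝 0) (𝓝 0) := by
      have h2 : Continuous fun w : ℂ => |‖w‖ * Real.log ‖w‖| :=
        (Real.continuous_mul_log.comp continuous_norm).abs
      have h3 := h2.tendsto 0
      simpa using h3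
    have h4 : Tendsto (fun w : ℂ => w.re * Real.log ‖w‖) (𝓝 0) (𝓝 0) := by
      refine squeeze_zero_norm (fun w => ?_) h1
      rw [Real.norm_eq_abs, abs_mul, abs_mul]
      refine mul_le_mul_of_nonneg_right ?_ (abs_nonneg _)
      rw [abs_of_nonneg (norm_nonneg w)]
      exact Complex.abs_re_le_norm w
    have h5 : (fun w : ℂ => w.re * Real.log ‖w‖) 0 = 0 := by simp
    unfold ContinuousAt
    rw [h5]
    exact h4
  · have h1 : ContinuousAt (fun w : ℂ => Real.log ‖w‖) w :=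
      continuous_norm.continuousAt.log (norm_ne_zero_iff.2 hw)
    exact Complex.continuous_re.continuousAt.mul h1

variable (T : ℝ) [hT : Fact (0 < T)]

omit hT in
theorem XKB_cg (g : ℂ[X]) : Continuous fun t : AddCircle T => g.eval (fourier (T := T) 1 t) :=
  g.continuous.comp (by fun_prop)

theorem XKB_iJ (g : ℂ[X]) : Integrable (fun t : AddCircle T =>
    (g.eval (fourier (T := T) 1 t)).re * Real.log ‖g.eval (fourier (T := T) 1 t)‖) haarAddCircle :=
  integrable_cont (XKB_cont.comp (XKB_cg T g))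

theorem XKB_iN (g : ℂ[X]) : Integrable (fun t : AddCircle T =>
    ‖g.eval (fourier (T := T) 1 t)‖ ^ 2) haarAddCircle :=
  integrable_cont ((XKB_cg T g).norm.pow 2)

theorem XKB_re (g : ℂ[X]) (hg : g.eval 0 = 0) :
    ∫ t : AddCircle T, (g.eval (fourier (T := T) 1 t)).re ∂haarAddCircle = 0 := by
  have h3 := integral_re (𝕜 := ℂ) (integrable_cont (T := T) (pc g).continuous)
  have h4 : ∫ t, pc (T := T) g t ∂haarAddCircle = 0 := by
    have := mean_pc (T := T) g
    rw [hg] at this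
    exact this
  rw [h4] at h3
  simp only [pc_apply] at h3
  simpa using h3

theorem XKB_hom (g : ℂ[X]) (c : ℝ) (hg : g.eval 0 = 0) :
    JJ T (C (c : ℂ) * g) = c * JJ T g := by
  unfold JJ cI
  by_cases hc : c = 0
  · subst hc
    simp
  have h1 : ∀ t : AddCircle T, ((C (c : ℂ) * g).eval (fourier (T := T) 1 t)).re *
      Real.log ‖(C (c : ℂ) * g).eval (fourier (T := T) 1 t)‖ =
      c * Real.log |c| * (g.eval (fourier (T := T) 1 t)).re +
      c * ((g.eval (fourier (T := T) 1 t)).re * Real.log ‖g.eval (fourier (T := T) 1 t)‖) := by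
    intro t
    rw [eval_mul, eval_C, norm_mul, Complex.re_ofReal_mul, Complex.norm_real, Real.norm_eq_abs]
    by_cases h0 : g.eval (fourier (T := T) 1 t) = 0
    · rw [h0]; simp
    · rw [Real.log_mul (abs_ne_zero.2 hc) (norm_ne_zero_iff.2 h0)]
      ring
  simp only [h1]
  have i1 : Integrable (fun t : AddCircle T => (g.eval (fourier (T := T) 1 t)).re) haarAddCircle :=
    integrable_cont (Complex.continuous_re.comp (XKB_cg T g))
  rw [integral_add (i1.const_mul _) ((XKB_iJ T g).const_mul _), integral_const_mul,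
    integral_const_mul, XKB_re T g hg, mul_zero, zero_add]

theorem XKB_NNhom (g : ℂ[X]) (c : ℝ) : NN T (C (c : ℂ) * g) = c ^ 2 * NN T g := by
  unfold NN cI
  have h1 : ∀ t : AddCircle T, ‖(C (c : ℂ) * g).eval (fourier (T := T) 1 t)‖ ^ 2 =
      c ^ 2 * ‖g.eval (fourier (T := T) 1 t)‖ ^ 2 := by
    intro t
    rw [eval_mul, eval_C, norm_mul, Complex.norm_real, Real.norm_eq_abs, mul_pow, sq_abs]
  simp only [h1]
  rw [integral_const_mul]

theorem XKB_pos (g : ℂ[X]) (hg : g ≠ 0) : 0 < NN T g := by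
  have h0 : 0 ≤ NN T g := integral_nonneg fun t => by positivity
  refine lt_of_le_of_ne h0 fun h => hg ?_
  have h1 : (fun t : AddCircle T => ‖g.eval (fourier (T := T) 1 t)‖ ^ 2) =ᵐ[haarAddCircle] 0 :=
    (integral_eq_zero_iff_of_nonneg (fun t => by positivity) (XKB_iN T g)).1 h.symm
  have h2 : (fun t : AddCircle T => ‖g.eval (fourier (T := T) 1 t)‖ ^ 2) = 0 :=
    (Continuous.ae_eq_iff_eq haarAddCircle ((XKB_cg T g).norm.pow 2) continuous_zero).1 h1
  have h3 : pc (T := T) g = 0 := by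
    ext t
    have h4 := congrFun h2 t
    have h5 : ‖g.eval (fourier (T := T) 1 t)‖ ^ 2 = 0 := h4
    rw [pc_apply]
    exact norm_eq_zero.1 (pow_eq_zero_iff two_ne_zero |>.1 h5)
  ext n
  have h6 := coef_tl_pc (T := T) (p := 1) (n : ℤ) g
  rw [h3, if_pos (by positivity), Int.toNat_natCast] at h6
  rw [← h6]
  simp [tl]

theorem XKB_le (g : ℂ[X]) : |JJ T g| ≤ 1 + NN T g := by
  unfold JJ NN cI
  refine (abs_integral_le_integral_abs).trans ?_
  have h1 : ∫ t : AddCircle T, (1 + ‖g.eval (fourier (T := T) 1 t)‖ ^ 2) ∂haarAddCircle =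
      1 + ∫ t : AddCircle T, ‖g.eval (fourier (T := T) 1 t)‖ ^ 2 ∂haarAddCircle := by
    rw [integral_add (integrable_const _) (XKB_iN T g)]
    simp
  rw [← h1]
  exact integral_mono (XKB_iJ T g).abs ((integrable_const _).add (XKB_iN T g))
    fun t => XKB_point _

theorem XKB_four (g : ℂ[X]) (hg : g.eval 0 = 0) : JJ T g ^ 2 ≤ 4 * NN T g := by
  by_cases h0 : g = 0
  · subst h0
    simp [JJ, NN, cI]
  have hN := XKB_pos T g h0
  obtain ⟨s, hs⟩ : ∃ s, s = √(NN T g) := ⟨_, rfl⟩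
  have hs0 : 0 < s := by rw [hs]; exact Real.sqrt_pos.2 hN
  have hs2 : s ^ 2 = NN T g := by rw [hs]; exact Real.sq_sqrt hN.le
  have h1 := XKB_le T (C ((s⁻¹ : ℝ) : ℂ) * g)
  rw [XKB_hom T g _ hg, XKB_NNhom, ← hs2, ← mul_pow, inv_mul_cancel₀ hs0.ne', one_pow,
    abs_mul, abs_of_pos (inv_pos.2 hs0), inv_mul_le_iff₀ hs0] at h1
  rw [← hs2, ← sq_abs]
  have h2 : |JJ T g| ^ 2 ≤ (s * (1 + 1)) ^ 2 := pow_le_pow_left₀ (abs_nonneg _) h1 2
  linarith

theorem p_XKB : Stmt_XKB := by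
  intro T hT
  have hbdd : ∀ x ∈ {x : ℝ | ∃ g : ℂ[X], g ≠ 0 ∧ g.eval 0 = 0 ∧ x = JJ T g ^ 2 / NN T g}, x ≤ 4 := by
    rintro x ⟨g, hg, hg0, rfl⟩
    rw [div_le_iff₀ (XKB_pos T g hg)]
    exact XKB_four T g hg0
  have hba : BddAbove {x : ℝ | ∃ g : ℂ[X], g ≠ 0 ∧ g.eval 0 = 0 ∧ x = JJ T g ^ 2 / NN T g} :=
    ⟨4, hbdd⟩
  have hX : JJ T X ^ 2 / NN T X ∈
      {x : ℝ | ∃ g : ℂ[X], g ≠ 0 ∧ g.eval 0 = 0 ∧ x = JJ T g ^ 2 / NN T g} :=
    ⟨X, X_ne_zero, by simp, rfl⟩
  refine ⟨fun g c hg => XKB_hom T g c hg, fun g hg => XKB_pos T g hg, fun g hg => ?_, ?_, ?_, ?_⟩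
  · by_cases h0 : g = 0
    · subst h0
      simp [JJ, NN, cI]
    · have h1 : JJ T g ^ 2 / NN T g ≤ kap T := le_csSup hba ⟨g, h0, hg, rfl⟩
      rwa [div_le_iff₀ (XKB_pos T g h0)] at h1
  · have h1 : JJ T X ^ 2 / NN T X ≤ kap T := le_csSup hba hX
    exact (div_nonneg (sq_nonneg _) (XKB_pos T X X_ne_zero).le).trans h1
  · exact csSup_le ⟨_, hX⟩ hbdd
  · intro δ hδ
    obtain ⟨x, ⟨g, hg, hg0, rfl⟩, hx⟩ := exists_lt_of_lt_csSup
      (s := {x : ℝ | ∃ g : ℂ[X], g ≠ 0 ∧ g.eval 0 = 0 ∧ x = JJ T g ^ 2 / NN T g}) (b := kap T - δ)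
      ⟨_, hX⟩ (show kap T - δ < kap T by linarith)
    exact ⟨g, hg, hg0, hx.le⟩

end Pool.Agent.Work.MP_d7cff0_an.AS
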