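import Pool.Agent.Work.MP_d7cff0_as.Interface2

/-! # MP_d7cff0_an, THEOREM AS: block XKL -/

set_option autoImplicit false

noncomputable section

namespace Pool.Agent.Work.MP_d7cff0_an.AS

open MeasureTheory AddCircle Filter Topology Finset Polynomial
open scoped ENNReal

theorem XKL_cont : Continuous (fun v : ℂ => v.re * Real.log ‖v‖) := by
  rw [continuous_iff_continuousAt]
  intro v
  by_cases hv : v = 0
  · subst hv
    have h1 : Tendsto (fun v : ℂ => |‖v‖ * Real.log ‖v‖|) (𝓝 0) (𝓝 0) := by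
      have h2 := ((Real.continuous_mul_log.comp continuous_norm).abs).tendsto (0 : ℂ)
      simpa using h2
    rw [ContinuousAt]
    simp only [Complex.zero_re, zero_mul]
    refine squeeze_zero_norm (fun v => ?_) h1
    rw [Real.norm_eq_abs, abs_mul, abs_mul, abs_of_nonneg (norm_nonneg v)]
    exact mul_le_mul_of_nonneg_right (Complex.abs_re_le_norm v) (abs_nonneg _)
  · exact (Complex.continuous_re.continuousAt).mul
      ((continuous_norm.continuousAt).log (norm_ne_zero_iff.mpr hv))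

/-- `∫ |g|^(2 + ε) → ∫ |g|^2` -/
theorem XKL_G (T : ℝ) [Fact (0 < T)] (g : ℂ[X]) :
    Tendsto (fun ε : ℝ => cI T (fun z => ‖g.eval z‖ ^ (2 + ε))) (𝓝 0) (𝓝 (NN T g)) := by
  have hNN : NN T g = cI T (fun z => ‖g.eval z‖ ^ ((2 : ℝ) + 0)) := by
    unfold NN
    congr 1
    funext z
    rw [add_zero, Real.rpow_two]
  rw [hNN]
  unfold cI
  have hgc : Continuous fun t : AddCircle T => g.eval (fourier (T := T) 1 t) :=
    g.continuous.comp (fourier (T := T) 1).continuous
  have hS : ∀ t : AddCircle T, ‖g.eval (fourier (T := T) 1 t)‖ ≤ ‖pc (T := T) g‖ := by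
    intro t
    have := (pc (T := T) g).norm_coe_le_norm t
    rwa [pc_apply] at this
  refine tendsto_integral_filter_of_dominated_convergence (fun _ => (1 + ‖pc (T := T) g‖) ^ (3 : ℝ))
    ?_ ?_ ?_ ?_
  · have h1 : ∀ᶠ ε : ℝ in 𝓝 0, -1 < ε := eventually_gt_nhds (by norm_num)
    filter_upwards [h1] with ε hε
    exact (hgc.norm.rpow_const fun _ => Or.inr (by linarith)).aestronglyMeasurable
  · have h1 : ∀ᶠ ε : ℝ in 𝓝 0, -1 < ε := eventually_gt_nhds (by norm_num)
    have h2 : ∀ᶠ ε : ℝ in 𝓝 0, ε < 1 := eventually_lt_nhds (by norm_num)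
    filter_upwards [h1, h2] with ε hε hε'
    refine Eventually.of_forall fun t => ?_
    rw [Real.norm_of_nonneg (Real.rpow_nonneg (norm_nonneg _) _)]
    have h0 : 0 ≤ ‖pc (T := T) g‖ := norm_nonneg _
    calc ‖g.eval (fourier (T := T) 1 t)‖ ^ (2 + ε) ≤ (1 + ‖pc (T := T) g‖) ^ (2 + ε) := by
          refine Real.rpow_le_rpow (norm_nonneg _) ?_ (by linarith)
          linarith [hS t]
      _ ≤ (1 + ‖pc (T := T) g‖) ^ (3 : ℝ) :=
          Real.rpow_le_rpow_of_exponent_le (by linarith) (by linarith)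
  · exact integrable_const _
  · refine Eventually.of_forall fun t => ?_
    have h1 : ContinuousAt (fun y : ℝ => ‖g.eval (fourier (T := T) 1 t)‖ ^ y) (2 + 0) :=
      Real.continuousAt_const_rpow' (by norm_num)
    have h2 : ContinuousAt (fun ε : ℝ => 2 + ε) 0 := by fun_prop
    exact (ContinuousAt.comp (f := fun ε : ℝ => 2 + ε) (x := 0) h1 h2).tendsto

/-- `(|ε| a)^(-ε) → 1` -/
theorem XKL_one (a : ℝ) (ha : 0 < a) :
    Tendsto (fun ε : ℝ => (|ε| * a) ^ (-ε)) (𝓝[≠] 0) (𝓝 1) := by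
  have h1 : Tendsto (fun ε : ℝ => Real.exp (-(ε * Real.log ε + ε * Real.log a))) (𝓝 0) (𝓝 1) := by
    have h2 : Continuous fun ε : ℝ => Real.exp (-(ε * Real.log ε + ε * Real.log a)) :=
      Real.continuous_exp.comp ((Real.continuous_mul_log.add (continuous_id.mul continuous_const)).neg)
    have h3 := h2.tendsto 0
    simpa using h3
  refine (h1.mono_left nhdsWithin_le_nhds).congr' ?_
  filter_upwards [self_mem_nhdsWithin] with ε hε
  have hε' : ε ≠ 0 := hε
  have h0 : 0 < |ε| := abs_pos.mpr hε'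
  rw [Real.rpow_def_of_pos (mul_pos h0 ha), Real.log_mul h0.ne' ha.ne', Real.log_abs]
  congr 1
  ring

/-- the limit statement -/
theorem XKL_lim (T : ℝ) [Fact (0 < T)] (g : ℂ[X]) (κ J θ' : ℝ) (hJ : J ≠ 0)
    (hθ : κ * (NN T g / J ^ 2) < θ') :
    ∃ η : ℝ, 0 < η ∧ ∀ ε : ℝ, 0 < |ε| → |ε| ≤ η →
      κ * ((J ^ 2)⁻¹ * ((|ε| * |J|) ^ (-ε) * cI T (fun z => ‖g.eval z‖ ^ (2 + ε)))) ≤ θ' := by
  have h1 : Tendsto (fun ε : ℝ => κ * ((J ^ 2)⁻¹ * ((|ε| * |J|) ^ (-ε) *
      cI T (fun z => ‖g.eval z‖ ^ (2 + ε))))) (𝓝[≠] 0) (𝓝 (κ * ((J ^ 2)⁻¹ * (1 * NN T g)))) :=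
    (((XKL_one |J| (abs_pos.mpr hJ)).mul ((XKL_G T g).mono_left nhdsWithin_le_nhds)).const_mul _).const_mul _
  have h2 : κ * ((J ^ 2)⁻¹ * (1 * NN T g)) < θ' := by
    have : κ * ((J ^ 2)⁻¹ * (1 * NN T g)) = κ * (NN T g / J ^ 2) := by ring
    rw [this]
    exact hθ
  have h3 : ∀ᶠ ε : ℝ in 𝓝[≠] 0, κ * ((J ^ 2)⁻¹ * ((|ε| * |J|) ^ (-ε) *
      cI T (fun z => ‖g.eval z‖ ^ (2 + ε)))) < θ' := h1.eventually_lt_const h2
  rw [eventually_nhdsWithin_iff, Metric.eventually_nhds_iff] at h3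
  obtain ⟨r, hr, h4⟩ := h3
  refine ⟨r / 2, by positivity, fun ε h0 hε => ?_⟩
  refine (h4 ?_ (abs_pos.mp h0)).le
  rw [Real.dist_eq, sub_zero]
  linarith

theorem XKL_int4 (T : ℝ) [Fact (0 < T)] {f g h : AddCircle T → ℝ} (hf : Integrable f haarAddCircle)
    (hg : Integrable g haarAddCircle) (hh : Integrable h haarAddCircle) (c a b : ℝ) :
    ∫ t : AddCircle T, (f t + (c + (a * g t + b * h t))) ∂haarAddCircle =
      (∫ t, f t ∂haarAddCircle) + (c + (a * (∫ t, g t ∂haarAddCircle) + b * ∫ t, h t ∂haarAddCircle)) := by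
  have i1 : Integrable (fun t : AddCircle T => a * g t) haarAddCircle := hg.const_mul a
  have i2 : Integrable (fun t : AddCircle T => b * h t) haarAddCircle := hh.const_mul b
  have i3 : Integrable (fun t : AddCircle T => a * g t + b * h t) haarAddCircle := i1.add i2
  have i4 : Integrable (fun _ : AddCircle T => c) haarAddCircle := integrable_const c
  have i5 : Integrable (fun t : AddCircle T => c + (a * g t + b * h t)) haarAddCircle := i4.add i3
  rw [integral_add hf i5, integral_add i4 i3, integral_add i1 i2, integral_const_mul,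
    integral_const_mul]
  simp

theorem p_XKL (h1 : Stmt_XPN) (h2 : Stmt_XKB) : Stmt_XKL := by
  intro T _ δ hδ
  obtain ⟨hhom, hpos, -, hk0, hk4, happ⟩ := h2 T
  rcases le_or_gt (kap T) δ with hk | hk
  · refine ⟨1, one_pos, fun p hp0 hp => ⟨pc (T := T) X, pc_mem X, ?_, ?_⟩⟩
    · have : ∀ t : AddCircle T, ‖pc (T := T) X t‖ ^ p = 1 := by
        intro t
        rw [pc_apply, eval_X, fourier_apply, Circle.norm_coe, Real.one_rpow]
      simp only [this]
      simp
    · have hm : mean (pc (T := T) X) = 0 := by rw [mean_pc, eval_X]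
      have : ∀ t : AddCircle T, ‖pc (T := T) X t‖ ^ p = 1 := by
        intro t
        rw [pc_apply, eval_X, fourier_apply, Circle.norm_coe, Real.one_rpow]
      simp only [hm, sub_zero, this]
      have hh : (kap T - δ) * (p - 2) ^ 2 ≤ 0 := mul_nonpos_of_nonpos_of_nonneg (by linarith) (sq_nonneg _)
      simp
      linarith
  · obtain ⟨g, hg, hg0, hgk⟩ := happ (δ / 2) (by positivity)
    have hN := hpos g hg
    obtain ⟨N, hNd⟩ : ∃ N, N = NN T g := ⟨_, rfl⟩
    obtain ⟨J, hJd⟩ : ∃ J, J = JJ T g := ⟨_, rfl⟩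
    rw [← hNd] at hN hgk
    rw [← hJd] at hgk
    have hJ2 : 0 < J ^ 2 := by
      have h3 : 0 < J ^ 2 / N := by linarith
      by_contra h4
      have h5 : J ^ 2 / N ≤ 0 := div_nonpos_of_nonpos_of_nonneg (not_lt.mp h4) hN.le
      linarith
    have hJ : J ≠ 0 := by
      intro h
      rw [h] at hJ2
      norm_num at hJ2
    obtain ⟨κ, hκ⟩ : ∃ κ, κ = kap T - δ := ⟨_, rfl⟩
    have hκ0 : 0 < κ := by rw [hκ]; linarith
    have hθ1 : κ * (N / J ^ 2) < 1 := by
      have h3 : κ < J ^ 2 / N := by rw [hκ]; linarith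
      rw [lt_div_iff₀ hN] at h3
      rw [mul_div_assoc', div_lt_one hJ2]
      exact h3
    have hθ0 : 0 ≤ κ * (N / J ^ 2) := by positivity
    obtain ⟨d, hd⟩ : ∃ d, d = (1 - κ * (N / J ^ 2)) / 2 := ⟨_, rfl⟩
    have hd0 : 0 < d := by rw [hd]; linarith
    have hd1 : d ≤ 1 / 2 := by rw [hd]; linarith
    obtain ⟨η₁, hη₁, hlim⟩ := XKL_lim T g κ J (1 - d) hJ (by rw [← hNd, hd]; linarith)
    obtain ⟨M, hMd⟩ : ∃ M, M = (‖pc (T := T) g‖ + 1) / |J| := ⟨_, rfl⟩
    have hJa : 0 < |J| := abs_pos.mpr hJ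
    have hM0 : 0 < M := by rw [hMd]; positivity
    obtain ⟨e₀, he0, he1, hN2⟩ := h1 M d hM0 hd0
    refine ⟨min e₀ η₁, lt_min he0 hη₁, fun p hp0 hp => ?_⟩
    obtain ⟨ε, hε⟩ : ∃ ε, ε = p - 2 := ⟨_, rfl⟩
    obtain rfl : p = 2 + ε := by rw [hε]; ring
    rw [← hε] at hp0 hp ⊢
    rw [← hκ]
    have hε1 : |ε| ≤ e₀ := hp.trans (min_le_left _ _)
    have hε2 : |ε| ≤ η₁ := hp.trans (min_le_right _ _)
    have hε4 := abs_le.mp (hε1.trans he1)
    have hε0 : ε ≠ 0 := abs_pos.mp hp0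
    have hp0' : 0 < 2 + ε := by linarith
    obtain ⟨A, hA⟩ : ∃ A : ℝ, A = -1 / (ε * J) := ⟨_, rfl⟩
    have hAabs : |A| = (|ε| * |J|)⁻¹ := by
      rw [hA, abs_div, abs_neg, abs_one, abs_mul, one_div]
    obtain ⟨w, hw⟩ : ∃ w : ℂ[X], w = C (A : ℂ) * g := ⟨_, rfl⟩
    have hwe : ∀ z, w.eval z = (A : ℂ) * g.eval z := by
      intro z
      rw [hw, eval_mul, eval_C]
    have hw0 : w.eval 0 = 0 := by rw [hwe, hg0, mul_zero]
    have hJw : JJ T w = A * J := by rw [hw, hhom g A hg0, hJd]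
    -- the test function
    obtain ⟨P, hP⟩ : ∃ P : ℂ[X], P = 1 + w := ⟨_, rfl⟩
    have hPe : ∀ z, P.eval z = 1 + w.eval z := by
      intro z
      rw [hP, eval_add, eval_one]
    have hmean : mean (pc (T := T) P) = 1 := by rw [mean_pc, hPe, hw0, add_zero]
    have hwn : ∀ t : AddCircle T, ‖w.eval (fourier (T := T) 1 t)‖ ≤ M / |ε| := by
      intro t
      have h3 : ‖g.eval (fourier (T := T) 1 t)‖ ≤ ‖pc (T := T) g‖ := by
        have := (pc (T := T) g).norm_coe_le_norm t
        rwa [pc_apply] at this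
      rw [hwe, norm_mul, Complex.norm_real, Real.norm_eq_abs, hAabs, hMd, mul_inv, div_div,
        div_eq_mul_inv, mul_inv]
      have h4 : 0 ≤ |ε|⁻¹ * |J|⁻¹ := by positivity
      nlinarith
    have hwc : Continuous fun t : AddCircle T => w.eval (fourier (T := T) 1 t) :=
      w.continuous.comp (fourier (T := T) 1).continuous
    have hPc : Continuous fun t : AddCircle T => P.eval (fourier (T := T) 1 t) :=
      P.continuous.comp (fourier (T := T) 1).continuous
    have i1 : Integrable (fun t : AddCircle T => ‖w.eval (fourier (T := T) 1 t)‖ ^ (2 + ε)) haarAddCircle :=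
      integrable_cont (hwc.norm.rpow_const fun _ => Or.inr hp0'.le)
    have i2 : Integrable (fun t : AddCircle T => ‖P.eval (fourier (T := T) 1 t)‖ ^ (2 + ε)) haarAddCircle :=
      integrable_cont (hPc.norm.rpow_const fun _ => Or.inr hp0'.le)
    have i3 : Integrable (fun t : AddCircle T => (w.eval (fourier (T := T) 1 t)).re) haarAddCircle :=
      integrable_cont (Complex.continuous_re.comp hwc)
    have i4 : Integrable (fun t : AddCircle T => (w.eval (fourier (T := T) 1 t)).re *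
        Real.log ‖w.eval (fourier (T := T) 1 t)‖) haarAddCircle :=
      integrable_cont (XKL_cont.comp hwc)
    have hre : ∫ t : AddCircle T, (w.eval (fourier (T := T) 1 t)).re ∂haarAddCircle = 0 := by
      have h3 := integral_re (𝕜 := ℂ) (integrable_cont (T := T) (pc w).continuous)
      have h4 : ∫ t, pc (T := T) w t ∂haarAddCircle = 0 := by
        have := mean_pc (T := T) w
        rw [hw0] at this
        exact this
      rw [h4] at h3
      simp only [pc_apply] at h3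
      simpa using h3
    have hpt : ∀ t : AddCircle T, ‖P.eval (fourier (T := T) 1 t)‖ ^ (2 + ε) ≤
        ‖w.eval (fourier (T := T) 1 t)‖ ^ (2 + ε) + ((1 + d) + ((2 + ε) * (w.eval (fourier (T := T) 1 t)).re +
          2 * ε * ((w.eval (fourier (T := T) 1 t)).re * Real.log ‖w.eval (fourier (T := T) 1 t)‖))) := by
      intro t
      have h3 := abs_le.mp (hN2 ε hp0 hε1 _ (hwn t))
      rw [hPe]
      linarith [h3.2]
    have hI := integral_mono i2 (i1.add ((integrable_const (1 + d)).add ((i3.const_mul (2 + ε)).add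
      (i4.const_mul (2 * ε))))) hpt
    have hI2 : ∫ t : AddCircle T, (‖w.eval (fourier (T := T) 1 t)‖ ^ (2 + ε) + ((1 + d) +
        ((2 + ε) * (w.eval (fourier (T := T) 1 t)).re +
          2 * ε * ((w.eval (fourier (T := T) 1 t)).re * Real.log ‖w.eval (fourier (T := T) 1 t)‖))))
          ∂haarAddCircle = (∫ t : AddCircle T, ‖w.eval (fourier (T := T) 1 t)‖ ^ (2 + ε) ∂haarAddCircle) +
          ((1 + d) + ((2 + ε) * 0 + 2 * ε * JJ T w)) := by
      rw [XKL_int4 T i1 i3 i4, hre]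
      rfl
    obtain ⟨E, hE⟩ : ∃ E, E = ∫ t : AddCircle T, ‖w.eval (fourier (T := T) 1 t)‖ ^ (2 + ε) ∂haarAddCircle :=
      ⟨_, rfl⟩
    obtain ⟨F, hF⟩ : ∃ F, F = ∫ t : AddCircle T, ‖P.eval (fourier (T := T) 1 t)‖ ^ (2 + ε) ∂haarAddCircle :=
      ⟨_, rfl⟩
    have hFE : F ≤ E - 1 + d := by
      have h3 : F ≤ E + ((1 + d) + ((2 + ε) * 0 + 2 * ε * JJ T w)) := by
        rw [hF, hE, ← hI2]
        exact hI
      rw [hJw, hA] at h3
      have h4 : 2 * ε * (-1 / (ε * J) * J) = -2 := by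
        field_simp
      rw [h4] at h3
      linarith
    have hEv : κ * ε ^ 2 * E ≤ 1 - d := by
      have h3 := hlim ε hp0 hε2
      have h4 : E = |A| ^ (2 + ε) * cI T (fun z => ‖g.eval z‖ ^ (2 + ε)) := by
        rw [hE]
        unfold cI
        rw [← integral_const_mul]
        refine integral_congr_ae (Eventually.of_forall fun t => ?_)
        simp only
        rw [hwe, norm_mul, Complex.norm_real, Real.norm_eq_abs,
          Real.mul_rpow (abs_nonneg _) (norm_nonneg _)]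
      have h5 : ε ^ 2 * |A| ^ (2 + ε) = (J ^ 2)⁻¹ * (|ε| * |J|) ^ (-ε) := by
        have h6 : 0 < |ε| * |J| := by positivity
        rw [hAabs, Real.inv_rpow h6.le, ← Real.rpow_neg h6.le, neg_add, Real.rpow_add h6,
          Real.rpow_neg h6.le 2, Real.rpow_two, mul_pow, sq_abs, sq_abs]
        field_simp
      calc κ * ε ^ 2 * E = κ * ((ε ^ 2 * |A| ^ (2 + ε)) * cI T (fun z => ‖g.eval z‖ ^ (2 + ε))) := by
            rw [h4]; ring
        _ = κ * ((J ^ 2)⁻¹ * ((|ε| * |J|) ^ (-ε) * cI T (fun z => ‖g.eval z‖ ^ (2 + ε)))) := by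
            rw [h5]; ring
        _ ≤ 1 - d := h3
    refine ⟨pc (T := T) P, pc_mem P, ?_, ?_⟩
    · -- positivity
      simp only [pc_apply]
      rw [← hF]
      have hF0 : 0 ≤ F := by
        rw [hF]
        exact integral_nonneg fun t => Real.rpow_nonneg (norm_nonneg _) _
      refine lt_of_le_of_ne hF0 fun h => ?_
      have h3 : (fun t : AddCircle T => ‖P.eval (fourier (T := T) 1 t)‖ ^ (2 + ε)) =ᵐ[haarAddCircle] 0 :=
        (integral_eq_zero_iff_of_nonneg (fun t => Real.rpow_nonneg (norm_nonneg _) _) i2).1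
          (by rw [← hF]; exact h.symm)
      have h4 : (fun t : AddCircle T => ‖P.eval (fourier (T := T) 1 t)‖ ^ (2 + ε)) = 0 :=
        (Continuous.ae_eq_iff_eq haarAddCircle (hPc.norm.rpow_const fun _ => Or.inr hp0'.le)
          continuous_zero).1 h3
      have h5 : pc (T := T) P = 0 := by
        ext t
        have h6 := congrFun h4 t
        have h7 : ‖P.eval (fourier (T := T) 1 t)‖ ^ (2 + ε) = 0 := h6
        rw [pc_apply]
        exact norm_eq_zero.1 ((Real.rpow_eq_zero (norm_nonneg _) hp0'.ne').1 h7)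
      rw [h5] at hmean
      unfold mean at hmean
      simp at hmean
    · rw [hmean]
      simp only [pc_apply]
      have h3 : ∀ t : AddCircle T, ‖P.eval (fourier (T := T) 1 t) - 1‖ ^ (2 + ε) =
          ‖w.eval (fourier (T := T) 1 t)‖ ^ (2 + ε) := by
        intro t
        rw [hPe, add_sub_cancel_left]
      simp only [h3]
      rw [← hF, ← hE]
      have h4 : 0 ≤ 1 + κ * ε ^ 2 := by positivity
      have h5 : (1 + κ * ε ^ 2) * F ≤ (1 + κ * ε ^ 2) * (E - 1 + d) := mul_le_mul_of_nonneg_left hFE h4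
      have h6 : 0 ≤ κ * ε ^ 2 * (1 - d) := by
        have : 0 ≤ 1 - d := by linarith
        positivity
      linarith

end Pool.Agent.Work.MP_d7cff0_an.AS
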