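import Pool.Agent.Work.MP_d7cff0_as.Interface2

/-! # MP_d7cff0_an, THEOREM AS: block XKU -/

set_option autoImplicit false

noncomputable section

namespace Pool.Agent.Work.MP_d7cff0_an.AS

open MeasureTheory AddCircle Filter Topology Finset Polynomial
open scoped ENNReal

theorem XKU_int (T : ℝ) [Fact (0 < T)] {F : ℂ → ℝ} (hF : Continuous F) :
    Integrable (fun t : AddCircle T => F (fourier (T := T) 1 t)) (haarAddCircle (T := T)) :=
  (hF.comp (fourier (T := T) 1).continuous).integrable_of_hasCompactSupport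
    (HasCompactSupport.of_compactSpace _)

theorem XKU_mono (T : ℝ) [Fact (0 < T)] {F G : ℂ → ℝ} (hF : Continuous F) (hG : Continuous G)
    (h : ∀ z, F z ≤ G z) : cI T F ≤ cI T G :=
  integral_mono (XKU_int T hF) (XKU_int T hG) fun _ => h _

theorem XKU_add (T : ℝ) [Fact (0 < T)] {F G : ℂ → ℝ} (hF : Continuous F) (hG : Continuous G) :
    cI T (fun z => F z + G z) = cI T F + cI T G := by
  unfold cI
  exact integral_add (XKU_int T hF) (XKU_int T hG)

theorem XKU_mul (T : ℝ) [Fact (0 < T)] (c : ℝ) (F : ℂ → ℝ) :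
    cI T (fun z => c * F z) = c * cI T F := by
  unfold cI
  rw [integral_const_mul]

theorem XKU_const (T : ℝ) [Fact (0 < T)] (c : ℝ) : cI T (fun _ => c) = c := by
  unfold cI
  rw [integral_const, probReal_univ, one_smul]

theorem XKU_lin (T : ℝ) [Fact (0 < T)] {f g h F : ℂ → ℝ} (hf : Continuous f) (hg : Continuous g)
    (hh : Continuous h) (hF : Continuous F) (a b c d : ℝ)
    (H : ∀ z, a + (b * f z + (c * g z + d * h z)) ≤ F z) :
    a + (b * cI T f + (c * cI T g + d * cI T h)) ≤ cI T F := by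
  have k1 : Continuous fun z => b * f z := continuous_const.mul hf
  have k2 : Continuous fun z => c * g z := continuous_const.mul hg
  have k3 : Continuous fun z => d * h z := continuous_const.mul hh
  have k4 : Continuous fun z => c * g z + d * h z := k2.add k3
  have k5 : Continuous fun z => b * f z + (c * g z + d * h z) := k1.add k4
  have k6 : Continuous fun _ : ℂ => a := continuous_const
  have k7 : Continuous fun z => a + (b * f z + (c * g z + d * h z)) := k6.add k5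
  have hI := XKU_mono T k7 hF H
  have e1 := XKU_add T k6 k5
  have e2 := XKU_add T k1 k4
  have e3 := XKU_add T k2 k3
  rw [XKU_mul, XKU_mul] at e3
  rw [e3, XKU_mul] at e2
  rw [e2, XKU_const] at e1
  rw [← e1]
  exact hI

theorem XKU_nonneg (T : ℝ) [Fact (0 < T)] {F : ℂ → ℝ} (h : ∀ z, 0 ≤ F z) : 0 ≤ cI T F :=
  integral_nonneg fun _ => h _

theorem XKU_re (T : ℝ) [Fact (0 < T)] (P : ℂ[X]) : cI T (fun z => (P.eval z).re) = (P.eval 0).re := by
  have h3 := integral_re (𝕜 := ℂ) (μ := haarAddCircle (T := T)) (f := fun t => pc (T := T) P t)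
    ((pc (T := T) P).continuous.integrable_of_hasCompactSupport
      (HasCompactSupport.of_compactSpace _))
  have h4 : ∫ t, pc (T := T) P t ∂haarAddCircle = P.eval 0 := mean_pc P
  rw [h4] at h3
  simp only [pc_apply] at h3
  exact h3

theorem XKU_cont : Continuous (fun v : ℂ => v.re * Real.log ‖v‖) := by
  rw [continuous_iff_continuousAt]
  intro v
  by_cases hv : v = 0
  · subst hv
    have h1 : Tendsto (fun v : ℂ => |‖v‖ * Real.log ‖v‖|) (𝓝 0) (𝓝 0) := by
      have h2 := ((Real.continuous_mul_log.comp continuous_norm).abs).tendsto (0 : ℂ)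
      simpa using h2
    rw [ContinuousAt]
    simp only [Complex.zero_re, zero_mul]
    refine squeeze_zero_norm (fun v => ?_) h1
    rw [Real.norm_eq_abs, abs_mul, abs_mul, abs_of_nonneg (norm_nonneg v)]
    exact mul_le_mul_of_nonneg_right (Complex.abs_re_le_norm v) (abs_nonneg _)
  · exact (Complex.continuous_re.continuousAt).mul
      ((continuous_norm.continuousAt).log (norm_ne_zero_iff.mpr hv))

/-- `x |log x| ≤ 2 √x` on `(0, 1]` -/
theorem XKU_xlog (x : ℝ) (hx : 0 < x) (hx1 : x ≤ 1) : x * |Real.log x| ≤ 2 * √x := by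
  have h0 : 0 < √x := Real.sqrt_pos.mpr hx
  have h1 : Real.log x ≤ 0 := Real.log_nonpos hx.le hx1
  rw [abs_of_nonpos h1]
  have h2 : Real.log (1 / √x) ≤ 1 / √x - 1 := Real.log_le_sub_one_of_pos (by positivity)
  rw [one_div, Real.log_inv, Real.log_sqrt hx.le] at h2
  have h3 : - Real.log x ≤ 2 * (√x)⁻¹ := by linarith
  have h4 : x = √x * √x := (Real.mul_self_sqrt hx.le).symm
  calc x * -Real.log x ≤ x * (2 * (√x)⁻¹) := mul_le_mul_of_nonneg_left h3 hx.le
    _ = 2 * √x := by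
      nth_rewrite 1 [h4]
      field_simp

/-- the claim of the docstring -/
theorem XKU_claim (c : ℝ) (hc : 0 < c) (hc1 : c ≤ 1) : ∃ ε₀ : ℝ, 0 < ε₀ ∧ ε₀ ≤ 1 / 4 ∧
    ∀ ε : ℝ, 0 < |ε| → |ε| ≤ ε₀ → ∀ k K s : ℝ, 0 ≤ k → k ≤ 4 → 0 ≤ K → K ^ 2 ≤ k + 5 * (c / 64) →
      0 ≤ s → 2 * K * s ≤ 1 - c / 64 + (k + c - c / 64) * (s ^ (2 + ε) * |ε| ^ (-ε)) := by
  obtain ⟨d, hd⟩ : ∃ d, d = c / 64 := ⟨_, rfl⟩
  have hd0 : 0 < d := by rw [hd]; positivity
  have hd1 : d ≤ 1 / 64 := by rw [hd]; linarith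
  have hcd : c = 64 * d := by rw [hd]; ring
  obtain ⟨S, hS⟩ : ∃ S, S = (24 / c) ^ 2 := ⟨_, rfl⟩
  have h24 : 24 ≤ 24 / c := by rw [le_div_iff₀ hc]; linarith
  have hS1 : 1 ≤ S := by rw [hS]; nlinarith
  obtain ⟨L, hL⟩ : ∃ L, L = Real.log 12 + Real.log S := ⟨_, rfl⟩
  have hl12 : 0 ≤ Real.log 12 := Real.log_nonneg (by norm_num)
  have hlS : 0 ≤ Real.log S := Real.log_nonneg hS1
  have hL0 : 0 ≤ L := by rw [hL]; positivity
  refine ⟨min (1 / 4) ((d / (L + 2)) ^ 2), lt_min (by norm_num) (by positivity), min_le_left _ _, ?_⟩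
  intro ε hε0 hε k K s hk0 hk4 hK0 hK hs
  rw [← hd] at hK ⊢
  have hε4 : |ε| ≤ 1 / 4 := hε.trans (min_le_left _ _)
  have hεd : |ε| ≤ (d / (L + 2)) ^ 2 := hε.trans (min_le_right _ _)
  have hsq : √|ε| ≤ d / (L + 2) := by
    have h := Real.sqrt_le_sqrt hεd
    rwa [Real.sqrt_sq (by positivity)] at h
  have hsq' : √|ε| * (L + 2) ≤ d := by
    rwa [le_div_iff₀ (by positivity)] at hsq
  have hsq0 : 0 < √|ε| := Real.sqrt_pos.mpr hε0
  have hxl := XKU_xlog |ε| hε0 (by linarith)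
  have hee : |ε| ≤ √|ε| := by
    have h1 : √|ε| * √|ε| = |ε| := Real.mul_self_sqrt hε0.le
    have h2 : √|ε| ≤ 1 := by
      rw [Real.sqrt_le_one]
      linarith
    nlinarith
  have hεL : |ε| * L + |ε| * |Real.log (|ε|)| ≤ d := by
    have h1 : |ε| * L ≤ √|ε| * L := mul_le_mul_of_nonneg_right hee hL0
    nlinarith
  have hεl : |ε| * |Real.log (|ε|)| ≤ d := by
    have : 0 ≤ |ε| * L := by positivity
    linarith
  have habs := abs_le.mp (le_refl |ε|)
  have hY : 1 - d ≤ |ε| ^ (-ε) := by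
    rw [Real.rpow_def_of_pos hε0]
    have h1 := Real.add_one_le_exp (Real.log |ε| * -ε)
    have h2 : -(|ε| * |Real.log (|ε|)|) ≤ Real.log |ε| * -ε := by
      have h3 := neg_abs_le (Real.log |ε| * -ε)
      rw [abs_mul, abs_neg] at h3
      linarith
    linarith
  have hY0 : 0 ≤ |ε| ^ (-ε) := Real.rpow_nonneg hε0.le _
  have hX0 : 0 ≤ s ^ (2 + ε) := Real.rpow_nonneg hs _
  have ha : 63 * d ≤ k + c - d := by linarith
  have hK3 : K ≤ 3 := by nlinarith
  rcases le_or_gt (2 * K * s) (1 - d) with h | h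
  · have h1 : 0 ≤ (k + c - d) * (s ^ (2 + ε) * |ε| ^ (-ε)) :=
      mul_nonneg (by linarith) (mul_nonneg hX0 hY0)
    linarith
  · have hs12 : 1 / 12 ≤ s := by nlinarith
    have hs0 : 0 < s := by linarith
    rcases le_or_gt S s with h2 | h2
    · have hs1 : 1 ≤ s := hS1.trans h2
      have h3 : s ^ (2 + ε) = s * s ^ (1 + ε) := by
        rw [show 2 + ε = 1 + (1 + ε) by ring, Real.rpow_add hs0, Real.rpow_one]
      have h4 : s ^ (1 / 2 : ℝ) ≤ s ^ (1 + ε) := by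
        refine Real.rpow_le_rpow_of_exponent_le hs1 ?_
        rw [abs_le] at hε4
        linarith
      have h5 : 24 / c ≤ s ^ (1 / 2 : ℝ) := by
        rw [← Real.sqrt_eq_rpow]
        refine Real.le_sqrt_of_sq_le ?_
        rw [← hS]
        exact h2
      have h6 : 24 / c ≤ s ^ (1 + ε) := h5.trans h4
      have h7 : c / 2 ≤ k + c - d := by linarith
      have h8 : 1 / 2 ≤ |ε| ^ (-ε) := by linarith
      rw [h3]
      have h9 : (c / 2) * ((s * (24 / c)) * (1 / 2)) ≤ (k + c - d) * (s * s ^ (1 + ε) * |ε| ^ (-ε)) := by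
        refine mul_le_mul h7 ?_ (by positivity) (by linarith)
        exact mul_le_mul (mul_le_mul_of_nonneg_left h6 hs) h8 (by norm_num) (by positivity)
      have h10 : (c / 2) * ((s * (24 / c)) * (1 / 2)) = 6 * s := by
        field_simp
        ring
      rw [h10] at h9
      have h11 : K * s ≤ 3 * s := mul_le_mul_of_nonneg_right hK3 hs
      linarith
    · have h3 : s ^ (2 + ε) * |ε| ^ (-ε) = s ^ 2 * (s ^ ε * |ε| ^ (-ε)) := by
        rw [Real.rpow_add hs0, Real.rpow_two]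
        ring
      have h4 : 1 - d ≤ s ^ ε * |ε| ^ (-ε) := by
        rw [Real.rpow_def_of_pos hε0, Real.rpow_def_of_pos hs0, ← Real.exp_add]
        have h5 := Real.add_one_le_exp (Real.log s * ε + Real.log |ε| * -ε)
        have h6 : -(|ε| * |Real.log (|ε|)|) ≤ Real.log |ε| * -ε := by
          have h7 := neg_abs_le (Real.log |ε| * -ε)
          rw [abs_mul, abs_neg] at h7
          linarith
        have h8 : |Real.log s| ≤ L := by
          rw [abs_le]
          constructor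
          · have h9 : Real.log (1 / 12) ≤ Real.log s := Real.log_le_log (by norm_num) hs12
            rw [one_div, Real.log_inv] at h9
            linarith
          · have h9 : Real.log s ≤ Real.log S := Real.log_le_log hs0 h2.le
            linarith
        have h10 : -(|ε| * L) ≤ Real.log s * ε := by
          have h11 := neg_abs_le (Real.log s * ε)
          rw [abs_mul] at h11
          have h12 : |Real.log s| * |ε| ≤ L * |ε| := mul_le_mul_of_nonneg_right h8 hε0.le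
          linarith
        linarith
      rw [h3]
      have h5 : (k + c - d) * (s ^ 2 * (1 - d)) ≤ (k + c - d) * (s ^ 2 * (s ^ ε * |ε| ^ (-ε))) :=
        mul_le_mul_of_nonneg_left (mul_le_mul_of_nonneg_left h4 (sq_nonneg s)) (by linarith)
      have h6 : K ^ 2 ≤ (k + c - d) * (1 - d) ^ 2 := by
        have h7 : (k + c - d) * (1 - 2 * d) ≤ (k + c - d) * (1 - d) ^ 2 :=
          mul_le_mul_of_nonneg_left (by nlinarith) (by linarith)
        rw [hcd] at h7 ⊢
        nlinarith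
      have h7 : 2 * K * s * (1 - d) ≤ (1 - d) ^ 2 + K ^ 2 * s ^ 2 := by
        nlinarith [sq_nonneg (1 - d - K * s)]
      have h8 : K ^ 2 * s ^ 2 ≤ (k + c - d) * (1 - d) ^ 2 * s ^ 2 :=
        mul_le_mul_of_nonneg_right h6 (sq_nonneg s)
      have h9 : 2 * K * s * (1 - d) ≤ (1 - d + (k + c - d) * (s ^ 2 * (1 - d))) * (1 - d) := by
        nlinarith
      have h10 := le_of_mul_le_mul_right h9 (by linarith)
      linarith

theorem p_XKU (h1 : Stmt_XPN) (h2 : Stmt_XPF) (h3 : Stmt_XKB) (h4 : Stmt_XLM) : Stmt_XKU := by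
  intro δ hδ
  obtain ⟨δ', hδ'⟩ : ∃ x, x = min δ 1 := ⟨_, rfl⟩
  have hδ'0 : 0 < δ' := by rw [hδ']; exact lt_min hδ one_pos
  have hδ'1 : δ' ≤ 1 := by rw [hδ']; exact min_le_right _ _
  have hδ'δ : δ' ≤ δ := by rw [hδ']; exact min_le_left _ _
  obtain ⟨c, hc⟩ : ∃ x, x = δ' / 2 := ⟨_, rfl⟩
  have hc0 : 0 < c := by rw [hc]; positivity
  have hc1 : c ≤ 1 := by rw [hc]; linarith
  obtain ⟨d, hd⟩ : ∃ x, x = c / 64 := ⟨_, rfl⟩
  have hd0 : 0 < d := by rw [hd]; positivity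
  have hd1 : d ≤ 1 / 64 := by rw [hd]; linarith
  obtain ⟨M, e1, hM0, he10, he11, hF⟩ := h2 d hd0
  obtain ⟨e2, he20, he21, hN⟩ := h1 M d hM0 hd0
  obtain ⟨e3, he30, he31, hLM⟩ := h4 d hd0
  obtain ⟨e4, he40, he41, hcl⟩ := XKU_claim c hc0 hc1
  refine ⟨min (min e1 e2) (min (min e3 e4) (δ' / 50)), ?_, ?_⟩
  · refine lt_min (lt_min he10 he20) (lt_min (lt_min he30 he40) (by positivity))
  intro T _ p hp0 hp P hP
  obtain ⟨ε, hε⟩ : ∃ ε, ε = p - 2 := ⟨_, rfl⟩
  obtain rfl : p = 2 + ε := by rw [hε]; ring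
  rw [← hε] at hp0 hp ⊢
  have hεe1 : |ε| ≤ e1 := hp.trans ((min_le_left _ _).trans (min_le_left _ _))
  have hεe2 : |ε| ≤ e2 := hp.trans ((min_le_left _ _).trans (min_le_right _ _))
  have hεe3 : |ε| ≤ e3 := hp.trans ((min_le_right _ _).trans ((min_le_left _ _).trans (min_le_left _ _)))
  have hεe4 : |ε| ≤ e4 := hp.trans ((min_le_right _ _).trans ((min_le_left _ _).trans (min_le_right _ _)))
  have hε50 : |ε| ≤ δ' / 50 := hp.trans ((min_le_right _ _).trans (min_le_right _ _))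
  obtain ⟨-, -, -, hk0, hk4, -⟩ := h3 T
  obtain ⟨k, hk⟩ : ∃ k, k = kap T := ⟨_, rfl⟩
  rw [← hk] at hk0 hk4 ⊢
  have hε14 : |ε| ≤ 1 / 4 := hεe1.trans he11
  have hεr := abs_le.mp hε14
  have hp0' : 0 < 2 + ε := by linarith
  obtain ⟨w, hw⟩ : ∃ w : ℂ[X], w = P - 1 := ⟨_, rfl⟩
  have hwe : ∀ z, w.eval z = P.eval z - 1 := by
    intro z
    rw [hw, eval_sub, eval_one]
  have hPw : ∀ z, P.eval z = 1 + w.eval z := by
    intro z
    rw [hwe]; ring
  have hw0 : w.eval 0 = 0 := by rw [hwe, hP, sub_self]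
  -- pointwise
  have hpt : ∀ z, 1 - d + ((2 + ε) * (w.eval z).re + (2 * ε * ((w.eval z).re * Real.log ‖w.eval z‖) +
      (1 - d * ε ^ 2) * ‖w.eval z‖ ^ (2 + ε))) ≤ ‖P.eval z‖ ^ (2 + ε) := by
    intro z
    rw [hPw z]
    have hn : 0 ≤ ‖w.eval z‖ ^ (2 + ε) := Real.rpow_nonneg (norm_nonneg _) _
    have hn' : 0 ≤ d * ε ^ 2 * ‖w.eval z‖ ^ (2 + ε) := by positivity
    rcases le_total ‖w.eval z‖ (M / |ε|) with h | h
    · have h5 := abs_le.mp (hN ε hp0 hεe2 (w.eval z) h)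
      linarith [h5.1]
    · have h5 := hF ε hp0 hεe1 (w.eval z) h
      linarith
  have hwc : Continuous fun z : ℂ => w.eval z := w.continuous
  have c1 : Continuous fun z : ℂ => (w.eval z).re := Complex.continuous_re.comp hwc
  have c2 : Continuous fun z : ℂ => (w.eval z).re * Real.log ‖w.eval z‖ := XKU_cont.comp hwc
  have c3 : Continuous fun z : ℂ => ‖w.eval z‖ ^ (2 + ε) :=
    hwc.norm.rpow_const fun _ => Or.inr hp0'.le
  have c4 : Continuous fun z : ℂ => ‖P.eval z‖ ^ (2 + ε) :=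
    P.continuous.norm.rpow_const fun _ => Or.inr hp0'.le
  have hI := XKU_lin T c1 c2 c3 c4 _ _ _ _ hpt
  rw [XKU_re, hw0, Complex.zero_re, mul_zero, zero_add] at hI
  obtain ⟨F, hFd⟩ : ∃ F, F = cI T (fun z => ‖P.eval z‖ ^ (2 + ε)) := ⟨_, rfl⟩
  obtain ⟨E, hEd⟩ : ∃ E, E = cI T (fun z => ‖w.eval z‖ ^ (2 + ε)) := ⟨_, rfl⟩
  obtain ⟨J, hJd⟩ : ∃ J, J = JJ T w := ⟨_, rfl⟩
  have hJd' : cI T (fun z => (w.eval z).re * Real.log ‖w.eval z‖) = J := by rw [hJd]; rfl
  rw [← hFd, ← hEd, hJd'] at hI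
  have hE0 : 0 ≤ E := by
    rw [hEd]
    exact XKU_nonneg T fun z => Real.rpow_nonneg (norm_nonneg _) _
  have hF0 : 0 ≤ F := by
    rw [hFd]
    exact XKU_nonneg T fun z => Real.rpow_nonneg (norm_nonneg _) _
  have hEg : cI T (fun z => ‖P.eval z - 1‖ ^ (2 + ε)) = E := by
    rw [hEd]
    simp only [hwe]
  rw [hEg, ← hFd]
  have hJ : |J| ≤ (√k + d) * E ^ (1 / (2 + ε)) := by
    have h5 := hLM T (2 + ε) (by rw [← hε]; exact hεe3) w hw0
    rw [← hJd, ← hk, ← hEd] at h5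
    exact h5
  obtain ⟨K, hK⟩ : ∃ K, K = √k + d := ⟨_, rfl⟩
  have hsk : 0 ≤ √k := Real.sqrt_nonneg k
  have hK0 : 0 ≤ K := by rw [hK]; positivity
  have hKsq : K ^ 2 ≤ k + 5 * (c / 64) := by
    have h5 : √k * √k = k := Real.mul_self_sqrt hk0
    have h6 : √k ≤ 2 := by
      rw [show (2 : ℝ) = √4 by rw [show (4 : ℝ) = 2 ^ 2 by norm_num, Real.sqrt_sq (by norm_num)]]
      exact Real.sqrt_le_sqrt hk4
    rw [hK, ← hd]
    nlinarith
  rw [← hK] at hJ
  obtain ⟨r, hr⟩ : ∃ r, r = E ^ (1 / (2 + ε)) := ⟨_, rfl⟩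
  have hr0 : 0 ≤ r := by rw [hr]; exact Real.rpow_nonneg hE0 _
  have hrE : r ^ (2 + ε) = E := by
    rw [hr, one_div]
    exact Real.rpow_inv_rpow hE0 hp0'.ne'
  rw [← hr] at hJ
  have h5 := hcl ε hp0 hεe4 k K (|ε| * r) hk0 hk4 hK0 hKsq (by positivity)
  have h6 : (|ε| * r) ^ (2 + ε) * |ε| ^ (-ε) = ε ^ 2 * E := by
    rw [Real.mul_rpow hp0.le hr0, hrE, mul_right_comm, ← Real.rpow_add hp0,
      show 2 + ε + -ε = 2 by ring, Real.rpow_two, sq_abs]
  rw [h6, ← hd] at h5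
  have h7 : -(2 * K * (|ε| * r)) ≤ 2 * ε * J := by
    have h8 := neg_abs_le (ε * J)
    rw [abs_mul] at h8
    have h9 : |ε| * |J| ≤ |ε| * (K * r) := mul_le_mul_of_nonneg_left hJ hp0.le
    linarith
  have h8 : (1 - (k + c) * ε ^ 2) * E ≤ F := by linarith
  have h9 : (k + δ') * (k + c) * ε ^ 2 ≤ δ' / 2 := by
    have h10 : ε ^ 2 ≤ δ' / 50 := by
      rw [← sq_abs]
      nlinarith
    have h11 : (k + δ') * (k + c) ≤ 5 * 5 :=
      mul_le_mul (by linarith) (by linarith) (by linarith) (by norm_num)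
    have h12 : (k + δ') * (k + c) * ε ^ 2 ≤ (5 * 5) * (δ' / 50) :=
      mul_le_mul h11 h10 (sq_nonneg ε) (by norm_num)
    linarith
  have h10 : 1 ≤ (1 + (k + δ') * ε ^ 2) * (1 - (k + c) * ε ^ 2) := by
    have h11 : 0 ≤ ε ^ 2 * (δ' / 2 - (k + δ') * (k + c) * ε ^ 2) :=
      mul_nonneg (sq_nonneg ε) (by linarith)
    rw [hc] at h11 ⊢
    nlinarith
  have h11 : 0 ≤ 1 + (k + δ') * ε ^ 2 := by
    have : 0 ≤ (k + δ') * ε ^ 2 := mul_nonneg (by linarith) (sq_nonneg ε)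
    linarith
  calc E = 1 * E := (one_mul E).symm
    _ ≤ ((1 + (k + δ') * ε ^ 2) * (1 - (k + c) * ε ^ 2)) * E := mul_le_mul_of_nonneg_right h10 hE0
    _ = (1 + (k + δ') * ε ^ 2) * ((1 - (k + c) * ε ^ 2) * E) := by ring
    _ ≤ (1 + (k + δ') * ε ^ 2) * F := mul_le_mul_of_nonneg_left h8 h11
    _ ≤ (1 + (k + δ) * ε ^ 2) * F := by
      refine mul_le_mul_of_nonneg_right ?_ hF0
      have : (k + δ') * ε ^ 2 ≤ (k + δ) * ε ^ 2 :=
        mul_le_mul_of_nonneg_right (by linarith) (sq_nonneg ε)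
      linarith

end Pool.Agent.Work.MP_d7cff0_an.AS
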