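import Pool.Agent.Work.MP_d7cff0_as.Interface2

set_option autoImplicit false

noncomputable section

namespace Pool.Agent.Work.MP_d7cff0_an.AS

open MeasureTheory AddCircle Filter Topology Finset Polynomial
open scoped ENNReal

theorem XLM_int (T : ℝ) [Fact (0 < T)] (F : ℂ → ℝ) (hF : Continuous F) :
    Integrable (fun t : AddCircle T => F (fourier (T := T) 1 t)) haarAddCircle := by
  have hc : Continuous (fun t : AddCircle T => F (fourier (T := T) 1 t)) :=
    hF.comp (fourier (T := T) 1).continuous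
  exact hc.integrable_of_hasCompactSupport (HasCompactSupport.of_compactSpace _)

theorem XLM_cont (g : ℂ[X]) (p : ℝ) (hp : 0 ≤ p) : Continuous (fun z : ℂ => ‖g.eval z‖ ^ p) :=
  (g.continuous.norm).rpow_const (fun _ => Or.inr hp)

theorem XLM_nonneg (T : ℝ) [Fact (0 < T)] (g : ℂ[X]) (p : ℝ) :
    0 ≤ cI T (fun z => ‖g.eval z‖ ^ p) :=
  integral_nonneg (fun _ => Real.rpow_nonneg (norm_nonneg _) _)

theorem XLM_pt (N p x : ℝ) (hN : 0 < N) (hp : 2 ≤ p) (hx : 0 ≤ x) :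
    p / (2 * N) * x ^ 2 + (1 - p / 2) ≤ (N ^ (p / 2))⁻¹ * x ^ p := by
  have h2 := one_add_mul_self_le_rpow_one_add (s := x ^ 2 / N - 1) (p := p / 2)
    (by have : 0 ≤ x ^ 2 / N := by positivity
        linarith) (by linarith)
  have h3 : (1 + (x ^ 2 / N - 1)) ^ (p / 2) = (N ^ (p / 2))⁻¹ * x ^ p := by
    rw [show 1 + (x ^ 2 / N - 1) = x ^ 2 / N by ring,
      Real.div_rpow (by positivity) hN.le, ← Real.rpow_natCast, ← Real.rpow_mul hx,
      show ((2 : ℕ) : ℝ) * (p / 2) = p by push_cast; ring]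
    field_simp
  rw [h3] at h2
  refine le_trans (le_of_eq ?_) h2
  field_simp
  ring

/-- Jensen -/
theorem XLM_jensen (T : ℝ) [Fact (0 < T)] (g : ℂ[X]) (p : ℝ) (hp : 2 ≤ p) (hN : 0 < NN T g) :
    √(NN T g) ≤ (cI T (fun z => ‖g.eval z‖ ^ p)) ^ (1 / p) := by
  have hp0 : 0 < p := by linarith
  obtain ⟨N, hNdef⟩ : ∃ N, N = NN T g := ⟨_, rfl⟩
  rw [← hNdef] at hN ⊢
  have hi2 := XLM_int T (fun z => ‖g.eval z‖ ^ 2) (g.continuous.norm.pow 2)
  have hip := XLM_int T (fun z => ‖g.eval z‖ ^ p) (XLM_cont g p hp0.le)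
  have h4 : (1 : ℝ) ≤ (N ^ (p / 2))⁻¹ * cI T (fun z => ‖g.eval z‖ ^ p) := by
    have h6 : (∫ t : AddCircle T, (p / (2 * N) * ‖g.eval (fourier (T := T) 1 t)‖ ^ 2 + (1 - p / 2)) ∂haarAddCircle) ≤
        ∫ t : AddCircle T, ((N ^ (p / 2))⁻¹ * ‖g.eval (fourier (T := T) 1 t)‖ ^ p) ∂haarAddCircle :=
      integral_mono ((hi2.const_mul _).add (integrable_const _)) (hip.const_mul _)
        (fun t => XLM_pt N p _ hN hp (norm_nonneg _))
    rw [integral_add (hi2.const_mul _) (integrable_const _), integral_const_mul, integral_const_mul,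
      integral_const, measureReal_def, measure_univ] at h6
    have h7 : (∫ t : AddCircle T, ‖g.eval (fourier (T := T) 1 t)‖ ^ 2 ∂haarAddCircle) = N := hNdef.symm
    rw [h7] at h6
    have h8 : p / (2 * N) * N = p / 2 := by field_simp
    rw [h8] at h6
    simp only [ENNReal.toReal_one, smul_eq_mul, one_mul] at h6
    calc (1 : ℝ) = p / 2 + (1 - p / 2) := by ring
      _ ≤ _ := h6
  have hNp : 0 < N ^ (p / 2) := Real.rpow_pos_of_pos hN _
  have h9 : N ^ (p / 2) ≤ cI T (fun z => ‖g.eval z‖ ^ p) := by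
    have := mul_le_mul_of_nonneg_left h4 hNp.le
    rw [mul_one, ← mul_assoc, mul_inv_cancel₀ hNp.ne', one_mul] at this
    exact this
  calc √N = (N ^ (p / 2)) ^ (1 / p) := by
        rw [← Real.rpow_mul hN.le, Real.sqrt_eq_rpow]
        congr 1
        field_simp
    _ ≤ _ := Real.rpow_le_rpow hNp.le h9 (by positivity)

/-- homogeneity -/
theorem XLM_hom (T : ℝ) [Fact (0 < T)] (h1 : Stmt_XKB) (p B : ℝ) (hp : 0 < p) (hB : 0 ≤ B)
    (H : ∀ g : ℂ[X], g.eval 0 = 0 → cI T (fun z => ‖g.eval z‖ ^ p) ≤ 1 → |JJ T g| ≤ B) (g : ℂ[X])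
    (hg : g.eval 0 = 0) : |JJ T g| ≤ B * (cI T (fun z => ‖g.eval z‖ ^ p)) ^ (1 / p) := by
  obtain ⟨I, hI⟩ : ∃ I, I = cI T (fun z => ‖g.eval z‖ ^ p) := ⟨_, rfl⟩
  have hI0 : 0 ≤ I := hI ▸ XLM_nonneg T g p
  rw [← hI]
  have key : ∀ c : ℝ, 0 < c → c ^ p * I ≤ 1 → c * |JJ T g| ≤ B := by
    intro c hc hcI
    have h2 := (h1 T).1 g c hg
    have h3 := H (C (c : ℂ) * g) (by rw [eval_mul, hg, mul_zero]) (by
      refine le_trans (le_of_eq ?_) hcI
      rw [hI]
      unfold cI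
      rw [← integral_const_mul]
      congr 1
      ext t
      show ‖(C (c : ℂ) * g).eval (fourier (T := T) 1 t)‖ ^ p = c ^ p * ‖g.eval (fourier (T := T) 1 t)‖ ^ p
      rw [eval_mul, eval_C, norm_mul, Real.mul_rpow (norm_nonneg _) (norm_nonneg _), Complex.norm_real,
        Real.norm_of_nonneg hc.le])
    rw [h2, abs_mul, abs_of_pos hc] at h3
    exact h3
  rcases hI0.eq_or_lt with h0 | h0
  · rw [← h0, Real.zero_rpow (by positivity), mul_zero]
    by_contra hcon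
    push Not at hcon
    have h3 := key ((B + 1) / |JJ T g|) (by positivity) (by rw [← h0, mul_zero]; norm_num)
    rw [div_mul_cancel₀ _ hcon.ne'] at h3
    linarith
  · have hc : 0 < I ^ (1 / p) := Real.rpow_pos_of_pos h0 _
    have h3 := key (I ^ (1 / p))⁻¹ (by positivity) (by
      rw [Real.inv_rpow hc.le, ← Real.rpow_mul h0.le, one_div_mul_cancel hp.ne', Real.rpow_one,
        inv_mul_cancel₀ h0.ne'])
    rw [inv_mul_le_iff₀ hc] at h3
    rw [mul_comm]
    exact h3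

theorem p_XLM (h1 : Stmt_XKB) (h2 : Stmt_XTR) : Stmt_XLM := by
  intro δ hδ
  -- the small parameter
  obtain ⟨d, hd0, hd1, hdδ⟩ : ∃ d : ℝ, 0 < d ∧ d ≤ 1 ∧ 4 * d ≤ δ :=
    ⟨min 1 (δ / 4), by positivity, min_le_left _ _, by
      have := min_le_right (1 : ℝ) (δ / 4)
      linarith⟩
  -- the truncation level
  obtain ⟨M, hM1, hM⟩ : ∃ M : ℝ, 1 ≤ M ∧ 10000 * M ^ (-(1 / 8) : ℝ) ≤ d := by
    have ht : Tendsto (fun M : ℝ => 10000 * M ^ (-(1 / 8) : ℝ)) atTop (𝓝 (10000 * 0)) :=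
      (tendsto_rpow_neg_atTop (by norm_num)).const_mul _
    rw [mul_zero] at ht
    have h3 := (ht.eventually (gt_mem_nhds hd0)).and (eventually_ge_atTop 1)
    obtain ⟨M, hM, hM1⟩ := h3.exists
    exact ⟨M, hM1, hM.le⟩
  -- the range of `p`
  obtain ⟨η, hη0, hη4, hη⟩ : ∃ η : ℝ, 0 < η ∧ η ≤ 1 / 4 ∧ M ^ η ≤ 1 + d := by
    have hlog : 0 ≤ Real.log M := Real.log_nonneg hM1
    refine ⟨min (1 / 4) (Real.log (1 + d) / (Real.log M + 1)), ?_, min_le_left _ _, ?_⟩
    · have : 0 < Real.log (1 + d) := Real.log_pos (by linarith)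
      positivity
    · have hM0 : 0 < M := by linarith
      rw [Real.rpow_def_of_pos hM0]
      refine le_trans (Real.exp_le_exp.2 ?_) (Real.exp_log (show 0 < 1 + d by linarith)).le
      have h4 : 0 < Real.log (1 + d) := Real.log_pos (by linarith)
      calc Real.log M * min (1 / 4) (Real.log (1 + d) / (Real.log M + 1))
          ≤ Real.log M * (Real.log (1 + d) / (Real.log M + 1)) :=
            mul_le_mul_of_nonneg_left (min_le_right _ _) hlog
        _ ≤ (Real.log M + 1) * (Real.log (1 + d) / (Real.log M + 1)) :=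
            mul_le_mul_of_nonneg_right (by linarith) (by positivity)
        _ = Real.log (1 + d) := by field_simp
  refine ⟨η, hη0, hη4, ?_⟩
  intro T _ p hp g hg
  obtain ⟨hB1, hB2, hB3, hk0, hk4, hB4⟩ := h1 T
  have hsk : √(kap T) ≤ 2 := by
    rw [show (2 : ℝ) = √4 by rw [show (4 : ℝ) = 2 ^ 2 by norm_num, Real.sqrt_sq (by norm_num)]]
    exact Real.sqrt_le_sqrt hk4
  have hsk0 := Real.sqrt_nonneg (kap T)
  have hJN : ∀ G : ℂ[X], G.eval 0 = 0 → |JJ T G| ≤ √(kap T) * √(NN T G) := by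
    intro G hG
    rw [← Real.sqrt_mul hk0]
    exact Real.abs_le_sqrt (hB3 G hG)
  obtain ⟨hpl, hpu⟩ := abs_le.1 hp
  rcases le_total 2 p with h2p | h2p
  · -- `p ≥ 2`
    by_cases hg0 : g = 0
    · have hJ : JJ T g = 0 := by
        rw [hg0]
        unfold JJ cI
        simp
      rw [hJ, abs_zero]
      have := Real.rpow_nonneg (XLM_nonneg T g p) (1 / p)
      positivity
    · have h3 := XLM_jensen T g p h2p (hB2 g hg0)
      calc |JJ T g| ≤ √(kap T) * √(NN T g) := hJN g hg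
        _ ≤ √(kap T) * (cI T (fun z => ‖g.eval z‖ ^ p)) ^ (1 / p) := mul_le_mul_of_nonneg_left h3 hsk0
        _ ≤ _ := mul_le_mul_of_nonneg_right (by linarith) (Real.rpow_nonneg (XLM_nonneg T g p) _)
  · -- `p ≤ 2`
    refine XLM_hom T h1 p _ (by linarith) (by linarith) ?_ g hg
    intro g hg hI
    obtain ⟨G, hG, hN, hJ⟩ := h2 T p M d g (by linarith) h2p hM1 hd0 hg hI
    have hMp : M ^ (2 - p) ≤ 1 + d :=
      (Real.rpow_le_rpow_of_exponent_le hM1 (by linarith)).trans hη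
    have hsN : √(NN T G) ≤ 1 + d := by
      rw [Real.sqrt_le_left (by linarith)]
      nlinarith
    have h3 := hJN G hG
    have h4 : √(kap T) * √(NN T G) ≤ √(kap T) + 2 * d := by
      calc √(kap T) * √(NN T G) ≤ √(kap T) * (1 + d) := mul_le_mul_of_nonneg_left hsN hsk0
        _ ≤ _ := by nlinarith
    have h5 : |JJ T g| ≤ |JJ T G| + |JJ T G - JJ T g| := by
      have := abs_sub_abs_le_abs_sub (JJ T g) (JJ T G)
      rw [abs_sub_comm] at this
      linarith
    linarith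

end Pool.Agent.Work.MP_d7cff0_an.AS
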