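import Pool.Agent.Work.MP_d7cff0_as.Interface2

set_option autoImplicit false

noncomputable section

namespace Pool.Agent.Work.MP_d7cff0_an.AS

open MeasureTheory AddCircle Filter Topology Finset Polynomial
open scoped ENNReal

theorem XPF_exp (y : ℝ) : Real.exp y - 1 ≤ y * Real.exp y := by
  have h := Real.add_one_le_exp (-y)
  have h1 : Real.exp (-y) * Real.exp y = 1 := by
    rw [← Real.exp_add]
    simp
  have h2 : (-y + 1) * Real.exp y ≤ Real.exp (-y) * Real.exp y :=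
    mul_le_mul_of_nonneg_right h (Real.exp_pos y).le
  rw [h1] at h2
  linarith

theorem XPF_exp1 (y : ℝ) : |Real.exp y - 1 - y| ≤ y ^ 2 * max 1 (Real.exp y) := by
  have h0 := Real.add_one_le_exp y
  have h1 := XPF_exp y
  have h2 : Real.exp y ≤ max 1 (Real.exp y) := le_max_right _ _
  have h3 : (1 : ℝ) ≤ max 1 (Real.exp y) := le_max_left _ _
  rw [abs_of_nonneg (by linarith)]
  rcases le_total 0 y with hy | hy
  · have h4 : y * (Real.exp y - 1) ≤ y * (y * Real.exp y) := mul_le_mul_of_nonneg_left h1 hy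
    have h5 : y ^ 2 * Real.exp y ≤ y ^ 2 * max 1 (Real.exp y) :=
      mul_le_mul_of_nonneg_left h2 (sq_nonneg y)
    linarith
  · have h4 : (-y) * (1 - Real.exp y) ≤ (-y) * (-y) :=
      mul_le_mul_of_nonneg_left (by linarith) (by linarith)
    have h5 : y ^ 2 * 1 ≤ y ^ 2 * max 1 (Real.exp y) :=
      mul_le_mul_of_nonneg_left h3 (sq_nonneg y)
    linarith

theorem XPF_exp2 (y : ℝ) : |Real.exp y - 1| ≤ |y| * max 1 (Real.exp y) := by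
  have h0 := Real.add_one_le_exp y
  have h1 := XPF_exp y
  have h2 : Real.exp y ≤ max 1 (Real.exp y) := le_max_right _ _
  have h3 : (1 : ℝ) ≤ max 1 (Real.exp y) := le_max_left _ _
  rcases le_total 0 y with hy | hy
  · rw [abs_of_nonneg (by linarith), abs_of_nonneg hy]
    have h5 : y * Real.exp y ≤ y * max 1 (Real.exp y) := mul_le_mul_of_nonneg_left h2 hy
    linarith
  · have h6 : Real.exp y ≤ 1 := by
      rw [Real.exp_le_one_iff]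
      exact hy
    rw [abs_of_nonpos (by linarith), abs_of_nonpos hy]
    have h5 : -y * 1 ≤ -y * max 1 (Real.exp y) := mul_le_mul_of_nonneg_left h3 (by linarith)
    linarith

theorem XPF_norm {w : ℂ} (hw : 1 ≤ ‖w‖) : ‖w‖ + w.re / ‖w‖ ≤ ‖1 + w‖ := by
  have hb : 0 < ‖w‖ := by linarith
  have hx : |w.re| ≤ ‖w‖ := Complex.abs_re_le_norm w
  have hsq : ‖1 + w‖ ^ 2 = 1 + 2 * w.re + ‖w‖ ^ 2 := by
    rw [← Complex.normSq_eq_norm_sq, ← Complex.normSq_eq_norm_sq, Complex.normSq_apply,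
      Complex.normSq_apply]
    simp only [Complex.add_re, Complex.add_im, Complex.one_re, Complex.one_im]
    ring
  refine le_of_abs_le (abs_le_of_sq_le_sq ?_ (norm_nonneg _))
  rw [hsq]
  have h1 : (‖w‖ + w.re / ‖w‖) ^ 2 = ‖w‖ ^ 2 + 2 * w.re + (w.re / ‖w‖) ^ 2 := by
    field_simp
    ring
  have h2 : |w.re / ‖w‖| ≤ 1 := by
    rw [abs_div, abs_of_pos hb, div_le_one hb]
    exact hx
  have h3 : (w.re / ‖w‖) ^ 2 ≤ 1 := by
    rw [← sq_abs]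
    nlinarith [abs_nonneg (w.re / ‖w‖)]
  rw [h1]
  linarith

theorem XPF_bern {w : ℂ} {ε : ℝ} (hw : 1 ≤ ‖w‖) (hε : -1 ≤ ε) :
    ‖w‖ ^ (2 + ε) + (2 + ε) * ‖w‖ ^ ε * w.re ≤ ‖1 + w‖ ^ (2 + ε) := by
  have hb : 0 < ‖w‖ := by linarith
  have hx := Complex.abs_re_le_norm w
  have h1 := XPF_norm hw
  have hs : -1 ≤ w.re / ‖w‖ ^ 2 := by
    rw [le_div_iff₀ (by positivity)]
    nlinarith [neg_abs_le w.re]
  have h2 := one_add_mul_self_le_rpow_one_add hs (show 1 ≤ 2 + ε by linarith)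
  have h3 : ‖w‖ + w.re / ‖w‖ = ‖w‖ * (1 + w.re / ‖w‖ ^ 2) := by
    field_simp
  have h4 : 0 ≤ 1 + w.re / ‖w‖ ^ 2 := by linarith
  have h5 : (‖w‖ * (1 + w.re / ‖w‖ ^ 2)) ^ (2 + ε) ≤ ‖1 + w‖ ^ (2 + ε) := by
    rw [h3] at h1
    exact Real.rpow_le_rpow (mul_nonneg hb.le h4) h1 (by linarith)
  rw [Real.mul_rpow hb.le h4] at h5
  have h6 : ‖w‖ ^ (2 + ε) = ‖w‖ ^ 2 * ‖w‖ ^ ε := by
    rw [Real.rpow_add hb, Real.rpow_two]
  have h7 : ‖w‖ ^ (2 + ε) * (1 + (2 + ε) * (w.re / ‖w‖ ^ 2)) ≤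
      ‖w‖ ^ (2 + ε) * (1 + w.re / ‖w‖ ^ 2) ^ (2 + ε) :=
    mul_le_mul_of_nonneg_left h2 (Real.rpow_nonneg hb.le _)
  have h8 : ‖w‖ ^ (2 + ε) * (1 + (2 + ε) * (w.re / ‖w‖ ^ 2)) =
      ‖w‖ ^ (2 + ε) + (2 + ε) * ‖w‖ ^ ε * w.re := by
    rw [h6]
    field_simp
  linarith

theorem XPF_self {t : ℝ} (ht : 0 < t) (ht1 : t ≤ 1) : t ^ (-t) ≤ 2 := by
  rw [Real.rpow_neg ht.le, ← Real.inv_rpow ht.le]
  have h1 : -1 ≤ t⁻¹ - 1 := by
    have : 0 < t⁻¹ := inv_pos.2 ht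
    linarith
  have h2 := rpow_one_add_le_one_add_mul_self h1 ht.le ht1
  rw [show 1 + (t⁻¹ - 1) = t⁻¹ by ring] at h2
  have h3 : t * (t⁻¹ - 1) = 1 - t := by
    rw [mul_sub, mul_inv_cancel₀ ht.ne', mul_one]
  rw [h3] at h2
  linarith

theorem XPF_pow {M ε b : ℝ} (hM : 1 ≤ M) (h0 : 0 < |ε|) (h1 : |ε| ≤ 1 / 4) (hb : M / |ε| ≤ b) :
    M / 2 ≤ ε ^ 2 * b ^ (2 + ε) := by
  have hε := abs_le.1 h1
  have hM0 : 0 < M := by linarith
  have hMb : 0 ≤ M / |ε| := by positivity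
  have h2 : (M / |ε|) ^ (2 + ε) ≤ b ^ (2 + ε) := Real.rpow_le_rpow hMb hb (by linarith)
  have h3 : |ε| ^ ε ≤ 2 := by
    rcases abs_cases ε with ⟨h, h'⟩ | ⟨h, h'⟩
    · have : |ε| ^ ε ≤ 1 := Real.rpow_le_one h0.le (by linarith) h'
      linarith
    · have h5 := XPF_self h0 (by linarith)
      have h6 : -|ε| = ε := by linarith
      rwa [h6] at h5
  have h4 : 0 < |ε| ^ ε := Real.rpow_pos_of_pos h0 _
  have h5 : M ≤ M ^ (2 + ε) := by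
    have := Real.rpow_le_rpow_of_exponent_le hM (show 1 ≤ 2 + ε by linarith)
    rwa [Real.rpow_one] at this
  have h6 : ε ^ 2 * (M / |ε|) ^ (2 + ε) = M ^ (2 + ε) / |ε| ^ ε := by
    rw [Real.div_rpow hM0.le h0.le, Real.rpow_add h0, Real.rpow_two, sq_abs]
    have h7 : ε ≠ 0 := abs_pos.1 h0
    field_simp
  have h7 : M / 2 ≤ M ^ (2 + ε) / |ε| ^ ε := by
    rw [div_le_div_iff₀ (by norm_num) h4]
    have h8 : M * |ε| ^ ε ≤ M * 2 := mul_le_mul_of_nonneg_left h3 hM0.le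
    linarith
  have h8 : ε ^ 2 * (M / |ε|) ^ (2 + ε) ≤ ε ^ 2 * b ^ (2 + ε) :=
    mul_le_mul_of_nonneg_left h2 (sq_nonneg _)
  linarith

theorem XPF_log {δ b : ℝ} (hδ : 0 < δ) (hb1 : 1 ≤ b) (hb : (272 / δ) ^ 2 ≤ b) :
    2 * Real.log b ^ 2 + Real.log b ≤ δ / 2 * b ^ (3 / 4 : ℝ) := by
  have hb0 : 0 < b := by linarith
  have hL0 : 0 ≤ Real.log b := Real.log_nonneg hb1
  obtain ⟨c, hc⟩ : ∃ c : ℝ, c = b ^ (1 / 8 : ℝ) := ⟨_, rfl⟩
  have hc1 : 1 ≤ c := by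
    rw [hc]
    exact Real.one_le_rpow hb1 (by norm_num)
  have hL : Real.log b ≤ 8 * c := by
    have h := Real.log_le_rpow_div hb0.le (show (0 : ℝ) < 1 / 8 by norm_num)
    rw [hc]
    linarith
  have h6 : b ^ (3 / 4 : ℝ) = c ^ 6 := by
    rw [hc, ← Real.rpow_mul_natCast hb0.le]
    norm_num
  have h8 : b = c ^ 8 := by
    rw [hc, ← Real.rpow_mul_natCast hb0.le]
    norm_num
  have h4 : 272 / δ ≤ c ^ 4 := by
    refine le_of_abs_le (abs_le_of_sq_le_sq ?_ (by positivity))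
    rw [← pow_mul]
    rw [h8] at hb
    exact hb
  have h5 : 272 ≤ δ * c ^ 4 := by
    rw [div_le_iff₀ hδ] at h4
    linarith
  rw [h6]
  have hc2 : c ≤ c ^ 2 := by nlinarith
  have hLL : Real.log b ^ 2 ≤ 64 * c ^ 2 := by nlinarith
  have h7 : 272 * c ^ 2 ≤ δ * c ^ 4 * c ^ 2 := mul_le_mul_of_nonneg_right h5 (by positivity)
  have h9 : δ * c ^ 4 * c ^ 2 = δ * c ^ 6 := by ring
  linarith

theorem XPF_max {b ε : ℝ} (hb1 : 1 ≤ b) (hε : -(1 / 4) ≤ ε) :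
    b * b ^ (3 / 4 : ℝ) * max 1 (b ^ ε) ≤ b ^ (2 + ε) := by
  have hb0 : 0 < b := by linarith
  have h1 : b * b ^ (3 / 4 : ℝ) = b ^ (7 / 4 : ℝ) := by
    nth_rewrite 1 [← Real.rpow_one b]
    rw [← Real.rpow_add hb0]
    norm_num
  rw [h1]
  rcases le_total 1 (b ^ ε) with h | h
  · rw [max_eq_right h, ← Real.rpow_add hb0]
    exact Real.rpow_le_rpow_of_exponent_le hb1 (by linarith)
  · rw [max_eq_left h, mul_one]
    exact Real.rpow_le_rpow_of_exponent_le hb1 (by linarith)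

theorem p_XPF : Stmt_XPF := by
  intro δ hδ
  refine ⟨1 + 4 / δ + (272 / δ) ^ 2, 1 / 4, by positivity, by norm_num, le_refl _, ?_⟩
  intro ε h0 h1 w hw
  obtain ⟨M, hM⟩ : ∃ M : ℝ, M = 1 + 4 / δ + (272 / δ) ^ 2 := ⟨_, rfl⟩
  rw [← hM] at hw
  have hd4 : 0 < 4 / δ := by positivity
  have hd2 : 0 ≤ (272 / δ) ^ 2 := by positivity
  have hM1 : 1 ≤ M := by rw [hM]; linarith
  have hM4 : 4 / δ ≤ M := by rw [hM]; linarith
  have hM2 : (272 / δ) ^ 2 ≤ M := by rw [hM]; linarith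
  have hMw : M ≤ ‖w‖ := by
    refine le_trans ?_ hw
    rw [le_div_iff₀ h0]
    nlinarith
  have hb1 : 1 ≤ ‖w‖ := hM1.trans hMw
  have hb0 : 0 < ‖w‖ := by linarith
  have hε := abs_le.1 h1
  have hx := Complex.abs_re_le_norm w
  have e1 := XPF_bern hb1 (show -1 ≤ ε by linarith)
  have e2 := XPF_pow hM1 h0 h1 hw
  have e3 := XPF_log hδ hb1 (hM2.trans hMw)
  have e4 := XPF_max hb1 (show -(1 / 4) ≤ ε by linarith)
  obtain ⟨b, hbb⟩ : ∃ b : ℝ, b = ‖w‖ := ⟨_, rfl⟩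
  obtain ⟨x, hxx⟩ : ∃ x : ℝ, x = w.re := ⟨_, rfl⟩
  obtain ⟨L, hL⟩ : ∃ L : ℝ, L = Real.log b := ⟨_, rfl⟩
  rw [← hbb] at e1 e2 e3 e4 hx hb1 hb0 ⊢
  rw [← hxx] at e1 hx ⊢
  rw [← hL] at e3 ⊢
  have hbe : b ^ ε = Real.exp (ε * L) := by
    rw [Real.rpow_def_of_pos hb0, ← hL, mul_comm]
  have hL0 : 0 ≤ L := by
    rw [hL]
    exact Real.log_nonneg hb1
  obtain ⟨E, hE⟩ : ∃ E : ℝ, E = max 1 (b ^ ε) := ⟨_, rfl⟩
  have hE0 : 0 ≤ E := by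
    rw [hE]
    exact le_trans zero_le_one (le_max_left _ _)
  have f1 := XPF_exp1 (ε * L)
  have f2 := XPF_exp2 (ε * L)
  rw [← hbe, ← hE] at f1 f2
  rw [← hE] at e4
  have f3 : |(2 + ε) * (b ^ ε - 1) - 2 * ε * L| ≤ ε ^ 2 * (2 * L ^ 2 + L) * E := by
    have g1 : (2 + ε) * (b ^ ε - 1) - 2 * ε * L = 2 * (b ^ ε - 1 - ε * L) + ε * (b ^ ε - 1) := by
      ring
    rw [g1]
    refine (abs_add_le _ _).trans ?_
    rw [abs_mul, abs_mul, abs_two]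
    have g2 : |ε| * |b ^ ε - 1| ≤ |ε| * (|ε * L| * E) := mul_le_mul_of_nonneg_left f2 (abs_nonneg _)
    have g3 : |ε| * (|ε * L| * E) = ε ^ 2 * L * E := by
      rw [abs_mul, abs_of_nonneg hL0, ← sq_abs ε]
      ring
    have g4 : 2 * |b ^ ε - 1 - ε * L| ≤ 2 * ((ε * L) ^ 2 * E) :=
      mul_le_mul_of_nonneg_left f1 (by norm_num)
    have g5 : ε ^ 2 * (2 * L ^ 2 + L) * E = 2 * ((ε * L) ^ 2 * E) + ε ^ 2 * L * E := by ring
    rw [g5]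
    linarith
  have f4 : -(b * (ε ^ 2 * (2 * L ^ 2 + L) * E)) ≤ x * ((2 + ε) * (b ^ ε - 1) - 2 * ε * L) := by
    refine neg_le_of_abs_le ?_
    rw [abs_mul]
    exact mul_le_mul hx f3 (abs_nonneg _) hb0.le
  have f5 : b * (ε ^ 2 * (2 * L ^ 2 + L) * E) ≤ δ / 2 * (ε ^ 2 * b ^ (2 + ε)) := by
    have g1 : b * (ε ^ 2 * (2 * L ^ 2 + L) * E) = (ε ^ 2 * b * E) * (2 * L ^ 2 + L) := by ring
    have g2 : (ε ^ 2 * b * E) * (2 * L ^ 2 + L) ≤ (ε ^ 2 * b * E) * (δ / 2 * b ^ (3 / 4 : ℝ)) :=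
      mul_le_mul_of_nonneg_left e3 (by positivity)
    have g3 : (ε ^ 2 * b * E) * (δ / 2 * b ^ (3 / 4 : ℝ)) =
        δ / 2 * ε ^ 2 * (b * b ^ (3 / 4 : ℝ) * E) := by ring
    have g4 : δ / 2 * ε ^ 2 * (b * b ^ (3 / 4 : ℝ) * E) ≤ δ / 2 * ε ^ 2 * b ^ (2 + ε) :=
      mul_le_mul_of_nonneg_left e4 (by positivity)
    rw [g1]
    linarith
  have f6 : 1 ≤ δ / 2 * (ε ^ 2 * b ^ (2 + ε)) := by
    have g1 : δ / 2 * (M / 2) ≤ δ / 2 * (ε ^ 2 * b ^ (2 + ε)) :=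
      mul_le_mul_of_nonneg_left e2 (by positivity)
    have g2 : 4 ≤ M * δ := by
      rwa [div_le_iff₀ hδ] at hM4
    linarith
  have f7 : x * ((2 + ε) * (b ^ ε - 1) - 2 * ε * L) =
      (2 + ε) * b ^ ε * x - (2 + ε) * x - 2 * ε * (x * L) := by ring
  rw [f7] at f4
  have f8 : δ * ε ^ 2 * b ^ (2 + ε) = 2 * (δ / 2 * (ε ^ 2 * b ^ (2 + ε))) := by ring
  rw [f8]
  linarith

end Pool.Agent.Work.MP_d7cff0_an.AS
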