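import Pool.Agent.Work.MP_d7cff0_as.Interface2

set_option autoImplicit false

noncomputable section

namespace Pool.Agent.Work.MP_d7cff0_an.AS

open MeasureTheory AddCircle Filter Topology Finset Polynomial
open scoped ENNReal

theorem XTP_pow {T : ℝ} (k : ℕ) (t : AddCircle T) :
    fourier (T := T) (k : ℤ) t = (fourier (T := T) 1 t) ^ k := by
  have h := congrArg (fun F : C(AddCircle T, ℂ) => F t) (fourier_one_pow (T := T) k)
  exact h.symm

theorem XTP_four {T : ℝ} (n : ℤ) (c : ℂ) : ∃ q : ℂ[X], (q.eval 0).im = 0 ∧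
    ∀ t : AddCircle T, (q.eval (fourier (T := T) 1 t)).re = (c * fourier (T := T) n t).re := by
  rcases lt_trichotomy n 0 with hn | hn | hn
  · obtain ⟨k, hk⟩ : ∃ k : ℕ, n = -((k : ℤ) + 1) := ⟨(-n - 1).toNat, by omega⟩
    refine ⟨C (starRingEnd ℂ c) * X ^ (k + 1), ?_, fun t => ?_⟩
    · rw [eval_mul, eval_pow, eval_X, zero_pow (Nat.succ_ne_zero k), mul_zero, Complex.zero_im]
    · have h1 : (k : ℤ) + 1 = ((k + 1 : ℕ) : ℤ) := by push_cast; rfl
      rw [eval_mul, eval_C, eval_pow, eval_X, hk, fourier_neg, h1, XTP_pow]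
      have h2 : starRingEnd ℂ c * (fourier (T := T) 1 t) ^ (k + 1) =
          starRingEnd ℂ (c * starRingEnd ℂ ((fourier (T := T) 1 t) ^ (k + 1))) := by
        rw [map_mul, Complex.conj_conj]
      rw [h2, Complex.conj_re]
  · refine ⟨C ((c.re : ℝ) : ℂ), ?_, fun t => ?_⟩
    · rw [eval_C, Complex.ofReal_im]
    · rw [hn, fourier_zero, mul_one, eval_C, Complex.ofReal_re]
  · obtain ⟨k, hk⟩ : ∃ k : ℕ, n = (((k + 1 : ℕ)) : ℤ) := ⟨(n - 1).toNat, by omega⟩
    refine ⟨C c * X ^ (k + 1), ?_, fun t => ?_⟩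
    · rw [eval_mul, eval_pow, eval_X, zero_pow (Nat.succ_ne_zero k), mul_zero, Complex.zero_im]
    · rw [eval_mul, eval_C, eval_pow, eval_X, hk, XTP_pow]

theorem XTP_span {T : ℝ} {f : C(AddCircle T, ℂ)}
    (hf : f ∈ Submodule.span ℂ (Set.range (@fourier T))) : ∀ c : ℂ, ∃ q : ℂ[X],
    (q.eval 0).im = 0 ∧ ∀ t : AddCircle T, (q.eval (fourier (T := T) 1 t)).re = (c * f t).re := by
  refine Submodule.span_induction (p := fun f _ => ∀ c : ℂ, ∃ q : ℂ[X],
    (q.eval 0).im = 0 ∧ ∀ t : AddCircle T, (q.eval (fourier (T := T) 1 t)).re = (c * f t).re)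
    ?_ ?_ ?_ ?_ hf
  · rintro _ ⟨n, rfl⟩ c
    exact XTP_four n c
  · intro c
    refine ⟨0, by simp, fun t => by simp⟩
  · intro f g _ _ h1 h2 c
    obtain ⟨q1, hq1, hq1'⟩ := h1 c
    obtain ⟨q2, hq2, hq2'⟩ := h2 c
    refine ⟨q1 + q2, ?_, fun t => ?_⟩
    · rw [eval_add, Complex.add_im, hq1, hq2, add_zero]
    · rw [eval_add, Complex.add_re, hq1', hq2', ContinuousMap.add_apply, mul_add, Complex.add_re]
  · intro a f _ h1 c
    obtain ⟨q, hq, hq'⟩ := h1 (c * a)
    refine ⟨q, hq, fun t => ?_⟩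
    rw [hq', ContinuousMap.smul_apply, smul_eq_mul, mul_assoc]

theorem XTP_cont {T : ℝ} (q : ℂ[X]) : Continuous fun t : AddCircle T =>
    q.eval (fourier (T := T) 1 t) :=
  q.continuous.comp (fourier (T := T) 1).continuous

theorem p_XTP : Stmt_XTP := by
  intro T _
  refine ⟨fun u δ hδ => ?_, fun q hq => ?_⟩
  · obtain ⟨U, hU⟩ : ∃ U : C(AddCircle T, ℂ), ∀ t, U t = ((u t : ℝ) : ℂ) :=
      ⟨⟨fun t => ((u t : ℝ) : ℂ), Complex.continuous_ofReal.comp u.continuous⟩, fun t => rfl⟩
    have h1 : U ∈ (Submodule.span ℂ (Set.range (@fourier T))).topologicalClosure := by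
      rw [span_fourier_closure_eq_top]
      exact Submodule.mem_top
    have h2 : U ∈ closure ((Submodule.span ℂ (Set.range (@fourier T)) : Submodule ℂ _) :
        Set C(AddCircle T, ℂ)) := h1
    obtain ⟨f, hf, hd⟩ := Metric.mem_closure_iff.1 h2 δ hδ
    obtain ⟨q, hq, hq'⟩ := XTP_span hf 1
    refine ⟨q, hq, fun t => ?_⟩
    rw [hq' t, one_mul]
    have h3 : (f t).re - u t = (f t - U t).re := by
      rw [Complex.sub_re, hU t, Complex.ofReal_re]
    rw [h3]
    refine (Complex.abs_re_le_norm _).trans ?_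
    rw [← dist_eq_norm, dist_comm]
    exact (ContinuousMap.dist_apply_le_dist t).trans hd.le
  · have hc := XTP_cont (T := T) q
    have hre : Continuous fun t : AddCircle T => (q.eval (fourier (T := T) 1 t)).re :=
      Complex.continuous_re.comp hc
    have him : Continuous fun t : AddCircle T => (q.eval (fourier (T := T) 1 t)).im :=
      Complex.continuous_im.comp hc
    have hcc : Continuous fun t : AddCircle T =>
        (q.eval (fourier (T := T) 1 t)) * (q.eval (fourier (T := T) 1 t)) := hc.mul hc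
    have hre2 : Continuous fun t : AddCircle T => (q.eval (fourier (T := T) 1 t)).re ^ 2 :=
      hre.pow 2
    have him2 : Continuous fun t : AddCircle T => (q.eval (fourier (T := T) 1 t)).im ^ 2 :=
      him.pow 2
    have h1 : ∫ t : AddCircle T, (q.eval (fourier (T := T) 1 t)) * (q.eval (fourier (T := T) 1 t))
        ∂haarAddCircle = q.eval 0 * q.eval 0 := by
      have h2 := mean_pc (T := T) (q * q)
      unfold mean at h2
      simp only [pc_apply, eval_mul] at h2
      exact h2
    have h2 := Complex.reCLM.integral_comp_comm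
      (integrable_cont (T := T) hcc)
    simp only [Complex.reCLM_apply, h1, Complex.mul_re] at h2
    have h3 : ∫ t : AddCircle T, ((q.eval (fourier (T := T) 1 t)).re ^ 2 -
        (q.eval (fourier (T := T) 1 t)).im ^ 2) ∂haarAddCircle =
        (q.eval 0).re ^ 2 := by
      rw [hq, mul_zero, sub_zero] at h2
      rw [sq ((q.eval 0).re), ← h2]
      refine integral_congr_ae (Eventually.of_forall fun t => ?_)
      simp only [sq]
    rw [integral_sub (integrable_cont hre2) (integrable_cont him2)] at h3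
    unfold cI
    nlinarith [sq_nonneg ((q.eval 0).re)]

end Pool.Agent.Work.MP_d7cff0_an.AS
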