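import Pool.Agent.Work.MP_d7cff0_as.Interface2

set_option autoImplicit false

noncomputable section

namespace Pool.Agent.Work.MP_d7cff0_an.AS

open MeasureTheory AddCircle Filter Topology Finset Polynomial
open scoped ENNReal

/-- `w ↦ Re w * log |w|` is continuous. -/
theorem XTR_cont : Continuous (fun w : ℂ => w.re * Real.log ‖w‖) := by
  rw [continuous_iff_continuousAt]
  intro w
  by_cases hw : w = 0
  · subst hw
    have h1 : Tendsto (fun w : ℂ => ‖w‖ * Real.log ‖w‖) (𝓝 0) (𝓝 0) := by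
      have := (Real.continuous_mul_log.comp continuous_norm).tendsto (0:ℂ)
      simpa [Function.comp_def] using this
    have h2 : Tendsto (fun w : ℂ => w.re * Real.log ‖w‖) (𝓝 0) (𝓝 0) := by
      refine squeeze_zero_norm (fun w => ?_) (tendsto_zero_iff_norm_tendsto_zero.1 h1)
      rw [norm_mul, norm_mul, norm_norm]
      exact mul_le_mul_of_nonneg_right (Complex.abs_re_le_norm w) (norm_nonneg _)
    simpa [ContinuousAt] using h2
  · exact Complex.continuous_re.continuousAt.mul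
      ((Real.continuousAt_log (norm_ne_zero_iff.2 hw)).comp continuous_norm.continuousAt)

/-- The truncation logarithm. -/
theorem XTR_u (x M p : ℝ) (hx : 0 ≤ x) (hM : 1 ≤ M) (hp : 3 / 2 ≤ p) (hp2 : p ≤ 2) :
    0 ≤ Real.log (max 1 (x / M)) ∧ Real.log (max 1 (x / M)) ^ 2 ≤ 4 * (x ^ p / M) ∧
      x * Real.log (max 1 (x / M)) ≤ 4 * M ^ (-(1 / 4) : ℝ) * x ^ (5 / 4 : ℝ) ∧
      (x * Real.exp (-Real.log (max 1 (x / M)))) ^ 2 ≤ M ^ (2 - p) * x ^ p := by
  have hM0 : 0 < M := by linarith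
  have hxp : 0 ≤ x ^ p := Real.rpow_nonneg hx p
  rcases le_or_gt x M with h | h
  · have h1 : max 1 (x / M) = 1 := max_eq_left ((div_le_one hM0).2 h)
    rw [h1, Real.log_one]
    refine ⟨le_rfl, by rw [zero_pow two_ne_zero]; positivity, by rw [mul_zero]; positivity, ?_⟩
    rw [neg_zero, Real.exp_zero, mul_one]
    rcases hx.eq_or_lt with h0 | h0
    · rw [← h0, zero_pow two_ne_zero]; positivity
    · have h2 : x ^ 2 = x ^ (2 - p) * x ^ p := by
        rw [← Real.rpow_add h0, sub_add_cancel]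
        norm_cast
      rw [h2]
      exact mul_le_mul_of_nonneg_right (Real.rpow_le_rpow hx h (by linarith)) hxp
  · have hx0 : 0 < x := by linarith
    set t : ℝ := x / M with ht
    have ht1 : 1 < t := (one_lt_div hM0).2 h
    have ht0 : 0 < t := by linarith
    have h1 : max 1 t = t := max_eq_right ht1.le
    rw [h1]
    have hl0 : 0 ≤ Real.log t := Real.log_nonneg ht1.le
    have hMp : M ≤ M ^ p := by
      calc M = M ^ (1 : ℝ) := (Real.rpow_one M).symm
        _ ≤ M ^ p := Real.rpow_le_rpow_of_exponent_le hM (by linarith)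
    have htp : t ≤ x ^ p / M := by
      calc t = t ^ (1 : ℝ) := (Real.rpow_one t).symm
        _ ≤ t ^ p := Real.rpow_le_rpow_of_exponent_le ht1.le (by linarith)
        _ = x ^ p / M ^ p := Real.div_rpow hx hM0.le p
        _ ≤ x ^ p / M := div_le_div_of_nonneg_left hxp hM0 hMp
    refine ⟨hl0, ?_, ?_, ?_⟩
    · have h2 : Real.log t ≤ t ^ (1 / 2 : ℝ) / (1 / 2) := Real.log_le_rpow_div ht0.le (by norm_num)
      have h3 : (t ^ (1 / 2 : ℝ)) ^ 2 = t := by
        rw [← Real.rpow_natCast, ← Real.rpow_mul ht0.le]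
        norm_num
      have h4 : Real.log t ^ 2 ≤ (t ^ (1 / 2 : ℝ) / (1 / 2)) ^ 2 := pow_le_pow_left₀ hl0 h2 2
      have h5 : (t ^ (1 / 2 : ℝ) / (1 / 2)) ^ 2 = 4 * t := by
        rw [div_pow, h3]; ring
      linarith
    · have h2 : Real.log t ≤ t ^ (1 / 4 : ℝ) / (1 / 4) := Real.log_le_rpow_div ht0.le (by norm_num)
      have h3 : t ^ (1 / 4 : ℝ) = M ^ (-(1 / 4) : ℝ) * x ^ (1 / 4 : ℝ) := by
        rw [ht, Real.div_rpow hx hM0.le, Real.rpow_neg hM0.le]
        field_simp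
      have h4 : x ^ (5 / 4 : ℝ) = x * x ^ (1 / 4 : ℝ) := by
        rw [← Real.rpow_one_add' hx (by norm_num)]
        norm_num
      calc x * Real.log t ≤ x * (t ^ (1 / 4 : ℝ) / (1 / 4)) := mul_le_mul_of_nonneg_left h2 hx
        _ = 4 * M ^ (-(1 / 4) : ℝ) * x ^ (5 / 4 : ℝ) := by rw [h3, h4]; ring
    · have h2 : x * Real.exp (-Real.log t) = M := by
        rw [Real.exp_neg, Real.exp_log ht0, ht]
        field_simp
      rw [h2]
      have h3 : M ^ 2 = M ^ (2 - p) * M ^ p := by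
        rw [← Real.rpow_add hM0, sub_add_cancel]
        norm_cast
      rw [h3]
      exact mul_le_mul_of_nonneg_left (Real.rpow_le_rpow hM0.le h.le (by linarith))
        (Real.rpow_nonneg hM0.le _)

theorem XTR_log (x : ℝ) (hx : 0 ≤ x) : x * |Real.log x| ≤ 1 + 4 * x ^ (5 / 4 : ℝ) := by
  have h0 : 0 ≤ x ^ (5 / 4 : ℝ) := Real.rpow_nonneg hx _
  rcases hx.eq_or_lt with h | h
  · rw [← h, zero_mul]; positivity
  rcases le_or_gt x 1 with h1 | h1
  · have h2 := Real.abs_log_mul_self_lt x h h1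
    rw [abs_mul, abs_of_pos h] at h2
    linarith
  · have h2 : Real.log x ≤ x ^ (1 / 4 : ℝ) / (1 / 4) := Real.log_le_rpow_div hx (by norm_num)
    have h4 : x ^ (5 / 4 : ℝ) = x * x ^ (1 / 4 : ℝ) := by
      rw [← Real.rpow_one_add' hx (by norm_num)]
      norm_num
    rw [abs_of_nonneg (Real.log_nonneg h1.le), h4]
    have h5 := mul_le_mul_of_nonneg_left h2 hx
    linarith

/-- The exponential. -/
theorem XTR_exp (ζ : ℂ) (ha : -1 ≤ ζ.re) :
    ‖Complex.exp (-ζ) - 1‖ ≤ 3 * (|ζ.re| + |ζ.im|) ∧ ‖Complex.exp (-ζ) - 1‖ ≤ 4 := by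
  have he : Real.exp (-ζ.re) ≤ 3 := by
    calc Real.exp (-ζ.re) ≤ Real.exp 1 := Real.exp_le_exp.2 (by linarith)
      _ ≤ 3 := by linarith [Real.exp_one_lt_d9]
  have hn : ‖Complex.exp (-ζ)‖ = Real.exp (-ζ.re) := by rw [Complex.norm_exp, Complex.neg_re]
  constructor
  · have h1 : Complex.exp (-ζ) - 1 =
        ((Real.exp (-ζ.re) : ℝ) : ℂ) * (Complex.exp (Complex.I * ((-ζ.im : ℝ) : ℂ)) - 1) +
          ((Real.exp (-ζ.re) - 1 : ℝ) : ℂ) := by
      have h2 : Complex.exp (-ζ) = ((Real.exp (-ζ.re) : ℝ) : ℂ) * Complex.exp (Complex.I * ((-ζ.im : ℝ) : ℂ)) := by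
        rw [Complex.ofReal_exp, ← Complex.exp_add]
        congr 1
        apply Complex.ext <;> simp
      rw [h2]; push_cast; ring
    have h3 : |Real.exp (-ζ.re) - 1| ≤ 3 * |ζ.re| := by
      rcases le_or_gt 0 ζ.re with h | h
      · have h4 := Real.add_one_le_exp (-ζ.re)
        have h5 : Real.exp (-ζ.re) ≤ 1 := Real.exp_le_one_iff.2 (by linarith)
        rw [abs_of_nonpos (by linarith), abs_of_nonneg h]
        linarith
      · have h4 := Real.abs_exp_sub_one_le (x := -ζ.re) (by rw [abs_neg, abs_of_neg h]; linarith)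
        rw [abs_neg] at h4
        linarith [abs_nonneg ζ.re]
    have h6 : ‖Complex.exp (Complex.I * ((-ζ.im : ℝ) : ℂ)) - 1‖ ≤ |ζ.im| := by
      have := Real.norm_exp_I_mul_ofReal_sub_one_le (x := -ζ.im)
      rwa [Real.norm_eq_abs, abs_neg] at this
    calc ‖Complex.exp (-ζ) - 1‖ ≤ ‖((Real.exp (-ζ.re) : ℝ) : ℂ) * (Complex.exp (Complex.I * ((-ζ.im : ℝ) : ℂ)) - 1)‖ +
          ‖((Real.exp (-ζ.re) - 1 : ℝ) : ℂ)‖ := by rw [h1]; exact norm_add_le _ _
      _ ≤ 3 * |ζ.im| + 3 * |ζ.re| := by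
        rw [norm_mul, Complex.norm_real, Complex.norm_real, Real.norm_eq_abs, Real.norm_eq_abs,
          abs_of_pos (Real.exp_pos _)]
        exact add_le_add (mul_le_mul he h6 (norm_nonneg _) (by norm_num)) h3
      _ = 3 * (|ζ.re| + |ζ.im|) := by ring
  · calc ‖Complex.exp (-ζ) - 1‖ ≤ ‖Complex.exp (-ζ)‖ + ‖(1 : ℂ)‖ := norm_sub_le _ _
      _ ≤ 4 := by rw [hn, norm_one]; linarith

/-- Powers. -/
theorem XTR_pow (x p : ℝ) (hx : 0 ≤ x) (hp : 3 / 2 ≤ p) :
    x ^ (5 / 4 : ℝ) ≤ 1 + x ^ p ∧ x ^ (3 / 2 : ℝ) ≤ 1 + x ^ p := by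
  have h0 : 0 ≤ x ^ p := Real.rpow_nonneg hx p
  rcases le_or_gt x 1 with h | h
  · exact ⟨by linarith [Real.rpow_le_one hx h (by norm_num : (0 : ℝ) ≤ 5 / 4)],
      by linarith [Real.rpow_le_one hx h (by norm_num : (0 : ℝ) ≤ 3 / 2)]⟩
  · exact ⟨by linarith [Real.rpow_le_rpow_of_exponent_le h.le (by linarith : (5 / 4 : ℝ) ≤ p)],
      by linarith [Real.rpow_le_rpow_of_exponent_le h.le (by linarith : (3 / 2 : ℝ) ≤ p)]⟩

/-- Young. -/
theorem XTR_young (X x s : ℝ) (hX : 0 ≤ X) (hX4 : X ≤ 4) (hx : 0 ≤ x) (hs : 0 < s) :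
    X * x ^ (5 / 4 : ℝ) ≤ 256 * s⁻¹ ^ 5 * X ^ 2 + s * x ^ (3 / 2 : ℝ) := by
  set y : ℝ := x ^ (1 / 4 : ℝ) with hy
  have hy0 : 0 ≤ y := Real.rpow_nonneg hx _
  have e5 : x ^ (5 / 4 : ℝ) = y ^ 5 := by
    rw [hy, ← Real.rpow_natCast, ← Real.rpow_mul hx]; norm_num
  have e6 : x ^ (3 / 2 : ℝ) = y ^ 6 := by
    rw [hy, ← Real.rpow_natCast, ← Real.rpow_mul hx]; norm_num
  rw [e5, e6]
  set w : ℝ := X * s⁻¹ with hw
  have hw0 : 0 ≤ w := mul_nonneg hX (inv_nonneg.2 hs.le)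
  have hXw : X = s * w := by rw [hw]; field_simp
  have h1 : w * y ^ 5 ≤ w ^ 6 + y ^ 6 := by
    rcases le_or_gt w y with h | h
    · have : w * y ^ 5 ≤ y * y ^ 5 := mul_le_mul_of_nonneg_right h (by positivity)
      have h6 : 0 ≤ w ^ 6 := by positivity
      calc w * y ^ 5 ≤ y * y ^ 5 := this
        _ = y ^ 6 := by ring
        _ ≤ w ^ 6 + y ^ 6 := by linarith
    · have h5 : y ^ 5 ≤ w ^ 5 := pow_le_pow_left₀ hy0 h.le 5
      have h6 : 0 ≤ y ^ 6 := by positivity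
      calc w * y ^ 5 ≤ w * w ^ 5 := mul_le_mul_of_nonneg_left h5 hw0
        _ = w ^ 6 := by ring
        _ ≤ w ^ 6 + y ^ 6 := by linarith
  have h2 : s * w ^ 6 = s⁻¹ ^ 5 * X ^ 6 := by rw [hw]; field_simp
  have h3 : X ^ 6 ≤ 256 * X ^ 2 := by
    have h4 : X ^ 4 ≤ 4 ^ 4 := pow_le_pow_left₀ hX hX4 4
    calc X ^ 6 = X ^ 4 * X ^ 2 := by ring
      _ ≤ 4 ^ 4 * X ^ 2 := mul_le_mul_of_nonneg_right h4 (by positivity)
      _ = 256 * X ^ 2 := by norm_num
  have hsi : 0 ≤ s⁻¹ ^ 5 := by positivity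
  calc X * y ^ 5 = s * (w * y ^ 5) := by rw [hXw]; ring
    _ ≤ s * (w ^ 6 + y ^ 6) := mul_le_mul_of_nonneg_left h1 hs.le
    _ = s⁻¹ ^ 5 * X ^ 6 + s * y ^ 6 := by rw [mul_add, h2]
    _ ≤ s⁻¹ ^ 5 * (256 * X ^ 2) + s * y ^ 6 := by linarith [mul_le_mul_of_nonneg_left h3 hsi]
    _ = 256 * s⁻¹ ^ 5 * X ^ 2 + s * y ^ 6 := by ring

theorem XTR_half (X s : ℝ) (hs : 0 < s) : X ≤ s⁻¹ ^ 3 * X ^ 2 + s ^ 3 := by
  have h1 : 0 < s ^ 3 := by positivity
  have h2 : s⁻¹ ^ 3 * s ^ 3 = 1 := by field_simp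
  have h3 : 0 < s⁻¹ ^ 3 := by positivity
  nlinarith [mul_nonneg h3.le (sq_nonneg (X - s ^ 3)), sq_nonneg (X - s ^ 3)]

/-- The pointwise estimates. -/
theorem XTR_pt (w ζ : ℂ) (M p d s : ℝ) (hM : 1 ≤ M) (hp : 3 / 2 ≤ p) (hp2 : p ≤ 2) (hd : 0 ≤ d)
    (hd1 : d ≤ 1) (hs : 0 < s) (ha : |ζ.re - Real.log (max 1 (‖w‖ / M))| ≤ d) :
    |(w * Complex.exp (-ζ)).re * Real.log ‖w * Complex.exp (-ζ)‖ - w.re * Real.log ‖w‖| ≤
      (2 * s⁻¹ ^ 3 + 2304 * s⁻¹ ^ 5) * (18 * (ζ.re ^ 2 + ζ.im ^ 2)) + 2 * s ^ 3 + 9 * s * (1 + ‖w‖ ^ p) +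
        (4 * M ^ (-(1 / 4) : ℝ) + d) * (2 + ‖w‖ ^ p) ∧
    ‖w * Complex.exp (-ζ)‖ ^ 2 ≤ Real.exp (2 * d) * (M ^ (2 - p) * ‖w‖ ^ p) ∧
    ζ.re ^ 2 ≤ 8 * (‖w‖ ^ p / M) + 2 * d ^ 2 := by
  set x : ℝ := ‖w‖ with hx
  have hx0 : 0 ≤ x := norm_nonneg w
  obtain ⟨hu0, hu2, hu3, hu4⟩ := XTR_u x M p hx0 hM hp hp2
  set u : ℝ := Real.log (max 1 (x / M)) with hu
  set κ : ℝ := M ^ (-(1 / 4) : ℝ) with hκ
  have hM0 : 0 < M := by linarith
  have hκ0 : 0 < κ := Real.rpow_pos_of_pos hM0 _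
  have hκ1 : κ ≤ 1 := Real.rpow_le_one_of_one_le_of_nonpos hM (by norm_num)
  have hxp : 0 ≤ x ^ p := Real.rpow_nonneg hx0 p
  set Y : ℝ := x ^ (5 / 4 : ℝ) with hY
  have hY0 : 0 ≤ Y := Real.rpow_nonneg hx0 _
  obtain ⟨hY1, hZ1⟩ := XTR_pow x p hx0 hp
  obtain ⟨h1, h2⟩ := abs_le.1 ha
  have hre : -1 ≤ ζ.re := by linarith
  have hxY : x ≤ 1 + Y := by
    rcases le_or_gt x 1 with h | h
    · linarith
    · have : x ^ (1 : ℝ) ≤ x ^ (5 / 4 : ℝ) := Real.rpow_le_rpow_of_exponent_le h.le (by norm_num)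
      rw [Real.rpow_one] at this
      linarith
  have habs : |ζ.re| ≤ u + d := abs_le.2 ⟨by linarith, by linarith⟩
  refine ⟨?_, ?_, ?_⟩
  · obtain ⟨hX1, hX4⟩ := XTR_exp ζ hre
    set X : ℝ := ‖Complex.exp (-ζ) - 1‖ with hX
    have hX0 : 0 ≤ X := norm_nonneg _
    have hX2 : X ^ 2 ≤ 18 * (ζ.re ^ 2 + ζ.im ^ 2) := by
      have h3 : X ^ 2 ≤ (3 * (|ζ.re| + |ζ.im|)) ^ 2 := pow_le_pow_left₀ hX0 hX1 2
      have h4 : (3 * (|ζ.re| + |ζ.im|)) ^ 2 ≤ 18 * (|ζ.re| ^ 2 + |ζ.im| ^ 2) := by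
        nlinarith [sq_nonneg (|ζ.re| - |ζ.im|)]
      rw [sq_abs, sq_abs] at h4
      linarith
    have hxa : x * |ζ.re| ≤ 4 * κ * Y + d * (1 + Y) := by
      have h3 : x * |ζ.re| ≤ x * (u + d) := mul_le_mul_of_nonneg_left habs hx0
      have h4 : d * x ≤ d * (1 + Y) := mul_le_mul_of_nonneg_left hxY hd
      have h5 : x * (u + d) = x * u + d * x := by ring
      linarith
    have hxl := XTR_log x hx0
    have hmain : |(w * Complex.exp (-ζ)).re * Real.log ‖w * Complex.exp (-ζ)‖ - w.re * Real.log x| ≤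
        X * (x * |Real.log x| + x * |ζ.re|) + x * |ζ.re| := by
      rcases eq_or_ne w 0 with hw | hw
      · have h0 : x = 0 := by rw [hx, hw, norm_zero]
        rw [h0]
        simp [hw]
      · have hwx : 0 < x := norm_pos_iff.2 hw
        have h3 : Real.log ‖w * Complex.exp (-ζ)‖ = Real.log x - ζ.re := by
          rw [norm_mul, Complex.norm_exp, Complex.neg_re, Real.log_mul hwx.ne' (Real.exp_pos _).ne',
            Real.log_exp]
          ring
        have h4 : (w * Complex.exp (-ζ)).re * (Real.log x - ζ.re) - w.re * Real.log x =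
            (w * (Complex.exp (-ζ) - 1)).re * (Real.log x - ζ.re) - w.re * ζ.re := by
          have h7 : (w * (Complex.exp (-ζ) - 1)).re = (w * Complex.exp (-ζ)).re - w.re := by
            rw [mul_sub, mul_one, Complex.sub_re]
          rw [h7]
          ring
        rw [h3, h4]
        have h5 : |(w * (Complex.exp (-ζ) - 1)).re| ≤ x * X := by
          calc |(w * (Complex.exp (-ζ) - 1)).re| ≤ ‖w * (Complex.exp (-ζ) - 1)‖ := Complex.abs_re_le_norm _
            _ = x * X := norm_mul _ _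
        have h6 : |w.re| ≤ x := Complex.abs_re_le_norm w
        calc |(w * (Complex.exp (-ζ) - 1)).re * (Real.log x - ζ.re) - w.re * ζ.re|
            ≤ |(w * (Complex.exp (-ζ) - 1)).re * (Real.log x - ζ.re)| + |w.re * ζ.re| := abs_sub _ _
          _ ≤ (x * X) * (|Real.log x| + |ζ.re|) + x * |ζ.re| := by
            rw [abs_mul, abs_mul]
            exact add_le_add (mul_le_mul h5 (abs_sub _ _) (abs_nonneg _) (by positivity))
              (mul_le_mul_of_nonneg_right h6 (abs_nonneg _))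
          _ = X * (x * |Real.log x| + x * |ζ.re|) + x * |ζ.re| := by ring
    have hA1 : x * |ζ.re| ≤ 1 + 5 * Y := by
      have h3 : 4 * κ * Y ≤ 4 * Y := by nlinarith
      have h4 : d * (1 + Y) ≤ 1 + Y := by nlinarith
      linarith
    have hA2 : x * |ζ.re| ≤ (4 * κ + d) * (2 + x ^ p) := by
      have h3 : 4 * κ * Y ≤ 4 * κ * (2 + x ^ p) := mul_le_mul_of_nonneg_left (by linarith) (by positivity)
      have h4 : d * (1 + Y) ≤ d * (2 + x ^ p) := mul_le_mul_of_nonneg_left (by linarith) hd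
      linarith
    have hB : X * (x * |Real.log x| + x * |ζ.re|) ≤ X * (2 + 9 * Y) :=
      mul_le_mul_of_nonneg_left (by linarith) hX0
    have hC : X * (2 + 9 * Y) ≤ (2 * s⁻¹ ^ 3 + 2304 * s⁻¹ ^ 5) * X ^ 2 + 2 * s ^ 3 + 9 * s * (1 + x ^ p) := by
      have h3 := XTR_half X s hs
      have h4 := XTR_young X x s hX0 hX4 hx0 hs
      have h5 : s * x ^ (3 / 2 : ℝ) ≤ s * (1 + x ^ p) := mul_le_mul_of_nonneg_left hZ1 hs.le
      have h6 : X * (2 + 9 * Y) = 2 * X + 9 * (X * Y) := by ring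
      rw [h6]
      rw [← hY] at h4
      linarith
    have hD : (2 * s⁻¹ ^ 3 + 2304 * s⁻¹ ^ 5) * X ^ 2 ≤
        (2 * s⁻¹ ^ 3 + 2304 * s⁻¹ ^ 5) * (18 * (ζ.re ^ 2 + ζ.im ^ 2)) :=
      mul_le_mul_of_nonneg_left hX2 (by positivity)
    linarith
  · have h3 : ‖w * Complex.exp (-ζ)‖ ≤ Real.exp d * (x * Real.exp (-u)) := by
      rw [norm_mul, Complex.norm_exp, Complex.neg_re]
      have h4 : Real.exp (-ζ.re) ≤ Real.exp d * Real.exp (-u) := by
        rw [← Real.exp_add]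
        exact Real.exp_le_exp.2 (by linarith)
      calc x * Real.exp (-ζ.re) ≤ x * (Real.exp d * Real.exp (-u)) := mul_le_mul_of_nonneg_left h4 hx0
        _ = Real.exp d * (x * Real.exp (-u)) := by ring
    calc ‖w * Complex.exp (-ζ)‖ ^ 2 ≤ (Real.exp d * (x * Real.exp (-u))) ^ 2 :=
          pow_le_pow_left₀ (norm_nonneg _) h3 2
      _ = Real.exp (2 * d) * (x * Real.exp (-u)) ^ 2 := by
          rw [mul_pow, ← Real.exp_nat_mul]; norm_num
      _ ≤ Real.exp (2 * d) * (M ^ (2 - p) * x ^ p) := mul_le_mul_of_nonneg_left hu4 (Real.exp_pos _).le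
  · have h3 : ζ.re ^ 2 ≤ (u + d) ^ 2 := by
      rw [← sq_abs ζ.re]
      exact pow_le_pow_left₀ (abs_nonneg _) habs 2
    have h4 : (u + d) ^ 2 ≤ 2 * u ^ 2 + 2 * d ^ 2 := by nlinarith [sq_nonneg (u - d)]
    linarith

/-- The partial sums of the exponential series. -/
def XTR_G (g q : ℂ[X]) (n : ℕ) : ℂ[X] :=
  g * ∑ k ∈ Finset.range n, C ((k.factorial : ℂ)⁻¹) * (-q) ^ k

theorem XTR_G_eval (g q : ℂ[X]) (n : ℕ) (z : ℂ) :
    (XTR_G g q n).eval z = g.eval z * ∑ k ∈ Finset.range n, (-(q.eval z)) ^ k / (k.factorial : ℂ) := by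
  unfold XTR_G
  rw [eval_mul, eval_finsetSum]
  congr 1
  refine Finset.sum_congr rfl fun k _ => ?_
  rw [eval_mul, eval_C, eval_pow, eval_neg, div_eq_inv_mul]

theorem XTR_dom (T : ℝ) [Fact (0 < T)] (g q : ℂ[X]) (Φ : ℂ → ℝ) (hΦ : Continuous Φ) :
    Tendsto (fun n => cI T (fun z => Φ ((XTR_G g q n).eval z))) atTop
      (𝓝 (∫ t : AddCircle T, Φ (g.eval (fourier (T := T) 1 t) *
        Complex.exp (-(q.eval (fourier (T := T) 1 t)))) ∂haarAddCircle)) := by
  have hz : Continuous fun t : AddCircle T => (fourier (T := T) 1 t : ℂ) := (fourier (T := T) 1).continuous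
  have hg : Continuous fun t : AddCircle T => g.eval (fourier (T := T) 1 t) := g.continuous.comp hz
  have hq : Continuous fun t : AddCircle T => q.eval (fourier (T := T) 1 t) := q.continuous.comp hz
  obtain ⟨B, hB⟩ := isCompact_univ.exists_bound_of_continuousOn
    (f := fun t : AddCircle T => ‖g.eval (fourier (T := T) 1 t)‖ * Real.exp ‖q.eval (fourier (T := T) 1 t)‖)
    (Continuous.continuousOn (by fun_prop))
  obtain ⟨K, hK⟩ := (isCompact_closedBall (0 : ℂ) B).exists_bound_of_continuousOn hΦ.continuousOn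
  unfold cI
  refine MeasureTheory.tendsto_integral_of_dominated_convergence (fun _ => K) ?_ ?_ ?_ ?_
  · intro n
    exact (hΦ.comp ((XTR_G g q n).continuous.comp hz)).aestronglyMeasurable
  · exact integrable_const K
  · intro n
    refine Filter.Eventually.of_forall fun t => ?_
    refine hK _ ?_
    rw [mem_closedBall_zero_iff, XTR_G_eval, norm_mul]
    have h1 : ‖∑ k ∈ Finset.range n, (-(q.eval (fourier (T := T) 1 t))) ^ k / (k.factorial : ℂ)‖ ≤
        Real.exp ‖q.eval (fourier (T := T) 1 t)‖ := by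
      refine (norm_sum_le _ _).trans ?_
      refine le_trans (le_of_eq ?_) (Real.sum_le_exp_of_nonneg (norm_nonneg _) n)
      refine Finset.sum_congr rfl fun k _ => ?_
      rw [norm_div, norm_pow, norm_neg, Complex.norm_natCast]
    refine (mul_le_mul_of_nonneg_left h1 (norm_nonneg _)).trans ?_
    exact (le_abs_self _).trans (hB t (Set.mem_univ t))
  · refine Filter.Eventually.of_forall fun t => ?_
    have h1 : Tendsto (fun n => (XTR_G g q n).eval (fourier (T := T) 1 t)) atTop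
        (𝓝 (g.eval (fourier (T := T) 1 t) * Complex.exp (-(q.eval (fourier (T := T) 1 t))))) := by
      simp only [XTR_G_eval]
      refine Tendsto.const_mul _ ?_
      rw [Complex.exp_eq_exp_ℂ]
      exact (NormedSpace.expSeries_div_hasSum_exp (-(q.eval (fourier (T := T) 1 t)) : ℂ)).tendsto_sum_nat
    exact (hΦ.tendsto _).comp h1

theorem XTR_num (M d : ℝ) (hM : 1 ≤ M) (hd : 0 ≤ d) (hdM : d ≤ 1 / M) :
    ∃ s : ℝ, 0 < s ∧ (2 * s⁻¹ ^ 3 + 2304 * s⁻¹ ^ 5) * (18 * (20 / M)) + 2 * s ^ 3 + 18 * s +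
      3 * (4 * M ^ (-(1 / 4) : ℝ) + d) ≤ 10000 * M ^ (-(1 / 8) : ℝ) := by
  have hM0 : 0 < M := by linarith
  set β : ℝ := M ^ (-(1 / 8) : ℝ) with hβ
  have hmono : ∀ r : ℝ, r ≤ -(1 / 8) → M ^ r ≤ β := fun r hr => Real.rpow_le_rpow_of_exponent_le hM hr
  have hβ0 : 0 < β := Real.rpow_pos_of_pos hM0 _
  set s : ℝ := 3 * M ^ (-(1 / 6) : ℝ) with hs
  have hs0 : 0 < s := by positivity
  have hsβ : s ≤ 3 * β := by
    rw [hs]; linarith [hmono (-(1 / 6)) (by norm_num)]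
  have hs3 : s ^ 3 ≤ 27 * β := by
    have h1 : s ^ 3 = 27 * M ^ (-(1 / 2) : ℝ) := by
      have h2 : (M ^ (-(1 / 6) : ℝ)) ^ 3 = M ^ (-(1 / 2) : ℝ) := by
        rw [← Real.rpow_natCast, ← Real.rpow_mul hM0.le]; norm_num
      rw [hs, mul_pow, h2]; norm_num
    rw [h1]; linarith [hmono (-(1 / 2)) (by norm_num)]
  have hs6 : s ^ 6 = 729 / M := by
    have h2 : (M ^ (-(1 / 6) : ℝ)) ^ 6 = M⁻¹ := by
      rw [← Real.rpow_natCast, ← Real.rpow_mul hM0.le, ← Real.rpow_neg_one]; norm_num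
    rw [hs, mul_pow, h2, div_eq_mul_inv]; norm_num
  have h4 := hmono (-(1 / 4)) (by norm_num)
  have hdβ : d ≤ β := by
    have h1 : 1 / M = M ^ (-1 : ℝ) := by rw [Real.rpow_neg_one, one_div]
    rw [h1] at hdM
    exact hdM.trans (hmono _ (by norm_num))
  refine ⟨s, hs0, ?_⟩
  have h5 : 18 * (20 / M) ≤ s ^ 6 := by
    rw [hs6]
    have : 0 < 1 / M := by positivity
    calc 18 * (20 / M) = 360 * (1 / M) := by ring
      _ ≤ 729 * (1 / M) := by linarith
      _ = 729 / M := by ring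
  have h6 : (2 * s⁻¹ ^ 3 + 2304 * s⁻¹ ^ 5) * (18 * (20 / M)) ≤ (2 * s⁻¹ ^ 3 + 2304 * s⁻¹ ^ 5) * s ^ 6 :=
    mul_le_mul_of_nonneg_left h5 (by positivity)
  have h7 : (2 * s⁻¹ ^ 3 + 2304 * s⁻¹ ^ 5) * s ^ 6 = 2 * s ^ 3 + 2304 * s := by field_simp
  rw [h7] at h6
  linarith

theorem p_XTR (h1 : Stmt_XTP) : Stmt_XTR := by
  intro T _ p M δ g hp hp2 hM hδ hg0 hE
  have hM0 : 0 < M := by linarith
  set d : ℝ := min (1 / (2 * M)) (δ / (8 * M)) with hd
  have hd0 : 0 < d := lt_min (by positivity) (by positivity)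
  have hd1 : d ≤ 1 / (2 * M) := min_le_left _ _
  have hd2 : d ≤ δ / (8 * M) := min_le_right _ _
  have hMi : 1 / M ≤ 1 := (div_le_one hM0).2 hM
  have hMi0 : 0 < 1 / M := by positivity
  have hd1' : d ≤ (1 / M) / 2 := by
    calc d ≤ 1 / (2 * M) := hd1
      _ = (1 / M) / 2 := by field_simp
  have hdh : d ≤ 1 / 2 := by linarith
  have hdM : d ≤ 1 / M := by linarith
  have hdd : 2 * d ^ 2 ≤ 2 / M := by
    have : d ^ 2 ≤ 1 / M := by nlinarith
    calc 2 * d ^ 2 ≤ 2 * (1 / M) := by linarith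
      _ = 2 / M := by ring
  -- the functions on the circle
  have hz : Continuous fun t : AddCircle T => (fourier (T := T) 1 t : ℂ) := (fourier (T := T) 1).continuous
  have hgc : Continuous fun t : AddCircle T => g.eval (fourier (T := T) 1 t) := g.continuous.comp hz
  have huc : Continuous fun t : AddCircle T => Real.log (max 1 (‖g.eval (fourier (T := T) 1 t)‖ / M)) := by
    refine Continuous.log (by fun_prop) fun t => ?_
    exact (lt_of_lt_of_le one_pos (le_max_left _ _)).ne'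
  obtain ⟨q, hq0, hq⟩ := (h1 T).1 ⟨_, huc⟩ d hd0
  have hIm := (h1 T).2 q hq0
  have hqc : Continuous fun t : AddCircle T => q.eval (fourier (T := T) 1 t) := q.continuous.comp hz
  obtain ⟨s, hs0, hs⟩ := XTR_num M d hM hd0.le hdM
  have hpt := fun t : AddCircle T => XTR_pt (g.eval (fourier (T := T) 1 t)) (q.eval (fourier (T := T) 1 t))
    M p d s hM hp hp2 hd0.le (by linarith) hs0 (hq t)
  have hxc : Continuous fun t : AddCircle T => ‖g.eval (fourier (T := T) 1 t)‖ ^ p :=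
    hgc.norm.rpow_const fun t => Or.inr (by linarith)
  have hE' : ∫ t : AddCircle T, ‖g.eval (fourier (T := T) 1 t)‖ ^ p ∂haarAddCircle ≤ 1 := hE
  set E : ℝ := ∫ t : AddCircle T, ‖g.eval (fourier (T := T) 1 t)‖ ^ p ∂haarAddCircle with hEd
  have hE0 : 0 ≤ E := integral_nonneg fun t => Real.rpow_nonneg (norm_nonneg _) _
  have hMp : M ^ (2 - p) ≤ M := by
    calc M ^ (2 - p) ≤ M ^ (1 : ℝ) := Real.rpow_le_rpow_of_exponent_le hM (by linarith)
      _ = M := Real.rpow_one M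
  have hMp0 : 0 < M ^ (2 - p) := Real.rpow_pos_of_pos hM0 _
  -- the square
  have hN : ∫ t : AddCircle T, ‖g.eval (fourier (T := T) 1 t) *
      Complex.exp (-(q.eval (fourier (T := T) 1 t)))‖ ^ 2 ∂haarAddCircle ≤ M ^ (2 - p) + δ / 2 := by
    have h2 : ∫ t : AddCircle T, ‖g.eval (fourier (T := T) 1 t) *
        Complex.exp (-(q.eval (fourier (T := T) 1 t)))‖ ^ 2 ∂haarAddCircle ≤
        ∫ t : AddCircle T, Real.exp (2 * d) * (M ^ (2 - p) * ‖g.eval (fourier (T := T) 1 t)‖ ^ p)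
          ∂haarAddCircle := by
      refine integral_mono (integrable_cont (by fun_prop)) (integrable_cont (by fun_prop)) fun t => ?_
      exact (hpt t).2.1
    rw [integral_const_mul, integral_const_mul, ← hEd] at h2
    have h3 : Real.exp (2 * d) ≤ 1 + 4 * d := by
      have h4 := Real.abs_exp_sub_one_le (x := 2 * d) (by rw [abs_of_pos (by linarith)]; linarith)
      rw [abs_of_pos (by linarith : (0:ℝ) < 2 * d)] at h4
      linarith [le_abs_self (Real.exp (2 * d) - 1)]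
    have h5 : M ^ (2 - p) * E ≤ M ^ (2 - p) := by nlinarith
    have h6 : Real.exp (2 * d) * (M ^ (2 - p) * E) ≤ (1 + 4 * d) * M ^ (2 - p) :=
      mul_le_mul h3 h5 (by positivity) (by linarith)
    have h7 : 4 * d * M ^ (2 - p) ≤ δ / 2 := by
      have h8 : 4 * d * M ^ (2 - p) ≤ 4 * (δ / (8 * M)) * M :=
        mul_le_mul (by linarith) hMp hMp0.le (by positivity)
      have h9 : 4 * (δ / (8 * M)) * M = δ / 2 := by field_simp; ring
      linarith
    linarith
  -- real and imaginary part of q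
  have hR : ∫ t : AddCircle T, (q.eval (fourier (T := T) 1 t)).re ^ 2 ∂haarAddCircle ≤ 10 / M := by
    have h2 : ∫ t : AddCircle T, (q.eval (fourier (T := T) 1 t)).re ^ 2 ∂haarAddCircle ≤
        ∫ t : AddCircle T, (8 / M * ‖g.eval (fourier (T := T) 1 t)‖ ^ p + 2 * d ^ 2) ∂haarAddCircle := by
      refine integral_mono (integrable_cont (by fun_prop)) (integrable_cont (by fun_prop)) fun t => ?_
      have h3 := (hpt t).2.2
      calc (q.eval (fourier (T := T) 1 t)).re ^ 2 ≤ _ := h3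
        _ = 8 / M * ‖g.eval (fourier (T := T) 1 t)‖ ^ p + 2 * d ^ 2 := by ring
    rw [integral_add (integrable_cont (by fun_prop)) (integrable_const _), integral_const_mul, ← hEd,
      integral_const] at h2
    simp only [probReal_univ, smul_eq_mul, one_mul] at h2
    have h4 : 8 / M * E ≤ 8 / M := by
      have : 0 < 8 / M := by positivity
      nlinarith
    have h5 : 8 / M + 2 / M = 10 / M := by ring
    linarith
  have hI : ∫ t : AddCircle T, (q.eval (fourier (T := T) 1 t)).im ^ 2 ∂haarAddCircle ≤ 10 / M :=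
    le_trans hIm hR
  -- the functional
  have hJ : |(∫ t : AddCircle T, (g.eval (fourier (T := T) 1 t) *
      Complex.exp (-(q.eval (fourier (T := T) 1 t)))).re * Real.log ‖g.eval (fourier (T := T) 1 t) *
      Complex.exp (-(q.eval (fourier (T := T) 1 t)))‖ ∂haarAddCircle) - JJ T g| ≤
      10000 * M ^ (-(1 / 8) : ℝ) := by
    have hc1 : Continuous fun t : AddCircle T => (g.eval (fourier (T := T) 1 t) *
      Complex.exp (-(q.eval (fourier (T := T) 1 t)))).re * Real.log ‖g.eval (fourier (T := T) 1 t) *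
      Complex.exp (-(q.eval (fourier (T := T) 1 t)))‖ :=
      XTR_cont.comp (hgc.mul (Complex.continuous_exp.comp hqc.neg))
    have hc2 : Continuous fun t : AddCircle T => (g.eval (fourier (T := T) 1 t)).re *
        Real.log ‖g.eval (fourier (T := T) 1 t)‖ := XTR_cont.comp hgc
    unfold JJ cI
    rw [← integral_sub (integrable_cont hc1) (integrable_cont hc2)]
    refine (abs_integral_le_integral_abs).trans ?_
    refine (integral_mono (g := fun t : AddCircle T => (2 * s⁻¹ ^ 3 + 2304 * s⁻¹ ^ 5) * 18 *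
        ((q.eval (fourier (T := T) 1 t)).re ^ 2 + (q.eval (fourier (T := T) 1 t)).im ^ 2) +
        ((9 * s + (4 * M ^ (-(1 / 4) : ℝ) + d)) * ‖g.eval (fourier (T := T) 1 t)‖ ^ p +
        (2 * s ^ 3 + 9 * s + (4 * M ^ (-(1 / 4) : ℝ) + d) * 2)))
      (integrable_cont (hc1.sub hc2).abs) (integrable_cont (by fun_prop)) fun t => ?_).trans ?_
    · refine ((hpt t).1).trans (le_of_eq ?_)
      ring
    · rw [integral_add (integrable_cont (by fun_prop)) (integrable_cont (by fun_prop)),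
        integral_const_mul, integral_add (integrable_cont (by fun_prop)) (integrable_cont (by fun_prop)),
        integral_add (integrable_cont (by fun_prop)) (integrable_const _), integral_const_mul, ← hEd,
        integral_const]
      simp only [probReal_univ, smul_eq_mul, one_mul]
      have hκ0 : 0 < M ^ (-(1 / 4) : ℝ) := Real.rpow_pos_of_pos hM0 _
      have h3 : (2 * s⁻¹ ^ 3 + 2304 * s⁻¹ ^ 5) * 18 *
          ((∫ t : AddCircle T, (q.eval (fourier (T := T) 1 t)).re ^ 2 ∂haarAddCircle) +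
          ∫ t : AddCircle T, (q.eval (fourier (T := T) 1 t)).im ^ 2 ∂haarAddCircle) ≤
          (2 * s⁻¹ ^ 3 + 2304 * s⁻¹ ^ 5) * 18 * (20 / M) := by
        refine mul_le_mul_of_nonneg_left ?_ (by positivity)
        have h4 : (20 : ℝ) / M = 10 / M + 10 / M := by ring
        linarith
      have h5 : (9 * s + (4 * M ^ (-(1 / 4) : ℝ) + d)) * E ≤ (9 * s + (4 * M ^ (-(1 / 4) : ℝ) + d)) * 1 :=
        mul_le_mul_of_nonneg_left hE' (by positivity)
      linarith
  -- the polynomial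
  have hl1 := XTR_dom T g q (fun w => ‖w‖ ^ 2) (by fun_prop)
  have hl2 := XTR_dom T g q (fun w => w.re * Real.log ‖w‖) XTR_cont
  have e1 : ∀ᶠ n in atTop, NN T (XTR_G g q n) < M ^ (2 - p) + δ :=
    hl1.eventually_lt_const (by linarith)
  have e2 : ∀ᶠ n in atTop, |JJ T (XTR_G g q n) - JJ T g| < 10000 * M ^ (-(1 / 8) : ℝ) + δ :=
    ((hl2.sub_const (JJ T g)).abs).eventually_lt_const (by linarith)
  obtain ⟨n, hn1, hn2⟩ := (e1.and e2).exists
  exact ⟨XTR_G g q n, by rw [XTR_G_eval, hg0, zero_mul], hn1.le, hn2.le⟩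

end Pool.Agent.Work.MP_d7cff0_an.AS
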