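import Pool.Agent.Work.MP_d7cff0_as.B_QC
import Pool.Agent.Work.MP_d7cff0_as.B_QA
import Pool.Agent.Work.MP_d7cff0_as.B_MX
import Pool.Agent.Work.MP_d7cff0_as.B_QU
import Pool.Agent.Work.MP_d7cff0_as.B_QH
import Pool.Agent.Work.MP_d7cff0_as.B_QL
import Pool.Agent.Work.MP_d7cff0_as.B_QLA
import Pool.Agent.Work.MP_d7cff0_as.B_BE
import Pool.Agent.Work.MP_d7cff0_as.B_GG
import Pool.Agent.Work.MP_d7cff0_as.B_PW
import Pool.Agent.Work.MP_d7cff0_as.B_R3U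
import Pool.Agent.Work.MP_d7cff0_as.B_EX
import Pool.Agent.Work.MP_d7cff0_as.B_FU
import Pool.Agent.Work.MP_d7cff0_as.B_FL
import Pool.Agent.Work.MP_d7cff0_as.B_R3L
import Pool.Agent.Work.MP_d7cff0_as.B_LNK
import Pool.Agent.Work.MP_d7cff0_as.B_SMI
import Pool.Agent.Work.MP_d7cff0_as.B_LPN
import Pool.Agent.Work.MP_d7cff0_as.B_LPS
import Pool.Agent.Work.MP_d7cff0_as.B_U2P
import Pool.Agent.Work.MP_d7cff0_as.B_U2M
import Pool.Agent.Work.MP_d7cff0_as.B_R2U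
import Pool.Agent.Work.MP_d7cff0_as.B_GS
import Pool.Agent.Work.MP_d7cff0_as.B_R2L
import Pool.Agent.Work.MP_d7cff0_as.B_SQ
import Pool.Agent.Work.MP_d7cff0_as.B_R1U
import Pool.Agent.Work.MP_d7cff0_as.B_R1L
import Pool.Agent.Work.MP_d7cff0_as.B_AUP
import Pool.Agent.Work.MP_d7cff0_as.B_ALO
import Pool.Agent.Work.MP_d7cff0_as.B_FR1
import Pool.Agent.Work.MP_d7cff0_as.B_FN2
import Pool.Agent.Work.MP_d7cff0_as.B_FN3
import Pool.Agent.Work.MP_d7cff0_as.B_XPN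
import Pool.Agent.Work.MP_d7cff0_as.B_XPF
import Pool.Agent.Work.MP_d7cff0_as.B_XKB
import Pool.Agent.Work.MP_d7cff0_as.B_XTP
import Pool.Agent.Work.MP_d7cff0_as.B_XTR
import Pool.Agent.Work.MP_d7cff0_as.B_XLM
import Pool.Agent.Work.MP_d7cff0_as.B_XKU
import Pool.Agent.Work.MP_d7cff0_as.B_XKL
import Pool.Agent.Work.MP_d7cff0_as.B_XFK

/-!
# MP_d7cff0_an, THEOREM AS: assembly of the blocks
-/

set_option autoImplicit false

namespace Pool.Agent.Work.MP_d7cff0_an.AS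

open scoped ENNReal

theorem qu : Stmt_QU := p_QU p_QC p_QA p_MX

theorem qh : Stmt_QH := p_QH p_QA qu

theorem ql : Stmt_QL := p_QL p_QC p_MX

theorem qla : Stmt_QLA := p_QLA ql

theorem gg : Stmt_GG := p_GG p_QA qu qh p_BE

theorem pw : Stmt_PW := p_PW qla qu p_BE gg

theorem r3u : Stmt_R3U := p_R3U pw

theorem fu : Stmt_FU := p_FU p_QC p_QA qu p_BE p_EX

theorem fl : Stmt_FL := p_FL p_QC p_QA

theorem r3l : Stmt_R3L := p_R3L p_QC p_QA qu p_BE fu fl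

theorem r2u : Stmt_R2U := p_R2U (p_U2P p_LNK p_SMI p_LPN) (p_U2M p_LNK p_SMI p_LPN)

theorem r2l : Stmt_R2L := p_R2L p_GS

theorem sq : Stmt_SQ := p_SQ p_LNK p_SMI p_LPS

theorem fr1 : ∀ (T : ℝ) [Fact (0 < T)] (p : ℝ≥0∞) [Fact (1 ≤ p)], 1 < p → p ≠ ⊤ → p.toReal ≤ 2 →
    |Mstar (hardy T p) - 2 / √3| ≤ 3 * (p.toReal - 1) :=
  p_FR1 (fun T _ p hp => R1U_up sq T p hp) (fun T _ p hp => R1L_lo T p hp) p_AUP p_ALO

theorem fn2 : Stmt_FN2 := p_FN2 r2u r2l p_AUP p_ALO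

theorem fn3 : Stmt_FN3 := p_FN3 r3u r3l p_AUP p_ALO

theorem xlm : Stmt_XLM := p_XLM p_XKB (p_XTR p_XTP)

theorem xku : Stmt_XKU := p_XKU p_XPN p_XPF p_XKB xlm

theorem xkl : Stmt_XKL := p_XKL p_XPN p_XKB

theorem xfk : Stmt_XFK := p_XFK xku xkl p_AUP p_ALO

theorem kap_pos (T : ℝ) [Fact (0 < T)] : 0 < kap T := by
  obtain ⟨c, K, η, hc, hη, h⟩ := fn2
  by_contra hk
  rw [not_lt] at hk
  obtain ⟨η', hη', h'⟩ := xfk T (c / 2) (by linarith)
  set e : ℝ := min (min η η') 1 with he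
  have he0 : 0 < e := lt_min (lt_min hη hη') one_pos
  have he1 : e ≤ η := (min_le_left _ _).trans (min_le_left _ _)
  have he2 : e ≤ η' := (min_le_left _ _).trans (min_le_right _ _)
  have hp : (ENNReal.ofReal (2 + e)).toReal = 2 + e := ENNReal.toReal_ofReal (by linarith)
  haveI : Fact (1 ≤ ENNReal.ofReal (2 + e)) := ⟨by
    rw [← ENNReal.ofReal_one]
    exact ENNReal.ofReal_le_ofReal (by linarith)⟩
  have ht : ENNReal.ofReal (2 + e) ≠ ⊤ := ENNReal.ofReal_ne_top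
  have hab : |(ENNReal.ofReal (2 + e)).toReal - 2| = e := by
    rw [hp]
    have : 2 + e - 2 = e := by ring
    rw [this, abs_of_pos he0]
  have h1 := (h T (ENNReal.ofReal (2 + e)) ht (by rw [hab]; exact he1)).1
  have h2 := h' (ENNReal.ofReal (2 + e)) ht (by rw [hab]; exact he0) (by rw [hab]; exact he2)
  rw [hp] at h1 h2
  have h3 : 2 + e - 2 = e := by ring
  rw [h3] at h1 h2
  have h4 : c ≤ (Mstar (hardy T (ENNReal.ofReal (2 + e))) - 1) / e ^ 2 := by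
    rw [le_div_iff₀ (by positivity)]
    exact h1
  have h5 := (abs_le.1 h2).2
  linarith

end Pool.Agent.Work.MP_d7cff0_an.AS
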