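import Pool.Agent.Work.MP_d7cff0_as.Interface

/-!
# MP_d7cff0_an, THEOREM AS, block FN1, typed by helper20
-/

set_option autoImplicit false

noncomputable section

namespace Pool.Agent.Work.MP_d7cff0_an.AS

open MeasureTheory AddCircle Filter Topology Finset Polynomial
open scoped ENNReal

theorem FN1_core {M p ε η : ℝ} (_hε : 0 < ε) (hp : 1 < p) (hpη : p < 1 + η) (hη1 : η ≤ 1)
    (hηε : η ≤ ε / 8) (hM : 0 ≤ M)
    (hU : M ^ p ≤ 2 / √3 + min (ε / 2) (1 / 10)) (hL : 2 / √3 - min (ε / 2) (1 / 10) ≤ M ^ p) :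
    |M - 2 / √3| < ε := by
  have h3 : (0 : ℝ) < √3 := Real.sqrt_pos.mpr (by norm_num)
  have h3sq : √3 * √3 = (3 : ℝ) := Real.mul_self_sqrt (by norm_num)
  have ha : (1.15 : ℝ) ≤ 2 / √3 := by
    rw [le_div_iff₀ h3]; nlinarith
  have hb : 2 / √3 ≤ (1.16 : ℝ) := by
    rw [div_le_iff₀ h3]; nlinarith
  have hm1 : min (ε / 2) (1 / 10) ≤ ε / 2 := min_le_left _ _
  have hm2 : min (ε / 2) (1 / 10) ≤ (1 / 10 : ℝ) := min_le_right _ _
  have hMp1 : 1 < M ^ p := by linarith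
  have hM1 : 1 < M := by
    by_contra hcon
    rw [not_lt] at hcon
    have := Real.rpow_le_one hM hcon (by linarith : (0 : ℝ) ≤ p)
    linarith
  have hMM : M ≤ M ^ p := by
    have := Real.rpow_le_rpow_of_exponent_le hM1.le hp.le
    rwa [Real.rpow_one] at this
  have hM2 : M ≤ 2 := by linarith
  have hsplit : M ^ p = M * M ^ (p - 1) := by
    have h := Real.rpow_add (by linarith : (0 : ℝ) < M) 1 (p - 1)
    rw [Real.rpow_one] at h
    rw [← h]
    ring_nf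
  have hle1 : M ^ (p - 1) ≤ (2 : ℝ) ^ (p - 1) :=
    Real.rpow_le_rpow hM hM2 (by linarith)
  have hle2 : (2 : ℝ) ^ (p - 1) ≤ 1 + (p - 1) * 1 := by
    have h := rpow_one_add_le_one_add_mul_self (s := (1 : ℝ)) (by norm_num)
      (p := p - 1) (by linarith) (by linarith)
    have e : (1 : ℝ) + 1 = 2 := by norm_num
    rwa [e] at h
  have hlow : 2 / √3 - min (ε / 2) (1 / 10) ≤ M + 2 * η := by
    have h1 : M * M ^ (p - 1) ≤ M * (1 + η) := by
      apply mul_le_mul_of_nonneg_left _ hM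
      linarith
    nlinarith
  rw [abs_lt]
  constructor
  · linarith
  · linarith

theorem p_FN1 (h1 : Stmt_R1U) (h2 : Stmt_R1L) (h3 : Stmt_AUP) (h4 : Stmt_ALO) : Stmt_FN1 := by
  intro T hT ε hε
  have hδ : 0 < min (ε / 2) (1 / 10 : ℝ) := lt_min (by linarith) (by norm_num)
  obtain ⟨η₁, hη₁, hU⟩ := h1 _ hδ
  obtain ⟨η₂, hη₂, hL⟩ := h2 _ hδ
  refine ⟨min (min η₁ η₂) (min 1 (ε / 8)), lt_min (lt_min hη₁ hη₂) (lt_min one_pos (by linarith)), ?_⟩
  intro p hpf hp1 hpt hpη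
  have hq1 : 1 < p.toReal := by
    have := (ENNReal.toReal_lt_toReal ENNReal.one_ne_top hpt).mpr hp1
    simpa using this
  have m1 : min (min η₁ η₂) (min 1 (ε / 8)) ≤ η₁ := le_trans (min_le_left _ _) (min_le_left _ _)
  have m2 : min (min η₁ η₂) (min 1 (ε / 8)) ≤ η₂ := le_trans (min_le_left _ _) (min_le_right _ _)
  have m3 : min (min η₁ η₂) (min 1 (ε / 8)) ≤ 1 := le_trans (min_le_right _ _) (min_le_left _ _)
  have m4 : min (min η₁ η₂) (min 1 (ε / 8)) ≤ ε / 8 :=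
    le_trans (min_le_right _ _) (min_le_right _ _)
  have hs3 : (0 : ℝ) < √3 := Real.sqrt_pos.mpr (by norm_num)
  have h3sq : √3 * √3 = (3 : ℝ) := Real.mul_self_sqrt (by norm_num)
  have ha : (1.15 : ℝ) ≤ 2 / √3 := by
    rw [le_div_iff₀ hs3]; nlinarith
  have hUU := h3 T p (2 / √3 + min (ε / 2) (1 / 10)) hp1 hpt (by linarith)
    (hU T p.toReal hq1 (by linarith))
  have hLL := h4 T p (2 / √3 - min (ε / 2) (1 / 10)) hp1 hpt
    (hL T p.toReal hq1 (by linarith))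
  have hM0 : 0 ≤ Mstar (hardy T p) := by
    rw [Mstar_hardy hp1 hpt]
    exact ContinuousLinearMap.opNorm_nonneg _
  exact FN1_core hε hq1 hpη m3 m4 hM0 hUU hLL

end Pool.Agent.Work.MP_d7cff0_an.AS
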