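import Pool.Agent.Work.MP_d7cff0_as.Interface

set_option autoImplicit false

noncomputable section

namespace Pool.Agent.Work.MP_d7cff0_an.AS

open MeasureTheory AddCircle Filter Topology Finset Polynomial
open scoped ENNReal

theorem QC_key (m : ℕ) (u w : ℂ) (h : u * w = 1) :
    ((2 - u - w) / 4) ^ m =
      ∑ j ∈ Finset.range (2 * m + 1), (-1) ^ m * w ^ m * (-u) ^ j * ((2 * m).choose j : ℂ) / 4 ^ m := by
  have h1 : (2 - u - w) = (-1) * w * (1 - u) ^ 2 := by
    have : w * u = 1 := by rw [mul_comm]; exact h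
    linear_combination (u - 2) * this
  rw [h1, div_pow, mul_pow, mul_pow, ← pow_mul, sub_eq_neg_add, add_pow, ← Finset.sum_div, Finset.mul_sum]
  congr 1
  apply Finset.sum_congr rfl
  intro j _
  rw [one_pow, mul_one]
  ring

theorem QC_split (m : ℕ) (g : ℕ → ℂ) :
    ∑ j ∈ Finset.range (2 * m + 1), g j =
      g m + ∑ k ∈ Finset.range m, (g (m - 1 - k) + g (m + 1 + k)) := by
  have h1 : 2 * m + 1 = (m + 1) + m := by ring
  rw [h1, Finset.sum_range_add, Finset.sum_range_succ, Finset.sum_add_distrib,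
    Finset.sum_range_reflect]
  ring

theorem p_QC : Stmt_QC := by
  intro m u hu
  set w : ℂ := (starRingEnd ℂ) u with hw
  have huw : u * w = 1 := by
    rw [hw, Complex.mul_conj, ← Complex.sq_norm, hu]
    simp
  have h0 : (((1 - u.re) / 2 : ℝ) : ℂ) = (2 - u - w) / 4 := by
    apply Complex.ext
    · simp [hw]
      ring
    · simp [hw]
  have h1 : (((1 - u.re) / 2) ^ m : ℝ) = (((2 - u - w) / 4) ^ m).re := by
    rw [← h0, ← Complex.ofReal_pow, Complex.ofReal_re]
  rw [h1, QC_key m u w huw, QC_split]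
  unfold qp
  rw [eval_add, eval_C, eval_finset_sum, Complex.add_re, Complex.add_re, Complex.re_sum,
    Complex.re_sum]
  congr 1
  · congr 1
    have h2 : (-1 : ℂ) ^ m * w ^ m * (-u) ^ m = 1 := by
      rw [← mul_pow, ← mul_pow]
      have : (-1 : ℂ) * w * -u = 1 := by linear_combination huw
      rw [this, one_pow]
    rw [h2, one_mul]
    unfold cq
    push_cast
    simp
  · apply Finset.sum_congr rfl
    intro k hk
    rw [Finset.mem_range] at hk
    have hA : (-1 : ℂ) ^ m * w ^ m * (-u) ^ (m + 1 + k) = (-1) ^ (k + 1) * u ^ (k + 1) := by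
      have h2 : (-1 : ℂ) ^ m * w ^ m * (-u) ^ m = 1 := by
        rw [← mul_pow, ← mul_pow]
        have : (-1 : ℂ) * w * -u = 1 := by linear_combination huw
        rw [this, one_pow]
      have h3 : (-u) ^ (m + 1 + k) = (-u) ^ m * (-u) ^ (k + 1) := by
        rw [← pow_add]; congr 1; ring
      rw [h3, ← mul_assoc, h2, one_mul, neg_pow]
    have hB : (-1 : ℂ) ^ m * w ^ m * (-u) ^ (m - 1 - k) = (-1) ^ (k + 1) * w ^ (k + 1) := by
      obtain ⟨l, rfl⟩ : ∃ l, m = l + (k + 1) := ⟨m - (k + 1), by omega⟩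
      have h3 : l + (k + 1) - 1 - k = l := by omega
      rw [h3]
      have h2 : (-1 : ℂ) ^ l * w ^ l * (-u) ^ l = 1 := by
        rw [← mul_pow, ← mul_pow]
        have : (-1 : ℂ) * w * -u = 1 := by linear_combination huw
        rw [this, one_pow]
      calc (-1 : ℂ) ^ (l + (k + 1)) * w ^ (l + (k + 1)) * (-u) ^ l
          = ((-1 : ℂ) ^ l * w ^ l * (-u) ^ l) * ((-1) ^ (k + 1) * w ^ (k + 1)) := by
            rw [pow_add, pow_add]; ring
        _ = _ := by rw [h2, one_mul]
    have hC : (2 * m).choose (m - 1 - k) = (2 * m).choose (m + (k + 1)) := by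
      rw [← Nat.choose_symm (by omega : m - 1 - k ≤ 2 * m)]
      congr 1
      omega
    have hD : m + 1 + k = m + (k + 1) := by ring
    rw [hA, hB, hC, hD, eval_mul, eval_C, eval_pow, eval_X]
    have hE : (-1 : ℂ) ^ (k + 1) * w ^ (k + 1) * ((2 * m).choose (m + (k + 1)) : ℂ) / 4 ^ m =
        ((cq m (k + 1) : ℝ) : ℂ) * (starRingEnd ℂ) (u ^ (k + 1)) := by
      unfold cq
      push_cast
      rw [map_pow]
      ring
    have hF : (-1 : ℂ) ^ (k + 1) * u ^ (k + 1) * ((2 * m).choose (m + (k + 1)) : ℂ) / 4 ^ m =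
        ((cq m (k + 1) : ℝ) : ℂ) * (u ^ (k + 1)) := by
      unfold cq
      push_cast
      ring
    rw [hE, hF, Complex.add_re, Complex.re_ofReal_mul, Complex.re_ofReal_mul,
      Complex.re_ofReal_mul, Complex.conj_re]
    ring

end Pool.Agent.Work.MP_d7cff0_an.AS
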