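import Pool.Agent.Work.MP_d7cff0_as.Interface

/-! # MP_d7cff0_an, THEOREM AS: block R2U -/

set_option autoImplicit false

noncomputable section

namespace Pool.Agent.Work.MP_d7cff0_an.AS

open MeasureTheory AddCircle Filter Topology Finset Polynomial
open scoped ENNReal

theorem R2U_int (T : ℝ) [Fact (0 < T)] {F : ℂ → ℝ} (hF : Continuous F) :
    Integrable (fun t : AddCircle T => F (fourier (T := T) 1 t)) (haarAddCircle (T := T)) :=
  (hF.comp (fourier (T := T) 1).continuous).integrable_of_hasCompactSupport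
    (HasCompactSupport.of_compactSpace _)

theorem R2U_mono (T : ℝ) [Fact (0 < T)] {F G : ℂ → ℝ} (hF : Continuous F) (hG : Continuous G)
    (h : ∀ z, F z ≤ G z) : cI T F ≤ cI T G :=
  integral_mono (R2U_int T hF) (R2U_int T hG) fun _ => h _

theorem R2U_lin (T : ℝ) [Fact (0 < T)] {F : ℂ → ℝ} (hF : Continuous F) (a b : ℝ) :
    cI T (fun z => a + b * F z) = a + b * cI T F := by
  unfold cI
  rw [integral_add (integrable_const a) ((R2U_int T hF).const_mul b), integral_const,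
    integral_const_mul, probReal_univ, one_smul]

theorem R2U_add (T : ℝ) [Fact (0 < T)] {F G : ℂ → ℝ} (hF : Continuous F) (hG : Continuous G) :
    cI T (fun z => F z + G z) = cI T F + cI T G := by
  unfold cI
  exact integral_add (R2U_int T hF) (R2U_int T hG)

theorem R2U_nonneg (T : ℝ) [Fact (0 < T)] {F : ℂ → ℝ} (h : ∀ z, 0 ≤ F z) : 0 ≤ cI T F :=
  integral_nonneg fun _ => h _

theorem R2U_pt1 (t ε : ℝ) (ht : 0 ≤ t) (hε : 0 < ε) :
    6 * ε * t ^ (1 + ε) ≤ 1 + 28 * ε ^ 2 * t ^ (2 + ε) := by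
  rcases ht.eq_or_lt with rfl | ht0
  · rw [Real.zero_rpow (by linarith), Real.zero_rpow (by linarith)]
    norm_num
  · rw [Real.rpow_add ht0, Real.rpow_add ht0, Real.rpow_one, Real.rpow_two]
    obtain ⟨y, hy⟩ : ∃ y, y = t ^ ε := ⟨_, rfl⟩
    have hy0 : 0 < y := by rw [hy]; exact Real.rpow_pos_of_pos ht0 ε
    rw [← hy]
    have h6 : 6 * (ε * t) ≤ 1 / 3 + 27 * (ε * t) ^ 2 := by nlinarith [sq_nonneg (1 - 9 * (ε * t))]
    rcases le_or_gt 1 (ε * t) with h | h
    · have h2 : 1 ≤ (ε * t) ^ 2 := one_le_pow₀ h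
      nlinarith [mul_le_mul_of_nonneg_right h6 hy0.le, mul_le_mul_of_nonneg_right h2 hy0.le]
    · have hy3 : y ≤ 3 := by
        have h1 : t ≤ Real.exp (1 / ε) := by
          have h2 : t ≤ 1 / ε := by
            rw [le_div_iff₀ hε]; linarith
          have h3 := Real.add_one_le_exp (1 / ε)
          linarith
        have h2 : t ^ ε ≤ Real.exp (1 / ε) ^ ε := Real.rpow_le_rpow ht h1 hε.le
        rw [← Real.exp_mul, one_div, inv_mul_cancel₀ hε.ne'] at h2
        rw [hy]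
        linarith [Real.exp_one_lt_d9]
      nlinarith [mul_le_mul_of_nonneg_right h6 hy0.le, mul_nonneg (sq_nonneg (ε * t)) hy0.le]

theorem R2U_pt2 (t η : ℝ) (ht : 0 ≤ t) (hη : 0 < η) (hη1 : η ≤ 1 / 9) :
    9 * η * t ^ (1 - η) ≤ 1 + 21 * η ^ 2 * t ^ (2 - η) := by
  rcases le_or_gt t 1 with h | h
  · have h1 : t ^ (1 - η) ≤ 1 := Real.rpow_le_one ht h (by linarith)
    have h2 : 0 ≤ t ^ (2 - η) := Real.rpow_nonneg ht _
    have h3 : 0 ≤ 21 * η ^ 2 * t ^ (2 - η) := by positivity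
    nlinarith
  · have ht0 : 0 < t := by linarith
    rw [sub_eq_add_neg, sub_eq_add_neg, Real.rpow_add ht0, Real.rpow_add ht0, Real.rpow_one,
      Real.rpow_two]
    obtain ⟨y, hy⟩ : ∃ y, y = t ^ (-η) := ⟨_, rfl⟩
    have hy0 : 0 < y := by rw [hy]; exact Real.rpow_pos_of_pos ht0 _
    have hy1 : y ≤ 1 := by
      rw [hy]; exact Real.rpow_le_one_of_one_le_of_nonpos h.le (by linarith)
    rw [← hy]
    have h6 : 9 * (η * t) ≤ 1 + 21 * (η * t) ^ 2 := by nlinarith [sq_nonneg (2 - 9 * (η * t))]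
    nlinarith [mul_le_mul_of_nonneg_right h6 hy0.le]

theorem R2U_re (T : ℝ) [Fact (0 < T)] (P : ℂ[X]) : cI T (fun z => (P.eval z).re) = (P.eval 0).re := by
  have h3 := integral_re (𝕜 := ℂ) (μ := haarAddCircle (T := T)) (f := fun t => pc (T := T) P t)
    ((pc (T := T) P).continuous.integrable_of_hasCompactSupport
      (HasCompactSupport.of_compactSpace _))
  have h4 : ∫ t, pc (T := T) P t ∂haarAddCircle = P.eval 0 := mean_pc P
  rw [h4] at h3
  simp only [pc_apply] at h3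
  exact h3

theorem p_R2U (hP : Stmt_U2P) (hM : Stmt_U2M) : Stmt_R2U := by
  refine ⟨42, 1 / 9, by norm_num, ?_⟩
  intro T _ p hp P hP0
  have hPc : Continuous fun z : ℂ => ‖P.eval z‖ := P.continuous.norm
  have hQc : Continuous fun z : ℂ => ‖P.eval z - 1‖ := (P.continuous.sub continuous_const).norm
  rw [abs_le] at hp
  have hc : ∀ s : ℝ, 0 < s → Continuous fun z : ℂ => ‖P.eval z‖ ^ s := fun s hs =>
    hPc.rpow_const fun _ => Or.inr hs.le
  have hc' : ∀ s : ℝ, 0 < s → Continuous fun z : ℂ => ‖P.eval z - 1‖ ^ s := fun s hs =>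
    hQc.rpow_const fun _ => Or.inr hs.le
  have hn : ∀ s : ℝ, 0 ≤ cI T (fun z => ‖P.eval z‖ ^ s) := fun s =>
    R2U_nonneg T fun z => Real.rpow_nonneg (norm_nonneg _) _
  have hn' : ∀ s : ℝ, 0 ≤ cI T (fun z => ‖P.eval z - 1‖ ^ s) := fun s =>
    R2U_nonneg T fun z => Real.rpow_nonneg (norm_nonneg _) _
  rcases lt_trichotomy p 2 with h | h | h
  · obtain ⟨η, hη⟩ : ∃ η, η = 2 - p := ⟨_, rfl⟩
    obtain rfl : p = 2 - η := by rw [hη]; ring
    have hη0 : 0 < η := by linarith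
    have hη1 : η ≤ 1 / 9 := by linarith
    have h1 := hM T η P hη0 (by linarith) hP0
    have h2 : cI T (fun z => 0 + (9 * η) * ‖P.eval z - 1‖ ^ (1 - η)) ≤
        cI T (fun z => 1 + (21 * η ^ 2) * ‖P.eval z - 1‖ ^ (2 - η)) := by
      refine R2U_mono T (continuous_const.add (continuous_const.mul (hc' _ (by linarith))))
        (continuous_const.add (continuous_const.mul (hc' _ (by linarith)))) fun z => ?_
      rw [zero_add]
      exact R2U_pt2 _ _ (norm_nonneg _) hη0 hη1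
    rw [R2U_lin T (hc' _ (by linarith)), R2U_lin T (hc' _ (by linarith)), zero_add] at h2
    obtain ⟨A, hA⟩ : ∃ A, A = cI T (fun z => ‖P.eval z‖ ^ (2 - η)) := ⟨_, rfl⟩
    obtain ⟨B, hB⟩ : ∃ B, B = cI T (fun z => ‖P.eval z - 1‖ ^ (2 - η)) := ⟨_, rfl⟩
    have hA0 : 0 ≤ A := by rw [hA]; exact hn _
    have hB0 : 0 ≤ B := by rw [hB]; exact hn' _
    rw [← hA, ← hB] at h1
    rw [← hB] at h2
    rw [← hA, ← hB]
    have h3 : (1 - 21 * η ^ 2) * B ≤ A := by linarith
    have h4 : (2 - η - 2) ^ 2 = η ^ 2 := by ring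
    rw [h4]
    have h5 : η ^ 2 ≤ 1 / 81 := by nlinarith
    have h6 : 1 ≤ (1 + 42 * η ^ 2) * (1 - 21 * η ^ 2) := by nlinarith [sq_nonneg η]
    have h7 : 0 ≤ 1 + 42 * η ^ 2 := by positivity
    calc B = 1 * B := (one_mul B).symm
      _ ≤ ((1 + 42 * η ^ 2) * (1 - 21 * η ^ 2)) * B := mul_le_mul_of_nonneg_right h6 hB0
      _ = (1 + 42 * η ^ 2) * ((1 - 21 * η ^ 2) * B) := by ring
      _ ≤ (1 + 42 * η ^ 2) * A := mul_le_mul_of_nonneg_left h3 h7
  · subst h
    have h1 : ∀ z, ‖P.eval z‖ ^ (2 : ℝ) = ‖P.eval z - 1‖ ^ (2 : ℝ) + (-1 + 2 * (P.eval z).re) := by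
      intro z
      rw [Real.rpow_two, Real.rpow_two, Complex.sq_norm, Complex.sq_norm, Complex.normSq_apply,
        Complex.normSq_apply, Complex.sub_re, Complex.sub_im, Complex.one_re, Complex.one_im]
      ring
    have h2 : cI T (fun z => ‖P.eval z‖ ^ (2 : ℝ)) =
        cI T (fun z => ‖P.eval z - 1‖ ^ (2 : ℝ)) + (-1 + 2 * 1) := by
      have hre : Continuous fun z => (P.eval z).re := Complex.continuous_re.comp P.continuous
      simp only [h1]
      have e1 := R2U_add T (F := fun z => ‖P.eval z - 1‖ ^ (2 : ℝ))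
        (G := fun z => -1 + 2 * (P.eval z).re) (hc' 2 (by norm_num))
        (continuous_const.add (continuous_const.mul hre))
      have e2 := R2U_lin T hre (-1) 2
      rw [R2U_re, hP0, Complex.one_re] at e2
      rw [e2] at e1
      exact e1
    rw [h2]
    norm_num
  · obtain ⟨ε, hε⟩ : ∃ ε, ε = p - 2 := ⟨_, rfl⟩
    obtain rfl : p = 2 + ε := by rw [hε]; ring
    have hε0 : 0 < ε := by linarith
    have h1 := hP T ε P hε0 (by linarith) hP0
    have h2 : cI T (fun z => 0 + (6 * ε) * ‖P.eval z‖ ^ (1 + ε)) ≤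
        cI T (fun z => 1 + (28 * ε ^ 2) * ‖P.eval z‖ ^ (2 + ε)) := by
      refine R2U_mono T (continuous_const.add (continuous_const.mul (hc _ (by linarith))))
        (continuous_const.add (continuous_const.mul (hc _ (by linarith)))) fun z => ?_
      rw [zero_add]
      exact R2U_pt1 _ _ (norm_nonneg _) hε0
    rw [R2U_lin T (hc _ (by linarith)), R2U_lin T (hc _ (by linarith)), zero_add] at h2
    obtain ⟨A, hA⟩ : ∃ A, A = cI T (fun z => ‖P.eval z‖ ^ (2 + ε)) := ⟨_, rfl⟩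
    obtain ⟨B, hB⟩ : ∃ B, B = cI T (fun z => ‖P.eval z - 1‖ ^ (2 + ε)) := ⟨_, rfl⟩
    have hA0 : 0 ≤ A := by rw [hA]; exact hn _
    rw [← hA, ← hB] at h1
    rw [← hA] at h2
    rw [← hA, ← hB]
    have h4 : (2 + ε - 2) ^ 2 = ε ^ 2 := by ring
    rw [h4]
    have h5 : 0 ≤ ε ^ 2 * A := by positivity
    nlinarith

end Pool.Agent.Work.MP_d7cff0_an.AS
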