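import Pool.Agent.Work.MP_d7cff0_as.Interface

/-! Block R3U: the upper bound for large `p`. -/

set_option autoImplicit false

noncomputable section

namespace Pool.Agent.Work.MP_d7cff0_an.AS

open MeasureTheory AddCircle Filter Topology Finset Polynomial
open scoped ENNReal

/-- The integral of the real part of a polynomial. -/
theorem R3U_re (T : ℝ) [Fact (0 < T)] (Q : ℂ[X]) :
    ∫ t : AddCircle T, (Q.eval (fourier (T := T) 1 t)).re ∂haarAddCircle = (Q.eval 0).re := by
  have h := mean_pc (T := T) Q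
  unfold mean at h
  simp only [pc_apply] at h
  rw [← h]
  have hi : Integrable (fun t : AddCircle T => Q.eval (fourier (T := T) 1 t)) haarAddCircle :=
    integrable_cont (Q.continuous.comp (fourier (T := T) 1).continuous)
  exact Complex.reCLM.integral_comp_comm hi

/-- `∫ |P| ^ p ≥ 1` if `P(0) = 1`. -/
theorem R3U_one (T : ℝ) [Fact (0 < T)] {p : ℝ} (hp : 1 ≤ p) (P : ℂ[X]) (hP : P.eval 0 = 1) :
    1 ≤ ∫ t : AddCircle T, ‖P.eval (fourier (T := T) 1 t)‖ ^ p ∂haarAddCircle := by
  have hc : Continuous (fun t : AddCircle T => P.eval (fourier (T := T) 1 t)) :=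
    P.continuous.comp (fourier (T := T) 1).continuous
  have hi1 : Integrable (fun t : AddCircle T => ‖P.eval (fourier (T := T) 1 t)‖) haarAddCircle :=
    integrable_cont hc.norm
  have hi2 : Integrable (fun t : AddCircle T => ‖P.eval (fourier (T := T) 1 t)‖ ^ p)
      haarAddCircle :=
    integrable_cont (hc.norm.rpow_const fun _ => Or.inr (by linarith))
  have h1 : 1 ≤ ∫ t : AddCircle T, ‖P.eval (fourier (T := T) 1 t)‖ ∂haarAddCircle := by
    have h2 := mean_pc (T := T) P
    unfold mean at h2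
    simp only [pc_apply] at h2
    have h3 := norm_integral_le_integral_norm (μ := haarAddCircle (T := T))
      (fun t : AddCircle T => P.eval (fourier (T := T) 1 t))
    rw [h2, hP, norm_one] at h3
    exact h3
  have h4 : ∫ t : AddCircle T, (1 + p * (‖P.eval (fourier (T := T) 1 t)‖ - 1)) ∂haarAddCircle ≤
      ∫ t : AddCircle T, ‖P.eval (fourier (T := T) 1 t)‖ ^ p ∂haarAddCircle := by
    apply integral_mono
    · exact integrable_cont (by fun_prop)
    · exact hi2
    · intro t
      have h5 := one_add_mul_self_le_rpow_one_add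
        (s := ‖P.eval (fourier (T := T) 1 t)‖ - 1)
        (by linarith [norm_nonneg (P.eval (fourier (T := T) 1 t))]) hp
      have e : 1 + (‖P.eval (fourier (T := T) 1 t)‖ - 1) = ‖P.eval (fourier (T := T) 1 t)‖ := by
        ring
      rw [e] at h5
      exact h5
  have h6 : ∫ t : AddCircle T, (1 + p * (‖P.eval (fourier (T := T) 1 t)‖ - 1)) ∂haarAddCircle =
      1 + p * ((∫ t : AddCircle T, ‖P.eval (fourier (T := T) 1 t)‖ ∂haarAddCircle) - 1) := by
    have hi3 : Integrable (fun t : AddCircle T =>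
        p * (‖P.eval (fourier (T := T) 1 t)‖ - 1)) haarAddCircle :=
      (hi1.sub (integrable_const _)).const_mul _
    rw [integral_add (integrable_const _) hi3,
      integral_const_mul, integral_sub hi1 (integrable_const _)]
    simp
  rw [h6] at h4
  have h7 : 0 ≤ p * ((∫ t : AddCircle T, ‖P.eval (fourier (T := T) 1 t)‖ ∂haarAddCircle) - 1) :=
    mul_nonneg (by linarith) (by linarith)
  linarith

theorem R3U_c0_pos : 0 < c0 := by
  unfold c0
  positivity

/-- The integral of the certificate. -/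
theorem R3U_int (T : ℝ) [Fact (0 < T)] {ε p : ℝ} (hp : 1 ≤ p) (P : ℂ[X]) (hP : P.eval 0 = 1)
    (a b c : ℝ) :
    Integrable (fun t : AddCircle T => a * (b * VV ε p (P.eval (fourier (T := T) 1 t)) +
      c * (1 + ‖P.eval (fourier (T := T) 1 t)‖ ^ p))) haarAddCircle ∧
    ∫ t : AddCircle T, a * (b * VV ε p (P.eval (fourier (T := T) 1 t)) +
      c * (1 + ‖P.eval (fourier (T := T) 1 t)‖ ^ p)) ∂haarAddCircle =
    a * (b * (c0 * ∫ t : AddCircle T, ‖P.eval (fourier (T := T) 1 t)‖ ^ p ∂haarAddCircle) +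
      c * (1 + ∫ t : AddCircle T, ‖P.eval (fourier (T := T) 1 t)‖ ^ p ∂haarAddCircle)) := by
  have hc : Continuous (fun t : AddCircle T => P.eval (fourier (T := T) 1 t)) :=
    P.continuous.comp (fourier (T := T) 1).continuous
  set Q : ℂ[X] := (qp (mm ε p)).comp (C ((1 / RR p : ℝ) : ℂ) * P) with hQ
  have hQe : ∀ z : ℂ, Q.eval z = (qp (mm ε p)).eval (P.eval z / (RR p : ℂ)) := by
    intro z
    rw [hQ, eval_comp, eval_mul, eval_C]
    congr 1
    push_cast
    ring
  have hi2 : Integrable (fun t : AddCircle T => ‖P.eval (fourier (T := T) 1 t)‖ ^ p)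
      haarAddCircle :=
    integrable_cont (hc.norm.rpow_const fun _ => Or.inr (by linarith))
  have hi3 : Integrable (fun t : AddCircle T => (Q.eval (fourier (T := T) 1 t)).re)
      haarAddCircle :=
    integrable_cont (Complex.continuous_re.comp (Q.continuous.comp (fourier (T := T) 1).continuous))
  have h3 : ∫ t : AddCircle T, (Q.eval (fourier (T := T) 1 t)).re ∂haarAddCircle =
      qa (mm ε p) (1 / RR p) := by
    rw [R3U_re, hQ, eval_comp, eval_mul, eval_C, hP, mul_one]
    rfl
  have e : ∀ t : AddCircle T, a * (b * VV ε p (P.eval (fourier (T := T) 1 t)) +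
      c * (1 + ‖P.eval (fourier (T := T) 1 t)‖ ^ p)) =
      (a * b * c0 + a * c) * ‖P.eval (fourier (T := T) 1 t)‖ ^ p +
      (a * b * (1 / (4 * c0) * p ^ (3 / 2 : ℝ)) * (Q.eval (fourier (T := T) 1 t)).re +
      (a * c - a * b * (1 / (4 * c0) * p ^ (3 / 2 : ℝ)) * qa (mm ε p) (1 / RR p))) := by
    intro t
    rw [hQe]
    unfold VV
    ring
  have hI1 := hi2.const_mul (a * b * c0 + a * c)
  have hI2 := hi3.const_mul (a * b * (1 / (4 * c0) * p ^ (3 / 2 : ℝ)))
  have hI3 := integrable_const (μ := haarAddCircle (T := T))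
    (a * c - a * b * (1 / (4 * c0) * p ^ (3 / 2 : ℝ)) * qa (mm ε p) (1 / RR p))
  have hI4 : Integrable (fun t : AddCircle T =>
      a * b * (1 / (4 * c0) * p ^ (3 / 2 : ℝ)) * (Q.eval (fourier (T := T) 1 t)).re +
      (a * c - a * b * (1 / (4 * c0) * p ^ (3 / 2 : ℝ)) * qa (mm ε p) (1 / RR p)))
      haarAddCircle := hI2.add hI3
  simp only [e]
  refine ⟨hI1.add hI4, ?_⟩
  rw [integral_add hI1 hI4, integral_add hI2 hI3, integral_const_mul,
    integral_const_mul, h3]
  simp only [integral_const, probReal_univ, one_smul]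
  ring

theorem p_R3U (hPW : Stmt_PW) : Stmt_R3U := by
  intro T hT ε hε
  obtain ⟨K, hK⟩ := hPW
  set K' : ℝ := max K 0 with hK'
  have hK0 : 0 ≤ K' := le_max_right _ _
  have hKK : K ≤ K' := le_max_left _ _
  have hc0 := R3U_c0_pos
  set D : ℝ := (c0 + 2) * K' + 1 with hD
  have hD0 : 0 < D := by
    rw [hD]
    positivity
  set e : ℝ := min (1 / 20) (ε / D) with he
  have he0 : 0 < e := lt_min (by norm_num) (by positivity)
  have he1 : e < 1 / 10 := lt_of_le_of_lt (min_le_left _ _) (by norm_num)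
  have he2 : e * D ≤ ε := by
    have h1 : e ≤ ε / D := min_le_right _ _
    calc e * D ≤ ε / D * D := mul_le_mul_of_nonneg_right h1 hD0.le
      _ = ε := div_mul_cancel₀ ε hD0.ne'
  obtain ⟨p₀, hp₀⟩ := hK e he0 he1
  refine ⟨max p₀ 1, fun p hp P hP => ?_⟩
  have hp1 : 1 ≤ p := le_trans (le_max_right _ _) hp
  have hpp : p₀ ≤ p := le_trans (le_max_left _ _) hp
  unfold cI
  have hc : Continuous (fun t : AddCircle T => P.eval (fourier (T := T) 1 t)) :=
    P.continuous.comp (fourier (T := T) 1).continuous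
  obtain ⟨hint, hval⟩ := R3U_int T (ε := e) hp1 P hP (2 ^ p * p ^ (-(3 / 4) : ℝ)) (1 + K * e)
    (K * e)
  have hE := R3U_one T hp1 P hP
  set E : ℝ := ∫ t : AddCircle T, ‖P.eval (fourier (T := T) 1 t)‖ ^ p ∂haarAddCircle with hEd
  have h1 : ∫ t : AddCircle T, ‖P.eval (fourier (T := T) 1 t) - 1‖ ^ p ∂haarAddCircle ≤
      2 ^ p * p ^ (-(3 / 4) : ℝ) * ((1 + K * e) * (c0 * E) + K * e * (1 + E)) := by
    rw [← hval]
    apply integral_mono
    · exact integrable_cont ((hc.sub continuous_const).norm.rpow_const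
        fun _ => Or.inr (by linarith))
    · exact hint
    · intro t
      exact hp₀ p hpp (P.eval (fourier (T := T) 1 t))
  have hpos : 0 < 2 ^ p * p ^ (-(3 / 4) : ℝ) := by
    have : 0 < p := by linarith
    positivity
  have h2 : (1 + K * e) * (c0 * E) + K * e * (1 + E) ≤ (c0 + ε) * E := by
    have hE0 : 0 ≤ E := by linarith
    have a1 : K * e * (c0 * E) ≤ K' * e * (c0 * E) := by gcongr
    have a2 : K * e * (1 + E) ≤ K' * e * (1 + E) := by gcongr
    have a3 : K' * e * (1 + E) ≤ K' * e * (2 * E) := by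
      apply mul_le_mul_of_nonneg_left _ (by positivity)
      linarith
    have a4 : K' * e * ((c0 + 2) * E) ≤ ε * E := by
      have a5 : K' * e * (c0 + 2) ≤ e * D := by
        rw [hD]
        nlinarith
      calc K' * e * ((c0 + 2) * E) = K' * e * (c0 + 2) * E := by ring
        _ ≤ ε * E := mul_le_mul_of_nonneg_right (a5.trans he2) hE0
    nlinarith
  calc ∫ t : AddCircle T, ‖P.eval (fourier (T := T) 1 t) - 1‖ ^ p ∂haarAddCircle
      ≤ 2 ^ p * p ^ (-(3 / 4) : ℝ) * ((1 + K * e) * (c0 * E) + K * e * (1 + E)) := h1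
    _ ≤ 2 ^ p * p ^ (-(3 / 4) : ℝ) * ((c0 + ε) * E) := mul_le_mul_of_nonneg_left h2 hpos.le
    _ = (c0 + ε) * 2 ^ p * p ^ (-(3 / 4) : ℝ) * E := by ring

end Pool.Agent.Work.MP_d7cff0_an.AS
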