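import Pool.Agent.Work.MP_d7cff0_as.Interface2

set_option autoImplicit false

noncomputable section

namespace Pool.Agent.Work.MP_d7cff0_an.AS

open MeasureTheory AddCircle Filter Topology Finset Polynomial
open scoped ENNReal

/-- `|e ^ x - 1| ≤ |x| max(1, e ^ x)` -/
theorem XPN_exp (x : ℝ) : |Real.exp x - 1| ≤ |x| * max 1 (Real.exp x) := by
  rcases le_total x 0 with hx | hx
  · have h1 : Real.exp x ≤ 1 := Real.exp_le_one_iff.2 hx
    have h2 : x + 1 ≤ Real.exp x := Real.add_one_le_exp x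
    rw [max_eq_left h1, abs_of_nonpos hx, abs_of_nonpos (by linarith)]
    linarith
  · have h1 : 1 ≤ Real.exp x := Real.one_le_exp hx
    have h2 : -x + 1 ≤ Real.exp (-x) := Real.add_one_le_exp (-x)
    rw [max_eq_right h1, abs_of_nonneg hx, abs_of_nonneg (by linarith)]
    have h3 : Real.exp (-x) * Real.exp x = 1 := by rw [← Real.exp_add]; simp
    have h4 : 0 < Real.exp x := Real.exp_pos x
    nlinarith

theorem XPN_small {t ε : ℝ} (h0 : 0 ≤ t) (h3 : t ≤ 3) (hε : |ε| ≤ 1 / 4) :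
    |t ^ (2 + ε) - t ^ (2 : ℝ)| ≤ 36 * |ε| := by
  obtain ⟨he1, he2⟩ := abs_le.1 hε
  rcases h0.eq_or_lt with h | ht
  · rw [← h, Real.zero_rpow (by linarith), Real.zero_rpow (by norm_num)]
    simp only [sub_self, abs_zero]
    positivity
  have hE : t ^ (2 + ε) = t ^ (2 : ℝ) * Real.exp (ε * Real.log t) := by
    rw [Real.rpow_add ht, Real.rpow_def_of_pos ht ε, mul_comm (Real.log t) ε]
  have hEq : t ^ (2 + ε) - t ^ (2 : ℝ) = t ^ (2 : ℝ) * (Real.exp (ε * Real.log t) - 1) := by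
    rw [hE]; ring
  have ht2 : 0 < t ^ (2 : ℝ) := Real.rpow_pos_of_pos ht 2
  rcases le_total t 1 with h1 | h1
  · have hl := Real.abs_log_mul_self_lt t ht h1
    have hexp := XPN_exp (ε * Real.log t)
    rw [hEq, abs_mul, abs_of_pos ht2]
    have ha : t ^ (2 : ℝ) ≤ t := by
      have := Real.rpow_le_rpow_of_exponent_ge ht h1 (by norm_num : (1 : ℝ) ≤ 2)
      simpa using this
    have hb : t ^ (2 : ℝ) * Real.exp (ε * Real.log t) ≤ t := by
      rw [← hE]
      have := Real.rpow_le_rpow_of_exponent_ge ht h1 (by linarith : (1 : ℝ) ≤ 2 + ε)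
      simpa using this
    have hc : t ^ (2 : ℝ) * max 1 (Real.exp (ε * Real.log t)) ≤ t := by
      rw [mul_max_of_nonneg _ _ ht2.le]
      exact max_le (by linarith) hb
    calc t ^ (2 : ℝ) * |Real.exp (ε * Real.log t) - 1|
        ≤ t ^ (2 : ℝ) * (|ε * Real.log t| * max 1 (Real.exp (ε * Real.log t))) :=
          mul_le_mul_of_nonneg_left hexp ht2.le
      _ = (t ^ (2 : ℝ) * max 1 (Real.exp (ε * Real.log t))) * |ε * Real.log t| := by ring
      _ ≤ t * |ε * Real.log t| := mul_le_mul_of_nonneg_right hc (abs_nonneg _)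
      _ = |ε| * |Real.log t * t| := by rw [abs_mul, abs_mul, abs_of_pos ht]; ring
      _ ≤ |ε| * 1 := mul_le_mul_of_nonneg_left hl.le (abs_nonneg _)
      _ ≤ 36 * |ε| := by nlinarith [abs_nonneg ε]
  · have hl0 : 0 ≤ Real.log t := Real.log_nonneg h1
    have hl2 : Real.log t ≤ 2 := by
      have := Real.log_le_sub_one_of_pos ht
      linarith
    have hx : |ε * Real.log t| ≤ 2 * |ε| := by
      rw [abs_mul, abs_of_nonneg hl0]
      nlinarith [abs_nonneg ε]
    have hx1 : |ε * Real.log t| ≤ 1 := by linarith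
    have hexp := Real.abs_exp_sub_one_le hx1
    have h9 : t ^ (2 : ℝ) ≤ 9 := by
      rw [Real.rpow_two]; nlinarith
    rw [hEq, abs_mul, abs_of_pos ht2]
    calc t ^ (2 : ℝ) * |Real.exp (ε * Real.log t) - 1|
        ≤ 9 * (2 * (2 * |ε|)) := mul_le_mul h9 (by linarith) (abs_nonneg _) (by norm_num)
      _ = 36 * |ε| := by ring

/-- `R(t) = t^(2+ε) - t^2 - ε t^2 log t` -/
def XPN_R (ε t : ℝ) : ℝ := t ^ (2 + ε) - t ^ 2 - ε * (t ^ 2 * Real.log t)

theorem XPN_R_deriv {t : ℝ} (ε : ℝ) (ht : 0 < t) :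
    HasDerivAt (XPN_R ε) (2 * t * (Real.exp (ε * Real.log t) - 1 - ε * Real.log t) +
      ε * t * (Real.exp (ε * Real.log t) - 1)) t := by
  have h1 : HasDerivAt (fun t : ℝ => t ^ (2 + ε)) ((2 + ε) * t ^ (2 + ε - 1)) t :=
    Real.hasDerivAt_rpow_const (Or.inl ht.ne')
  have h2 : HasDerivAt (fun t : ℝ => t ^ 2) (2 * t) t := by
    simpa using hasDerivAt_pow 2 t
  have h3 : HasDerivAt Real.log t⁻¹ t := Real.hasDerivAt_log ht.ne'
  have h4 : HasDerivAt (fun t : ℝ => ε * (t ^ 2 * Real.log t)) (ε * (2 * t * Real.log t + t ^ 2 * t⁻¹)) t :=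
    (h2.mul h3).const_mul ε
  have h5 := (h1.sub h2).sub h4
  have h6 : t ^ (2 + ε - 1) = t * Real.exp (ε * Real.log t) := by
    rw [show 2 + ε - 1 = 1 + ε by ring, Real.rpow_add ht, Real.rpow_one, Real.rpow_def_of_pos ht ε, mul_comm (Real.log t) ε]
  have h7 : t ^ 2 * t⁻¹ = t := by field_simp
  rw [h6, h7] at h5
  refine h5.congr_deriv ?_
  ring

/-- bounds for `log` -/
theorem XPN_log {u e K κ : ℝ} (hu : 1 ≤ u) (he : 0 ≤ e) (hK : e * u ≤ K) (hκ : 0 < κ) (hκu : 1 ≤ u * κ ^ 2) :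
    e * Real.log u ≤ 4 * K * κ ∧ e * Real.log u ^ 2 ≤ 16 * K * κ := by
  have hu0 : 0 < u := by linarith
  set s : ℝ := u ^ (1 / 4 : ℝ) with hs
  have hs0 : 0 < s := Real.rpow_pos_of_pos hu0 _
  have hs1 : 1 ≤ s := Real.one_le_rpow hu (by norm_num)
  have hs4 : s ^ 4 = u := by
    rw [hs, ← Real.rpow_natCast, ← Real.rpow_mul hu0.le]
    norm_num
  have hL : Real.log u ≤ 4 * s := by
    have := Real.log_le_rpow_div hu0.le (by norm_num : (0 : ℝ) < 1 / 4)
    rw [← hs] at this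
    linarith
  have hL0 : 0 ≤ Real.log u := Real.log_nonneg hu
  have hk : 1 ≤ s ^ 2 * κ := by
    have h1 : 1 ≤ (s ^ 2 * κ) ^ 2 := by
      calc (1 : ℝ) ≤ u * κ ^ 2 := hκu
        _ = (s ^ 2 * κ) ^ 2 := by rw [← hs4]; ring
    have h2 : 0 < s ^ 2 * κ := by positivity
    nlinarith
  have hes : e * s ^ 2 ≤ K * κ := by
    calc e * s ^ 2 ≤ e * s ^ 2 * (s ^ 2 * κ) := le_mul_of_one_le_right (by positivity) hk
      _ = e * s ^ 4 * κ := by ring
      _ = e * u * κ := by rw [hs4]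
      _ ≤ K * κ := mul_le_mul_of_nonneg_right hK hκ.le
  constructor
  · calc e * Real.log u ≤ e * (4 * s) := mul_le_mul_of_nonneg_left hL he
      _ ≤ e * (4 * s ^ 2) := mul_le_mul_of_nonneg_left (by nlinarith) he
      _ = 4 * (e * s ^ 2) := by ring
      _ ≤ 4 * (K * κ) := by linarith
      _ = 4 * K * κ := by ring
  · calc e * Real.log u ^ 2 ≤ e * (4 * s) ^ 2 := mul_le_mul_of_nonneg_left (pow_le_pow_left₀ hL0 hL 2) he
      _ = 16 * (e * s ^ 2) := by ring
      _ ≤ 16 * (K * κ) := by linarith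
      _ = 16 * K * κ := by ring

/-- the remainder is small for `t ≥ 1` -/
theorem XPN_R_diff {u ε K κ a b : ℝ} (hu : 1 ≤ u) (hK : |ε| * u ≤ K) (hκ : 0 < κ)
    (hκu : 1 ≤ u * κ ^ 2) (hκ1 : 4 * K * κ ≤ 1) (ha1 : 1 ≤ a) (hau : a ≤ u) (hb1 : 1 ≤ b) (hbu : b ≤ u)
    (hab : |a - b| ≤ 1) : |XPN_R ε a - XPN_R ε b| ≤ 40 * K ^ 2 * κ := by
  obtain ⟨hl1, hl2⟩ := XPN_log hu (abs_nonneg ε) hK hκ hκu
  have hK0 : 0 ≤ K := le_trans (by positivity) hK
  have hbound : ∀ t ∈ Set.Icc (1 : ℝ) u, ‖2 * t * (Real.exp (ε * Real.log t) - 1 - ε * Real.log t) +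
      ε * t * (Real.exp (ε * Real.log t) - 1)‖ ≤ 40 * K ^ 2 * κ := by
    intro t ht
    have ht0 : 0 < t := by linarith [ht.1]
    have hlt0 : 0 ≤ Real.log t := Real.log_nonneg ht.1
    have hlt : Real.log t ≤ Real.log u := Real.log_le_log ht0 ht.2
    have hlu0 : 0 ≤ Real.log u := Real.log_nonneg hu
    have hx : |ε * Real.log t| ≤ 4 * K * κ := by
      rw [abs_mul, abs_of_nonneg hlt0]
      exact le_trans (mul_le_mul_of_nonneg_left hlt (abs_nonneg _)) hl1
    have hx1 : |ε * Real.log t| ≤ 1 := by linarith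
    have h1 := Real.abs_exp_sub_one_sub_id_le hx1
    have h2 := Real.abs_exp_sub_one_le hx1
    have hxx : |ε| * |ε * Real.log t| ≤ |ε| * (|ε| * Real.log u) := by
      refine mul_le_mul_of_nonneg_left ?_ (abs_nonneg _)
      rw [abs_mul, abs_of_nonneg hlt0]
      exact mul_le_mul_of_nonneg_left hlt (abs_nonneg _)
    have hx2 : (ε * Real.log t) ^ 2 ≤ |ε| * (|ε| * Real.log u ^ 2) := by
      have : (ε * Real.log t) ^ 2 = |ε| * (|ε| * Real.log t ^ 2) := by
        rw [← mul_assoc, ← sq, sq_abs]; ring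
      rw [this]
      exact mul_le_mul_of_nonneg_left (mul_le_mul_of_nonneg_left (pow_le_pow_left₀ hlt0 hlt 2) (abs_nonneg _)) (abs_nonneg _)
    have hte : t * |ε| ≤ K := by
      refine le_trans ?_ hK
      rw [mul_comm]
      exact mul_le_mul_of_nonneg_left ht.2 (abs_nonneg _)
    rw [Real.norm_eq_abs]
    calc |2 * t * (Real.exp (ε * Real.log t) - 1 - ε * Real.log t) + ε * t * (Real.exp (ε * Real.log t) - 1)|
        ≤ |2 * t * (Real.exp (ε * Real.log t) - 1 - ε * Real.log t)| + |ε * t * (Real.exp (ε * Real.log t) - 1)| :=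
          abs_add_le _ _
      _ = 2 * t * |Real.exp (ε * Real.log t) - 1 - ε * Real.log t| + |ε| * t * |Real.exp (ε * Real.log t) - 1| := by
          rw [abs_mul, abs_mul (ε * t), abs_mul ε, abs_of_pos ht0, abs_of_pos (by linarith : 0 < 2 * t)]
      _ ≤ 2 * t * (ε * Real.log t) ^ 2 + |ε| * t * (2 * |ε * Real.log t|) := by
          refine add_le_add (mul_le_mul_of_nonneg_left h1 (by linarith)) (mul_le_mul_of_nonneg_left h2 (by positivity))
      _ = 2 * t * (ε * Real.log t) ^ 2 + 2 * t * (|ε| * |ε * Real.log t|) := by ring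
      _ ≤ 2 * t * (|ε| * (|ε| * Real.log u ^ 2)) + 2 * t * (|ε| * (|ε| * Real.log u)) :=
          add_le_add (mul_le_mul_of_nonneg_left hx2 (by linarith)) (mul_le_mul_of_nonneg_left hxx (by linarith))
      _ = 2 * (t * |ε|) * (|ε| * Real.log u ^ 2 + |ε| * Real.log u) := by ring
      _ ≤ 2 * K * (16 * K * κ + 4 * K * κ) := by
          refine mul_le_mul (by linarith) (add_le_add hl2 hl1) (by positivity) (by positivity)
      _ = 40 * K ^ 2 * κ := by ring
  have hmvt := (convex_Icc (1 : ℝ) u).norm_image_sub_le_of_norm_hasDerivWithin_le (f := XPN_R ε)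
    (f' := fun t => 2 * t * (Real.exp (ε * Real.log t) - 1 - ε * Real.log t) +
      ε * t * (Real.exp (ε * Real.log t) - 1)) (C := 40 * K ^ 2 * κ)
    (fun t ht => (XPN_R_deriv ε (by linarith [ht.1])).hasDerivWithinAt) hbound
    (show b ∈ Set.Icc (1 : ℝ) u from ⟨hb1, hbu⟩) (show a ∈ Set.Icc (1 : ℝ) u from ⟨ha1, hau⟩)
  rw [Real.norm_eq_abs, Real.norm_eq_abs] at hmvt
  refine hmvt.trans ?_
  exact mul_le_of_le_one_right (by positivity) hab

theorem p_XPN : Stmt_XPN := by
  intro M δ hM hδ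
  set K : ℝ := M + 1 with hKdef
  have hK1 : 1 ≤ K := by linarith
  have hK0 : 0 < K := by linarith
  set κ : ℝ := min (δ / (100 * K ^ 2)) (1 / (4 * K)) with hκdef
  have hκ : 0 < κ := by
    rw [hκdef]; exact lt_min (by positivity) (by positivity)
  have hκ1 : κ ≤ δ / (100 * K ^ 2) := min_le_left _ _
  have hκ2 : κ ≤ 1 / (4 * K) := min_le_right _ _
  have hκ3 : 100 * K ^ 2 * κ ≤ δ := by
    have := (le_div_iff₀ (by positivity : 0 < 100 * K ^ 2)).1 hκ1
    linarith
  have hκ4 : 4 * K * κ ≤ 1 := by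
    have := (le_div_iff₀ (by positivity : 0 < 4 * K)).1 hκ2
    linarith
  refine ⟨min (1 / 4) (min (M * κ ^ 2) (δ / 100)), ?_, min_le_left _ _, ?_⟩
  · exact lt_min (by norm_num) (lt_min (by positivity) (by positivity))
  intro ε hε0 hε w hw
  have hε1 : |ε| ≤ 1 / 4 := hε.trans (min_le_left _ _)
  have hε2 : |ε| ≤ M * κ ^ 2 := hε.trans ((min_le_right _ _).trans (min_le_left _ _))
  have hε3 : |ε| ≤ δ / 100 := hε.trans ((min_le_right _ _).trans (min_le_right _ _))
  obtain ⟨he1, he2⟩ := abs_le.1 hε1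
  set a : ℝ := ‖1 + w‖ with hadef
  set b : ℝ := ‖w‖ with hbdef
  have ha0 : 0 ≤ a := norm_nonneg _
  have hb0 : 0 ≤ b := norm_nonneg _
  have hab1 : a ≤ b + 1 := by
    have := norm_add_le (1 : ℂ) w
    rw [norm_one] at this
    linarith
  have hab2 : b ≤ a + 1 := by
    have := norm_sub_le (1 + w) 1
    rw [norm_one] at this
    simpa using this
  have hab : |a - b| ≤ 1 := abs_le.2 ⟨by linarith, by linarith⟩
  have hsq : a ^ 2 - b ^ 2 = 1 + 2 * w.re := by
    rw [hadef, hbdef, ← Complex.normSq_eq_norm_sq, ← Complex.normSq_eq_norm_sq, Complex.normSq_apply, Complex.normSq_apply]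
    simp only [Complex.add_re, Complex.one_re, Complex.add_im, Complex.one_im]
    ring
  have hre : |w.re| ≤ b := Complex.abs_re_le_norm w
  rcases le_total b 2 with hb2 | hb2
  · -- bounded region
    have h1 := XPN_small ha0 (by linarith) hε1
    have h2 := XPN_small hb0 (by linarith) hε1
    have hlog : |w.re * Real.log b| ≤ 2 := by
      rcases hb0.eq_or_lt with h | hbp
      · rw [← h]; simp
      rcases le_total b 1 with h | h
      · have hl := Real.abs_log_mul_self_lt b hbp h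
        rw [abs_mul] at hl ⊢
        rw [abs_of_pos hbp] at hl
        nlinarith [abs_nonneg (Real.log b)]
      · have hl0 := Real.log_nonneg h
        have hl1 := Real.log_le_sub_one_of_pos hbp
        rw [abs_mul, abs_of_nonneg hl0]
        calc |w.re| * Real.log b ≤ 2 * 1 := mul_le_mul (by linarith) (by linarith) hl0 (by norm_num)
          _ = 2 := by norm_num
    have hEq : a ^ (2 + ε) - b ^ (2 + ε) - (1 + (2 + ε) * w.re + 2 * ε * (w.re * Real.log b)) =
        (a ^ (2 + ε) - a ^ (2 : ℝ)) - (b ^ (2 + ε) - b ^ (2 : ℝ)) - ε * w.re - 2 * ε * (w.re * Real.log b) := by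
      rw [Real.rpow_two, Real.rpow_two]
      linear_combination hsq
    rw [hEq]
    have h3 : |ε * w.re| ≤ |ε| * 2 := by
      rw [abs_mul]; exact mul_le_mul_of_nonneg_left (by linarith) (abs_nonneg _)
    have h4 : |2 * ε * (w.re * Real.log b)| ≤ 2 * |ε| * 2 := by
      rw [abs_mul, abs_mul, abs_of_pos (by norm_num : (0 : ℝ) < 2)]
      exact mul_le_mul_of_nonneg_left hlog (by positivity)
    have h5 := abs_sub (a ^ (2 + ε) - a ^ (2 : ℝ)) (b ^ (2 + ε) - b ^ (2 : ℝ))
    have h6 := abs_sub ((a ^ (2 + ε) - a ^ (2 : ℝ)) - (b ^ (2 + ε) - b ^ (2 : ℝ))) (ε * w.re)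
    have h7 := abs_sub ((a ^ (2 + ε) - a ^ (2 : ℝ)) - (b ^ (2 + ε) - b ^ (2 : ℝ)) - ε * w.re) (2 * ε * (w.re * Real.log b))
    linarith
  · -- large region
    have hbp : 0 < b := by linarith
    have hap : 0 < a := by linarith
    have ha1 : 1 ≤ a := by linarith
    set u : ℝ := M / |ε| + 1 with hudef
    have hMe : 0 < M / |ε| := by positivity
    have hu1 : 1 ≤ u := by linarith
    have hbu : b ≤ u := by linarith
    have hau : a ≤ u := by linarith
    have hKu : |ε| * u ≤ K := by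
      rw [hudef, mul_add, mul_div_cancel₀ _ hε0.ne']
      linarith
    have hκu : 1 ≤ u * κ ^ 2 := by
      have h1 : 1 ≤ M / |ε| * κ ^ 2 := by
        rw [div_mul_eq_mul_div, le_div_iff₀ hε0]
        linarith
      have h2 : 0 < κ ^ 2 := by positivity
      nlinarith
    have hR := XPN_R_diff hu1 hKu hκ hκu hκ4 ha1 hau (by linarith : 1 ≤ b) hbu hab
    obtain ⟨hl1, hl2⟩ := XPN_log hu1 (abs_nonneg ε) hKu hκ hκu
    have hlb0 : 0 ≤ Real.log b := Real.log_nonneg (by linarith)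
    have hlbu : Real.log b ≤ Real.log u := Real.log_le_log hbp hbu
    -- `a^2 log(a/b)`
    have hq1 : Real.log a - Real.log b ≤ a / b - 1 := by
      rw [← Real.log_div hap.ne' hbp.ne']
      exact Real.log_le_sub_one_of_pos (by positivity)
    have hq2 : 1 - b / a ≤ Real.log a - Real.log b := by
      have := Real.log_le_sub_one_of_pos (show 0 < b / a by positivity)
      rw [Real.log_div hbp.ne' hap.ne'] at this
      linarith
    set D : ℝ := a ^ 2 * (Real.log a - Real.log b) - (w.re + 1 / 2) with hD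
    have hre2 : w.re + 1 / 2 = (a - b) * (a + b) / 2 := by
      have : (a - b) * (a + b) = a ^ 2 - b ^ 2 := by ring
      rw [this, hsq]; ring
    have hD1 : 0 ≤ D := by
      have h1 : a ^ 2 * (1 - b / a) ≤ a ^ 2 * (Real.log a - Real.log b) :=
        mul_le_mul_of_nonneg_left hq2 (by positivity)
      have h2 : a ^ 2 * (1 - b / a) = a * (a - b) := by field_simp
      rw [hD, hre2]
      nlinarith [sq_nonneg (a - b)]
    have hD2 : D ≤ 2 := by
      have h1 : a ^ 2 * (Real.log a - Real.log b) ≤ a ^ 2 * (a / b - 1) :=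
        mul_le_mul_of_nonneg_left hq1 (by positivity)
      have h2 : a ^ 2 * (a / b - 1) - (a - b) * (a + b) / 2 = (a - b) ^ 2 * (2 * a + b) / (2 * b) := by
        field_simp
        ring
      have h3 : (a - b) ^ 2 * (2 * a + b) / (2 * b) ≤ 2 := by
        rw [div_le_iff₀ (by positivity)]
        have h4 : (a - b) ^ 2 ≤ 1 := by
          have := abs_le.1 hab
          nlinarith
        nlinarith
      rw [hD, hre2]
      linarith
    have hEq : a ^ (2 + ε) - b ^ (2 + ε) - (1 + (2 + ε) * w.re + 2 * ε * (w.re * Real.log b)) =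
        (XPN_R ε a - XPN_R ε b) + ε * (D + 1 / 2 + Real.log b) := by
      unfold XPN_R
      rw [hD]
      linear_combination (1 + ε * Real.log b) * hsq
    rw [hEq]
    have h8 : |ε * (D + 1 / 2 + Real.log b)| ≤ |ε| * (5 / 2) + |ε| * Real.log u := by
      rw [abs_mul, abs_of_nonneg (by linarith : 0 ≤ D + 1 / 2 + Real.log b), ← mul_add]
      exact mul_le_mul_of_nonneg_left (by linarith) (abs_nonneg _)
    have h9 := abs_add_le (XPN_R ε a - XPN_R ε b) (ε * (D + 1 / 2 + Real.log b))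
    have h10 : 4 * K * κ ≤ 4 * K ^ 2 * κ := by
      have : K ≤ K ^ 2 := by nlinarith
      nlinarith
    nlinarith

end Pool.Agent.Work.MP_d7cff0_an.AS
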