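import Pool.Agent.Work.MP_d7cff0_an.Four

/-!
# MP_d7cff0_an, THEOREM AS: the dual compact approximation constant of `H^p` as `p → 1`, `p → 2`, `p → ∞` (definitions)
-/

set_option autoImplicit false

noncomputable section

namespace Pool.Agent.Work.MP_d7cff0_an.AS

open MeasureTheory AddCircle Filter Topology Finset Polynomial
open scoped ENNReal

/-- the mean of `F` over the unit circle -/
def cI (T : ℝ) [Fact (0 < T)] (F : ℂ → ℝ) : ℝ := ∫ t : AddCircle T, F (fourier (T := T) 1 t) ∂haarAddCircle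

/-- `∫ |P - 1|^p ≤ Λ ∫ |P|^p` for all polynomials `P` with `P(0) = 1` -/
def UpI (T : ℝ) [Fact (0 < T)] (p Λ : ℝ) : Prop :=
  ∀ P : ℂ[X], P.eval 0 = 1 → cI T (fun z => ‖P.eval z - 1‖ ^ p) ≤ Λ * cI T (fun z => ‖P.eval z‖ ^ p)

/-- some `F` in the disc algebra has `Λ ∫ |F|^p ≤ ∫ |F - F(0)|^p` -/
def LoI (T : ℝ) [Fact (0 < T)] (p Λ : ℝ) : Prop :=
  ∃ F : C(AddCircle T, ℂ), F ∈ discAlg T ∧ 0 < ∫ t, ‖F t‖ ^ p ∂(haarAddCircle (T := T)) ∧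
    Λ * ∫ t, ‖F t‖ ^ p ∂(haarAddCircle (T := T)) ≤ ∫ t, ‖F t - mean F‖ ^ p ∂(haarAddCircle (T := T))

/-- `c_k = (-1)^k binom(2m, m+k) / 4^m`, `k ≥ 0` -/
def cq (m k : ℕ) : ℝ := (-1) ^ k * ((2 * m).choose (m + k) : ℝ) / 4 ^ m

/-- the polynomial `q_m(u) = c_0 + 2 (c_1 u + ... + c_m u^m)` -/
def qp (m : ℕ) : ℂ[X] :=
  C ((cq m 0 : ℝ) : ℂ) + ∑ k ∈ Finset.range m, C ((2 * cq m (k + 1) : ℝ) : ℂ) * X ^ (k + 1)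

/-- `q_m(ρ)` for real `ρ` -/
def qa (m : ℕ) (ρ : ℝ) : ℝ := ((qp m).eval (ρ : ℂ)).re

/-- `binom(2m, m) / 4^m` -/
def be (m : ℕ) : ℝ := ((2 * m).choose m : ℝ) / 4 ^ m

/-- the constant `(8 e √π)^(-1/2)` -/
def c0 : ℝ := 1 / √(8 * Real.exp 1 * √Real.pi)

/-- `m = ⌊(1 - ε) p⌋` -/
def mm (ε p : ℝ) : ℕ := ⌊(1 - ε) * p⌋₊

/-- `R = exp(2 log p / p)`, so `R ^ p = p ^ 2` -/
def RR (p : ℝ) : ℝ := Real.exp (2 * Real.log p / p)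

/-- the dual certificate for `p → ∞` -/
def VV (ε p : ℝ) (w : ℂ) : ℝ :=
  c0 * ‖w‖ ^ p + 1 / (4 * c0) * p ^ (3 / 2 : ℝ) *
    (((qp (mm ε p)).eval (w / (RR p : ℂ))).re - qa (mm ε p) (1 / RR p))

/-- `X_0 = (3/2) log p + log(2 √π)`, so `exp X_0 = 2 √π p^(3/2)` -/
def X0 (p : ℝ) : ℝ := 3 / 2 * Real.log p + Real.log (2 * √Real.pi)

/-- `⌊p / X_0⌋` -/
def m0 (p : ℝ) : ℕ := ⌊p / X0 p⌋₊

/-- the test function for `p → ∞`, as a function of `u = ψ(z)`, `|u| = 1` -/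
def FF (p : ℝ) (u : ℂ) : ℂ := ((1 / (1 - 1 / p) : ℝ) : ℂ) * u * (1 + ((X0 p / p : ℝ) : ℂ) * (qp (m0 p)).eval u)

/-- a smooth version of `|Re √w| = √((|w| + Re w) / 2)` -/
def VS (δ : ℝ) (w : ℂ) : ℝ := √((√(‖w‖ ^ 2 + δ ^ 2) + w.re) / 2)

/-- a smooth version of `|w - a|^q` -/
def VN (a : ℂ) (q δ : ℝ) (w : ℂ) : ℝ := (‖w - a‖ ^ 2 + δ ^ 2) ^ (q / 2)

end Pool.Agent.Work.MP_d7cff0_an.AS
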