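import Pool.Agent.Work.MP_d7cff0_as.Defs

/-!
# MP_d7cff0_an, THEOREM AS: blocks

Block `XXX`: file `Pool/Agent/Work/MP_d7cff0_as/B_XXX.lean`, `import Pool.Agent.Work.MP_d7cff0_as.Interface`, the same `open` lines,
`namespace Pool.Agent.Work.MP_d7cff0_an.AS`, theorem `p_XXX (h1 : Stmt_..) .. : Stmt_XXX` with exactly the blocks of the column `uses`
as hypotheses, in this order; auxiliary lemmas with the prefix `XXX_`. The lemmas of `Pool.Agent.Work.MP_d7cff0_an.{Circle,Disc,Hardy,Shift,Four}`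
(namespace `Pool.Agent.Work.MP_d7cff0_an`) may be used: `mean_pc`, `mean_aeval`, `exists_moebius`, `norm_tl_rpow`, `norm_pl_rpow`,
`integrable_cont`, `BoundsH.of_pl`, `norm_bshift_le`, `boundsH_bshift`, `Mstar_hardy`, ... (`Four.lean` is a complete example, `p = 4`).

Throughout `L = log p`; `large p` means `p ≥ p₀(ε)`. For `|u| = 1`: `y = (1 + Re u) / 2`, so `((1 - Re u) / 2) ^ m = (1 - y) ^ m`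
and `|1 + u| ^ 2 = 4 y`.
-/

set_option autoImplicit false

noncomputable section

namespace Pool.Agent.Work.MP_d7cff0_an.AS

open MeasureTheory AddCircle Filter Topology Finset Polynomial
open scoped ENNReal

/-! ## The polynomials `q_m` -/

/-- QC (100 lines): on the unit circle. Proof. `((2 - u - u⁻¹) / 4) ^ m = (-1) ^ m (1 - u) ^ (2 m) / (4 u) ^ m` and the binomial theorem give
`∑_{k = -m}^{m} c_k u ^ k` with `c_k = (-1) ^ k binom(2m, m+k) / 4 ^ m = c_{-k}`; `u⁻¹` is the conjugate of `u`, so `2 - u - u⁻¹ = 2 (1 - Re u)`,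
and the real part of `c_k (u ^ k + u ^ (-k))` is that of `2 c_k u ^ k`. -/
def Stmt_QC : Prop := ∀ (m : ℕ) (u : ℂ), ‖u‖ = 1 → ((qp m).eval u).re = ((1 - u.re) / 2) ^ m

/-- QA (150 lines): size, values on the real axis, recursion in `m`. Proof. (1) `|c_0| + 2 ∑_{k=1}^{m} |c_k| = 4^(-m) ∑_{j=0}^{2m} binom(2m, j)
= 1`, so `|q_m(u)| ≤ max(1, |u|) ^ m`. (2) real coefficients. (3) `q_0 = 1`, `q_m(0) = c_0`. (4) Put `c_{-k} = c_k`, `c_k = 0` for `|k| > m`. Pascal: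
`c^{(m+1)}_k = (2 c_k - c_{k-1} - c_{k+1}) / 4`. Multiply by `ρ ^ |k|` and sum over all integers `k`: `∑ ρ ^ |k| c_k = q_m(ρ)`,
`∑ ρ ^ |k| (c_{k-1} + c_{k+1}) = ∑ (ρ ^ |k+1| + ρ ^ |k-1|) c_k = (ρ + 1/ρ) (q_m(ρ) - c_0) + 2 ρ c_0`. So
`q_{m+1}(ρ) = ((2 - ρ - 1/ρ) q_m(ρ) + (1/ρ - ρ) c_0) / 4`. (With sums over `k ≥ 0` only: check the coefficient `k = 0` separately.) -/
def Stmt_QA : Prop :=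
  (∀ (m : ℕ) (u : ℂ), (‖u‖ ≤ 1 → ‖(qp m).eval u‖ ≤ 1) ∧ (1 ≤ ‖u‖ → ‖(qp m).eval u‖ ≤ ‖u‖ ^ m)) ∧
  (∀ (m : ℕ) (ρ : ℝ), ((qp m).eval (ρ : ℂ)).im = 0) ∧ (∀ ρ : ℝ, qa 0 ρ = 1) ∧ (∀ m : ℕ, (qp m).eval 0 = ((be m : ℝ) : ℂ)) ∧
  (∀ (m : ℕ) (ρ : ℝ), 0 < ρ → qa (m + 1) ρ = (1 - ρ ^ 2) / (4 * ρ) * be m - (1 - ρ) ^ 2 / (4 * ρ) * qa m ρ)

/-- MX (50 lines): the maximum principle for real parts. Proof. `exp (-g)` has modulus `exp (-Re g) ≤ 1` on the unit circle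
(`Complex.norm_le_of_forall_mem_frontier_norm_le` on the ball). -/
def Stmt_MX : Prop :=
  ∀ g : ℂ → ℂ, DifferentiableOn ℂ g (Metric.ball 0 1) → ContinuousOn g (Metric.closedBall 0 1) →
    (∀ u : ℂ, ‖u‖ = 1 → 0 ≤ (g u).re) → ∀ u : ℂ, ‖u‖ ≤ 1 → 0 ≤ (g u).re

/-- QU (60 lines; uses QC QA MX). Proof. (1) MX and QC. (2) `0 ≤ qa (m - 1) ρ ≤ 1` by (1) and QA, and the recursion of QA. -/
def Stmt_QU : Prop :=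
  (∀ (m : ℕ) (u : ℂ), ‖u‖ ≤ 1 → 0 ≤ ((qp m).eval u).re) ∧
  (∀ (m : ℕ) (ρ : ℝ), 1 ≤ m → 0 < ρ → ρ ≤ 1 → qa m ρ ≤ (1 - ρ ^ 2) / (4 * ρ) * be (m - 1) ∧
    (1 - ρ ^ 2) / (4 * ρ) * be (m - 1) - (1 - ρ) ^ 2 / (4 * ρ) ≤ qa m ρ)

/-- QH (100 lines; uses QA QU): Harnack. Proof. `g = q_m`, `β = g(0) = be m > 0`, `Re g ≥ 0` on the disc. `φ = (g - β) / (g + β)` maps the disc
to the closed disc, `φ(0) = 0`: `|φ(v)| ≤ |v|` (Schwarz lemma), and `Re g = β (1 - |φ|²) / |1 - φ|² ≥ β (1 - |φ|) / (1 + |φ|)`. (Or the Poisson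
formula of Mathlib, `DiffContOnCl.circleAverage_poissonKernel_smul` with `le_re_herglotzRieszKernel`.) -/
def Stmt_QH : Prop := ∀ (m : ℕ) (v : ℂ), ‖v‖ ≤ 1 → be m * ((1 - ‖v‖) / (1 + ‖v‖)) ≤ ((qp m).eval v).re

/-- QL (120 lines; uses QC MX): local lower bound. Proof. `P(u) = (s / (2 + s)) (1 + s + u ū₀) / (1 + s - u ū₀)` (`ū₀` the conjugate) is analytic
near the closed disc. For `|u| = 1`, `X = |u - u₀|² / 2`: `Re P(u) = s² / (s² + 2 (1 + s) X) ≤ 1`, and `≤ s² / δ²` if `|u - u₀| ≥ δ`. Let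
`θ = 2 s² / δ² ≤ 1`. Then `τ ((1 + θ) Re P(u) - θ) ≤ ((1 - Re u) / 2) ^ m` on the circle (if `|u - u₀| ≤ δ` the left side is `≤ τ`; otherwise
it is `≤ 0`). MX for `q_m - τ ((1 + θ) P - θ)`. `P(r u₀) = (s / (2 + s)) (1 + s + r) / (1 + s - r)`, and with `d = 1 - r` this is
`(s / (s + d)) (1 - d / (2 + s)) ≥ 1 - d / s - d / 2`. -/
def Stmt_QL : Prop :=
  ∀ (m : ℕ) (u₀ : ℂ) (δ s τ : ℝ), ‖u₀‖ = 1 → 0 < δ → 0 < s → 0 ≤ τ → 2 * s ^ 2 ≤ δ ^ 2 →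
    (∀ u : ℂ, ‖u‖ = 1 → ‖u - u₀‖ ≤ δ → τ ≤ ((1 - u.re) / 2) ^ m) →
    ∀ r : ℝ, 0 ≤ r → r ≤ 1 → τ * (1 - (1 - r) / s - (1 - r) / 2 - 2 * s ^ 2 / δ ^ 2) ≤ ((qp m).eval ((r : ℂ) * u₀)).re

/-- QLA (150 lines; uses QL). Proof. `v = r u₀`, `y = (|v| + Re v) / (2 |v|) = (1 + Re u₀) / 2`, so `|1 + u₀| = 2 √y`. QL with `δ = p^(-3/4)`,
`s = p^(-5/6)`: `(1 - r) / s ≤ 5 L p^(-1/6)`, `2 s² / δ² = 2 p^(-1/6)`, all tend to `0`. For `|u| = 1`, `|u - u₀| ≤ δ`: `√y_u ≤ √y + δ / 2`, so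
`y_u ≤ y + e`, `e = δ √y + δ² ≤ p^(-5/4) √(8 L) + p^(-3/2)`, and `(1 - y_u) ^ m ≥ (1 - y - e) ^ m ≥ ((1 - y) (1 - 2 e)) ^ m ≥ (1 - y) ^ m (1 - 2 e m)`
(`y ≤ 1/2`, Bernoulli), `e m ≤ e p → 0`. Take `τ = (1 - ε / 2) (1 - y) ^ m`. -/
def Stmt_QLA : Prop :=
  ∀ ε : ℝ, 0 < ε → ∃ p₀ : ℝ, ∀ p : ℝ, p₀ ≤ p → ∀ m : ℕ, (m : ℝ) ≤ p → ∀ v : ℂ, v ≠ 0 → 1 - 5 * Real.log p / p ≤ ‖v‖ → ‖v‖ ≤ 1 →
    (‖v‖ + v.re) / (2 * ‖v‖) ≤ 8 * Real.log p / p →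
    (1 - ε) * (1 - (‖v‖ + v.re) / (2 * ‖v‖)) ^ m ≤ ((qp m).eval v).re

/-- BE (120 lines): the central binomial coefficients. Proof. `be (m+1) / be m = (2m+1) / (2m+2)`. So `m (be m)²` increases and
`(m + 1/2) (be m)²` decreases; both tend to `1 / π` (Wallis: `Real.Wallis.tendsto_W_nhds_pi_div_two`, or Stirling). -/
def Stmt_BE : Prop :=
  ∀ m : ℕ, 1 ≤ m → 1 / √(Real.pi * (m + 1 / 2)) ≤ be m ∧ be m ≤ 1 / √(Real.pi * m)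

/-! ## `p → ∞`, upper bound -/

/-- GG (200 lines; uses QA QU QH BE). Proof. `r = |w|`, `R = RR p`, `ρ = 1 / R`, `m = mm ε p ≥ (1 - ε) p - 1`, `v = w / R`; `R - 1 ≤ 3 L / p`.
Case `r > R`: `|Re q_m(v)| ≤ (r / R) ^ m ≤ (r / R) ^ p = r ^ p / p ^ 2`, so `p^(3/2) |Re q_m(v)| ≤ p^(-1/2) r ^ p`; and
`0 ≤ p^(3/2) qa m ρ ≤ p^(3/2) (1 - ρ²) / (4 ρ) be (m-1) ≤ 10 L ≤ ε r ^ p / 10` (as `r ^ p ≥ p ^ 2`). Case `r ≤ R`: QH: `Re q_m(v) ≥ be m (1 - r ρ) / 2`. QU: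
`qa m ρ ≤ (1 - ρ) ((1 + ρ) / (4 ρ)) be (m-1) ≤ (be m / 2) (R - 1) (1 + 1 / (2 m - 1))` (`be (m-1) = be m (2m) / (2m-1)`,
`(1 + ρ) / (2 ρ) ≤ R`, `(1 - ρ) R = R - 1`). As `1 - r ρ = (1 - ρ) - ρ (r - 1)` and `(R - 1) - (1 - ρ) ≤ (R - 1) ^ 2`:
`Re q_m(v) - qa m ρ ≥ (be m / 2) (- ρ (r - 1) - (R - 1) ^ 2 - (R - 1) / (2 m - 1))`; the last two terms are `O(L² / p²)`, times `p^(3/2) be m = O(p)`: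
`→ 0`. If `r ≤ 1` this is enough. If `1 < r ≤ R` let `r ^ p = e ^ x`, `0 < x ≤ 2 L`: `r - 1 ≤ (x / p) (1 + x / p)`, and `p^(1/2) be m ≤ (p / (π m))^(1/2)
≤ (1 + ε) / √π` for large `p`. So the negative part is at most `(1 / (4 c0)) (1 + ε) (1 + 2 L / p) x / (2 √π) ≤ (1 + 2 ε) c0 e x` (since
`1 / (8 √π) = e c0²`), and `c0 r ^ p = c0 e ^ x ≥ c0 e x`. So `VV ≥ - 2 ε c0 e x - o(1) ≥ - 2 ε c0 e ^ x - o(1)`, and `2 c0 < 1/2`. -/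
def Stmt_GG : Prop :=
  ∀ ε : ℝ, 0 < ε → ε < 1 / 10 → ∃ p₀ : ℝ, ∀ p : ℝ, p₀ ≤ p → ∀ w : ℂ, -(ε * (1 + ‖w‖ ^ p)) ≤ VV ε p w

/-- PW (250 lines; uses QLA QU BE GG): the pointwise inequality. Proof. `C = 4`. `r = |w|`, `R = RR p`, `y = (r + Re w) / (2 r)` (`w ≠ 0`), `m = mm ε p`.
`|w - 1|² = (1 + r)² - 4 r y`. NEGLIGIBLE: if `|w - 1| ^ p ≤ ε 2^p p^(-3/4) (1 + r ^ p)`, use GG: `4 ε ≥ ε + ε (1 + 4 ε)`. (a) `r ≤ 1 - 2 L / p`: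
`|w - 1| ^ p ≤ (1 + r) ^ p ≤ 2 ^ p (1 - L / p) ^ p ≤ 2 ^ p / p`. (b) `r ≥ R`: `(1 + r) ^ p ≤ r ^ p (1 + 1/R) ^ p`,
`(1 + 1/R) ^ p = 2 ^ p R ^ (-p/2) cosh(L / p) ^ p ≤ 2 ^ p p^(-1) e^(L²/p)`. (c) `1 - 2 L / p ≤ r ≤ R`, `y ≥ 8 L / p`: `|w - 1| ^ p = (1 + r) ^ p
(1 - 4 r y / (1 + r)²) ^ (p/2) ≤ (1 + r) ^ p exp(- 2 p r y / (1 + r)²)`, with `r / (1 + r)² ≥ .24` this is `≤ 2 ^ p p ^ 1.1 p ^ (-3.8)`. So (a), (b), (c) are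
negligible. (d) `1 - 2 L / p ≤ r ≤ R`, `y ≤ 8 L / p`: `|w - 1| ^ p = 2 ^ p r ^ (p/2) (1 - y + (1 - r)² / (4 r)) ^ (p/2) ≤ (1 + ε) 2 ^ p r ^ (p/2)
(1 - y) ^ (p/2)` (as `(1 - r)² / (4 r) = O(L² / p²)`). Here `v = w / R` satisfies the hypotheses of QLA, with the same `y`.
(d1) `(1 - y) ^ m ≥ p^(-3/2) L²`: AM-GM, `r ^ (p/2) (1 - y) ^ (p/2) ≤ c0 p^(-3/4) r ^ p + (1 / (4 c0)) p^(3/4) (1 - y) ^ p`. And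
`Re q_m(v) ≥ (1 - ε) (1 - y) ^ m`, `qa m (1/R) ≤ (1 - 1/R²) R / 4 * be (m-1) ≤ 10 L p^(-3/2) ≤ ε (1 - y) ^ m`, so `(1 + 4 ε) VV ≥ (1 + 4 ε) (c0 r ^ p +
(1 / (4 c0)) p^(3/2) (1 - 2 ε) (1 - y) ^ p)` and `(1 + 4 ε) (1 - 2 ε) ≥ 1 + ε`. (d2) `(1 - y) ^ m < p^(-3/2) L²` (`< 1`): `(1 - y) ^ p ≤ ((1 - y) ^ m) ^ (1 + ε)`
(`p ≥ (1 + ε) m`), so `p^(3/2) (1 - y) ^ p ≤ p^(-3 ε / 2) L ^ (2 + 2 ε) ≤ ε² / 4` for large `p`, and AM-GM with weights `ε`: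
`r ^ (p/2) (1 - y) ^ (p/2) ≤ (ε / 2) p^(-3/4) r ^ p + (1 / (2 ε)) p^(3/4) (1 - y) ^ p`: negligible. -/
def Stmt_PW : Prop :=
  ∃ K : ℝ, ∀ ε : ℝ, 0 < ε → ε < 1 / 10 → ∃ p₀ : ℝ, ∀ p : ℝ, p₀ ≤ p → ∀ w : ℂ,
    ‖w - 1‖ ^ p ≤ 2 ^ p * p ^ (-(3 / 4) : ℝ) * ((1 + K * ε) * VV ε p w + K * ε * (1 + ‖w‖ ^ p))

/-- R3U (120 lines; uses PW). Proof. Put `w = P(z)` in PW and integrate over the circle. `∫ Re q_m(P / R) = Re q_m(1 / R) = qa m (1 / R)`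
(`mean_pc` for the polynomial `(qp m).comp (C (1/R) * P)`), so `∫ VV = c0 E`, `E = ∫ |P| ^ p ≥ 1` (`1 = |∫ P| ≤ ∫ |P|` and `x ^ p ≥ 1 + p (x - 1)`). So the left side is at most
`2^p p^(-3/4) ((1 + K ε) c0 + 2 K ε) E` (increase `K` to be `≥ 0`). -/
def Stmt_R3U : Prop :=
  ∀ (T : ℝ) [Fact (0 < T)] (ε : ℝ), 0 < ε → ∃ p₀ : ℝ, ∀ p : ℝ, p₀ ≤ p → UpI T p ((c0 + ε) * 2 ^ p * p ^ (-(3 / 4) : ℝ))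

/-! ## `p → ∞`, lower bound -/

/-- EX (100 lines). Proof. `m = m0 p`, `X = X0 p`, `σ = (1 - y) ^ m`. If `σ ≥ e^(-ε)`: `y < 1`, let `τ = - m log(1 - y) ∈ [0, ε]`, then `σ = e^(-τ) ≤ 1 - (1 - ε) τ`,
`X m ≥ X (p / X - 1) = p - X`, so `X σ ≤ X + (1 - ε) (p - X) log(1 - y) ≤ X + k log(1 - y)` as `k ≤ (1 - 2 ε) p ≤ (1 - ε) (p - X)` for large `p`. If `σ < s = e^(-ε)`:
convexity of `exp` on `[0, X s]`: `e^(X σ) ≤ 1 + (σ / s) (e^(X s) - 1) ≤ 1 + 2 σ e^(X s)` (`1 / s = e^ε ≤ 2`). -/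
def Stmt_EX : Prop :=
  ∀ ε : ℝ, 0 < ε → ε < 1 / 4 → ∃ p₀ : ℝ, ∀ p : ℝ, p₀ ≤ p → ∀ y : ℝ, 0 ≤ y → y ≤ 1 →
    Real.exp (X0 p * (1 - y) ^ m0 p) ≤
      1 + Real.exp (X0 p) * (1 - y) ^ ⌊(1 - 2 * ε) * p⌋₊ + 2 * Real.exp (X0 p * Real.exp (-ε)) * (1 - y) ^ m0 p

/-- FU (200 lines; uses QC QA QU BE EX). Proof. `|u| = 1`: `FF p u = R u (1 + z)`, `R = 1 / (1 - 1/p)`, `z = (X / p) q_m(u)`, `|z| ≤ X / p`; `R ^ p → e`;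
`|1 + z|² = 1 + 2 Re z + |z|² ≤ exp(2 Re z + |z|²)`, so `|FF p u| ^ p ≤ R ^ p exp(X² / (2 p)) exp(X ((1 - Re u) / 2) ^ m) ≤ (1 + ε') e exp(X (1 - y) ^ m)`. Use EX (a small
`ε`) with `u = ψ(t)` and integrate: `∫ (1 - y) ^ k = ∫ Re q_k(ψ) = Re q_k(mean ψ) = qa k a`, `a = 1 - 1/p` (`mean_aeval`, QC). `qa k a ≤ ((1 - a²) / (4 a)) be (k-1)`,
`(1 - a²) / (4 a) ≤ (1 / (2 p)) (1 + 2 / p)`, `be (k-1) ≤ 1 / √(π (k-1))`. For `k = ⌊(1 - 2 ε) p⌋`: `e^X qa k a = 2 √π p^(3/2) qa k a ≤ (1 - 2 ε)^(-1/2) (1 + o(1))`. For `m = m0 p`: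
`e^(X e^(-ε)) qa m a ≤ C p^((3/2) (e^(-ε) - 1)) X^(1/2) → 0`. Total `(1 + ε') e (2 + small)`. -/
def Stmt_FU : Prop :=
  ∀ (T : ℝ) [Fact (0 < T)] (ε : ℝ), 0 < ε → ∃ p₀ : ℝ, ∀ p : ℝ, p₀ ≤ p → ∀ ψ : C(AddCircle T, ℂ), ψ ∈ discAlg T →
    mean ψ = ((1 - 1 / p : ℝ) : ℂ) → (∀ t, ‖ψ t‖ = 1) →
    ∫ t, ‖FF p (ψ t)‖ ^ p ∂(haarAddCircle (T := T)) ≤ (2 + ε) * Real.exp 1

/-- FL (250 lines; uses QC QA): pointwise lower bound. Proof. `k = ⌈(1 + ε) p⌉`, `F = FF p u = R u (1 + z)` as in FU, `r = |F|`, `y = (1 + Re u) / 2`, `X = X0 p`, `m = m0 p`. If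
`y ≥ p^(-1/2)`: `(1 - y) ^ k ≤ e^(-p y) ≤ e^(-√p)`, the left side is `≤ 0`. Let `y ≤ p^(-1/2)`. (1) `r ≥ R (1 + Re z) = R (1 + (X / p) (1 - y) ^ m) ≥ R (1 + (X / p) (1 - m y)) ≥
R (1 + X / p - y)` (`X m ≤ p`), so with `1 + x ≥ exp(x - x²)` (`|x| ≤ 1/2`): `r ^ (p/2) ≥ R ^ (p/2) exp(X / 2 - p y / 2 - p x² / 2)`, `p x² ≤ 2 X² / p + 2 p y² ≤ o(1) + 2 p^(-1/2) p y`.
(2) `|F - f|² = (f + r)² - 2 f (r + Re F) ≥ 4 f r - 2 f (r + Re F)`, `r + Re F = |F + r|² / (2 r)`, `|F + r| = R |(1 + z) (u + 1) + (|1 + z| - (1 + z))| ≤ r |u + 1| + 2 R |z| ≤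
r (2 √y + 4 X / p)` (`||1 + z| - (1 + z)| ≤ 2 |z|`, `|1 + z| ≥ 1/2`). So `r + Re F ≤ 2 r (√y + 2 X / p)² ≤ 2 r ((1 + ε/4) y + (1 + 4/ε) 4 X² / p²)` and
`|F - f|² ≥ 4 f r (1 - (1 + ε/4) y - e)`, `e = O(X² / p²)`. (3) `f ≥ 1`, `(1 - x) ^ (p/2) ≥ exp(- (p/2) (x + x²))` for `0 ≤ x ≤ 1/2`; `R ^ p ≥ e`. Together
`|F - f| ^ p ≥ 2 ^ p e^(1/2) e^(X/2) exp(- p y (1 + ε) - o(1)) ≥ (1 - ε) 2 ^ p e^(1/2) e^(X/2) e^(- y (1 + ε) p)`, and `e^(-y (1 + ε) p) ≥ (1 - y) ^ k`. -/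
def Stmt_FL : Prop :=
  ∀ ε : ℝ, 0 < ε → ε < 1 / 4 → ∃ p₀ : ℝ, ∀ p : ℝ, p₀ ≤ p → ∀ u : ℂ, ‖u‖ = 1 → ∀ f : ℝ, 1 ≤ f →
    (1 - ε) * 2 ^ p * Real.exp (1 / 2) * Real.exp (X0 p / 2) * (((1 - u.re) / 2) ^ ⌈(1 + ε) * p⌉₊ - Real.exp (-√p)) ≤ ‖FF p u - f‖ ^ p

/-- R3L (200 lines; uses QC QA QU BE FU FL). Proof. `a = 1 - 1/p`, `ψ` from `exists_moebius`, `F = FF p ∘ ψ = R • (ψ * (1 + (X / p) • aeval ψ (qp m)))` in the disc algebra;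
`mean F = R a (1 + (X / p) qa m a) = 1 + (X / p) qa m a = f ≥ 1` (QA (2), QU (1)). FL and `∫ ((1 - Re ψ) / 2) ^ k = qa k a`: `∫ |F - f| ^ p ≥ (1 - ε') 2 ^ p e^(1/2) (2 √π)^(1/2) p^(3/4)
(qa k a - e^(-√p))`, `k = ⌈(1 + ε') p⌉`, `qa k a ≥ ((1 - a²) / (4 a)) be (k-1) - (1 - a)² / (4 a) ≥ (1 / (2 p)) / √(π ((1 + ε') p + 1)) - 1 / p²`. So it is
`≥ (1 - 3 ε') 2 ^ p p^(-3/4) e^(1/2) (2 √π)^(-1/2)` for large `p`, and `∫ |F| ^ p ≤ (2 + ε') e`; `e^(1/2) (2 √π)^(-1/2) / (2 e) = c0`. (`∫ |F| ^ p > 0`: `F` is continuous, mean `≠ 0`.) -/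
def Stmt_R3L : Prop :=
  ∀ (T : ℝ) [Fact (0 < T)] (ε : ℝ), 0 < ε → ∃ p₀ : ℝ, ∀ p : ℝ, p₀ ≤ p → LoI T p ((c0 - ε) * 2 ^ p * p ^ (-(3 / 4) : ℝ))

/-! ## Subharmonic functions -/

/-- LNK (60 lines). Proof. `haarAddCircle` is the normalised Lebesgue measure of `[0, T)`: `AddCircle.intervalIntegral_preimage` or
`AddCircle.integral_preimage`, then the substitution `θ = 2 π x / T` (`Real.circleAverage` is the mean of `F (circleMap 0 1 θ)` over `[0, 2 π]`,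
`fourier 1 (x : AddCircle T) = exp(2 π i x / T)`). -/
def Stmt_LNK : Prop :=
  ∀ (T : ℝ) [Fact (0 < T)] (F : ℂ → ℝ), Continuous F → cI T F = Real.circleAverage F 0 1

open Laplacian InnerProductSpace in
/-- SMI (250 lines): `C²` functions with non-negative Laplacian. Proof. `g(ζ) = P(e^ζ)`, `G(s, θ) = V(g(s + i θ))`, `Φ(s) = (1 / 2π) ∫_0^{2π} G(s, θ) dθ`. `G` is `C²`
and `G_ss + G_θθ = D²V(g', g') + D²V(i g', i g') = |g'|² (ΔV)(g) ≥ 0` (the terms with `g''` cancel; `D²V(a, a) + D²V(i a, i a) = |a|² ΔV`). `Φ` is twice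
differentiable under the integral, `Φ'' = (1 / 2π) ∫ G_ss = (1 / 2π) ∫ (G_ss + G_θθ) ≥ 0` (`∫ G_θθ = 0` by periodicity). So `Φ` is convex on the line, and `Φ(s) → V(P(0))` as
`s → -∞`; a convex function with a finite limit at `-∞` is monotone. So `Φ(0) ≥ V(P(0))`. -/
def Stmt_SMI : Prop :=
  ∀ V : ℂ → ℝ, ContDiff ℝ 2 V → (∀ w, 0 ≤ (Δ V) w) → ∀ P : ℂ[X],
    V (P.eval 0) ≤ Real.circleAverage (fun z => V (P.eval z)) 0 1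

open Laplacian InnerProductSpace in
/-- LPN (120 lines): `VN a q δ w = (|w - a|² + δ²)^(q/2)`. Proof. `laplacian_eq_iteratedFDeriv_complexPlane`; second derivatives along lines, with `S = |w - a|² + δ²`:
`∂_x² S^(q/2) = (q/2) S^(q/2-1) 2 + (q/2) (q/2 - 1) S^(q/2-2) 4 (x - a_1)²`, sum over `x`, `y`: `2 q S^(q/2-1) + q (q - 2) |w - a|² S^(q/2-2) =
q S^(q/2-2) (q |w - a|² + 2 δ²)`. -/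
def Stmt_LPN : Prop :=
  ∀ (a : ℂ) (q δ : ℝ), 0 < δ → ContDiff ℝ 2 (VN a q δ) ∧
    ∀ w, (Δ (VN a q δ)) w = q * (q * ‖w - a‖ ^ 2 + 2 * δ ^ 2) * (‖w - a‖ ^ 2 + δ ^ 2) ^ (q / 2 - 2)

open Laplacian InnerProductSpace in
/-- LPS (150 lines): `VS δ w = √((n + x) / 2)`, `n = √(|w|² + δ²) > |x|`, `x = Re w`. Proof. `S = (n + x) / 2 > 0`, `Δ √S = S^(-1/2) ΔS / 2 - S^(-3/2) |∇S|² / 4`, so the claim is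
`2 S ΔS ≥ |∇S|²`. `Δn = (|w|² + 2 δ²) / n³`, `|∇S|² = (|w|² / n² + 2 x / n + 1) / 4`. With `|w|² = n² - δ²` the difference, times `4 n³`, is
`2 (n + x) (n² + δ²) - n (2 n² - δ² + 2 x n) = 2 (n + x) δ² + n δ² ≥ 0`. -/
def Stmt_LPS : Prop := ∀ δ : ℝ, 0 < δ → ContDiff ℝ 2 (VS δ) ∧ ∀ w, 0 ≤ (Δ (VS δ)) w

/-! ## `p → 2` -/

/-- U2P (200 lines; uses LNK SMI LPN): `p = 2 + ε`, `0 < ε ≤ 1/4`. Proof. For `0 < δ ≤ 1` let `V = VN 0 p δ - VN 1 p δ + 6 ε VN 0 (p-1) δ`. With `N = √(|w|² + δ²)`,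
`M = √(|w - 1|² + δ²)`, `M ≤ N + 1`, LPN gives `ΔV = p² (N^ε - M^ε) - p ε δ² N^(p-4) + p ε δ² M^(p-4) + 6 ε ((p-1)² N^(p-3) + (p-1) (3-p) δ² N^(p-5))`
(`p |w|² + 2 δ² = p N² - ε δ²`). Concavity: `M^ε - N^ε ≤ ε N^(ε-1)` (also if `M ≤ N`); `δ² N^(p-4) ≤ δ N^(p-3)`, `p - 3 = ε - 1`. So
`ΔV ≥ ε N^(ε-1) (6 (p-1)² - p² - p δ) ≥ 0` as `6 (p-1)² - p² - p = (5 p - 3) (p - 2)`. SMI at `P(0) = 1`: `(1 + δ²)^(p/2) - δ^p + 6 ε (1 + δ²)^((p-1)/2) ≤ ∫ V(P)`; let `δ → 0`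
(dominated convergence, or uniform continuity on a compact set). -/
def Stmt_U2P : Prop :=
  ∀ (T : ℝ) [Fact (0 < T)] (ε : ℝ) (P : ℂ[X]), 0 < ε → ε ≤ 1 / 4 → P.eval 0 = 1 →
    1 + 6 * ε ≤ cI T (fun z => ‖P.eval z‖ ^ (2 + ε)) - cI T (fun z => ‖P.eval z - 1‖ ^ (2 + ε)) +
      6 * ε * cI T (fun z => ‖P.eval z‖ ^ (1 + ε))

/-- U2M (200 lines; uses LNK SMI LPN): `p = 2 - η`, `0 < η ≤ 1/4`. Proof. As U2P with `V = VN 0 p δ - VN 1 p δ + 9 η VN 1 (p-1) δ`: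
`ΔV = p² (N^(-η) - M^(-η)) + p η δ² N^(p-4) - p η δ² M^(p-4) + 9 η ((p-1)² M^(p-3) + (p-1) (3-p) δ² M^(p-5))`, `M^(-η) - N^(-η) ≤ η M^(-η-1)` (convexity, `N ≤ M + 1`),
`δ² M^(p-4) ≤ δ M^(p-3)`, `p - 3 = -1 - η`. So `ΔV ≥ η M^(p-3) (9 (p-1)² - p² - p δ) ≥ 0`, as `9 (p-1)² - p² - p = 8 p² - 19 p + 9 > 0` for `7/4 ≤ p ≤ 2`.
At `P(0) = 1`: `V → 1`. -/
def Stmt_U2M : Prop :=
  ∀ (T : ℝ) [Fact (0 < T)] (η : ℝ) (P : ℂ[X]), 0 < η → η ≤ 1 / 4 → P.eval 0 = 1 →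
    1 ≤ cI T (fun z => ‖P.eval z‖ ^ (2 - η)) - cI T (fun z => ‖P.eval z - 1‖ ^ (2 - η)) +
      9 * η * cI T (fun z => ‖P.eval z - 1‖ ^ (1 - η))

/-- R2U (150 lines; uses U2P U2M). Proof. `p = 2 + ε`: for `t ≥ 0`: `6 ε t^(1+ε) = t^ε (6 ε t) ≤ t^ε (1/3 + 27 ε² t²)` and `t^ε / 3 ≤ 1 + ε² t^(2+ε)` (if `t^ε > 3` then
`t² ≥ 9^(1/ε) ≥ ε^(-2)`), so `6 ε ∫ |P|^(1+ε) ≤ 1 + 28 ε² ∫ |P|^p` and U2P gives `∫ |P - 1|^p ≤ (1 + 28 ε²) ∫ |P|^p`. `p = 2 - η`, `η ≤ 1/9`: `t = |P - 1|`: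
`9 η t^(1-η) ≤ 1 + 21 η² t^(2-η)` (`t ≤ 1`: `9 η ≤ 1`; `t ≥ 1`: `9 η t ≤ 1 + (81/4) η² t²` and `t^(-η) ≤ 1`), so U2M gives `(1 - 21 η²) ∫ |P - 1|^p ≤ ∫ |P|^p`, and
`1 / (1 - 21 η²) ≤ 1 + 42 η²` for `η² ≤ 1/42`. `p = 2`: `∫ |P|² = 1 + ∫ |P - 1|²`. -/
def Stmt_R2U : Prop :=
  ∃ K η : ℝ, 0 < η ∧ ∀ (T : ℝ) [Fact (0 < T)] (p : ℝ), |p - 2| ≤ η → UpI T p (1 + K * (p - 2) ^ 2)

/-- GS (120 lines). Proof. `z = e^(iθ)`, `x = σ cos θ`: `|1 - σ z / 2|² = 5/4 - x`, `Re (z - σ z² / 2) = σ (x - x² + 1/2)`. `∫ x = ∫ x³ = 0`, `∫ x² = 1/2`, so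
`∫ (x - x² + 1/2) = 0` and a constant may be subtracted from `(5/4 - x)^(s/2)`. The factor `x - x² + 1/2` has the sign of `x - x₀`, `x₀ = (1 - √3) / 2`, on `[-1, 1]`. `σ = 1`, `s > 0`:
`(5/4 - x)^(s/2)` has derivative `≤ - (s/2) (9/4)^(s/2-1) ≤ - (2/9) s`, so the integral is `≤ - (2/9) s ∫ (x - x₀) (x - x² + 1/2) = - (2/9) s (1/2)`. `σ = -1`, `s < 0`: derivative
`≥ (|s|/2) (9/4)^(s/2-1) ≥ (|s|/2) (8/27)`, the integral is `≤ - (|s|/2) (8/27) (1/2)`. -/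
def Stmt_GS : Prop :=
  ∀ (T : ℝ) [Fact (0 < T)] (s σ : ℝ), |s| ≤ 1 → (σ = 1 ∧ 0 ≤ s ∨ σ = -1 ∧ s ≤ 0) →
    cI T (fun z => ‖1 - (σ : ℂ) * z / 2‖ ^ s * (z - (σ : ℂ) * z ^ 2 / 2).re) ≤ -(2 / 27 * |s|)

/-- R2L (200 lines; uses GS). Proof. `p ≠ 2`, `e = |p - 2|` small, `σ = 1` if `p > 2`, `-1` if `p < 2`, `g = z - σ z² / 2`, `1/2 ≤ |g| ≤ 3/2` on the circle (`|g| = |1 - σ z / 2|`),
`A = 100 / e`, `w = A g`, `F = 1 + w` (a polynomial, `F(0) = 1`). For `|ξ| ≤ 1/2`, `3/2 ≤ p ≤ 5/2`: `|1 + ξ|^p ≤ 1 + p Re ξ + 8 |ξ|²`; with `ξ = 1 / w`: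
`|F|^p ≤ |w|^p + p |w|^(p-2) Re w + 8 |w|^(p-2)`. `∫ |w|^(p-2) Re w = A^(p-1) ∫ |g|^(p-2) Re g ≤ - A^(p-1) (2/27) e = - (200/27) A^(p-2)` (GS), `∫ |w|^(p-2) ≤ (5/4) A^(p-2)` for small `e`.
So `∫ |F|^p ≤ ∫ |w|^p - (11 - 10) A^(p-2)` (`p (200/27) ≥ 11` for `p ≥ 3/2`), `A^(p-2) ≥ 1/2` for small `e` (`e log(100 / e) → 0`), and `∫ |F|^p ≤ (2 A)^p ≤ 8 A² A^(p-2) ≤ 16 A² = 160000 / e²`. Hence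
`∫ |F - 1|^p ≥ ∫ |F|^p + 1/2 ≥ (1 + c e²) ∫ |F|^p`, `c = 1/320000`. `p = 2`: `F = z`. -/
def Stmt_R2L : Prop :=
  ∃ c η : ℝ, 0 < c ∧ 0 < η ∧ ∀ (T : ℝ) [Fact (0 < T)] (p : ℝ), |p - 2| ≤ η → LoI T p (1 + c * (p - 2) ^ 2)

/-! ## `p → 1` -/

/-- SQ (80 lines; uses LNK SMI LPS). Proof. SMI for `VS δ`, `δ → 0`. -/
def Stmt_SQ : Prop :=
  ∀ (T : ℝ) [Fact (0 < T)] (P : ℂ[X]), P.eval 0 = 1 → 1 ≤ cI T (fun z => √((‖P.eval z‖ + (P.eval z).re) / 2))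

/-- R1U (200 lines; uses SQ). Proof. `K = 2 / √3`. (1) `|w - 1| ≤ K |w| - K (√((|w| + Re w) / 2) - 1)`: let `s² = w`, `Re s ≥ 0`, so `Re s = √((|w| + Re w) / 2)`, `|w - 1| = |s - 1| |s + 1| ≤
(√3 |s - 1|² + |s + 1|² / √3) / 2 = K (|s|² + 1) - K Re s`. (2) For every `ε > 0` there is `η > 0` such that for `1 < p < 1 + η`, all `w`: `|w - 1|^p ≤ (K + ε) |w|^p -
K (√((|w| + Re w) / 2) - 1) + ε`: for `|w| ≤ M` by (1) and `|x^p - x| ≤ ε / 4` for `0 ≤ x ≤ M + 1`, `p` near `1`; for `|w| ≥ M` (`M` large) `|w - 1|^p ≤ (1 + 1/M)^2 |w|^p` and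
`K √|w| ≤ (K - (1 + 1/M)^2) |w|`. (3) Put `w = P(z)`, integrate, SQ, `∫ |P|^p ≥ 1`. -/
def Stmt_R1U : Prop :=
  ∀ ε : ℝ, 0 < ε → ∃ η : ℝ, 0 < η ∧ ∀ (T : ℝ) [Fact (0 < T)] (p : ℝ), 1 < p → p < 1 + η → UpI T p (2 / √3 + ε)

/-- R1L (120 lines). Proof. `φ` from `exists_moebius` with `a = 1/√3`, `s = 2 - √3 φ`, `F = s²`: mean of `s` is `1`, mean of `F` is `1` (`mean_mul`). `|s - 2|² = 3` gives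
`|F| = |s|² = 4 Re s - 1`, `|F - 1|² = |s - 1|² |s + 1|² = (2 Re s) (6 Re s)`, `|F - 1| = 2 √3 Re s`. So `∫ |F| = 3`, `∫ |F - 1| = 2 √3`. `∫ |F - 1|^p ≥ (2 √3)^p` (Jensen, or
`x^p ≥ c^p + p c^(p-1) (x - c)`), `∫ |F|^p ≤ 14^(p-1) ∫ |F| = 3 * 14^(p-1)` (`|F| ≤ (2 + √3)² ≤ 14`), and `(2 √3)^p / (3 * 14^(p-1)) → 2 / √3`. -/
def Stmt_R1L : Prop :=
  ∀ ε : ℝ, 0 < ε → ∃ η : ℝ, 0 < η ∧ ∀ (T : ℝ) [Fact (0 < T)] (p : ℝ), 1 < p → p < 1 + η → LoI T p (2 / √3 - ε)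

/-! ## The constant `M*` -/

/-- AUP (80 lines). Proof. `Mstar_hardy`, `norm_bshift_le` with `β = Λ^(1/p)`, `BoundsH.of_pl`: let `c = P(0)`; if `c = 0` use `Λ ≥ 1`, otherwise apply `UpI` to `C c⁻¹ * P` and
multiply by `|c|^p` (`norm_pl_rpow`; `P - c` is `pl T p P - c • one'`, see `four_upper`). -/
def Stmt_AUP : Prop :=
  ∀ (T : ℝ) [Fact (0 < T)] (p : ℝ≥0∞) [Fact (1 ≤ p)] (Λ : ℝ), 1 < p → p ≠ ⊤ → 1 ≤ Λ → UpI T p.toReal Λ →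
    Mstar (hardy T p) ^ p.toReal ≤ Λ

/-- ALO (60 lines). Proof. `(boundsH_bshift (T := T) (p := p)).disc` for `F`, `norm_tl_rpow` (see `four_lower`); if `Λ ≤ 0` the claim is clear. -/
def Stmt_ALO : Prop :=
  ∀ (T : ℝ) [Fact (0 < T)] (p : ℝ≥0∞) [Fact (1 ≤ p)] (Λ : ℝ), 1 < p → p ≠ ⊤ → LoI T p.toReal Λ →
    Λ ≤ Mstar (hardy T p) ^ p.toReal

/-- FN1 (80 lines; uses R1U R1L AUP ALO). Proof. `M^p → 2/√3 > 1` and `p → 1`: `M ≤ M^p` once `M ≥ 1` (as `M^p ≥ 1`), and `M = (M^p)^(1/p)`. -/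
def Stmt_FN1 : Prop :=
  ∀ (T : ℝ) [Fact (0 < T)] (ε : ℝ), 0 < ε → ∃ η : ℝ, 0 < η ∧ ∀ (p : ℝ≥0∞) [Fact (1 ≤ p)], 1 < p → p ≠ ⊤ → p.toReal < 1 + η →
    |Mstar (hardy T p) - 2 / √3| < ε

/-- FN2 (100 lines; uses R2U R2L AUP ALO). Proof. `M^p ≤ 1 + K (p-2)²` and `p ≥ 1` give `M ≤ 1 + K (p-2)²` (`K ≥ 0`); `M^p ≥ 1 + c (p-2)²`, `M ≥ 1`, `p ≤ 3`: `M^3 ≥ 1 + c (p-2)²`, so
`M ≥ 1 + (c / 7) (p-2)²` for small `c (p-2)² ≤ 1` (`(1 + t)^3 ≤ 1 + 7 t` for `t ≤ 1`). -/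
def Stmt_FN2 : Prop :=
  ∃ c K η : ℝ, 0 < c ∧ 0 < η ∧ ∀ (T : ℝ) [Fact (0 < T)] (p : ℝ≥0∞) [Fact (1 ≤ p)], p ≠ ⊤ → |p.toReal - 2| ≤ η →
    c * (p.toReal - 2) ^ 2 ≤ Mstar (hardy T p) - 1 ∧ Mstar (hardy T p) - 1 ≤ K * (p.toReal - 2) ^ 2

/-- FN3 (150 lines; uses R3U R3L AUP ALO). Proof. `M^p = c 2^p p^(-3/4)`, `c → c0`. `M = 2 e^(-x)`, `x = ((3/4) L - log c) / p → 0`, and `p (2 - M) = 2 p (1 - e^(-x)) = 2 p x + O(p x²) =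
(3/2) L - 2 log c + O(L² / p)`; `- 2 log c0 = log(8 e √π)`. (`Λ = (c0 + ε) 2^p p^(-3/4) ≥ 1` for large `p`.) -/
def Stmt_FN3 : Prop :=
  ∀ (T : ℝ) [Fact (0 < T)] (ε : ℝ), 0 < ε → ∃ p₀ : ℝ, ∀ (p : ℝ≥0∞) [Fact (1 ≤ p)], p ≠ ⊤ → p₀ ≤ p.toReal →
    |p.toReal * (2 - Mstar (hardy T p)) - (3 / 2 * Real.log p.toReal + Real.log (8 * Real.exp 1 * √Real.pi))| < ε

end Pool.Agent.Work.MP_d7cff0_an.AS
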