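import Pool.Agent.Work.MP_d7cff0_as.Interface

/-!
# MP_d7cff0_an, THEOREM AS, second part: the exact second order constant at `p = 2`

Blocks `X..`: file `Pool/Agent/Work/MP_d7cff0_as/B_XXX.lean`, `import Pool.Agent.Work.MP_d7cff0_as.Interface2`, the same `open` lines,
`namespace Pool.Agent.Work.MP_d7cff0_an.AS`, theorem `p_XXX (h1 : Stmt_..) .. : Stmt_XXX` with exactly the blocks of the column `uses`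
as hypotheses, in this order; auxiliary lemmas with the prefix `XXX_`. Goal: `(M^*(H^p) - 1) / (p - 2)^2 → kap T / 2` as `p → 2` (both sides).

`t |log t| ≤ 1` on `[0, 1]`, `Real.log 0 = 0`, so `w ↦ Re w * log |w|` is continuous on `ℂ`. Throughout `ε = p - 2`.
-/

set_option autoImplicit false

noncomputable section

namespace Pool.Agent.Work.MP_d7cff0_an.AS

open MeasureTheory AddCircle Filter Topology Finset Polynomial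
open scoped ENNReal

/-- the mean of `Re g * log |g|` over the unit circle -/
def JJ (T : ℝ) [Fact (0 < T)] (g : ℂ[X]) : ℝ := cI T (fun z => (g.eval z).re * Real.log ‖g.eval z‖)

/-- the mean of `|g|^2` over the unit circle -/
def NN (T : ℝ) [Fact (0 < T)] (g : ℂ[X]) : ℝ := cI T (fun z => ‖g.eval z‖ ^ 2)

/-- the supremum of `(mean of Re g * log |g|)^2 / (mean of |g|^2)` over all polynomials `g ≠ 0` with `g(0) = 0` -/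
def kap (T : ℝ) [Fact (0 < T)] : ℝ :=
  sSup {x : ℝ | ∃ g : ℂ[X], g ≠ 0 ∧ g.eval 0 = 0 ∧ x = JJ T g ^ 2 / NN T g}

/-- XPN (200 lines): near region, two sided. Proof. `a = |1 + w|`, `b = |w|`, `|a - b| ≤ 1`, `a² - b² = 1 + 2 Re w`. `t^(2+ε) = t² + ε t² log t + R(t)`,
`R(t) = t² (t^ε - 1 - ε log t)`, `|R'(t)| ≤ t e^(|ε log t|) ε² (log² t + |log t|)` for `t > 0` (`|e^x - 1 - x| ≤ x² e^|x| / 2`, `|e^x - 1| ≤ |x| e^|x|`). For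
`0 < t ≤ M / |ε| + 1` this is at most `C_M |ε| (1 + log² |ε|) → 0` (`t ≤ 1`: `t^(3/4) log² t ≤ 1`). So `|R(a) - R(b)| → 0`. First order term, `b ≥ 2`:
`a² log a - b² log b = (1 + 2 Re w) log b + (b² / 2) (1 + y) log(1 + y)`, `y = (1 + 2 Re w) / b²`, `0 ≤ (1 + y) log(1 + y) - y ≤ y²` (`log(1 + y) ≤ y`,
`log(1 + y) ≥ y / (1 + y)`), `b² y² ≤ (1 + 2 b)² / b² ≤ 7`; so it is `2 Re w log b + Re w + O(1 + log b)`, and `|ε| (1 + log(M / |ε|)) → 0`. `b ≤ 2`: all terms are bounded,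
times `ε`. -/
def Stmt_XPN : Prop :=
  ∀ M δ : ℝ, 0 < M → 0 < δ → ∃ ε₀ : ℝ, 0 < ε₀ ∧ ε₀ ≤ 1 / 4 ∧ ∀ ε : ℝ, 0 < |ε| → |ε| ≤ ε₀ → ∀ w : ℂ, ‖w‖ ≤ M / |ε| →
    |‖1 + w‖ ^ (2 + ε) - ‖w‖ ^ (2 + ε) - (1 + (2 + ε) * w.re + 2 * ε * (w.re * Real.log ‖w‖))| ≤ δ

/-- XPF (120 lines): far region, lower bound. Proof. `b = |w| ≥ M / |ε| ≥ 4 M`, `L = log b`. Convexity: `|1 + w| ≥ b + Re w / b ≥ 0`, so `|1 + w|^p ≥ b^p + p b^(p-2) Re w`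
(Bernoulli). `|(2 + ε) (b^ε - 1) - 2 ε L| ≤ ε² (L² + L) max(1, b^ε)` (`|e^x - 1 - x| ≤ x² max(1, e^x) / 2`, `|e^x - 1| ≤ |x| max(1, e^x)`). So it is enough that
`1 + b ε² (L² + L) max(1, b^ε) ≤ δ ε² b^(2+ε)`: (i) `L² + L ≤ (δ / 2) b^(3/4)` for `b ≥ 4 M`, `M` large; (ii) `ε² b^(2+ε) ≥ ε² (M / |ε|)^(2+ε) = M^(2+ε) |ε|^(-ε) ≥ M / 2
≥ 2 / δ` (`|ε|^|ε| ≥ 1/2`). -/
def Stmt_XPF : Prop :=
  ∀ δ : ℝ, 0 < δ → ∃ M ε₀ : ℝ, 0 < M ∧ 0 < ε₀ ∧ ε₀ ≤ 1 / 4 ∧ ∀ ε : ℝ, 0 < |ε| → |ε| ≤ ε₀ → ∀ w : ℂ, M / |ε| ≤ ‖w‖ →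
    1 + (2 + ε) * w.re + 2 * ε * (w.re * Real.log ‖w‖) - δ * ε ^ 2 * ‖w‖ ^ (2 + ε) ≤ ‖1 + w‖ ^ (2 + ε) - ‖w‖ ^ (2 + ε)

/-- XKB (120 lines): basic facts. Proof. (1) `∫ Re g = 0` (`mean_pc`), `log |c g| = log |c| + log |g|`. (2) `t |log t| ≤ 1 + t²`, so `|JJ g| ≤ 1 + NN g`; apply this to
`c g`, `c = NN g ^ (-1/2)`: `|JJ g| ≤ 2 NN g ^ (1/2)` (`NN g > 0` for `g ≠ 0`: a continuous function vanishing on the circle; a nonzero polynomial has finitely many roots).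
(3) the set in `kap` is bounded above by `4` and nonempty (`X`). -/
def Stmt_XKB : Prop :=
  ∀ (T : ℝ) [Fact (0 < T)], (∀ (g : ℂ[X]) (c : ℝ), g.eval 0 = 0 → JJ T (C (c : ℂ) * g) = c * JJ T g) ∧ (∀ g : ℂ[X], g ≠ 0 → 0 < NN T g) ∧
    (∀ g : ℂ[X], g.eval 0 = 0 → JJ T g ^ 2 ≤ kap T * NN T g) ∧ 0 ≤ kap T ∧ kap T ≤ 4 ∧
    (∀ δ : ℝ, 0 < δ → ∃ g : ℂ[X], g ≠ 0 ∧ g.eval 0 = 0 ∧ kap T - δ ≤ JJ T g ^ 2 / NN T g)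

/-- XTP (120 lines): approximation by real parts of polynomials, and the conjugate function in `L²`. Proof. (1) `span_fourier_closure_eq_top`: some
`∑ c_n fourier n` is `δ`-close to `u`; the real part of `c_n fourier n`, `n < 0`, is that of `(conj c_n) fourier (-n)`; drop `i Im c_0`. (2) `∫ q² = q(0)²` (`mean_pc`), real parts. -/
def Stmt_XTP : Prop :=
  ∀ (T : ℝ) [Fact (0 < T)], (∀ (u : C(AddCircle T, ℝ)) (δ : ℝ), 0 < δ → ∃ q : ℂ[X], (q.eval 0).im = 0 ∧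
      ∀ t : AddCircle T, |(q.eval (fourier (T := T) 1 t)).re - u t| ≤ δ) ∧
    (∀ q : ℂ[X], (q.eval 0).im = 0 → cI T (fun z => (q.eval z).im ^ 2) ≤ cI T (fun z => (q.eval z).re ^ 2))

/-- XTR (250 lines; uses XTP): truncation by an outer function. Proof. `u = log max(1, |g| / M)`, `0 < δ₁ ≤ 1` small, `q` from XTP with `|Re q - u| ≤ δ₁`, `a = Re q`, `b = Im q`, `O = e^(-q)`,
`G₀ = g O`. On the circle `|O| = e^(-a) ≤ e^δ₁ e^(-u) ≤ 3`, `|G₀| ≤ e^δ₁ min(|g|, M)`, so `∫ |G₀|² ≤ e^(2 δ₁) M^(2-p) ∫ |g|^p ≤ e^(2 δ₁) M^(2-p)`. `|O - 1| ≤ |e^(-a) - 1| + e^(-a) |e^(-ib) - 1|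
≤ 3 (|a| + |b|)`, `|O - 1| ≤ 4`; `∫ b² ≤ ∫ a² ≤ 2 ∫ u² + 2 δ₁²`, `∫ u² ≤ ∫ (|g| / M)^p ≤ 1 / M` (`log² t ≤ t ≤ t^p`, `t ≥ 1`); so `∫ |O - 1|² ≤ 18 (∫ a² + ∫ b²) ≤ 72 (1 / M + δ₁²) = D`.
`|Re G₀ log|G₀| - Re g log|g|| ≤ |g| |O - 1| (|log|g|| + |a|) + |g| |a| ≤ |O - 1| (2 + 9 |g|^(5/4)) + (4 M^(-1/4) + δ₁) (1 + |g|^(5/4))` (`log|G₀| = log|g| - a`; `t |log t| ≤ 1 + 4 t^(5/4)`;
`u ≤ 4 (|g| / M)^(1/4)`). `∫ |g|^(5/4), ∫ |g|^(3/2) ≤ 1 + ∫ |g|^p ≤ 2`, `∫ |O - 1| ≤ D^(1/2)`, and Young `x y ≤ s^(-5) x^6 + s y^(6/5)` with `s = D^(1/6)`, `x = |O - 1|`, `y = |g|^(5/4)`: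
`∫ |O - 1| |g|^(5/4) ≤ s^(-5) 4^4 D + 2 s = 258 D^(1/6)`. Total at most `10000 M^(-1/8)` plus a term that tends to `0` with `δ₁` (generous constants). Finally replace `e^(-q)` by a partial sum
of the exponential series: uniform convergence on the circle, and `w ↦ Re w log|w|`, `w ↦ |w|²` are continuous. -/
def Stmt_XTR : Prop :=
  ∀ (T : ℝ) [Fact (0 < T)] (p M δ : ℝ) (g : ℂ[X]), 3 / 2 ≤ p → p ≤ 2 → 1 ≤ M → 0 < δ → g.eval 0 = 0 →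
    cI T (fun z => ‖g.eval z‖ ^ p) ≤ 1 →
    ∃ G : ℂ[X], G.eval 0 = 0 ∧ NN T G ≤ M ^ (2 - p) + δ ∧ |JJ T G - JJ T g| ≤ 10000 * M ^ (-(1 / 8) : ℝ) + δ

/-- XLM (120 lines; uses XKB XTR). Proof. `p ≥ 2`: `|JJ g| ≤ √kap ‖g‖_2 ≤ √kap ‖g‖_p` (Jensen on a probability space). `p < 2`: by homogeneity (XKB (1)) `∫ |g|^p = 1`; XTR with `M` large, then
`p` near `2`: `|JJ g| ≤ √kap (M^(2-p) + δ')^(1/2) + 10000 M^(-1/8) + δ'`, `kap ≤ 4`. -/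
def Stmt_XLM : Prop :=
  ∀ δ : ℝ, 0 < δ → ∃ η : ℝ, 0 < η ∧ η ≤ 1 / 4 ∧ ∀ (T : ℝ) [Fact (0 < T)] (p : ℝ), |p - 2| ≤ η → ∀ g : ℂ[X], g.eval 0 = 0 →
    |JJ T g| ≤ (√(kap T) + δ) * (cI T (fun z => ‖g.eval z‖ ^ p)) ^ (1 / p)

/-- XKU (200 lines; uses XPN XPF XKB XLM): upper bound. Proof. `P = 1 + w`, `w(0) = 0`, `E = ∫ |w|^p`, `F = ∫ |P|^p`, `k = kap T ∈ [0, 4]`. XPN (with the `M` of XPF) and XPF, integrated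
(`∫ Re w = 0`): `F - E ≥ 1 - δ₁ + 2 ε JJ w - δ₁ ε² E`. Let `s = |ε| E^(1/p)`, so `ε² E = s^(2+ε) |ε|^(-ε)`; XLM: `2 |ε| |JJ w| ≤ 2 K₁ s`, `K₁ = √k + δ₂`. CLAIM `2 K₁ s ≤ 1 - δ₁ + (k + δ₃ - δ₁) s^(2+ε) |ε|^(-ε)`
for small `ε`: clear for `2 K₁ s ≤ 1 - δ₁`; for `s ≥ S₀` (`S₀^(3/4) ≥ 4 K₁ / (k + δ₃ - δ₁)`, `|ε|^(-ε) ≥ 1/2`); for the other `s` (`1/12 ≤ s ≤ S₀`) `s^ε |ε|^(-ε) ≥ 1 - δ₄`, and
`2 K₁ s ≤ 1 - δ₁ + K₁² s² / (1 - δ₁)`, `K₁² ≤ k + 5 δ₂`, so it holds if `(k + 5 δ₂) / (1 - δ₁) ≤ (k + δ₃ - δ₁) (1 - δ₄)`. So `F ≥ (1 - (k + δ₃) ε²) E`, and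
`1 / (1 - (k + δ₃) ε²) ≤ 1 + (k + 2 δ₃) ε²`. (`E = 0`: clear.) -/
def Stmt_XKU : Prop :=
  ∀ δ : ℝ, 0 < δ → ∃ η : ℝ, 0 < η ∧ ∀ (T : ℝ) [Fact (0 < T)] (p : ℝ), 0 < |p - 2| → |p - 2| ≤ η → UpI T p (1 + (kap T + δ) * (p - 2) ^ 2)

/-- XKL (200 lines; uses XPN XKB): lower bound. Proof. If `kap T ≤ δ`: `F = z` (`∫ |F|^p = 1`, mean `0`). Otherwise `g` with `J² / N ≥ kap T - δ / 2 > 0`, `J = JJ g ≠ 0`, `N = NN g`,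
`A = -1 / (ε J)`, `w = A g`, `F = 1 + w` (a polynomial, mean `1`), `|w| ≤ M / |ε|`, `M = sup|g| / |J|`. XPN, integrated: `∫ |F|^p ≤ ∫ |w|^p + 1 + 2 ε JJ w + δ₁ = ∫ |w|^p - 1 + δ₁` (XKB (1):
`JJ w = A J`). `∫ |w|^p = ε^(-2) J^(-2) (|ε| |J|)^(-ε) ∫ |g|^p`, and `(|ε| |J|)^(-ε) → 1`, `∫ |g|^p → N` (`|g|` is bounded). So `∫ |w|^p ≥ ∫ |F|^p (1 + (1 - δ₁) / ∫ |w|^p)
≥ ∫ |F|^p (1 + (1 - δ₂) ε² J² / N)`. (`∫ |F|^p > 0`: the mean of `F` is `1`.) -/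
def Stmt_XKL : Prop :=
  ∀ (T : ℝ) [Fact (0 < T)] (δ : ℝ), 0 < δ → ∃ η : ℝ, 0 < η ∧ ∀ p : ℝ, 0 < |p - 2| → |p - 2| ≤ η → LoI T p (1 + (kap T - δ) * (p - 2) ^ 2)

/-- XFK (120 lines; uses XKU XKL AUP ALO). Proof. `1 + (k - δ₁) ε² ≤ M^p ≤ 1 + (k + δ₁) ε²`; `M ≤ (1 + x)^(1/p) ≤ 1 + x / p`; for `x ≥ 0`: `(1 + x)^(1/p) ≥ 1 + x / p - x²`; if `k ≤ δ₁` use
`M ≥ 1` (XKL with a larger `δ`, or `LoI T p 1` with `F = z`). -/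
def Stmt_XFK : Prop :=
  ∀ (T : ℝ) [Fact (0 < T)] (δ : ℝ), 0 < δ → ∃ η : ℝ, 0 < η ∧ ∀ (p : ℝ≥0∞) [Fact (1 ≤ p)], p ≠ ⊤ → 0 < |p.toReal - 2| → |p.toReal - 2| ≤ η →
    |(Mstar (hardy T p) - 1) / (p.toReal - 2) ^ 2 - kap T / 2| ≤ δ

end Pool.Agent.Work.MP_d7cff0_an.AS
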